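import Pool.Agent.Lib.MP_daa227_pr_HZ.Basic
import Pool.Agent.Lib.MP_daa227_pr_OT.KConv
import Pool.Agent.Lib.MP_daa227_pr.HcPos

/-!
# The half line: staying above `R` for a long time against an excursion of the same length
-/

namespace Pool.Agent.HZ

open MeasureTheory ProbabilityTheory Set Filter
open scoped ENNReal Topology
open MP_daa227_pr (Chain Zk Zf Gk Gf KU K0 ushift shift seqLaw ExpMom Good GoodW mom)

noncomputable section

namespace HalfLine

theorem sum_rest (C : Chain) (x : ℤ) :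
    C.p x 0 + ∑ z ∈ Finset.Icc (x - 1) (x + 1) \ {0}, C.p x z = 1 := by
  by_cases h : (0 : ℤ) ∈ Finset.Icc (x - 1) (x + 1)
  · rw [← C.sum_one x, ← Finset.sum_sdiff (Finset.singleton_subset_iff.2 h), Finset.sum_singleton,
      add_comm]
  · rw [C.near x 0 h, zero_add, Finset.sdiff_singleton_eq_erase, Finset.erase_eq_of_notMem h,
      C.sum_one]

theorem Gf_K0 (C : Chain) (m : ℕ) : ∀ (x : ℤ) (ω : ℕ → ℝ),
    Gf C (fun _ _ => 1) {0} m ω x + ∑ n ∈ Finset.range (m + 1), K0 C n x = 1 := by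
  induction m with
  | zero =>
    intro x ω
    rw [Gf, zero_add, Finset.sum_range_one, K0, add_zero]
  | succ m ih =>
    intro x ω
    rw [Gf, Finset.sum_range_succ' _ (m + 1)]
    have h1 : ∀ n ∈ Finset.range (m + 1), K0 C (n + 1) x = (if n = 0 then C.p x 0 else 0) +
        ∑ z ∈ Finset.Icc (x - 1) (x + 1) \ {0}, C.p x z * K0 C n z := fun n _ => by rw [K0]
    rw [Finset.sum_congr rfl h1, Finset.sum_add_distrib, Finset.sum_ite_eq' (Finset.range (m + 1)) 0,
      if_pos (Finset.mem_range.2 (Nat.succ_pos m)), Finset.sum_comm]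
    have h2 : K0 C 0 x = 0 := rfl
    rw [h2, add_zero, ← add_assoc, add_comm _ (C.p x 0), add_assoc, ← Finset.sum_add_distrib]
    refine Eq.trans ?_ (sum_rest C x)
    congr 1
    refine Finset.sum_congr rfl fun z _ => ?_
    rw [mul_one, ← Finset.mul_sum, ← mul_add, ih, mul_one]

theorem Gf_nonneg (C : Chain) (B : Finset ℤ) (m : ℕ) : ∀ (x : ℤ) (ω : ℕ → ℝ),
    0 ≤ Gf C (fun _ _ => 1) B m ω x := by
  induction m with
  | zero =>
    intro x ω
    rw [Gf]
    exact zero_le_one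
  | succ m ih =>
    intro x ω
    rw [Gf]
    refine Finset.sum_nonneg fun z _ => ?_
    rw [mul_one]
    exact mul_nonneg (C.nonneg _ _) (ih _ _)

theorem Gf_anti (C : Chain) {B B' : Finset ℤ} (h : B ⊆ B') (m : ℕ) : ∀ (x : ℤ) (ω : ℕ → ℝ),
    Gf C (fun _ _ => 1) B' m ω x ≤ Gf C (fun _ _ => 1) B m ω x := by
  induction m with
  | zero =>
    intro x ω
    rw [Gf, Gf]
  | succ m ih =>
    intro x ω
    rw [Gf, Gf]
    calc ∑ z ∈ Finset.Icc (x - 1) (x + 1) \ B', C.p x z * 1 * Gf C (fun _ _ => 1) B' m (shift 1 ω) z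
        ≤ ∑ z ∈ Finset.Icc (x - 1) (x + 1) \ B', C.p x z * 1 *
            Gf C (fun _ _ => 1) B m (shift 1 ω) z := by
          refine Finset.sum_le_sum fun z _ => ?_
          exact mul_le_mul_of_nonneg_left (ih _ _) (by rw [mul_one]; exact C.nonneg _ _)
      _ ≤ _ := by
          refine Finset.sum_le_sum_of_subset_of_nonneg ?_ fun z _ _ => ?_
          · intro z hz
            rw [Finset.mem_sdiff] at hz ⊢
            exact ⟨hz.1, fun h' => hz.2 (h h')⟩
          · rw [mul_one]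
            exact mul_nonneg (C.nonneg _ _) (Gf_nonneg C B m _ _)

theorem Gf_tr (C : Chain) (R : ℕ) (m : ℕ) : ∀ (x : ℤ) (ω : ℕ → ℝ), 1 ≤ x →
    Gf C (fun _ _ => 1) (Finset.Icc (-(R : ℤ)) R) m ω (x + R) =
      Gf (ctr C R) (fun _ _ => 1) {0} m ω x := by
  induction m with
  | zero =>
    intro x ω _
    rw [Gf, Gf]
  | succ m ih =>
    intro x ω hx
    rw [Gf, Gf]
    refine Finset.sum_bij' (fun y _ => y - R) (fun y _ => y + R) ?_ ?_ ?_ ?_ ?_
    · intro y hy
      rw [Finset.mem_sdiff, Finset.mem_Icc, Finset.mem_Icc] at hy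
      rw [Finset.mem_sdiff, Finset.mem_Icc, Finset.mem_singleton]
      omega
    · intro y hy
      rw [Finset.mem_sdiff, Finset.mem_Icc, Finset.mem_singleton] at hy
      rw [Finset.mem_sdiff, Finset.mem_Icc, Finset.mem_Icc]
      omega
    · intro y _
      ring
    · intro y _
      ring
    · intro y hy
      rw [Finset.mem_sdiff, Finset.mem_Icc, Finset.mem_Icc] at hy
      have h1 : (ctr C R).p x (y - R) = C.p (x + R) y := by
        change C.p (x + R) (y - R + R) = _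
        rw [sub_add_cancel]
      rw [h1, ← ih (y - R) (shift 1 ω) (by omega), sub_add_cancel]

/-- recurrence: the interval `[-R, R]` is reached from `R + 1` -/
theorem tend (C : Chain)
    (hrec : HasSum (fun n : ℕ => K0 C (n + 1) 0) 1) (R : ℕ) :
    Tendsto (fun m : ℕ => Gf C (fun _ _ => 1) (Finset.Icc (-(R : ℤ)) R) m (fun _ => 0) (R + 1))
      atTop (𝓝 0) := by
  induction R with
  | zero =>
    have h0 : Finset.Icc (-((0 : ℕ) : ℤ)) (0 : ℕ) = {0} := by simp
    rw [h0]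
    have h1 : Tendsto (fun m : ℕ => Gf C (fun _ _ => 1) {0} (m + 1) (fun _ => 0) 0) atTop (𝓝 0) := by
      have h2 : Tendsto (fun m : ℕ => 1 - ∑ n ∈ Finset.range (m + 1), K0 C (n + 1) 0) atTop
          (𝓝 (1 - 1)) :=
        tendsto_const_nhds.sub (hrec.tendsto_sum_nat.comp (tendsto_add_atTop_nat 1))
      rw [sub_self] at h2
      refine h2.congr fun m => ?_
      have h3 := Gf_K0 C (m + 1) 0 (fun _ => 0)
      rw [Finset.sum_range_succ' _ (m + 1)] at h3
      have h4 : K0 C 0 0 = 0 := rfl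
      rw [h4, add_zero] at h3
      linarith
    have hp : 0 < C.p 0 1 := by
      have h := C.up 0
      rwa [zero_add] at h
    have h5 : ∀ m : ℕ, Gf C (fun _ _ => 1) {0} m (fun _ => 0) (((0 : ℕ) : ℤ) + 1) ≤
        (C.p 0 1)⁻¹ * Gf C (fun _ _ => 1) {0} (m + 1) (fun _ => 0) 0 := by
      intro m
      have h6 : C.p 0 1 * Gf C (fun _ _ => 1) {0} m (fun _ => 0) 1 ≤
          Gf C (fun _ _ => 1) {0} (m + 1) (fun _ => 0) 0 := by
        conv_rhs => rw [Gf]
        have h7 : (1 : ℤ) ∈ Finset.Icc ((0 : ℤ) - 1) (0 + 1) \ {0} := by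
          rw [Finset.mem_sdiff, Finset.mem_Icc, Finset.mem_singleton]; omega
        have h8 := Finset.single_le_sum (f := fun z => C.p 0 z * 1 *
          Gf C (fun _ _ => 1) {0} m (shift 1 (fun _ => 0)) z) (fun z _ => by
            rw [mul_one]; exact mul_nonneg (C.nonneg _ _) (Gf_nonneg C _ m _ _)) h7
        have h9 : shift 1 (fun _ : ℕ => (0 : ℝ)) = fun _ => 0 := rfl
        simp only [mul_one] at h8 ⊢
        exact h8
      rw [le_inv_mul_iff₀ hp]
      simpa using h6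
    have h10 : Tendsto (fun m : ℕ => (C.p 0 1)⁻¹ *
        Gf C (fun _ _ => 1) {0} (m + 1) (fun _ => 0) 0) atTop (𝓝 0) := by
      have := h1.const_mul (C.p 0 1)⁻¹
      rwa [mul_zero] at this
    exact squeeze_zero (fun m => Gf_nonneg C _ m _ _) h5 h10
  | succ R ih =>
    have hp : 0 < C.p ((R : ℤ) + 1) (R + 1 + 1) := C.up _
    have h5 : ∀ m : ℕ, Gf C (fun _ _ => 1) (Finset.Icc (-((R + 1 : ℕ) : ℤ)) ((R + 1 : ℕ) : ℤ)) m
        (fun _ => 0) (((R + 1 : ℕ) : ℤ) + 1) ≤ (C.p ((R : ℤ) + 1) (R + 1 + 1))⁻¹ *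
        Gf C (fun _ _ => 1) (Finset.Icc (-(R : ℤ)) R) (m + 1) (fun _ => 0) (R + 1) := by
      intro m
      have h6 : C.p ((R : ℤ) + 1) (R + 1 + 1) *
          Gf C (fun _ _ => 1) (Finset.Icc (-(R : ℤ)) R) m (fun _ => 0) (R + 1 + 1) ≤
          Gf C (fun _ _ => 1) (Finset.Icc (-(R : ℤ)) R) (m + 1) (fun _ => 0) (R + 1) := by
        conv_rhs => rw [Gf]
        have h7 : ((R : ℤ) + 1 + 1) ∈ Finset.Icc ((R : ℤ) + 1 - 1) (R + 1 + 1) \
            Finset.Icc (-(R : ℤ)) R := by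
          rw [Finset.mem_sdiff, Finset.mem_Icc, Finset.mem_Icc]; omega
        have h8 := Finset.single_le_sum (f := fun z => C.p ((R : ℤ) + 1) z * 1 *
          Gf C (fun _ _ => 1) (Finset.Icc (-(R : ℤ)) R) m (shift 1 (fun _ => 0)) z) (fun z _ => by
            rw [mul_one]; exact mul_nonneg (C.nonneg _ _) (Gf_nonneg C _ m _ _)) h7
        simp only [mul_one] at h8 ⊢
        exact h8
      rw [le_inv_mul_iff₀ hp]
      refine le_trans (mul_le_mul_of_nonneg_left ?_ hp.le) h6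
      have h9 : (((R + 1 : ℕ) : ℤ) + 1) = (R : ℤ) + 1 + 1 := by push_cast; ring
      rw [h9]
      refine Gf_anti C ?_ m _ _
      intro z hz
      rw [Finset.mem_Icc] at hz ⊢
      push_cast
      omega
    have h10 : Tendsto (fun m : ℕ => (C.p ((R : ℤ) + 1) (R + 1 + 1))⁻¹ *
        Gf C (fun _ _ => 1) (Finset.Icc (-(R : ℤ)) R) (m + 1) (fun _ => 0) (R + 1)) atTop (𝓝 0) := by
      have := (ih.comp (tendsto_add_atTop_nat 1)).const_mul (C.p ((R : ℤ) + 1) (R + 1 + 1))⁻¹
      rwa [mul_zero] at this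
    exact squeeze_zero (fun m => Gf_nonneg C _ m _ _) h5 h10

/-- the analytic step -/
theorem analytic {q f : ℕ → ℝ} (hq1 : ∀ m, q m ≤ 1) (hqa : ∀ m, q (m + 1) ≤ q m)
    (hf : ∀ k, 0 < f k) (hfa : ∀ k, f (k + 1) ≤ f k)
    (hc : ∀ k, f (k + 1) ^ 2 ≤ f k * f (k + 2))
    (hqf : ∀ k, q (2 * k) - q (2 * (k + 1)) ≤ 2 * f k)
    (hpar : ∀ k, q (2 * k + 1) ≤ q (2 * (k + 1)) + f k)
    (hlim : Tendsto q atTop (𝓝 0)) {ε : ℝ} (hε : 0 < ε) :
    ∃ K : ℝ, 0 < K ∧ ∀ m k : ℕ, m ≤ 2 * k + 1 → 2 * k + 1 ≤ m + 2 →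
      q m ≤ K * Real.exp (ε * m) * f k := by
  have hanti : Antitone q := antitone_nat_of_succ_le hqa
  have hfanti : Antitone f := antitone_nat_of_succ_le hfa
  -- the ratios of `f` are bounded below
  set ρ := f 0 / f 1 with hρ
  have hρ0 : 0 < ρ := div_pos (hf 0) (hf 1)
  have hrat : ∀ k, f k ≤ ρ * f (k + 1) := by
    intro k
    have h1 : f k * f 1 ≤ f 0 * f (k + 1) := by
      induction k with
      | zero => exact le_refl _
      | succ k ih =>
        have h2 := hc k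
        have h3 := hf k
        have h4 := hf (k + 1)
        have h5 := hf 0
        have h6 := hf 1
        have h7 : f k * (f (k + 1) * f 1) ≤ f k * (f 0 * f (k + 2)) := by
          calc f k * (f (k + 1) * f 1) = (f k * f 1) * f (k + 1) := by ring
            _ ≤ (f 0 * f (k + 1)) * f (k + 1) := mul_le_mul_of_nonneg_right ih h4.le
            _ = f 0 * f (k + 1) ^ 2 := by ring
            _ ≤ f 0 * (f k * f (k + 2)) := mul_le_mul_of_nonneg_left h2 h5.le
            _ = _ := by ring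
        exact le_of_mul_le_mul_left h7 h3
    rw [hρ, div_mul_eq_mul_div, le_div_iff₀ (hf 1)]
    exact h1
  -- reduce to q (2k)
  have hred : ∀ m k : ℕ, 2 * k + 1 ≤ m + 2 → q m ≤ q (2 * k) + ρ * f k := by
    intro m k h
    rcases Nat.eq_zero_or_pos k with h0 | h0
    · subst h0
      exact (hanti (Nat.zero_le _)).trans (le_add_of_nonneg_right (mul_nonneg hρ0.le (hf _).le))
    · obtain ⟨j, rfl⟩ : ∃ j, k = j + 1 := ⟨k - 1, by omega⟩
      have h1 : q m ≤ q (2 * j + 1) := hanti (by omega)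
      have h2 := hpar j
      have h3 := hrat j
      linarith
  have hexp : ∀ m k : ℕ, 2 * k + 1 ≤ m + 2 → Real.exp (ε * k) ≤ Real.exp ε * Real.exp (ε * m) := by
    intro m k h
    rw [← Real.exp_add]
    apply Real.exp_le_exp.2
    have h1 : (k : ℝ) ≤ m + 1 := by
      have : k ≤ m + 1 := by omega
      exact_mod_cast this
    nlinarith
  set s := Real.exp (-ε) with hs
  have hs0 : 0 < s := Real.exp_pos _
  have hs1 : s < 1 := by
    rw [hs]
    exact (Real.exp_lt_exp.2 (by linarith : -ε < 0)).trans_eq Real.exp_zero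
  by_cases hcase : ∀ k, f (k + 1) ≤ s * f k
  · refine ⟨2 * (1 - s)⁻¹ + ρ, add_pos (mul_pos two_pos (inv_pos.2 (by linarith))) hρ0,
      fun m k _ h => ?_⟩
    have h1 : ∀ i, (1 - s) * (q (2 * k) - q (2 * (k + i))) ≤ 2 * (f k - f (k + i)) := by
      intro i
      induction i with
      | zero => rw [add_zero, sub_self, sub_self, mul_zero, mul_zero]
      | succ i ih =>
        have h2 := hqf (k + i)
        have h3 := hcase (k + i)
        have h4 : k + (i + 1) = k + i + 1 := rfl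
        rw [h4]
        have h5 : (1 - s) * (q (2 * k) - q (2 * (k + i + 1))) =
            (1 - s) * (q (2 * k) - q (2 * (k + i))) +
              (1 - s) * (q (2 * (k + i)) - q (2 * (k + i + 1))) := by
          ring
        have h6 : (1 - s) * (q (2 * (k + i)) - q (2 * (k + i + 1))) ≤ (1 - s) * (2 * f (k + i)) :=
          mul_le_mul_of_nonneg_left h2 (by linarith)
        rw [h5]
        nlinarith
    have h6 : Tendsto (fun i : ℕ => (1 - s) * (q (2 * k) - q (2 * (k + i)))) atTop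
        (𝓝 ((1 - s) * (q (2 * k) - 0))) := by
      refine (tendsto_const_nhds.sub (hlim.comp ?_)).const_mul _
      refine tendsto_atTop_mono (f := fun i : ℕ => i) (fun i => ?_) tendsto_id
      omega
    have h7 : (1 - s) * (q (2 * k) - 0) ≤ 2 * f k :=
      le_of_tendsto h6 (Eventually.of_forall fun i => by
        have := h1 i
        have h8 := hf (k + i)
        linarith)
    rw [sub_zero] at h7
    have h8 : q (2 * k) ≤ 2 * (1 - s)⁻¹ * f k := by
      have h9 : q (2 * k) ≤ (1 - s)⁻¹ * (2 * f k) := by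
        rw [le_inv_mul_iff₀ (by linarith)]
        exact h7
      linarith [h9, (by ring : (1 - s)⁻¹ * (2 * f k) = 2 * (1 - s)⁻¹ * f k)]
    have h9 : 1 ≤ Real.exp (ε * m) := Real.one_le_exp (by positivity)
    have h10 : 0 < (1 - s)⁻¹ := inv_pos.2 (by linarith)
    calc q m ≤ q (2 * k) + ρ * f k := hred m k h
      _ ≤ 2 * (1 - s)⁻¹ * f k + ρ * f k := add_le_add_left h8 _
      _ = (2 * (1 - s)⁻¹ + ρ) * 1 * f k := by ring
      _ ≤ (2 * (1 - s)⁻¹ + ρ) * Real.exp (ε * m) * f k := by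
          apply mul_le_mul_of_nonneg_right _ (hf k).le
          exact mul_le_mul_of_nonneg_left h9 (by positivity)
  · push Not at hcase
    obtain ⟨k0, hk0⟩ := hcase
    -- from k0 on the ratio is at least s
    have h1 : ∀ i, s * f (k0 + i) ≤ f (k0 + i + 1) := by
      intro i
      induction i with
      | zero => exact hk0.le
      | succ i ih =>
        have h2 := hc (k0 + i)
        have h3 := hf (k0 + i)
        have h4 := hf (k0 + i + 1)
        have h5 : f (k0 + i) * (s * f (k0 + (i + 1))) ≤ f (k0 + i) * f (k0 + (i + 1) + 1) := by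
          have h6 : k0 + (i + 1) = k0 + i + 1 := rfl
          rw [h6]
          have h7 : f (k0 + i) * (s * f (k0 + i + 1)) ≤ f (k0 + i + 1) * f (k0 + i + 1) := by
            nlinarith
          have h8 : k0 + i + 1 + 1 = k0 + i + 2 := rfl
          rw [h8]
          nlinarith
        exact le_of_mul_le_mul_left h5 h3
    have h2 : ∀ i, s ^ i * f k0 ≤ f (k0 + i) := by
      intro i
      induction i with
      | zero => rw [pow_zero, one_mul, add_zero]
      | succ i ih =>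
        have h3 := h1 i
        calc s ^ (i + 1) * f k0 = s * (s ^ i * f k0) := by ring
          _ ≤ s * f (k0 + i) := mul_le_mul_of_nonneg_left ih hs0.le
          _ ≤ _ := h3
    have h3 : ∀ k, s ^ k * f k0 ≤ f k := by
      intro k
      rcases le_total k k0 with h | h
      · calc s ^ k * f k0 ≤ 1 * f k0 :=
            mul_le_mul_of_nonneg_right (pow_le_one₀ hs0.le hs1.le) (hf k0).le
          _ = f k0 := one_mul _
          _ ≤ f k := hfanti h
      · obtain ⟨i, rfl⟩ := Nat.exists_eq_add_of_le h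
        calc s ^ (k0 + i) * f k0 = s ^ k0 * (s ^ i * f k0) := by ring
          _ ≤ 1 * (s ^ i * f k0) := mul_le_mul_of_nonneg_right (pow_le_one₀ hs0.le hs1.le)
              (mul_nonneg (pow_nonneg hs0.le _) (hf k0).le)
          _ ≤ _ := by rw [one_mul]; exact h2 i
    refine ⟨(f k0)⁻¹ * Real.exp ε, mul_pos (inv_pos.2 (hf k0)) (Real.exp_pos _),
      fun m k _ h => ?_⟩
    have h4 := h3 k
    have h5 : s ^ k = (Real.exp (ε * k))⁻¹ := by
      rw [hs, ← Real.exp_nat_mul, ← Real.exp_neg]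
      congr 1
      ring
    rw [h5] at h4
    have h6 : 1 ≤ (f k0)⁻¹ * Real.exp (ε * k) * f k := by
      have h7 := hf k0
      have h8 := Real.exp_pos (ε * k)
      rw [inv_mul_le_iff₀ h8] at h4
      calc (1 : ℝ) = (f k0)⁻¹ * f k0 := (inv_mul_cancel₀ h7.ne').symm
        _ ≤ (f k0)⁻¹ * (Real.exp (ε * k) * f k) :=
            mul_le_mul_of_nonneg_left h4 (inv_nonneg.2 h7.le)
        _ = _ := by ring
    calc q m ≤ 1 := hq1 m
      _ ≤ (f k0)⁻¹ * Real.exp (ε * k) * f k := h6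
      _ ≤ (f k0)⁻¹ * (Real.exp ε * Real.exp (ε * m)) * f k := by
          apply mul_le_mul_of_nonneg_right _ (hf k).le
          exact mul_le_mul_of_nonneg_left (hexp m k h) (inv_nonneg.2 (hf k0).le)
      _ = _ := by ring

/-- excursions of odd and of even length -/
theorem odd_anti (D : Chain) (k : ℕ) : K0 D (2 * (k + 1) + 1) 1 ≤ K0 D (2 * k + 1) 1 := by
  have hp : 0 < D.p 0 1 := OT.K1.p01 D
  have hKp : ∀ k, OT.Kp D (k + 1) = D.p 0 1 * K0 D (2 * k + 1) 1 := by
    intro k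
    rw [OT.K1.Kp_succ, two_mul]
  have h1 : OT.Kp D (k + 1 + 1) ≤ OT.Kp D (k + 1) :=
    OT.K1.anti (f := fun k => OT.Kp D (k + 1)) (OT.K1.f_pos D) (OT.K1.f_conv D) (OT.K1.f_le D) k
  rw [hKp, hKp] at h1
  exact le_of_mul_le_mul_left h1 hp

theorem even_le (D : Chain) (k : ℕ) : K0 D (2 * k + 2) 1 ≤ K0 D (2 * k + 1) 1 := by
  have h1 := OT.K1.cs D k (k + 1)
  have h2 := odd_anti D k
  have h3 := MP_daa227_pr.K0_nonneg D (2 * k + 1) 1
  have h4 := MP_daa227_pr.K0_nonneg D (2 * k + 2) 1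
  have h5 : k + (k + 1) + 1 = 2 * k + 2 := by omega
  have h6 : k + k + 1 = 2 * k + 1 := by omega
  have h7 : k + 1 + (k + 1) + 1 = 2 * (k + 1) + 1 := by omega
  rw [h5, h6, h7] at h1
  refine le_of_sq_le_sq ?_ h3
  calc K0 D (2 * k + 2) 1 ^ 2 ≤ K0 D (2 * k + 1) 1 * K0 D (2 * (k + 1) + 1) 1 := h1
    _ ≤ K0 D (2 * k + 1) 1 * K0 D (2 * k + 1) 1 := mul_le_mul_of_nonneg_left h2 h3
    _ = _ := by ring

end HalfLine

theorem half_line (C : Chain)
    (hrec : HasSum (fun n : ℕ => K0 C (n + 1) 0) 1) (R : ℕ) {ε : ℝ} (hε : 0 < ε) :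
    ∃ K : ℝ, 0 < K ∧ ∀ m k : ℕ, m ≤ 2 * k + 1 → 2 * k + 1 ≤ m + 2 →
      Gf C (fun _ _ => 1) (Finset.Icc (-(R : ℤ)) R) m (fun _ => 0) (R + 1) ≤
        K * Real.exp (ε * m) * K0 (ctr C R) (2 * k + 1) 1 := by
  set D := ctr C R with hD
  have hq : ∀ m : ℕ, Gf C (fun _ _ => 1) (Finset.Icc (-(R : ℤ)) R) m (fun _ => 0) (R + 1) =
      Gf D (fun _ _ => 1) {0} m (fun _ => 0) 1 := by
    intro m
    have := HalfLine.Gf_tr C R m 1 (fun _ => 0) le_rfl
    rw [add_comm] at this
    exact this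
  have hlim := HalfLine.tend C hrec R
  simp only [hq] at hlim ⊢
  have hdiff : ∀ m : ℕ, Gf D (fun _ _ => 1) {0} m (fun _ => 0) 1 -
      Gf D (fun _ _ => 1) {0} (m + 1) (fun _ => 0) 1 = K0 D (m + 1) 1 := by
    intro m
    have h1 := HalfLine.Gf_K0 D m 1 (fun _ => 0)
    have h2 := HalfLine.Gf_K0 D (m + 1) 1 (fun _ => 0)
    rw [Finset.sum_range_succ _ (m + 1)] at h2
    linarith
  have hp : 0 < D.p 0 1 := OT.K1.p01 D
  have hKp : ∀ k, OT.Kp D (k + 1) = D.p 0 1 * K0 D (2 * k + 1) 1 := by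
    intro k
    rw [OT.K1.Kp_succ, two_mul]
  refine HalfLine.analytic (q := fun m => Gf D (fun _ _ => 1) {0} m (fun _ => 0) 1)
    (f := fun k => K0 D (2 * k + 1) 1) ?_ ?_ ?_ (HalfLine.odd_anti D) ?_ ?_ ?_ hlim hε
  · intro m
    have h1 := HalfLine.Gf_K0 D m 1 (fun _ => 0)
    have h2 : 0 ≤ ∑ n ∈ Finset.range (m + 1), K0 D n 1 :=
      Finset.sum_nonneg fun n _ => MP_daa227_pr.K0_nonneg D n 1
    show Gf D (fun _ _ => 1) {0} m (fun _ => 0) 1 ≤ 1
    linarith
  · intro m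
    have h1 := hdiff m
    have h2 := MP_daa227_pr.K0_nonneg D (m + 1) 1
    show Gf D (fun _ _ => 1) {0} (m + 1) (fun _ => 0) 1 ≤ Gf D (fun _ _ => 1) {0} m (fun _ => 0) 1
    linarith
  · intro k
    have h1 := OT.K1.f_pos D k
    rw [hKp] at h1
    exact (mul_pos_iff_of_pos_left hp).1 h1
  · intro k
    have h1 := OT.K1.f_conv D k
    rw [hKp, hKp, hKp] at h1
    show K0 D (2 * (k + 1) + 1) 1 ^ 2 ≤ K0 D (2 * k + 1) 1 * K0 D (2 * (k + 2) + 1) 1
    have h2 : D.p 0 1 ^ 2 * K0 D (2 * (k + 1) + 1) 1 ^ 2 ≤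
        D.p 0 1 ^ 2 * (K0 D (2 * k + 1) 1 * K0 D (2 * (k + 2) + 1) 1) := by nlinarith
    exact le_of_mul_le_mul_left h2 (by positivity)
  · intro k
    have h1 := hdiff (2 * k)
    have h2 := hdiff (2 * k + 1)
    have h3 := HalfLine.even_le D k
    have h4 : 2 * k + 1 + 1 = 2 * (k + 1) := by ring
    have h5 : 2 * k + 2 = 2 * (k + 1) := by ring
    rw [h4] at h2
    rw [h5] at h3
    show Gf D (fun _ _ => 1) {0} (2 * k) (fun _ => 0) 1 -
      Gf D (fun _ _ => 1) {0} (2 * (k + 1)) (fun _ => 0) 1 ≤ 2 * K0 D (2 * k + 1) 1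
    linarith
  · intro k
    have h2 := hdiff (2 * k + 1)
    have h3 := HalfLine.even_le D k
    have h4 : 2 * k + 1 + 1 = 2 * (k + 1) := by ring
    have h5 : 2 * k + 2 = 2 * (k + 1) := by ring
    rw [h4] at h2
    rw [h5] at h3
    show Gf D (fun _ _ => 1) {0} (2 * k + 1) (fun _ => 0) 1 ≤
      Gf D (fun _ _ => 1) {0} (2 * (k + 1)) (fun _ => 0) 1 + K0 D (2 * k + 1) 1
    linarith

end

end Pool.Agent.HZ
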