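import Pool.Agent.Lib.MP_daa227_pr_HZ.Basic

/-!
# Perturbation of supersolutions
-/

namespace Pool.Agent.HZ

open MeasureTheory ProbabilityTheory Set Filter
open scoped ENNReal Topology
open MP_daa227_pr (Chain Zk Zf Gk Gf KU K0 ushift shift seqLaw ExpMom Good GoodW mom)

noncomputable section

namespace Pert

/-- one term of the interpolated inequality -/
theorem term (p v e ζ F G f g s : ℝ) (hp : 0 ≤ p) (hF : 0 < F) (hG : 0 < G) (hf : 0 < f)
    (hg : 0 < g) (h0 : 0 ≤ s) (h1 : s ≤ 1) :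
    p * Real.exp (v + s * e * ζ) * (f ^ (1 - s) * g ^ s) ≤ F ^ (1 - s) * G ^ s *
      ((1 - s) * (p * Real.exp v * f / F) + s * (p * Real.exp (v + e * ζ) * g / G)) := by
  have hu : 0 < Real.exp v * f / F := by positivity
  have hw : 0 < Real.exp (v + e * ζ) * g / G := by positivity
  have h := Real.geom_mean_le_arith_mean2_weighted (sub_nonneg.2 h1) h0 hu.le hw.le
    (by ring : (1 - s) + s = 1)
  have h2 : (Real.exp v * f / F) ^ (1 - s) * (Real.exp (v + e * ζ) * g / G) ^ s *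
      (F ^ (1 - s) * G ^ s) = Real.exp (v + s * e * ζ) * (f ^ (1 - s) * g ^ s) := by
    have hFs : (F ^ (1 - s)) ≠ 0 := (Real.rpow_pos_of_pos hF _).ne'
    have hGs : (G ^ s) ≠ 0 := (Real.rpow_pos_of_pos hG _).ne'
    rw [Real.div_rpow (by positivity) hF.le, Real.div_rpow (by positivity) hG.le,
      Real.mul_rpow (Real.exp_pos _).le hf.le, Real.mul_rpow (Real.exp_pos _).le hg.le,
      ← Real.exp_mul, ← Real.exp_mul]
    have h3 : Real.exp (v + s * e * ζ) = Real.exp (v * (1 - s)) * Real.exp ((v + e * ζ) * s) := by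
      rw [← Real.exp_add]
      congr 1
      ring
    rw [h3]
    field_simp
  have hFG : 0 ≤ F ^ (1 - s) * G ^ s :=
    mul_nonneg (Real.rpow_nonneg hF.le _) (Real.rpow_nonneg hG.le _)
  calc p * Real.exp (v + s * e * ζ) * (f ^ (1 - s) * g ^ s)
      = p * ((Real.exp v * f / F) ^ (1 - s) * (Real.exp (v + e * ζ) * g / G) ^ s *
          (F ^ (1 - s) * G ^ s)) := by rw [h2]; ring
    _ ≤ p * (((1 - s) * (Real.exp v * f / F) + s * (Real.exp (v + e * ζ) * g / G)) *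
          (F ^ (1 - s) * G ^ s)) := by
        exact mul_le_mul_of_nonneg_left (mul_le_mul_of_nonneg_right h hFG) hp
    _ = _ := by ring

/-- geometric interpolation of supersolutions -/
theorem interp (C : Chain) (v ζ f₀ g : ℤ → ℝ) (b : ℤ) (hf₀ : ∀ x, b ≤ x → 0 < f₀ x)
    (hs₀ : Ssol C v b f₀) {ε₁ : ℝ} (hg : ∀ x, b ≤ x → 0 < g x)
    (hsg : Ssol C (fun z => v z + ε₁ * ζ z) b g) {s : ℝ} (h0 : 0 ≤ s) (h1 : s ≤ 1) :
    Ssol C (fun z => v z + s * ε₁ * ζ z) b (fun x => f₀ x ^ (1 - s) * g x ^ s) := by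
  intro x hx
  have hA := hs₀ x hx
  have hB := hsg x hx
  have hF := hf₀ x hx.le
  have hG := hg x hx.le
  have t1 := term (C.p x (x - 1)) (v (x - 1)) ε₁ (ζ (x - 1)) (f₀ x) (g x) (f₀ (x - 1)) (g (x - 1)) s
    (C.nonneg _ _) hF hG (hf₀ _ (by omega)) (hg _ (by omega)) h0 h1
  have t2 := term (C.p x x) (v x) ε₁ (ζ x) (f₀ x) (g x) (f₀ x) (g x) s
    (C.nonneg _ _) hF hG hF hG h0 h1
  have t3 := term (C.p x (x + 1)) (v (x + 1)) ε₁ (ζ (x + 1)) (f₀ x) (g x) (f₀ (x + 1)) (g (x + 1)) s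
    (C.nonneg _ _) hF hG (hf₀ _ (by omega)) (hg _ (by omega)) h0 h1
  have hFG : 0 ≤ f₀ x ^ (1 - s) * g x ^ s :=
    mul_nonneg (Real.rpow_nonneg hF.le _) (Real.rpow_nonneg hG.le _)
  have hA' : C.p x (x - 1) * Real.exp (v (x - 1)) * f₀ (x - 1) / f₀ x +
      C.p x x * Real.exp (v x) * f₀ x / f₀ x +
      C.p x (x + 1) * Real.exp (v (x + 1)) * f₀ (x + 1) / f₀ x ≤ 1 := by
    rw [← add_div, ← add_div, div_le_one hF]
    exact hA
  have hB' : C.p x (x - 1) * Real.exp (v (x - 1) + ε₁ * ζ (x - 1)) * g (x - 1) / g x +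
      C.p x x * Real.exp (v x + ε₁ * ζ x) * g x / g x +
      C.p x (x + 1) * Real.exp (v (x + 1) + ε₁ * ζ (x + 1)) * g (x + 1) / g x ≤ 1 := by
    rw [← add_div, ← add_div, div_le_one hG]
    exact hB
  have hsum : (1 - s) * (C.p x (x - 1) * Real.exp (v (x - 1)) * f₀ (x - 1) / f₀ x +
      C.p x x * Real.exp (v x) * f₀ x / f₀ x +
      C.p x (x + 1) * Real.exp (v (x + 1)) * f₀ (x + 1) / f₀ x) +
      s * (C.p x (x - 1) * Real.exp (v (x - 1) + ε₁ * ζ (x - 1)) * g (x - 1) / g x +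
      C.p x x * Real.exp (v x + ε₁ * ζ x) * g x / g x +
      C.p x (x + 1) * Real.exp (v (x + 1) + ε₁ * ζ (x + 1)) * g (x + 1) / g x) ≤ 1 := by
    have := mul_le_mul_of_nonneg_left hA' (sub_nonneg.2 h1)
    have := mul_le_mul_of_nonneg_left hB' h0
    linarith
  have := mul_le_mul_of_nonneg_left hsum hFG
  simp only
  linarith

/-- the statement of the induction -/
def P (C : Chain) (v ζ f₀ : ℤ → ℝ) (a : ℤ) : Prop :=
  ∀ η : ℝ, 0 < η → ∀ᶠ e in 𝓝[>] (0 : ℝ), ∃ f : ℤ → ℝ, (∀ x, a ≤ x → 0 < f x) ∧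
    Ssol C (fun z => v z + e * ζ z) a f ∧ f (a + 1) / f a ≤ f₀ (a + 1) / f₀ a + η

theorem base (C : Chain) (v ζ f₀ g : ℤ → ℝ) (b : ℤ) (hf₀ : ∀ x, b ≤ x → 0 < f₀ x)
    (hs₀ : Ssol C v b f₀) {ε₁ : ℝ} (hε₁ : 0 < ε₁) (hg : ∀ x, b ≤ x → 0 < g x)
    (hsg : Ssol C (fun z => v z + ε₁ * ζ z) b g) : P C v ζ f₀ b := by
  intro η hη
  have hc : Tendsto (fun e : ℝ => (f₀ (b + 1) ^ (1 - e / ε₁) * g (b + 1) ^ (e / ε₁)) /
      (f₀ b ^ (1 - e / ε₁) * g b ^ (e / ε₁))) (𝓝[>] 0) (𝓝 (f₀ (b + 1) / f₀ b)) := by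
    have h1 := hf₀ b le_rfl
    have h2 := hf₀ (b + 1) (by omega)
    have h3 := hg b le_rfl
    have h4 := hg (b + 1) (by omega)
    have hcont : ContinuousAt (fun e : ℝ => (f₀ (b + 1) ^ (1 - e / ε₁) * g (b + 1) ^ (e / ε₁)) /
        (f₀ b ^ (1 - e / ε₁) * g b ^ (e / ε₁))) 0 := by
      have hu : ContinuousAt (fun e : ℝ => e / ε₁) 0 := by fun_prop
      have hu1 : ContinuousAt (fun e : ℝ => 1 - e / ε₁) 0 := by fun_prop
      refine ContinuousAt.div ?_ ?_ ?_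
      · exact (ContinuousAt.rpow continuousAt_const hu1 (Or.inl h2.ne')).mul
          (ContinuousAt.rpow continuousAt_const hu (Or.inl h4.ne'))
      · exact (ContinuousAt.rpow continuousAt_const hu1 (Or.inl h1.ne')).mul
          (ContinuousAt.rpow continuousAt_const hu (Or.inl h3.ne'))
      · exact (mul_pos (Real.rpow_pos_of_pos h1 _) (Real.rpow_pos_of_pos h3 _)).ne'
    have h5 := hcont.tendsto
    simp only [zero_div, sub_zero, Real.rpow_one, Real.rpow_zero, mul_one] at h5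
    exact h5.mono_left nhdsWithin_le_nhds
  have h1 := hc.eventually (Iic_mem_nhds (lt_add_of_pos_right (f₀ (b + 1) / f₀ b) hη))
  have h2 : ∀ᶠ e in 𝓝[>] (0 : ℝ), e ≤ ε₁ :=
    nhdsWithin_le_nhds (Iic_mem_nhds hε₁)
  have h3 : ∀ᶠ e in 𝓝[>] (0 : ℝ), 0 < e := self_mem_nhdsWithin
  filter_upwards [h1, h2, h3] with e he1 he2 he3
  refine ⟨fun x => f₀ x ^ (1 - e / ε₁) * g x ^ (e / ε₁), fun x hx =>
    mul_pos (Real.rpow_pos_of_pos (hf₀ x hx) _) (Real.rpow_pos_of_pos (hg x hx) _), ?_, he1⟩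
  have h4 := interp C v ζ f₀ g b hf₀ hs₀ hg hsg (s := e / ε₁) (div_nonneg he3.le hε₁.le)
    ((div_le_one hε₁).2 he2)
  rwa [div_mul_cancel₀ _ hε₁.ne'] at h4

theorem stepdown (C : Chain) (v ζ f₀ : ℤ → ℝ) (a : ℤ) (ha : 1 ≤ a)
    (hf₀ : ∀ x, 0 ≤ x → 0 < f₀ x) (hs₀ : Ssol C v 0 f₀) (h : P C v ζ f₀ a) :
    P C v ζ f₀ (a - 1) := by
  intro η hη
  have hfa := hf₀ a (by omega)
  have hfm := hf₀ (a - 1) (by omega)
  have hpm : 0 < C.p a (a - 1) := C.down a
  set ρ := f₀ (a + 1) / f₀ a with hρ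
  set D0 := 1 - C.p a a * Real.exp (v a) - C.p a (a + 1) * Real.exp (v (a + 1)) * ρ with hD0
  have hD0' : C.p a (a - 1) * Real.exp (v (a - 1)) * (f₀ (a - 1) / f₀ a) ≤ D0 := by
    have h1 := hs₀ a (by omega)
    have h2 : (C.p a (a - 1) * Real.exp (v (a - 1)) * f₀ (a - 1) +
      C.p a a * Real.exp (v a) * f₀ a + C.p a (a + 1) * Real.exp (v (a + 1)) * f₀ (a + 1)) / f₀ a
        ≤ 1 := (div_le_one hfa).2 h1
    have h3 : (C.p a (a - 1) * Real.exp (v (a - 1)) * f₀ (a - 1) +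
      C.p a a * Real.exp (v a) * f₀ a + C.p a (a + 1) * Real.exp (v (a + 1)) * f₀ (a + 1)) / f₀ a
        = C.p a (a - 1) * Real.exp (v (a - 1)) * (f₀ (a - 1) / f₀ a) +
          C.p a a * Real.exp (v a) + C.p a (a + 1) * Real.exp (v (a + 1)) * ρ := by
      rw [hρ]
      field_simp
    rw [h3] at h2
    rw [hD0]
    linarith
  have hD0pos : 0 < D0 := lt_of_lt_of_le (by positivity) hD0'
  have hq : C.p a (a - 1) * Real.exp (v (a - 1)) / D0 ≤ f₀ a / f₀ (a - 1) := by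
    rw [div_le_div_iff₀ hD0pos hfm]
    have h1 := mul_le_mul_of_nonneg_left hD0' hfa.le
    have h2 : f₀ a * (C.p a (a - 1) * Real.exp (v (a - 1)) * (f₀ (a - 1) / f₀ a)) =
        C.p a (a - 1) * Real.exp (v (a - 1)) * f₀ (a - 1) := by
      field_simp
    linarith
  -- choice of η'
  obtain ⟨η', hη', hDη, hqη⟩ : ∃ η' : ℝ, 0 < η' ∧
      0 < 1 - C.p a a * Real.exp (v a) - C.p a (a + 1) * Real.exp (v (a + 1)) * (ρ + η') ∧
      C.p a (a - 1) * Real.exp (v (a - 1)) /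
        (1 - C.p a a * Real.exp (v a) - C.p a (a + 1) * Real.exp (v (a + 1)) * (ρ + η'))
        < f₀ a / f₀ (a - 1) + η := by
    have c1 : ContinuousAt (fun t : ℝ => 1 - C.p a a * Real.exp (v a) -
        C.p a (a + 1) * Real.exp (v (a + 1)) * (ρ + t)) 0 := by fun_prop
    have c2 : ContinuousAt (fun t : ℝ => C.p a (a - 1) * Real.exp (v (a - 1)) /
        (1 - C.p a a * Real.exp (v a) - C.p a (a + 1) * Real.exp (v (a + 1)) * (ρ + t))) 0 := by
      refine ContinuousAt.div continuousAt_const c1 ?_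
      rw [add_zero]
      exact hD0pos.ne'
    have e1 : ∀ᶠ t in 𝓝[>] (0 : ℝ), 0 < 1 - C.p a a * Real.exp (v a) -
        C.p a (a + 1) * Real.exp (v (a + 1)) * (ρ + t) := by
      refine nhdsWithin_le_nhds (c1.tendsto.eventually (Ioi_mem_nhds ?_))
      rw [add_zero]
      exact hD0pos
    have e2 : ∀ᶠ t in 𝓝[>] (0 : ℝ), C.p a (a - 1) * Real.exp (v (a - 1)) /
        (1 - C.p a a * Real.exp (v a) - C.p a (a + 1) * Real.exp (v (a + 1)) * (ρ + t))
        < f₀ a / f₀ (a - 1) + η := by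
      refine nhdsWithin_le_nhds (c2.tendsto.eventually (Iio_mem_nhds ?_))
      rw [add_zero]
      linarith
    have e3 : ∀ᶠ t in 𝓝[>] (0 : ℝ), 0 < t := self_mem_nhdsWithin
    obtain ⟨t, h1, h2, h3⟩ := (e3.and (e1.and e2)).exists
    exact ⟨t, h1, h2, h3⟩
  -- the perturbed quantities
  set De : ℝ → ℝ := fun e => 1 - C.p a a * Real.exp (v a + e * ζ a) -
    C.p a (a + 1) * Real.exp (v (a + 1) + e * ζ (a + 1)) * (ρ + η') with hDe
  have c1 : ContinuousAt De 0 := by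
    rw [hDe]; fun_prop
  have hDe0 : De 0 = 1 - C.p a a * Real.exp (v a) -
      C.p a (a + 1) * Real.exp (v (a + 1)) * (ρ + η') := by
    rw [hDe]; simp only [zero_mul, add_zero]
  have c2 : ContinuousAt (fun e : ℝ => C.p a (a - 1) *
      Real.exp (v (a - 1) + e * ζ (a - 1)) / De e) 0 := by
    refine ContinuousAt.div (by fun_prop) c1 ?_
    rw [hDe0]
    exact hDη.ne'
  have e1 : ∀ᶠ e in 𝓝[>] (0 : ℝ), 0 < De e := by
    refine nhdsWithin_le_nhds (c1.tendsto.eventually (Ioi_mem_nhds ?_))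
    rw [hDe0]
    exact hDη
  have e2 : ∀ᶠ e in 𝓝[>] (0 : ℝ), C.p a (a - 1) *
      Real.exp (v (a - 1) + e * ζ (a - 1)) / De e < f₀ a / f₀ (a - 1) + η := by
    refine nhdsWithin_le_nhds (c2.tendsto.eventually (Iio_mem_nhds ?_))
    rw [hDe0]
    simp only [zero_mul, add_zero]
    exact hqη
  filter_upwards [h η' hη', e1, e2] with e he hDpos hlt
  obtain ⟨f, hfpos, hfs, hfr⟩ := he
  have hfa' := hfpos a le_rfl
  set T := C.p a (a - 1) * Real.exp (v (a - 1) + e * ζ (a - 1)) with hT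
  have hTpos : 0 < T := mul_pos hpm (Real.exp_pos _)
  refine ⟨fun x => if x = a - 1 then f a * De e / T else f x, ?_, ?_, ?_⟩
  · intro x hx
    by_cases hxa : x = a - 1
    · simp only [hxa, if_true]
      positivity
    · simp only [hxa, if_false]
      exact hfpos x (by omega)
  · intro x hx
    rcases eq_or_lt_of_le (show a ≤ x by omega) with rfl | hxa
    · have n1 : ¬ (a = a - 1) := by omega
      have n2 : ¬ (a + 1 = a - 1) := by omega
      simp only [n1, n2, if_true, if_false]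
      rw [← hT]
      have h1 : T * (f a * De e / T) = f a * De e := by field_simp
      rw [h1]
      have h2 : f (a + 1) ≤ (ρ + η') * f a := (div_le_iff₀ hfa').1 hfr
      have h3 : C.p a (a + 1) * Real.exp (v (a + 1) + e * ζ (a + 1)) * f (a + 1) ≤
          C.p a (a + 1) * Real.exp (v (a + 1) + e * ζ (a + 1)) * ((ρ + η') * f a) :=
        mul_le_mul_of_nonneg_left h2 (mul_nonneg (C.nonneg _ _) (Real.exp_pos _).le)
      have h4 : f a * De e = f a - C.p a a * Real.exp (v a + e * ζ a) * f a -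
          C.p a (a + 1) * Real.exp (v (a + 1) + e * ζ (a + 1)) * ((ρ + η') * f a) := by
        rw [hDe]; ring
      linarith
    · have n1 : ¬ (x - 1 = a - 1) := by omega
      have n2 : ¬ (x = a - 1) := by omega
      have n3 : ¬ (x + 1 = a - 1) := by omega
      simp only [n1, n2, n3, if_false]
      exact hfs x hxa
  · have n1 : ¬ (a = a - 1) := by omega
    simp only [sub_add_cancel, n1, if_true, if_false]
    have h1 : f a / (f a * De e / T) = T / De e := by field_simp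
    rw [h1]
    exact hlt.le

end Pert

/-- Supersolutions persist under small perturbations when this is true far away. -/
theorem pert (C : Chain) (v ζ : ℤ → ℝ) (f₀ g : ℤ → ℝ) (b : ℤ) (hb : 0 ≤ b)
    (hf₀ : ∀ x, 0 ≤ x → 0 < f₀ x) (hs₀ : Ssol C v 0 f₀) {ε₁ : ℝ} (hε₁ : 0 < ε₁)
    (hg : ∀ x, b ≤ x → 0 < g x) (hsg : Ssol C (fun z => v z + ε₁ * ζ z) b g) :
    ∃ ε : ℝ, 0 < ε ∧ ε ≤ ε₁ ∧ ∃ f : ℤ → ℝ, (∀ x, 0 ≤ x → 0 < f x) ∧
      Ssol C (fun z => v z + ε * ζ z) 0 f := by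
  have key : ∀ n : ℕ, (n : ℤ) ≤ b → Pert.P C v ζ f₀ (b - n) := by
    intro n
    induction n with
    | zero =>
      intro _
      rw [Nat.cast_zero, sub_zero]
      exact Pert.base C v ζ f₀ g b (fun x hx => hf₀ x (by omega)) (fun x hx => hs₀ x (by omega))
        hε₁ hg hsg
    | succ n ih =>
      intro hn
      push_cast at hn ⊢
      have h1 := Pert.stepdown C v ζ f₀ (b - n) (by omega) hf₀ hs₀ (ih (by omega))
      rwa [sub_sub] at h1
  have h1 := key b.toNat (by omega)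
  rw [Int.toNat_of_nonneg hb, sub_self] at h1
  have h2 : ∀ᶠ e in 𝓝[>] (0 : ℝ), e ≤ ε₁ := nhdsWithin_le_nhds (Iic_mem_nhds hε₁)
  have h3 : ∀ᶠ e in 𝓝[>] (0 : ℝ), 0 < e := self_mem_nhdsWithin
  obtain ⟨e, ⟨f, hf, hfs, -⟩, he2, he3⟩ := ((h1 1 one_pos).and (h2.and h3)).exists
  exact ⟨e, he3, he2, f, hf, hfs⟩

end

end Pool.Agent.HZ
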