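import Pool.Agent.Lib.MP_daa227_pr_HZ.Basic

/-!
# Jensen's inequality for the penalised excursion measure
-/

namespace Pool.Agent.HZ

open MeasureTheory ProbabilityTheory Set Filter
open scoped ENNReal Topology
open MP_daa227_pr (Chain Zk Zf Gk Gf KU K0 ushift shift seqLaw ExpMom Good GoodW mom)

noncomputable section

theorem oc_nonneg (C : Chain) {φ : ℤ → ℝ} (hφ : ∀ x, 0 ≤ φ x) (η : ℝ) (n i : ℕ) (x : ℤ) :
    0 ≤ oc C φ η n i x := by
  induction n generalizing i x with
  | zero => exact le_rfl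
  | succ n ih =>
    cases i with
    | zero =>
      rw [oc]
      apply add_nonneg
      · split_ifs
        · exact mul_nonneg (mul_nonneg (C.nonneg _ _) (Real.exp_pos _).le) (hφ 0)
        · exact le_rfl
      · exact Finset.sum_nonneg fun z _ => mul_nonneg
          (mul_nonneg (C.nonneg _ _) (Real.exp_pos _).le) (mul_nonneg (hφ z) (Kv_nonneg C _ n z))
    | succ i =>
      rw [oc]
      exact Finset.sum_nonneg fun z _ => mul_nonneg
        (mul_nonneg (C.nonneg _ _) (Real.exp_pos _).le) (ih i z)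

theorem jensenQ_ge (C : Chain) (φ : ℤ → ℝ) (η : ℝ) (n : ℕ) (c : ℕ → ℝ) (x : ℤ) (m : ℝ) :
    Real.exp m * ((1 - m) * Kv C (fun z => -η * φ z) n x +
      ∑ i ∈ Finset.range n, c i * oc C φ η n i x) ≤ KU C n (fun i z => (c i - η) * φ z) x := by
  induction n generalizing c x m with
  | zero => simp [Kv_zero, KU]
  | succ n ih =>
    rw [Kv_succ, KU, Finset.sum_range_succ']
    have h1 : Real.exp m * ((1 - m) * (if n = 0 then C.p x 0 * Real.exp (-η * φ 0) else 0) +
        c 0 * (if n = 0 then C.p x 0 * Real.exp (-η * φ 0) * φ 0 else 0)) ≤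
        (if n = 0 then C.p x 0 * Real.exp ((c 0 - η) * φ 0) else 0) := by
      split_ifs
      · have h2 := Real.add_one_le_exp (c 0 * φ 0 - m)
        have h3 : Real.exp ((c 0 - η) * φ 0) =
            Real.exp m * Real.exp (-η * φ 0) * Real.exp (c 0 * φ 0 - m) := by
          rw [← Real.exp_add, ← Real.exp_add]
          congr 1
          ring
        have h4 := C.nonneg x 0
        rw [h3]
        have h6 : Real.exp m * ((1 - m) * (C.p x 0 * Real.exp (-η * φ 0)) +
            c 0 * (C.p x 0 * Real.exp (-η * φ 0) * φ 0)) =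
            C.p x 0 * (Real.exp m * Real.exp (-η * φ 0) * (c 0 * φ 0 - m + 1)) := by ring
        rw [h6]
        gcongr
      · simp
    have h2 : ∀ z ∈ Finset.Icc (x - 1) (x + 1) \ {0}, C.p x z * Real.exp (-η * φ z) *
        (Real.exp m * ((1 - m) * Kv C (fun z => -η * φ z) n z +
          (c 0 * (φ z * Kv C (fun z => -η * φ z) n z) +
          ∑ i ∈ Finset.range n, c (i + 1) * oc C φ η n i z))) ≤
        C.p x z * Real.exp ((c 0 - η) * φ z) *
          KU C n (ushift (fun i z => (c i - η) * φ z)) z := by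
      intro z _
      rw [mul_assoc (C.p x z), mul_assoc (C.p x z)]
      apply mul_le_mul_of_nonneg_left _ (C.nonneg x z)
      have h3 := ih (fun i => c (i + 1)) z (m - c 0 * φ z)
      have h4 : Real.exp ((c 0 - η) * φ z) = Real.exp (-η * φ z) * Real.exp (c 0 * φ z) := by
        rw [← Real.exp_add]
        congr 1
        ring
      have h5 : Real.exp m = Real.exp (c 0 * φ z) * Real.exp (m - c 0 * φ z) := by
        rw [← Real.exp_add]
        congr 1
        ring
      have h6 : ushift (fun i z => (c i - η) * φ z) =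
          fun i z => ((fun i => c (i + 1)) i - η) * φ z := rfl
      rw [h4, h6, h5]
      calc _ = Real.exp (-η * φ z) * Real.exp (c 0 * φ z) * (Real.exp (m - c 0 * φ z) *
            ((1 - (m - c 0 * φ z)) * Kv C (fun z => -η * φ z) n z +
              ∑ i ∈ Finset.range n, (fun i => c (i + 1)) i * oc C φ η n i z)) := by ring
        _ ≤ _ := mul_le_mul_of_nonneg_left h3 (by positivity)
    have h3 := Finset.sum_le_sum h2
    refine le_trans (le_of_eq ?_) (add_le_add h1 h3)
    simp only [oc]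
    have h4 : ∑ i ∈ Finset.range n, c (i + 1) * ∑ z ∈ Finset.Icc (x - 1) (x + 1) \ {0},
        C.p x z * Real.exp (-η * φ z) * oc C φ η n i z =
        ∑ z ∈ Finset.Icc (x - 1) (x + 1) \ {0}, C.p x z * Real.exp (-η * φ z) *
          ∑ i ∈ Finset.range n, c (i + 1) * oc C φ η n i z := by
      simp_rw [Finset.mul_sum]
      rw [Finset.sum_comm]
      refine Finset.sum_congr rfl fun z _ => Finset.sum_congr rfl fun i _ => ?_
      ring
    have h5 : ∑ z ∈ Finset.Icc (x - 1) (x + 1) \ {0}, C.p x z * Real.exp (-η * φ z) *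
        (Real.exp m * ((1 - m) * Kv C (fun z => -η * φ z) n z +
          (c 0 * (φ z * Kv C (fun z => -η * φ z) n z) +
          ∑ i ∈ Finset.range n, c (i + 1) * oc C φ η n i z))) =
        Real.exp m * ((1 - m) * ∑ z ∈ Finset.Icc (x - 1) (x + 1) \ {0},
            C.p x z * Real.exp (-η * φ z) * Kv C (fun z => -η * φ z) n z +
          (c 0 * ∑ z ∈ Finset.Icc (x - 1) (x + 1) \ {0},
            C.p x z * Real.exp (-η * φ z) * (φ z * Kv C (fun z => -η * φ z) n z) +
          ∑ z ∈ Finset.Icc (x - 1) (x + 1) \ {0}, C.p x z * Real.exp (-η * φ z) *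
            ∑ i ∈ Finset.range n, c (i + 1) * oc C φ η n i z)) := by
      rw [Finset.mul_sum _ _ (1 - m), Finset.mul_sum _ _ (c 0), ← Finset.sum_add_distrib,
        ← Finset.sum_add_distrib, Finset.mul_sum]
      refine Finset.sum_congr rfl fun z _ => ?_
      ring
    rw [h4, h5]
    ring

theorem jensenQ (C : Chain) (φ : ℤ → ℝ) (η : ℝ) (n : ℕ) (c : ℕ → ℝ) (x : ℤ)
    (h : 0 < Kv C (fun z => -η * φ z) n x) :
    Kv C (fun z => -η * φ z) n x *
      Real.exp ((∑ i ∈ Finset.range n, c i * oc C φ η n i x) / Kv C (fun z => -η * φ z) n x) ≤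
    KU C n (fun i z => (c i - η) * φ z) x := by
  refine le_trans (le_of_eq ?_) (jensenQ_ge C φ η n c x
    ((∑ i ∈ Finset.range n, c i * oc C φ η n i x) / Kv C (fun z => -η * φ z) n x))
  have h1 : (∑ i ∈ Finset.range n, c i * oc C φ η n i x) / Kv C (fun z => -η * φ z) n x *
      Kv C (fun z => -η * φ z) n x = ∑ i ∈ Finset.range n, c i * oc C φ η n i x :=
    div_mul_cancel₀ _ h.ne'
  rw [sub_mul, h1]
  ring

theorem Kv_pos_of_K0 (C : Chain) (v : ℤ → ℝ) (n : ℕ) (x : ℤ) (h : 0 < K0 C n x) :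
    0 < Kv C v n x := by
  induction n generalizing x with
  | zero => exact absurd h (lt_irrefl _)
  | succ n ih =>
    rw [K0] at h
    rw [Kv_succ]
    have hs : ∀ z ∈ Finset.Icc (x - 1) (x + 1) \ {0},
        0 ≤ C.p x z * Real.exp (v z) * Kv C v n z := fun z _ =>
      mul_nonneg (mul_nonneg (C.nonneg _ _) (Real.exp_pos _).le) (Kv_nonneg C v n z)
    by_cases hsum : ∃ z ∈ Finset.Icc (x - 1) (x + 1) \ {0}, 0 < C.p x z * K0 C n z
    · obtain ⟨z, hz, hpos⟩ := hsum
      have hK : 0 < K0 C n z := pos_of_mul_pos_right hpos (C.nonneg _ _)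
      have hp : 0 < C.p x z := pos_of_mul_pos_left hpos hK.le
      have h1 := Finset.single_le_sum hs hz
      have h2 : 0 < C.p x z * Real.exp (v z) * Kv C v n z :=
        mul_pos (mul_pos hp (Real.exp_pos _)) (ih z hK)
      have h3 : (0 : ℝ) ≤ (if n = 0 then C.p x 0 * Real.exp (v 0) else 0) := by
        split_ifs
        · exact mul_nonneg (C.nonneg _ _) (Real.exp_pos _).le
        · exact le_rfl
      linarith
    · push Not at hsum
      have h1 : ∑ z ∈ Finset.Icc (x - 1) (x + 1) \ {0}, C.p x z * K0 C n z ≤ 0 :=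
        Finset.sum_nonpos hsum
      have h2 : (0 : ℝ) < (if n = 0 then C.p x 0 else 0) := by linarith
      have h3 := Finset.sum_nonneg hs
      split_ifs at h2 with h0
      · rw [if_pos h0]
        have h4 := mul_pos h2 (Real.exp_pos (v 0))
        linarith
      · exact absurd h2 (lt_irrefl _)

theorem Kv_even_pos (C : Chain) (v : ℤ → ℝ) {n : ℕ} (hn : 1 ≤ n) : 0 < Kv C v (2 * n) 0 :=
  Kv_pos_of_K0 C v _ _ (MP_daa227_pr.K0_even_pos C n hn)

theorem Kv_le_one (C : Chain) {v : ℤ → ℝ} (hv : ∀ z, v z ≤ 0) (n : ℕ) (x : ℤ) :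
    Kv C v n x ≤ 1 := by
  have hw : ∀ z, C.p x z * Real.exp (v z) ≤ C.p x z := fun z =>
    mul_le_of_le_one_right (C.nonneg _ _) (Real.exp_le_one_iff.2 (hv z))
  induction n generalizing x with
  | zero =>
    rw [Kv_zero]
    exact zero_le_one
  | succ n ih =>
    have ih' : ∀ z, Kv C v n z ≤ 1 := fun z => ih z fun y =>
      mul_le_of_le_one_right (C.nonneg _ _) (Real.exp_le_one_iff.2 (hv y))
    rw [Kv_succ]
    rcases Nat.eq_zero_or_pos n with h0 | h0
    · subst h0
      simp only [if_true, Kv_zero, mul_zero, Finset.sum_const_zero, add_zero]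
      refine (hw 0).trans ?_
      by_cases hx : (0 : ℤ) ∈ Finset.Icc (x - 1) (x + 1)
      · rw [← C.sum_one x]
        exact Finset.single_le_sum (f := fun y => C.p x y) (fun y _ => C.nonneg x y) hx
      · rw [C.near x 0 hx]
        exact zero_le_one
    · rw [if_neg (by omega), zero_add, ← C.sum_one x]
      calc ∑ z ∈ Finset.Icc (x - 1) (x + 1) \ {0}, C.p x z * Real.exp (v z) * Kv C v n z
          ≤ ∑ z ∈ Finset.Icc (x - 1) (x + 1) \ {0}, C.p x z := by
            refine Finset.sum_le_sum fun z _ => ?_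
            exact (mul_le_of_le_one_right (mul_nonneg (C.nonneg _ _) (Real.exp_pos _).le)
              (ih' z)).trans (hw z)
        _ ≤ _ := Finset.sum_le_sum_of_subset_of_nonneg Finset.sdiff_subset
            (fun y _ _ => C.nonneg x y)

theorem oc_sum (C : Chain) {φ : ℤ → ℝ} (hφ : ∀ x, 0 ≤ φ x) (η : ℝ) (n : ℕ) (x : ℤ)
    (h : 0 < Kv C (fun z => -η * φ z) n x) :
    η * ∑ i ∈ Finset.range n, oc C φ η n i x ≤
      Kv C (fun z => -η * φ z) n x * (-Real.log (Kv C (fun z => -η * φ z) n x)) := by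
  have h1 := jensenQ C φ η n (fun _ => η) x h
  have h2 : KU C n (fun i z => ((fun _ => η) i - η) * φ z) x ≤ 1 :=
    Kv_le_one C (v := fun z => (η - η) * φ z) (fun z => by simp) n x
  set q : ℝ := Kv C (fun z => -η * φ z) n x with hq
  have h3 : ∑ i ∈ Finset.range n, (fun _ => η) i * oc C φ η n i x =
      η * ∑ i ∈ Finset.range n, oc C φ η n i x := by
    rw [Finset.mul_sum]
  rw [h3] at h1
  have h4 := h1.trans h2
  have h5 : Real.log q + (η * ∑ i ∈ Finset.range n, oc C φ η n i x) / q ≤ 0 := by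
    have h6 := Real.log_le_log (mul_pos h (Real.exp_pos _)) h4
    rw [Real.log_mul h.ne' (Real.exp_ne_zero _), Real.log_exp, Real.log_one] at h6
    exact h6
  have h7 : (η * ∑ i ∈ Finset.range n, oc C φ η n i x) / q ≤ -Real.log q := by linarith
  rw [div_le_iff₀ h] at h7
  linarith

end

end Pool.Agent.HZ
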