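import Pool.Agent.Lib.MP_daa227_pr_HZ.Basic
import Pool.Agent.Lib.MP_daa227_pr_OT.Strict
import Pool.Agent.Lib.MP_daa227_pr.Dens
import Pool.Agent.Lib.MP_daa227_pr.Model

/-!
# The logarithmic moment generating function of the charges
-/

namespace Pool.Agent.HZ

open MeasureTheory ProbabilityTheory Set Filter
open scoped ENNReal Topology
open MP_daa227_pr (Chain Zk Zf Gk Gf KU K0 ushift shift seqLaw ExpMom Good GoodW mom)

noncomputable section

section lmg
variable {μ : Measure ℝ} [IsProbabilityMeasure μ]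

theorem exp_lmg (hμ : ExpMom μ) (t : ℝ) : Real.exp (lmg μ t) = ∫ x, Real.exp (t * x) ∂μ :=
  Real.exp_log (integral_exp_pos (hμ t))

theorem lmg_zero : lmg μ 0 = 0 := by
  unfold lmg
  simp

theorem lmg_convex (hμ : ExpMom μ) : ConvexOn ℝ Set.univ (lmg μ) := by
  refine ⟨convex_univ, fun s _ t _ a b ha hb hab => ?_⟩
  have hb' : b = 1 - a := by linarith
  have h := OT.X1.lmg_convex hμ (θ := a) (s := s) (t := t) ha (by linarith)
  rw [smul_eq_mul, smul_eq_mul, smul_eq_mul, smul_eq_mul, hb']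
  exact h

theorem lmg_cont (hμ : ExpMom μ) : Continuous (lmg μ) := (lmg_convex hμ).locallyLipschitz.continuous

theorem lmg_nonneg (hμ : ExpMom μ) (hmean : ∫ x, x ∂μ = 0) (t : ℝ) : 0 ≤ lmg μ t :=
  Real.log_nonneg (MP_daa227_pr.Dens.mgf_ge_one hμ hmean t)

theorem lmg_pos (hμ : ExpMom μ) (hmean : ∫ x, x ∂μ = 0) (hvar : ∫ x, x ^ 2 ∂μ = 1) {t : ℝ}
    (ht : t ≠ 0) : 0 < lmg μ t := by
  have hA : Integrable (fun x => t * x + 1) μ :=
    (hμ.integrable_id.const_mul t).add (integrable_const _)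
  have hI : Integrable (fun x => Real.exp (t * x) - (t * x + 1)) μ := (hμ t).sub hA
  have h0 : ∀ x : ℝ, 0 ≤ Real.exp (t * x) - (t * x + 1) := fun x => by
    have := Real.add_one_le_exp (t * x)
    linarith
  have hval : ∫ x, (Real.exp (t * x) - (t * x + 1)) ∂μ = (∫ x, Real.exp (t * x) ∂μ) - 1 := by
    rw [integral_sub (hμ t) hA,
      integral_add (hμ.integrable_id.const_mul t) (integrable_const _), integral_const_mul, hmean]
    simp
  have hne : ∫ x, (Real.exp (t * x) - (t * x + 1)) ∂μ ≠ 0 := by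
    intro hz
    have h1 := (integral_eq_zero_iff_of_nonneg h0 hI).1 hz
    have h2 : (fun x : ℝ => x ^ 2) =ᵐ[μ] 0 := by
      filter_upwards [h1] with x hx
      by_contra hne
      have hx0 : x ≠ 0 := by
        rintro rfl
        apply hne
        simp
      have h3 := Real.add_one_lt_exp (mul_ne_zero ht hx0)
      have h4 : Real.exp (t * x) - (t * x + 1) = 0 := hx
      linarith
    rw [integral_congr_ae h2] at hvar
    simp at hvar
  have hpos : 0 < ∫ x, (Real.exp (t * x) - (t * x + 1)) ∂μ :=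
    lt_of_le_of_ne (integral_nonneg h0) (Ne.symm hne)
  rw [hval] at hpos
  exact Real.log_pos (by linarith)

theorem lmg_quad (hμ : ExpMom μ) (hmean : ∫ x, x ∂μ = 0) (T : ℝ) :
    ∃ A : ℝ, 0 < A ∧ ∀ t : ℝ, |t| ≤ T → lmg μ t ≤ A * t ^ 2 := by
  have hB : 0 ≤ ∫ x, x ^ 2 * Real.exp (T * |x|) ∂μ := integral_nonneg fun x => by positivity
  refine ⟨(∫ x, x ^ 2 * Real.exp (T * |x|) ∂μ) + 1, by linarith, fun t ht => ?_⟩
  have hi : Integrable (fun x => x ^ 2 * Real.exp (T * |x|)) μ := hμ.sq_abs T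
  have h2 : ∫ x, Real.exp (t * x) ∂μ ≤
      ∫ x, (1 + t * x + t ^ 2 * (x ^ 2 * Real.exp (T * |x|))) ∂μ := by
    apply integral_mono (hμ t)
    · exact ((integrable_const _).add (hμ.integrable_id.const_mul t)).add (hi.const_mul _)
    intro x
    dsimp only
    refine (MP_daa227_pr.Model.exp_le_quad (t * x)).trans ?_
    rw [mul_pow, mul_assoc (t ^ 2)]
    have h3 : Real.exp |t * x| ≤ Real.exp (T * |x|) := by
      apply Real.exp_le_exp.2
      rw [abs_mul]
      exact mul_le_mul_of_nonneg_right ht (abs_nonneg x)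
    have h4 := mul_le_mul_of_nonneg_left (mul_le_mul_of_nonneg_left h3 (sq_nonneg x)) (sq_nonneg t)
    linarith
  have h5 : ∫ x, (1 + t * x + t ^ 2 * (x ^ 2 * Real.exp (T * |x|))) ∂μ =
      1 + (∫ x, x ^ 2 * Real.exp (T * |x|) ∂μ) * t ^ 2 := by
    have hA : Integrable (fun x => 1 + t * x) μ :=
      (integrable_const _).add (hμ.integrable_id.const_mul t)
    rw [integral_add hA (hi.const_mul _),
      integral_add (integrable_const _) (hμ.integrable_id.const_mul t),
      integral_const_mul, integral_const_mul, hmean]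
    simp only [integral_const, probReal_univ, smul_eq_mul, one_mul, mul_zero, add_zero]
    ring
  unfold lmg
  have h6 := Real.log_le_sub_one_of_pos (integral_exp_pos (hμ t))
  have h7 : 0 ≤ t ^ 2 := sq_nonneg t
  linarith

end lmg

end

end Pool.Agent.HZ
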