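import Pool.Agent.Lib.MP_daa227_pr_HZ.Basic
import Pool.Agent.Lib.MP_daa227_pr_HZ.Lmg
import Pool.Agent.Lib.MP_daa227_pr.Mom

/-!
# Exact first moments and the fractional moment of one excursion
-/

namespace Pool.Agent.HZ

open MeasureTheory ProbabilityTheory Set Filter
open scoped ENNReal Topology
open MP_daa227_pr (Chain Zk Zf Gk Gf KU K0 ushift shift seqLaw ExpMom Good GoodW mom)

noncomputable section

namespace A3

/-- general site weights -/
def Wg (s r : ℤ → ℝ) : ℝ → ℤ → ℝ := fun a z => Real.exp (s z * a - r z)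

theorem goodWg {s r : ℤ → ℝ} {κ : ℝ} (hs : ∀ z, |s z| ≤ κ) : GoodW κ (Wg s r) := by
  refine ⟨fun z => ?_, fun a z => Real.exp_pos _, fun a b z => ?_⟩
  · unfold Wg; fun_prop
  · unfold Wg
    rw [← Real.exp_add]
    apply Real.exp_le_exp.2
    have h1 : s z * (a - b) ≤ κ * |a - b| := by
      calc s z * (a - b) ≤ |s z * (a - b)| := le_abs_self _
        _ = |s z| * |a - b| := abs_mul _ _
        _ ≤ _ := mul_le_mul_of_nonneg_right (hs z) (abs_nonneg _)
    nlinarith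

variable {μ : Measure ℝ} [IsProbabilityMeasure μ] {κ : ℝ} {s r : ℤ → ℝ} (C : Chain)

/-- first moment of a site weight -/
theorem mom_W (hμ : ExpMom μ) (s r : ℤ → ℝ) (z : ℤ) :
    mom μ 1 (fun ω => Wg s r (ω 0) z) = ENNReal.ofReal (Real.exp (lmg μ (s z) - r z)) := by
  rw [MP_daa227_pr.mom_one]
  have hm : Measurable fun a : ℝ => ENNReal.ofReal (Wg s r a z) := by
    unfold Wg
    fun_prop
  rw [MP_daa227_pr.lintegral_apply μ 0 hm]
  have h1 : ∀ a : ℝ, Wg s r a z = Real.exp (s z * a) * Real.exp (-r z) := fun a => by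
    unfold Wg
    rw [← Real.exp_add]
    congr 1
  have hi : Integrable (fun a : ℝ => Wg s r a z) μ := by
    simp_rw [h1]
    exact (hμ (s z)).mul_const _
  rw [← ofReal_integral_eq_lintegral_ofReal hi (ae_of_all _ fun _ => (Real.exp_pos _).le)]
  congr 1
  simp_rw [h1]
  rw [integral_mul_const, ← exp_lmg hμ, ← Real.exp_add]
  congr 1

/-- one step of the first moment computation -/
theorem mom_step (hμ : ExpMom μ) (hs : ∀ z, |s z| ≤ κ) (x : ℤ) (S : Finset ℤ)
    {F : ℤ → (ℕ → ℝ) → ℝ} (hF : ∀ z, Measurable (F z)) (hF0 : ∀ z ω, 0 ≤ F z ω) {f : ℤ → ℝ}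
    (hf0 : ∀ z, 0 ≤ f z) (hf : ∀ z, mom μ 1 (F z) = ENNReal.ofReal (f z)) :
    mom μ 1 (fun ω => ∑ z ∈ S, C.p x z * Wg s r (ω 0) z * F z (shift 1 ω)) =
      ENNReal.ofReal (∑ z ∈ S, C.p x z * Real.exp (lmg μ (s z) - r z) * f z) := by
  have hG := goodWg (r := r) hs
  have hW0 : ∀ z, Measurable fun ω : ℕ → ℝ => Wg s r (ω 0) z := fun z =>
    (hG.meas z).comp (measurable_pi_apply 0)
  have hterm : ∀ z, mom μ 1 (fun ω => C.p x z * Wg s r (ω 0) z * F z (shift 1 ω)) =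
      ENNReal.ofReal (C.p x z * Real.exp (lmg μ (s z) - r z) * f z) := by
    intro z
    have h1 : mom μ 1 (fun ω => C.p x z * Wg s r (ω 0) z * F z (shift 1 ω)) =
        mom μ 1 (fun ω => C.p x z * (Wg s r (ω 0) z * F z (shift 1 ω))) :=
      MP_daa227_pr.mom_congr fun ω => by ring
    have hm1 : Measurable fun ω : ℕ → ℝ => Wg s r (ω 0) z * F z (shift 1 ω) :=
      (hW0 z).mul ((hF z).comp (MP_daa227_pr.measurable_shift 1))
    rw [h1, MP_daa227_pr.mom_const_mul zero_le_one (C.nonneg x z) hm1,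
      MP_daa227_pr.mom_mul_shift (k := 1) (F := fun ω => Wg s r (ω 0) z) (G := F z) zero_le_one
        (hW0 z) (hF z) (fun ω ω' h => by simp only [h 0 one_pos]) (fun ω => (hG.pos _ _).le),
      mom_W hμ, hf, ENNReal.rpow_one, ← ENNReal.ofReal_mul (Real.exp_pos _).le,
      ← ENNReal.ofReal_mul (C.nonneg x z), mul_assoc]
  rw [MP_daa227_pr.mom_one]
  have h2 : ∀ ω : ℕ → ℝ, ENNReal.ofReal (∑ z ∈ S, C.p x z * Wg s r (ω 0) z * F z (shift 1 ω)) =
      ∑ z ∈ S, ENNReal.ofReal (C.p x z * Wg s r (ω 0) z * F z (shift 1 ω)) := fun ω =>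
    ENNReal.ofReal_sum_of_nonneg fun z _ =>
      mul_nonneg (mul_nonneg (C.nonneg _ _) (hG.pos _ _).le) (hF0 _ _)
  simp_rw [h2]
  have hm2 : ∀ z ∈ S, Measurable fun ω : ℕ → ℝ =>
      ENNReal.ofReal (C.p x z * Wg s r (ω 0) z * F z (shift 1 ω)) := fun z _ =>
    (((hW0 z).const_mul _).mul
      ((hF z).comp (MP_daa227_pr.measurable_shift 1))).ennreal_ofReal
  rw [lintegral_finsetSum _ hm2,
    ENNReal.ofReal_sum_of_nonneg fun z _ =>
      mul_nonneg (mul_nonneg (C.nonneg _ _) (Real.exp_pos _).le) (hf0 _)]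
  refine Finset.sum_congr rfl fun z _ => ?_
  rw [← hterm z, MP_daa227_pr.mom_one]

theorem mom_Zk (hμ : ExpMom μ) (hs : ∀ z, |s z| ≤ κ) : ∀ (n : ℕ) (x y : ℤ),
    mom μ 1 (fun ω => Zk C (Wg s r) n ω x y) =
      ENNReal.ofReal (Zd C (fun z => lmg μ (s z) - r z) n x y)
  | 0, x, y => by
    unfold Zd
    simp only [Zk]
    rw [MP_daa227_pr.mom_const, ENNReal.rpow_one]
  | n + 1, x, y => by
    have hκ : 0 ≤ κ := (abs_nonneg _).trans (hs 0)
    have hg := fun z => MP_daa227_pr.good_Zk C hκ (goodWg (r := r) hs) n z y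
    have h := mom_step (μ := μ) (r := r) C hμ hs x (Finset.Icc (x - 1) (x + 1))
      (F := fun z ω => Zk C (Wg s r) n ω z y) (fun z => (hg z).meas) (fun z ω => (hg z).nonneg ω)
      (f := fun z => Zd C (fun z => lmg μ (s z) - r z) n z y) (fun z => Zd_nonneg C _ n z y)
      (fun z => mom_Zk hμ hs n z y)
    exact h

theorem Zfd_nonneg (C : Chain) (v : ℤ → ℝ) : ∀ (n : ℕ) (x : ℤ), 0 ≤ Zfd C v n x
  | 0, x => by
    unfold Zfd
    rw [Zf]
    exact zero_le_one
  | n + 1, x => by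
    unfold Zfd
    rw [Zf]
    exact Finset.sum_nonneg fun z _ =>
      mul_nonneg (mul_nonneg (C.nonneg _ _) (Real.exp_pos _).le) (Zfd_nonneg C v n z)

theorem mom_Zf (hμ : ExpMom μ) (hs : ∀ z, |s z| ≤ κ) : ∀ (n : ℕ) (x : ℤ),
    mom μ 1 (fun ω => Zf C (Wg s r) n ω x) =
      ENNReal.ofReal (Zfd C (fun z => lmg μ (s z) - r z) n x)
  | 0, x => by
    unfold Zfd
    simp only [Zf]
    rw [MP_daa227_pr.mom_const, ENNReal.rpow_one]
  | n + 1, x => by
    have hκ : 0 ≤ κ := (abs_nonneg _).trans (hs 0)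
    have hg := fun z => MP_daa227_pr.good_Zf C hκ (goodWg (r := r) hs) n z
    have h := mom_step (μ := μ) (r := r) C hμ hs x (Finset.Icc (x - 1) (x + 1))
      (F := fun z ω => Zf C (Wg s r) n ω z) (fun z => (hg z).meas) (fun z ω => (hg z).nonneg ω)
      (f := fun z => Zfd C (fun z => lmg μ (s z) - r z) n z) (fun z => Zfd_nonneg C _ n z)
      (fun z => mom_Zf hμ hs n z)
    exact h

theorem mom_Gk (hμ : ExpMom μ) (hs : ∀ z, |s z| ≤ κ) : ∀ (n : ℕ) (x : ℤ),
    mom μ 1 (fun ω => Gk C (Wg s r) {0} n ω x 0) =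
      ENNReal.ofReal (Kv C (fun z => lmg μ (s z) - r z) n x)
  | 0, x => by
    simp only [Gk, Kv_zero]
    rw [MP_daa227_pr.mom_const, ENNReal.rpow_one]
  | n + 1, x => by
    have hκ : 0 ≤ κ := (abs_nonneg _).trans (hs 0)
    have hG := goodWg (r := r) hs
    have hg := fun z => MP_daa227_pr.good_Gk C hκ hG {0} n z 0
    have h := mom_step (μ := μ) (r := r) C hμ hs x (Finset.Icc (x - 1) (x + 1) \ {0})
      (F := fun z ω => Gk C (Wg s r) {0} n ω z 0) (fun z => (hg z).meas)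
      (fun z ω => (hg z).nonneg ω)
      (f := fun z => Kv C (fun z => lmg μ (s z) - r z) n z) (fun z => Kv_nonneg C _ n z)
      (fun z => mom_Gk hμ hs n z)
    have hW0 : Measurable fun ω : ℕ → ℝ => Wg s r (ω 0) 0 :=
      (hG.meas 0).comp (measurable_pi_apply 0)
    have hA : mom μ 1 (fun ω => if n = 0 then C.p x 0 * Wg s r (ω 0) 0 else 0) =
        ENNReal.ofReal (if n = 0 then C.p x 0 * Real.exp (lmg μ (s 0) - r 0) else 0) := by
      by_cases hn : n = 0
      · simp only [if_pos hn]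
        rw [MP_daa227_pr.mom_const_mul zero_le_one (C.nonneg x 0) hW0, mom_W hμ,
          ENNReal.rpow_one, ← ENNReal.ofReal_mul (C.nonneg x 0)]
      · simp only [if_neg hn]
        rw [MP_daa227_pr.mom_const, ENNReal.rpow_one]
    have hA0 : ∀ ω : ℕ → ℝ, 0 ≤ (if n = 0 then C.p x 0 * Wg s r (ω 0) 0 else 0) := fun ω => by
      split_ifs
      · exact mul_nonneg (C.nonneg _ _) (hG.pos _ _).le
      · exact le_rfl
    have hAm : Measurable fun ω : ℕ → ℝ => (if n = 0 then C.p x 0 * Wg s r (ω 0) 0 else 0) := by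
      by_cases hn : n = 0
      · simp only [if_pos hn]
        exact hW0.const_mul _
      · simp only [if_neg hn]
        exact measurable_const
    have hB0 : ∀ ω : ℕ → ℝ, 0 ≤ ∑ z ∈ Finset.Icc (x - 1) (x + 1) \ {0},
        C.p x z * Wg s r (ω 0) z * Gk C (Wg s r) {0} n (shift 1 ω) z 0 := fun ω =>
      Finset.sum_nonneg fun z _ =>
        mul_nonneg (mul_nonneg (C.nonneg _ _) (hG.pos _ _).le) ((hg z).nonneg _)
    have hsum : mom μ 1 (fun ω => Gk C (Wg s r) {0} (n + 1) ω x 0) =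
        mom μ 1 (fun ω => if n = 0 then C.p x 0 * Wg s r (ω 0) 0 else 0) +
        mom μ 1 (fun ω => ∑ z ∈ Finset.Icc (x - 1) (x + 1) \ {0},
          C.p x z * Wg s r (ω 0) z * Gk C (Wg s r) {0} n (shift 1 ω) z 0) := by
      rw [MP_daa227_pr.mom_one, MP_daa227_pr.mom_one, MP_daa227_pr.mom_one,
        ← lintegral_add_left hAm.ennreal_ofReal]
      refine lintegral_congr fun ω => ?_
      rw [← ENNReal.ofReal_add (hA0 ω) (hB0 ω)]
      simp only [Gk]
    rw [hsum, hA, h, Kv_succ, ENNReal.ofReal_add]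
    · split_ifs
      · exact mul_nonneg (C.nonneg _ _) (Real.exp_pos _).le
      · exact le_rfl
    · exact Finset.sum_nonneg fun z _ =>
        mul_nonneg (mul_nonneg (C.nonneg _ _) (Real.exp_pos _).le) (Kv_nonneg C _ n z)

/-- the effect of a tilt on the excursion weights -/
theorem Gk_tilt (s r : ℤ → ℝ) (l : ℝ) : ∀ (n : ℕ) (ω : ℕ → ℝ) (x : ℤ),
    Gk C (Wg (fun z => s z - l) r) {0} n ω x 0 =
      Real.exp (-l * ∑ i ∈ Finset.range n, ω i) * Gk C (Wg s r) {0} n ω x 0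
  | 0, ω, x => by simp only [Gk, mul_zero]
  | n + 1, ω, x => by
    have hW : ∀ z, Wg (fun z => s z - l) r (ω 0) z = Real.exp (-l * ω 0) * Wg s r (ω 0) z := by
      intro z
      unfold Wg
      rw [← Real.exp_add]
      congr 1
      ring
    have ih := fun z => Gk_tilt s r l n (shift 1 ω) z
    have hE : Real.exp (-l * ∑ i ∈ Finset.range (n + 1), ω i) =
        Real.exp (-l * ∑ i ∈ Finset.range n, shift 1 ω i) * Real.exp (-l * ω 0) := by
      rw [← Real.exp_add, Finset.sum_range_succ']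
      congr 1
      simp only [MP_daa227_pr.shift_apply]
      ring
    rw [Gk, Gk, hE]
    by_cases hn : n = 0
    · subst hn
      simp only [Gk, if_true, Finset.range_zero, Finset.sum_empty, mul_zero, Real.exp_zero,
        Finset.sum_const_zero, add_zero, one_mul]
      rw [hW]
      ring
    · generalize Real.exp (-l * ∑ i ∈ Finset.range n, shift 1 ω i) = E at ih ⊢
      rw [if_neg hn, if_neg hn, zero_add, zero_add, Finset.mul_sum]
      refine Finset.sum_congr rfl fun z _ => ?_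
      rw [ih z, hW]
      ring

/-- exponential moment of the sum of the charges -/
theorem exp_sum (hμ : ExpMom μ) (t : ℝ) : ∀ n : ℕ,
    ∫⁻ ω : ℕ → ℝ, ENNReal.ofReal (Real.exp (t * ∑ i ∈ Finset.range n, ω i)) ∂seqLaw μ =
      ENNReal.ofReal (Real.exp (n * lmg μ t))
  | 0 => by
    simp
  | n + 1 => by
    have hm : Measurable fun ω : ℕ → ℝ =>
        ENNReal.ofReal (Real.exp (t * ∑ i ∈ Finset.range (n + 1), ω i)) := by fun_prop
    rw [MP_daa227_pr.lintegral_cons μ hm]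
    have h1 : ∀ x : ℝ, ∫⁻ ω : ℕ → ℝ, ENNReal.ofReal (Real.exp (t * ∑ i ∈ Finset.range (n + 1),
        MP_daa227_pr.cons x ω i)) ∂seqLaw μ =
        ENNReal.ofReal (Real.exp (t * x)) * ENNReal.ofReal (Real.exp (n * lmg μ t)) := by
      intro x
      rw [← exp_sum hμ t n, ← lintegral_const_mul _ (by fun_prop)]
      apply lintegral_congr
      intro ω
      rw [← ENNReal.ofReal_mul (Real.exp_pos _).le, ← Real.exp_add, Finset.sum_range_succ']
      simp only [MP_daa227_pr.cons_succ, MP_daa227_pr.cons_zero]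
      congr 2
      ring
    simp_rw [h1]
    rw [lintegral_mul_const _ (by fun_prop),
      ← ofReal_integral_eq_lintegral_ofReal (hμ t) (ae_of_all _ fun _ => (Real.exp_pos _).le),
      ← exp_lmg hμ t, ← ENNReal.ofReal_mul (Real.exp_pos _).le, ← Real.exp_add]
    congr 2
    push_cast
    ring

/-- Hoelder inequality with a tilt -/
theorem mom_tilt (hμ : ExpMom μ) {θ : ℝ} (hθ : 0 < θ) (lam : ℝ) (k : ℕ) {F : (ℕ → ℝ) → ℝ}
    (hF : Measurable F) {f : ℝ} (hf0 : 0 ≤ f)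
    (hf : mom μ 1 (fun ω => Real.exp (-(θ * lam) * ∑ i ∈ Finset.range k, ω i) * F ω) =
      ENNReal.ofReal f) :
    mom μ (1 / (1 + θ)) F ≤
      ENNReal.ofReal (f * Real.exp (k * (θ * lmg μ lam))) ^ (1 / (1 + θ)) := by
  have h1θ : 0 < 1 + θ := by linarith
  set γ : ℝ := 1 / (1 + θ) with hγ
  have hγ0 : 0 < γ := by positivity
  have hpq : (1 + θ).HolderConjugate ((1 + θ) / θ) := by
    rw [Real.holderConjugate_iff]
    refine ⟨by linarith, ?_⟩
    field_simp
  let f1 : (ℕ → ℝ) → ℝ≥0∞ := fun ω =>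
    ENNReal.ofReal (Real.exp (-(θ * lam) * ∑ i ∈ Finset.range k, ω i) * F ω) ^ γ
  let g1 : (ℕ → ℝ) → ℝ≥0∞ := fun ω =>
    ENNReal.ofReal (Real.exp ((θ * lam) * ∑ i ∈ Finset.range k, ω i)) ^ γ
  have hf1 : Measurable f1 := by
    apply Measurable.pow_const
    apply Measurable.ennreal_ofReal
    exact Measurable.mul (by fun_prop) hF
  have hg1 : Measurable g1 := by
    apply Measurable.pow_const
    apply Measurable.ennreal_ofReal
    fun_prop
  have hH := ENNReal.lintegral_mul_le_Lp_mul_Lq (seqLaw μ) hpq hf1.aemeasurable hg1.aemeasurable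
  have hprod : ∀ ω, (f1 * g1) ω = ENNReal.ofReal (F ω) ^ γ := by
    intro ω
    change f1 ω * g1 ω = _
    simp only [f1, g1]
    rw [← ENNReal.mul_rpow_of_nonneg _ _ hγ0.le, mul_comm (ENNReal.ofReal _) (ENNReal.ofReal _),
      ← ENNReal.ofReal_mul (Real.exp_pos _).le, ← mul_assoc, ← Real.exp_add]
    congr 2
    have : θ * lam * ∑ i ∈ Finset.range k, ω i + -(θ * lam) * ∑ i ∈ Finset.range k, ω i = 0 := by
      ring
    rw [this, Real.exp_zero, one_mul]
  have hf2 : ∀ ω, f1 ω ^ (1 + θ) =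
      ENNReal.ofReal (Real.exp (-(θ * lam) * ∑ i ∈ Finset.range k, ω i) * F ω) := by
    intro ω
    simp only [f1]
    rw [← ENNReal.rpow_mul, hγ, one_div_mul_cancel h1θ.ne', ENNReal.rpow_one]
  have hg2 : ∀ ω, g1 ω ^ ((1 + θ) / θ) =
      ENNReal.ofReal (Real.exp (lam * ∑ i ∈ Finset.range k, ω i)) := by
    intro ω
    simp only [g1]
    have e1 : γ * ((1 + θ) / θ) = 1 / θ := by
      rw [hγ]
      field_simp
    rw [← ENNReal.rpow_mul, e1, ENNReal.ofReal_rpow_of_pos (Real.exp_pos _), ← Real.exp_mul]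
    congr 2
    field_simp
  have hL : mom μ γ F = ∫⁻ ω, (f1 * g1) ω ∂seqLaw μ := by
    unfold mom
    exact lintegral_congr fun ω => (hprod ω).symm
  rw [hL]
  refine hH.trans (le_of_eq ?_)
  simp_rw [hf2, hg2]
  rw [exp_sum hμ, ← MP_daa227_pr.mom_one, hf, ENNReal.ofReal_mul hf0,
    ENNReal.mul_rpow_of_nonneg _ _ hγ0.le]
  congr 1
  rw [ENNReal.ofReal_rpow_of_pos (Real.exp_pos _), ENNReal.ofReal_rpow_of_pos (Real.exp_pos _),
    ← Real.exp_mul, ← Real.exp_mul]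
  congr 2
  rw [hγ]
  field_simp

theorem Kv_add_const (u : ℤ → ℝ) (c : ℝ) : ∀ (n : ℕ) (x : ℤ),
    Kv C (fun z => u z + c) n x = Real.exp (n * c) * Kv C u n x
  | 0, x => by simp only [Kv_zero, mul_zero]
  | n + 1, x => by
    rw [Kv_succ, Kv_succ, mul_add, Finset.mul_sum]
    congr 1
    · by_cases hn : n = 0
      · subst hn
        simp only [if_true]
        rw [Real.exp_add]
        simp only [zero_add, Nat.cast_one, one_mul]
        ring
      · rw [if_neg hn, if_neg hn, mul_zero]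
    · refine Finset.sum_congr rfl fun z _ => ?_
      rw [Kv_add_const u c n z]
      have : Real.exp (((n + 1 : ℕ) : ℝ) * c) = Real.exp c * Real.exp (n * c) := by
        rw [← Real.exp_add]
        congr 1
        push_cast
        ring
      rw [this, Real.exp_add]
      ring

end A3

namespace Mod

theorem A3_W (M : Mod) (h : ℝ) : M.W h = A3.Wg (fun z => M.β * M.φ z) (fun z => h * M.φ z) := by
  funext a z
  unfold W A3.Wg
  congr 1
  ring

theorem A3_abs (M : Mod) (z : ℤ) : |M.β * M.φ z| ≤ M.κ := by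
  rw [abs_of_nonneg (mul_nonneg M.β_pos.le (M.φ_nonneg z))]
  exact mul_le_mul_of_nonneg_left (M.φ_le z) M.β_pos.le

theorem mom_one_Zk (M : Mod) (h : ℝ) (n : ℕ) (x y : ℤ) :
    mom M.μ 1 (fun ω => Zk M.C (M.W h) n ω x y) = ENNReal.ofReal (Zd M.C (M.v h) n x y) := by
  rw [M.A3_W h]
  exact A3.mom_Zk M.C M.exp_mom M.A3_abs n x y

theorem mom_one_Zf (M : Mod) (h : ℝ) (n : ℕ) (x : ℤ) :
    mom M.μ 1 (fun ω => Zf M.C (M.W h) n ω x) = ENNReal.ofReal (Zfd M.C (M.v h) n x) := by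
  rw [M.A3_W h]
  exact A3.mom_Zf M.C M.exp_mom M.A3_abs n x

/-- fractional moment of one excursion, with a tilt of the charges -/
theorem mom_exc (M : Mod) {θ : ℝ} (hθ : 0 < θ) (lam h : ℝ) (σ : ℤ) (n : ℕ) :
    mom M.μ (1 / (1 + θ)) (fun ω => M.C.p 0 σ * M.W h (ω 0) σ *
      Gk M.C (M.W h) {0} n (shift 1 ω) σ 0) ≤
    ENNReal.ofReal (Ep M.C (M.wt θ lam h) σ n) ^ (1 / (1 + θ)) := by
  set u : ℤ → ℝ := fun z => lmg M.μ (M.β * M.φ z - θ * lam) - h * M.φ z with hu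
  have hs : ∀ z, |M.β * M.φ z - θ * lam| ≤ M.κ + |θ * lam| := fun z =>
    (abs_sub _ _).trans (by have := M.A3_abs z; linarith)
  have hκ : 0 ≤ M.κ := M.κ_pos.le
  have hG0 := A3.goodWg (r := fun z => h * M.φ z) M.A3_abs
  have hG1 := A3.goodWg (r := fun z => h * M.φ z) hs
  have hmeas : Measurable fun ω : ℕ → ℝ => M.C.p 0 σ * M.W h (ω 0) σ *
      Gk M.C (M.W h) {0} n (shift 1 ω) σ 0 := by
    rw [M.A3_W h]
    exact (((hG0.meas σ).comp (measurable_pi_apply 0)).const_mul _).mul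
      ((MP_daa227_pr.good_Gk M.C hκ hG0 {0} n σ 0).meas.comp (MP_daa227_pr.measurable_shift 1))
  have hone : mom M.μ 1 (fun ω => Real.exp (-(θ * lam) * ∑ i ∈ Finset.range (n + 1), ω i) *
      (M.C.p 0 σ * M.W h (ω 0) σ * Gk M.C (M.W h) {0} n (shift 1 ω) σ 0)) =
      ENNReal.ofReal (Ep M.C u σ n) := by
    have h1 : ∀ ω : ℕ → ℝ, Real.exp (-(θ * lam) * ∑ i ∈ Finset.range (n + 1), ω i) *
        (M.C.p 0 σ * M.W h (ω 0) σ * Gk M.C (M.W h) {0} n (shift 1 ω) σ 0) =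
        ∑ z ∈ ({σ} : Finset ℤ), M.C.p 0 z * A3.Wg (fun z => M.β * M.φ z - θ * lam)
          (fun z => h * M.φ z) (ω 0) z * Gk M.C (A3.Wg (fun z => M.β * M.φ z - θ * lam)
          (fun z => h * M.φ z)) {0} n (shift 1 ω) z 0 := by
      intro ω
      rw [Finset.sum_singleton, A3.Gk_tilt M.C (fun z => M.β * M.φ z) (fun z => h * M.φ z), M.A3_W h,
        Finset.sum_range_succ', mul_add, Real.exp_add]
      have h2 : A3.Wg (fun z => M.β * M.φ z - θ * lam) (fun z => h * M.φ z) (ω 0) σ =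
          Real.exp (-(θ * lam) * ω 0) *
            A3.Wg (fun z => M.β * M.φ z) (fun z => h * M.φ z) (ω 0) σ := by
        unfold A3.Wg
        rw [← Real.exp_add]
        congr 1
        ring
      rw [h2]
      simp only [MP_daa227_pr.shift_apply]
      ring
    rw [MP_daa227_pr.mom_congr h1]
    have h3 := A3.mom_step (μ := M.μ) (r := fun z => h * M.φ z) M.C M.exp_mom hs 0 {σ}
      (F := fun z ω => Gk M.C (A3.Wg (fun z => M.β * M.φ z - θ * lam)
          (fun z => h * M.φ z)) {0} n ω z 0)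
      (fun z => (MP_daa227_pr.good_Gk M.C (by positivity) hG1 {0} n z 0).meas)
      (fun z ω => (MP_daa227_pr.good_Gk M.C (by positivity) hG1 {0} n z 0).nonneg ω)
      (f := fun z => Kv M.C u n z) (fun z => Kv_nonneg M.C u n z)
      (fun z => A3.mom_Gk M.C M.exp_mom hs n z)
    rw [h3, Finset.sum_singleton]
    rfl
  refine (A3.mom_tilt M.exp_mom hθ lam (n + 1) hmeas (Ep_nonneg M.C u σ n) hone).trans
    (le_of_eq ?_)
  congr 2
  have hwt : M.wt θ lam h = fun z => u z + θ * lmg M.μ lam := rfl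
  rw [hwt]
  unfold Ep
  rw [A3.Kv_add_const, Real.exp_add]
  have : Real.exp (((n + 1 : ℕ) : ℝ) * (θ * lmg M.μ lam)) =
      Real.exp (θ * lmg M.μ lam) * Real.exp (n * (θ * lmg M.μ lam)) := by
    rw [← Real.exp_add]
    congr 1
    push_cast
    ring
  rw [this]
  ring

/-- the holding step at `0` -/
theorem mom_hold (M : Mod) {γ : ℝ} (h0 : 0 < γ) (h1 : γ ≤ 1) (h : ℝ) :
    mom M.μ γ (fun ω => M.C.p 0 0 * M.W h (ω 0) 0) ≤
      ENNReal.ofReal (M.C.p 0 0 * Real.exp (M.v h 0)) ^ γ := by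
  have hm : Measurable fun ω : ℕ → ℝ => M.C.p 0 0 * M.W h (ω 0) 0 :=
    ((((M.goodW h).meas 0).comp (measurable_pi_apply 0))).const_mul _
  have h2 := MP_daa227_pr.mom_le_rpow (μ := M.μ) h0 h1 hm
    (fun ω => mul_nonneg (M.C.nonneg 0 0) (M.W_pos _ _ _).le)
  refine h2.trans (le_of_eq ?_)
  congr 1
  have h3 := A3.mom_step (μ := M.μ) (s := fun z => M.β * M.φ z) (r := fun z => h * M.φ z) M.C
    M.exp_mom M.A3_abs 0 {0} (F := fun _ _ => 1) (fun _ => measurable_const)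
    (fun _ _ => zero_le_one) (f := fun _ => 1) (fun _ => zero_le_one)
    (fun _ => by rw [MP_daa227_pr.mom_const]; simp)
  simp only [Finset.sum_singleton, mul_one] at h3
  rw [M.A3_W h]
  exact h3

theorem mom_G (M : Mod) {θ : ℝ} (hθ : 0 < θ) (lam h : ℝ) (n : ℕ) :
    mom M.μ (1 / (1 + θ)) (fun ω => M.G h (n + 1) ω) ≤
    ENNReal.ofReal (Es M.C (M.v h) 1 n ^ (1 / (1 + θ)) +
      Es M.C (M.wt θ lam h) (-1) n ^ (1 / (1 + θ))) := by
  have hγp : 0 < 1 / (1 + θ) := by positivity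
  have hγ0 : 0 ≤ 1 / (1 + θ) := hγp.le
  have hγ1 : 1 / (1 + θ) ≤ 1 := by
    rw [div_le_one (by linarith)]
    linarith
  have hκ : 0 ≤ M.κ := M.κ_pos.le
  have hterm : ∀ σ : ℤ, (Measurable fun ω : ℕ → ℝ => M.C.p 0 σ * M.W h (ω 0) σ *
      Gk M.C (M.W h) {0} n (shift 1 ω) σ 0) ∧ ∀ ω : ℕ → ℝ, 0 ≤ M.C.p 0 σ * M.W h (ω 0) σ *
      Gk M.C (M.W h) {0} n (shift 1 ω) σ 0 := by
    intro σ
    have hg := M.good_Gk h n σ 0
    exact ⟨((((M.goodW h).meas σ).comp (measurable_pi_apply 0)).const_mul _).mul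
      (hg.meas.comp (MP_daa227_pr.measurable_shift 1)), fun ω =>
      mul_nonneg (mul_nonneg (M.C.nonneg _ _) (M.W_pos _ _ _).le) (hg.nonneg _)⟩
  rcases Nat.eq_zero_or_pos n with hn | hn
  · subst hn
    have h1 : mom M.μ (1 / (1 + θ)) (fun ω => M.G h (0 + 1) ω) =
        mom M.μ (1 / (1 + θ)) (fun ω => M.C.p 0 0 * M.W h (ω 0) 0) :=
      MP_daa227_pr.mom_congr fun ω => by
        have h2 := Gk_split M.C (M.W h) 0 ω
        rw [if_pos rfl] at h2
        refine h2.trans ?_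
        have h3 : ∀ x, Gk M.C (M.W h) {0} 0 (shift 1 ω) x 0 = 0 := fun x => rfl
        rw [h3, h3]
        ring
    rw [h1]
    refine (M.mom_hold hγp hγ1 h).trans ?_
    have h2 : Es M.C (M.v h) 1 0 = M.C.p 0 0 * Real.exp (M.v h 0) := by
      rw [Es_eq]
      unfold Ep hd
      rw [Kv_zero, if_pos ⟨rfl, rfl⟩]
      ring
    rw [h2, ENNReal.ofReal_rpow_of_nonneg (mul_nonneg (M.C.nonneg 0 0) (Real.exp_pos _).le) hγ0]
    exact ENNReal.ofReal_le_ofReal (le_add_of_nonneg_right (Real.rpow_nonneg (Es_nonneg _ _ _ _) _))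
  have h1 : mom M.μ (1 / (1 + θ)) (fun ω => M.G h (n + 1) ω) =
      mom M.μ (1 / (1 + θ)) (fun ω => M.C.p 0 1 * M.W h (ω 0) 1 *
        Gk M.C (M.W h) {0} n (shift 1 ω) 1 0 + M.C.p 0 (-1) * M.W h (ω 0) (-1) *
        Gk M.C (M.W h) {0} n (shift 1 ω) (-1) 0) :=
    MP_daa227_pr.mom_congr fun ω => by
      have h2 := Gk_split M.C (M.W h) n ω
      rw [if_neg (by omega), add_zero] at h2
      exact h2
  rw [h1]
  refine (MP_daa227_pr.mom_add_le hγ0 hγ1 (hterm 1).1 (hterm 1).2 (hterm (-1)).2).trans ?_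
  have h2 := M.mom_exc hθ 0 h 1 n
  have h3 := M.mom_exc hθ lam h (-1) n
  have hv : M.wt θ 0 h = M.v h := by
    funext z
    unfold wt v
    rw [mul_zero, sub_zero, lmg_zero, mul_zero, add_zero]
  rw [hv] at h2
  have e1 : Ep M.C (M.v h) 1 n = Es M.C (M.v h) 1 n := (Es_pos_n M.C (M.v h) 1 hn).symm
  have e2 : Ep M.C (M.wt θ lam h) (-1) n = Es M.C (M.wt θ lam h) (-1) n :=
    (Es_neg M.C (M.wt θ lam h) n).symm
  rw [e1] at h2
  rw [e2] at h3
  rw [ENNReal.ofReal_add (Real.rpow_nonneg (Es_nonneg _ _ _ _) _)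
    (Real.rpow_nonneg (Es_nonneg _ _ _ _) _),
    ← ENNReal.ofReal_rpow_of_nonneg (Es_nonneg _ _ _ _) hγ0,
    ← ENNReal.ofReal_rpow_of_nonneg (Es_nonneg _ _ _ _) hγ0]
  exact add_le_add h2 h3

end Mod

end

end Pool.Agent.HZ
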