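import Pool.Agent.Lib.MP_daa227_pr_HZ.JenQ

/-!
# The block strategy
-/

namespace Pool.Agent.HZ

open MeasureTheory ProbabilityTheory Set Filter
open scoped ENNReal Topology
open MP_daa227_pr (Chain Zk Zf Gk Gf KU K0 ushift shift seqLaw ExpMom Good GoodW mom DepOn)

noncomputable section

namespace Strat

/-- independence of the first `k` charges and the others -/
theorem indep_shift (μ : Measure ℝ) [IsProbabilityMeasure μ] {k : ℕ} {X Y : (ℕ → ℝ) → ℝ}
    (hX : Measurable X) (hd : DepOn k X) (hY : Measurable Y) :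
    IndepFun X (fun ω => Y (shift k ω)) (seqLaw μ) := by
  have hYs : Measurable (fun ω => Y (shift k ω)) := hY.comp (MP_daa227_pr.measurable_shift k)
  rw [indepFun_iff_measure_inter_preimage_eq_mul]
  intro s t hs ht
  have h1 := MP_daa227_pr.lintegral_mul_shift μ (Y := (Y ⁻¹' t).indicator 1)
    (measurable_one.indicator (hY ht)) k (X := (X ⁻¹' s).indicator 1)
    (measurable_one.indicator (hX hs))
    (fun ω ω' h => by
      have h2 := hd ω ω' h
      by_cases h3 : X ω ∈ s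
      · rw [indicator_of_mem (show ω ∈ X ⁻¹' s from h3),
          indicator_of_mem (show ω' ∈ X ⁻¹' s from by rw [mem_preimage, ← h2]; exact h3)]
        rfl
      · rw [indicator_of_notMem (show ω ∉ X ⁻¹' s from h3),
          indicator_of_notMem (show ω' ∉ X ⁻¹' s from by rw [mem_preimage, ← h2]; exact h3)])
  have h2 : ∀ ω, (X ⁻¹' s).indicator (1 : (ℕ → ℝ) → ℝ≥0∞) ω *
      (Y ⁻¹' t).indicator (1 : (ℕ → ℝ) → ℝ≥0∞) (shift k ω) =
      (X ⁻¹' s ∩ (fun ω => Y (shift k ω)) ⁻¹' t).indicator (1 : (ℕ → ℝ) → ℝ≥0∞) ω := by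
    intro ω
    rw [inter_indicator_one]
    rfl
  simp_rw [h2] at h1
  rw [lintegral_indicator_one ((hX hs).inter (hYs ht)),
    lintegral_indicator_one (hX hs), lintegral_indicator_one (hY ht)] at h1
  rw [h1]
  congr 1
  conv_lhs => rw [← MP_daa227_pr.map_shift μ k]
  rw [Measure.map_apply (MP_daa227_pr.measurable_shift k) (hY ht)]
  rfl

theorem integrable_mul_shift (μ : Measure ℝ) [IsProbabilityMeasure μ] {k : ℕ}
    {X Y : (ℕ → ℝ) → ℝ} (hX : Measurable X) (hd : DepOn k X) (hY : Measurable Y)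
    (hiX : Integrable X (seqLaw μ)) (hiY : Integrable Y (seqLaw μ)) :
    Integrable (fun ω => X ω * Y (shift k ω)) (seqLaw μ) :=
  (indep_shift μ hX hd hY).integrable_mul hiX (MP_daa227_pr.integrable_shift μ k hY hiY)

theorem integral_mul_shift (μ : Measure ℝ) [IsProbabilityMeasure μ] {k : ℕ}
    {X Y : (ℕ → ℝ) → ℝ} (hX : Measurable X) (hd : DepOn k X) (hY : Measurable Y) :
    ∫ ω, X ω * Y (shift k ω) ∂seqLaw μ = (∫ ω, X ω ∂seqLaw μ) * ∫ ω, Y ω ∂seqLaw μ := by
  rw [← MP_daa227_pr.integral_shift μ k hY]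
  exact (indep_shift μ hX hd hY).integral_fun_mul_eq_mul_integral hX.aestronglyMeasurable
    (hY.comp (MP_daa227_pr.measurable_shift k)).aestronglyMeasurable

/-- the first `k` blocks are bad -/
def ab (n : ℕ) (b : (ℕ → ℝ) → ℝ) : ℕ → (ℕ → ℝ) → ℝ
  | 0, _ => 1
  | k + 1, ω => b ω * ab n b k (shift n ω)

section
variable {n : ℕ} {b : (ℕ → ℝ) → ℝ}

theorem ab_succ' (k : ℕ) (ω : ℕ → ℝ) :
    ab n b (k + 1) ω = ab n b k ω * b (shift (k * n) ω) := by
  induction k generalizing ω with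
  | zero => simp [ab]
  | succ k ih =>
    rw [ab, ih (shift n ω), MP_daa227_pr.shift_shift, ab, show k * n + n = (k + 1) * n by ring]
    ring

theorem ab_meas (hb : Measurable b) (k : ℕ) : Measurable (ab n b k) := by
  induction k with
  | zero => exact measurable_const
  | succ k ih => exact hb.mul (ih.comp (MP_daa227_pr.measurable_shift n))

theorem ab_dep (hb : DepOn n b) (k : ℕ) : DepOn (k * n) (ab n b k) := by
  induction k with
  | zero => intro ω ω' _; rfl
  | succ k ih =>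
    intro ω ω' h
    rw [ab, ab]
    rw [hb ω ω' fun i hi => h i (by nlinarith), ih (shift n ω) (shift n ω') fun i hi => h (i + n) (by
      rw [Nat.succ_mul]; omega)]

theorem ab_nonneg (h0 : ∀ ω, 0 ≤ b ω) (k : ℕ) (ω : ℕ → ℝ) : 0 ≤ ab n b k ω := by
  induction k generalizing ω with
  | zero => exact zero_le_one
  | succ k ih => exact mul_nonneg (h0 ω) (ih _)

theorem ab_le_one (h0 : ∀ ω, 0 ≤ b ω) (h1 : ∀ ω, b ω ≤ 1) (k : ℕ) (ω : ℕ → ℝ) :
    ab n b k ω ≤ 1 := by
  induction k generalizing ω with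
  | zero => exact le_rfl
  | succ k ih => exact mul_le_one₀ (h1 ω) (ab_nonneg h0 k _) (ih _)

theorem ab_sum (T : ℕ) (ω : ℕ → ℝ) :
    ∑ k ∈ Finset.range T, ab n b k ω * (1 - b (shift (k * n) ω)) + ab n b T ω = 1 := by
  induction T with
  | zero => simp [ab]
  | succ T ih =>
    rw [Finset.sum_range_succ, ab_succ']
    linarith

variable (μ : Measure ℝ) [IsProbabilityMeasure μ]

theorem ab_int (hb : Measurable b) (h0 : ∀ ω, 0 ≤ b ω) (h1 : ∀ ω, b ω ≤ 1) (k : ℕ) :
    Integrable (ab n b k) (seqLaw μ) :=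
  Integrable.of_bound (ab_meas hb k).aestronglyMeasurable 1 (ae_of_all _ fun ω => by
    rw [Real.norm_of_nonneg (ab_nonneg h0 k ω)]
    exact ab_le_one h0 h1 k ω)

theorem ab_integral (hb : Measurable b) (hd : DepOn n b) (k : ℕ) :
    ∫ ω, ab n b k ω ∂seqLaw μ = (∫ ω, b ω ∂seqLaw μ) ^ k := by
  induction k with
  | zero => simp [ab]
  | succ k ih =>
    simp only [ab]
    rw [integral_mul_shift μ hb hd (ab_meas hb k), ih, pow_succ]
    ring

/-- covariance of one charge with the event that the first block is bad -/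
theorem cov_one (hmean : ∫ x, x ∂μ = 0) (hvar : ∫ x, x ^ 2 ∂μ = 1)
    (hi1 : Integrable (fun x => x) μ) (hi2 : Integrable (fun x => x ^ 2) μ)
    (hb : Measurable b) (h01 : ∀ ω, b ω = 0 ∨ b ω = 1) {p : ℝ} (hp0 : 0 < p)
    (hp : ∫ ω, b ω ∂seqLaw μ = 1 - p) (i : ℕ) :
    |∫ ω, ω i * b ω ∂seqLaw μ| ≤ Real.sqrt p := by
  have hI1 : Integrable (fun ω : ℕ → ℝ => ω i) (seqLaw μ) :=
    MP_daa227_pr.integrable_apply μ i measurable_id hi1
  have hI2 : Integrable (fun ω : ℕ → ℝ => ω i ^ 2) (seqLaw μ) :=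
    MP_daa227_pr.integrable_apply μ i (Y := fun x => x ^ 2) (by fun_prop) hi2
  have hE1 : ∫ ω : ℕ → ℝ, ω i ∂seqLaw μ = 0 := by
    rw [MP_daa227_pr.integral_apply μ i (Y := fun x => x) measurable_id, hmean]
  have hE2 : ∫ ω : ℕ → ℝ, ω i ^ 2 ∂seqLaw μ = 1 := by
    rw [MP_daa227_pr.integral_apply μ i (Y := fun x => x ^ 2) (by fun_prop), hvar]
  have hbI : Integrable b (seqLaw μ) :=
    Integrable.of_bound hb.aestronglyMeasurable 1 (ae_of_all _ fun ω => by
      rcases h01 ω with h | h <;> (rw [h]; norm_num))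
  have hbb : ∀ ω, |b ω| ≤ 1 := fun ω => by
    rcases h01 ω with h | h <;> (rw [h]; norm_num)
  have hIb : Integrable (fun ω : ℕ → ℝ => ω i * b ω) (seqLaw μ) :=
    hI1.mul_bdd (c := 1) hb.aestronglyMeasurable (ae_of_all _ fun ω => hbb ω)
  set s := Real.sqrt p with hs
  have hs0 : 0 < s := Real.sqrt_pos.2 hp0
  have hss : s * s = p := Real.mul_self_sqrt hp0.le
  have h1 : ∫ ω : ℕ → ℝ, ω i * b ω ∂seqLaw μ = -∫ ω : ℕ → ℝ, ω i * (1 - b ω) ∂seqLaw μ := by
    have h2 : ∫ ω : ℕ → ℝ, ω i * (1 - b ω) ∂seqLaw μ =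
        (∫ ω : ℕ → ℝ, ω i ∂seqLaw μ) - ∫ ω : ℕ → ℝ, ω i * b ω ∂seqLaw μ := by
      rw [← integral_sub hI1 hIb]
      refine integral_congr_ae (ae_of_all _ fun ω => ?_)
      simp only
      ring
    rw [h2, hE1]
    ring
  rw [h1, abs_neg]
  have hI4 : Integrable (fun ω : ℕ → ℝ => 1 - b ω) (seqLaw μ) := (integrable_const 1).sub hbI
  have hI3 : Integrable (fun ω : ℕ → ℝ => (1 - b ω) / s) (seqLaw μ) := hI4.div_const s
  have hdom : Integrable (fun ω : ℕ → ℝ => (s * ω i ^ 2 + (1 - b ω) / s) / 2) (seqLaw μ) :=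
    ((hI2.const_mul s).add hI3).div_const 2
  have h3 : |∫ ω : ℕ → ℝ, ω i * (1 - b ω) ∂seqLaw μ| ≤
      ∫ ω : ℕ → ℝ, (s * ω i ^ 2 + (1 - b ω) / s) / 2 ∂seqLaw μ := by
    refine abs_integral_le_integral_abs.trans (integral_mono_of_nonneg
      (ae_of_all _ fun ω => abs_nonneg _) hdom (ae_of_all _ fun ω => ?_))
    simp only
    rcases h01 ω with h | h
    · rw [h, sub_zero, mul_one]
      have h5 : 0 ≤ (s * |ω i| - 1) ^ 2 := sq_nonneg _
      have h6 : |ω i| ^ 2 = ω i ^ 2 := sq_abs _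
      rw [le_div_iff₀ (by norm_num : (0 : ℝ) < 2)]
      have h7 : |ω i| * 2 * s ≤ (s * ω i ^ 2 + 1 / s) * s := by
        have h8 : (s * ω i ^ 2 + 1 / s) * s = s ^ 2 * ω i ^ 2 + 1 := by
          field_simp
        rw [h8, ← h6]
        nlinarith
      exact le_of_mul_le_mul_right h7 hs0
    · rw [h, sub_self, mul_zero, abs_zero, zero_div, add_zero]
      positivity
  refine h3.trans (le_of_eq ?_)
  rw [integral_div, integral_add (hI2.const_mul s) hI3,
    integral_const_mul, hE2, integral_div, integral_sub (integrable_const 1) hbI, hp]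
  simp only [integral_const, probReal_univ, smul_eq_mul, mul_one]
  have h9 : (1 - (1 - p)) / s = s := by
    rw [div_eq_iff hs0.ne', hss]
    ring
  rw [h9]
  ring

/-- covariance of one charge with the event that the first `k + 1` blocks are bad -/
theorem cov_ab (hmean : ∫ x, x ∂μ = 0) (hvar : ∫ x, x ^ 2 ∂μ = 1)
    (hi1 : Integrable (fun x => x) μ) (hi2 : Integrable (fun x => x ^ 2) μ)
    (hb : Measurable b) (hd : DepOn n b) (h01 : ∀ ω, b ω = 0 ∨ b ω = 1) {p : ℝ} (hp0 : 0 < p)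
    (hp1 : p ≤ 1) (hp : ∫ ω, b ω ∂seqLaw μ = 1 - p) (k : ℕ) :
    ∀ i < (k + 1) * n, |∫ ω, ω i * ab n b (k + 1) ω ∂seqLaw μ| ≤ Real.sqrt p * (1 - p) ^ k := by
  have hq0 : 0 ≤ 1 - p := by linarith
  induction k with
  | zero =>
    intro i hi
    have h1 : ∀ ω : ℕ → ℝ, ω i * ab n b (0 + 1) ω = ω i * b ω := fun ω => by simp [ab]
    simp_rw [h1]
    rw [pow_zero, mul_one]
    exact cov_one μ hmean hvar hi1 hi2 hb h01 hp0 hp i
  | succ k ih =>
    intro i hi
    by_cases hin : i < n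
    · have h1 : ∀ ω : ℕ → ℝ, ω i * ab n b (k + 1 + 1) ω =
          (ω i * b ω) * ab n b (k + 1) (shift n ω) := fun ω => by
        rw [ab]
        ring
      simp_rw [h1]
      have hm : Measurable fun ω : ℕ → ℝ => ω i * b ω := (measurable_pi_apply i).mul hb
      have hdd : DepOn n fun ω : ℕ → ℝ => ω i * b ω := fun ω ω' h => by
        simp only
        rw [h i hin, hd ω ω' h]
      rw [integral_mul_shift μ hm hdd (ab_meas hb (k + 1)), ab_integral μ hb hd, hp, abs_mul,
        abs_of_nonneg (pow_nonneg hq0 _)]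
      exact mul_le_mul_of_nonneg_right (cov_one μ hmean hvar hi1 hi2 hb h01 hp0 hp i)
        (pow_nonneg hq0 _)
    · push Not at hin
      have h1 : ∀ ω : ℕ → ℝ, ω i * ab n b (k + 1 + 1) ω =
          b ω * ((shift n ω) (i - n) * ab n b (k + 1) (shift n ω)) := fun ω => by
        rw [ab, MP_daa227_pr.shift_apply, Nat.sub_add_cancel hin]
        ring
      simp_rw [h1]
      rw [integral_mul_shift μ hb hd (Y := fun ω => ω (i - n) * ab n b (k + 1) ω)
        ((measurable_pi_apply _).mul (ab_meas hb (k + 1))), hp, abs_mul, abs_of_nonneg hq0]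
      have h2 := ih (i - n) (by
        have : (k + 1 + 1) * n = (k + 1) * n + n := by ring
        omega)
      calc (1 - p) * |∫ ω, ω (i - n) * ab n b (k + 1) ω ∂seqLaw μ|
          ≤ (1 - p) * (Real.sqrt p * (1 - p) ^ k) := mul_le_mul_of_nonneg_left h2 hq0
        _ = _ := by ring

end

/-- the linear recursion -/
theorem rec_sol {p u c₀ c₁ : ℝ} (hp0 : 0 ≤ p) (hp1 : p ≤ 1) (r : ℕ → ℝ)
    (hr : ∀ T, ∑ k ∈ Finset.range T, p * (1 - p) ^ k * (-(c₀ + c₁ * k) + u + r (T - k - 1)) -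
      (1 - p) ^ T * (c₀ + c₁ * T) ≤ r T) (T : ℕ) :
    T * (p * (u - c₀) - (1 - p) * c₁) - c₀ ≤ r T := by
  set a := p * (u - c₀) - (1 - p) * c₁ with ha
  have hq0 : 0 ≤ 1 - p := by linarith
  have hB : ∀ (T m : ℕ), ∑ j ∈ Finset.range T, p * (1 - p) ^ j *
      (-(c₀ + c₁ * (m + j : ℕ)) + u + ((T - j - 1 : ℕ) * a - c₀)) -
      (1 - p) ^ T * (c₀ + c₁ * (m + T : ℕ)) = T * a - c₀ - c₁ * m := by
    intro T
    induction T with
    | zero =>
      intro m
      simp
      ring
    | succ T ih =>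
      intro m
      rw [Finset.sum_range_succ']
      have h1 := ih (m + 1)
      have h2 : ∑ k ∈ Finset.range T, p * (1 - p) ^ (k + 1) *
          (-(c₀ + c₁ * (m + (k + 1) : ℕ)) + u + ((T + 1 - (k + 1) - 1 : ℕ) * a - c₀)) =
          (1 - p) * ∑ j ∈ Finset.range T, p * (1 - p) ^ j *
            (-(c₀ + c₁ * (m + 1 + j : ℕ)) + u + ((T - j - 1 : ℕ) * a - c₀)) := by
        rw [Finset.mul_sum]
        refine Finset.sum_congr rfl fun j _ => ?_
        rw [show m + (j + 1) = m + 1 + j by ring, Nat.add_sub_add_right]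
        ring
      rw [h2]
      have h3 : ∑ j ∈ Finset.range T, p * (1 - p) ^ j *
            (-(c₀ + c₁ * (m + 1 + j : ℕ)) + u + ((T - j - 1 : ℕ) * a - c₀)) =
          T * a - c₀ - c₁ * (m + 1 : ℕ) + (1 - p) ^ T * (c₀ + c₁ * (m + 1 + T : ℕ)) := by
        linarith
      rw [h3, show m + (T + 1) = m + 1 + T by ring]
      simp only [Nat.add_sub_cancel, Nat.sub_zero, pow_zero, mul_one, add_zero]
      push_cast
      rw [pow_succ]
      ring_nf
      rw [ha]
      ring
  induction T using Nat.strong_induction_on with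
  | _ T ih =>
    refine le_trans ?_ (hr T)
    have h1 := hB T 0
    have h2 : ∑ j ∈ Finset.range T, p * (1 - p) ^ j *
      (-(c₀ + c₁ * (0 + j : ℕ)) + u + ((T - j - 1 : ℕ) * a - c₀)) ≤
      ∑ k ∈ Finset.range T, p * (1 - p) ^ k * (-(c₀ + c₁ * k) + u + r (T - k - 1)) := by
      refine Finset.sum_le_sum fun j hj => ?_
      apply mul_le_mul_of_nonneg_left _ (mul_nonneg hp0 (pow_nonneg hq0 _))
      rw [zero_add]
      have := ih (T - j - 1) (by
        rw [Finset.mem_range] at hj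
        omega)
      linarith
    rw [zero_add] at h1
    simp only [Nat.cast_zero, mul_zero, sub_zero] at h1
    linarith

section
variable (M : Mod) (h : ℝ) (n : ℕ) (u : ℝ)

/-- indicator of the bad blocks -/
def bd (ω : ℕ → ℝ) : ℝ := if Real.exp u ≤ M.Z h n ω then 0 else 1

theorem bd_meas : Measurable (bd M h n u) :=
  Measurable.ite (measurableSet_le measurable_const (M.good_Z h n).meas) measurable_const
    measurable_const

theorem bd_dep : DepOn n (bd M h n u) := by
  intro ω ω' hω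
  have h1 : M.Z h n ω = M.Z h n ω' := (M.good_Z h n).depOn ω ω' hω
  unfold bd
  rw [h1]

theorem bd_01 (ω : ℕ → ℝ) : bd M h n u ω = 0 ∨ bd M h n u ω = 1 := by
  unfold bd
  split_ifs
  · exact Or.inl rfl
  · exact Or.inr rfl

theorem bd_integral {p : ℝ}
    (hp : (seqLaw M.μ {ω | Real.exp u ≤ M.Z h n ω}).toReal = p) :
    ∫ ω, bd M h n u ω ∂seqLaw M.μ = 1 - p := by
  have hs : MeasurableSet {ω | Real.exp u ≤ M.Z h n ω} :=
    measurableSet_le measurable_const (M.good_Z h n).meas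
  have h1 : ∀ ω, bd M h n u ω = 1 - ({ω | Real.exp u ≤ M.Z h n ω}).indicator (fun _ => (1 : ℝ)) ω := by
    intro ω
    unfold bd
    by_cases h2 : Real.exp u ≤ M.Z h n ω
    · rw [if_pos h2, indicator_of_mem (show ω ∈ {ω | Real.exp u ≤ M.Z h n ω} from h2)]
      ring
    · rw [if_neg h2, indicator_of_notMem (show ω ∉ {ω | Real.exp u ≤ M.Z h n ω} from h2)]
      ring
  simp_rw [h1]
  rw [integral_sub (integrable_const 1) ((integrable_const 1).indicator hs),
    integral_indicator_const _ hs]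
  simp only [integral_const, probReal_univ, smul_eq_mul, mul_one]
  rw [← hp]
  rfl

/-- the logarithmic cost of an excursion of length `d` -/
def lk (d : ℕ) (ω : ℕ → ℝ) : ℝ :=
  Real.log (Kv M.C (fun z => -h * M.φ z) d 0) +
    (∑ i ∈ Finset.range d, M.β * ω i * oc M.C M.φ h d i 0) / Kv M.C (fun z => -h * M.φ z) d 0

theorem lk_zero (ω : ℕ → ℝ) : lk M h 0 ω = 0 := by
  simp [lk, Kv_zero]

theorem lk_meas (d : ℕ) : Measurable (lk M h d) := by
  unfold lk
  fun_prop

theorem lk_dep (d : ℕ) : DepOn d (lk M h d) := by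
  intro ω ω' hω
  unfold lk
  congr 2
  refine Finset.sum_congr rfl fun i hi => ?_
  rw [hω i (Finset.mem_range.1 hi)]

theorem Kv_pos' {d : ℕ} (hd : Even d) (hd0 : 0 < d) : 0 < Kv M.C (fun z => -h * M.φ z) d 0 := by
  obtain ⟨m, rfl⟩ := hd
  rw [← two_mul]
  exact Kv_even_pos M.C _ (by omega)

theorem G_ge {d : ℕ} (hd : Even d) (hd0 : 0 < d) (ω : ℕ → ℝ) :
    0 < M.G h d ω ∧ lk M h d ω ≤ Real.log (M.G h d ω) := by
  have hpos := Kv_pos' M h hd hd0
  have h1 := jensenQ M.C M.φ h d (fun i => M.β * ω i) 0 hpos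
  have h2 : M.G h d ω = KU M.C d (fun i z => (M.β * ω i - h) * M.φ z) 0 :=
    MP_daa227_pr.KU_eq_Gk M.C M.φ M.β h d ω 0
  rw [← h2] at h1
  have h3 := (mul_pos hpos (Real.exp_pos ((∑ i ∈ Finset.range d, M.β * ω i *
    oc M.C M.φ h d i 0) / Kv M.C (fun z => -h * M.φ z) d 0)))
  refine ⟨h3.trans_le h1, ?_⟩
  have h4 := Real.log_le_log h3 h1
  rw [Real.log_mul hpos.ne' (Real.exp_ne_zero _), Real.log_exp] at h4
  exact h4

theorem integrable_coord (i : ℕ) : Integrable (fun ω : ℕ → ℝ => ω i) (seqLaw M.μ) := by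
  exact MP_daa227_pr.integrable_apply M.μ i (Y := fun x => x) measurable_id M.exp_mom.integrable_id

theorem sq_int : Integrable (fun x : ℝ => x ^ 2) M.μ := by
  have h1 := M.exp_mom.sq_abs 0
  simpa using h1

theorem lk_integrable (d : ℕ) : Integrable (lk M h d) (seqLaw M.μ) := by
  unfold lk
  apply (integrable_const _).add
  apply Integrable.div_const
  refine integrable_finsetSum _ fun i _ => ?_
  exact ((integrable_coord M i).const_mul M.β).mul_const _

/-- expected cost of the excursion over `k` bad blocks -/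
theorem alk_ge {h : ℝ} (hh : 0 < h) {n : ℕ} (hn : Even n) (hn0 : 0 < n) (u : ℝ)
    {p : ℝ} (hp : (seqLaw M.μ {ω | Real.exp u ≤ M.Z h n ω}).toReal = p) (hp0 : 0 < p)
    (hp1 : p ≤ 1 / 4) {c₀ c₁ : ℝ} (h0 : 0 ≤ c₀)
    (hQ : ∀ k : ℕ, 1 ≤ k → (1 + 2 * M.β * Real.sqrt p / h) *
      (-Real.log (Kv M.C (fun z => -h * M.φ z) (k * n) 0)) ≤ c₀ + c₁ * k) (k : ℕ) :
    -((1 - p) ^ k * (c₀ + c₁ * k)) ≤
      ∫ ω, ab n (bd M h n u) k ω * lk M h (k * n) ω ∂seqLaw M.μ := by
  cases k with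
  | zero =>
    simp only [Nat.zero_mul, lk_zero, mul_zero, integral_zero]
    simp
    exact h0
  | succ j =>
    have hd : Even ((j + 1) * n) := hn.mul_left _
    have hd0 : 0 < (j + 1) * n := Nat.mul_pos (Nat.succ_pos j) hn0
    have hb := bd_meas M h n u
    have hbd := bd_dep M h n u
    have h01 := bd_01 M h n u
    have hbi := bd_integral M h n u hp
    set b := bd M h n u with hbdef
    have hb0 : ∀ ω, 0 ≤ b ω := fun ω => by rcases h01 ω with h | h <;> simp [h]
    have hb1 : ∀ ω, b ω ≤ 1 := fun ω => by rcases h01 ω with h | h <;> simp [h]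
    have hpos := Kv_pos' M h hd hd0
    have hsum := oc_sum M.C M.φ_nonneg h ((j + 1) * n) 0 hpos
    have hQ' := hQ (j + 1) (by omega)
    have hoc : ∀ i, 0 ≤ oc M.C M.φ h ((j + 1) * n) i 0 := fun i => oc_nonneg M.C M.φ_nonneg h _ i 0
    set d := (j + 1) * n with hddef
    set Q := Kv M.C (fun z => -h * M.φ z) d 0 with hQdef
    have haI := ab_int (n := n) M.μ hb hb0 hb1 (j + 1)
    have ham := ab_meas (n := n) hb (j + 1)
    have hprod : ∀ i, Integrable (fun ω : ℕ → ℝ => ω i * ab n b (j + 1) ω) (seqLaw M.μ) :=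
      fun i => (integrable_coord M i).mul_bdd (c := 1) ham.aestronglyMeasurable
        (ae_of_all _ fun ω => by
          rw [Real.norm_of_nonneg (ab_nonneg hb0 _ ω)]
          exact ab_le_one hb0 hb1 _ ω)
    have h1 : ∫ ω, ab n b (j + 1) ω * lk M h d ω ∂seqLaw M.μ = Real.log Q * (1 - p) ^ (j + 1) +
        (∑ i ∈ Finset.range d, M.β * oc M.C M.φ h d i 0 *
          ∫ ω, ω i * ab n b (j + 1) ω ∂seqLaw M.μ) / Q := by
      have h2 : ∀ ω, ab n b (j + 1) ω * lk M h d ω = Real.log Q * ab n b (j + 1) ω +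
          (∑ i ∈ Finset.range d, M.β * oc M.C M.φ h d i 0 * (ω i * ab n b (j + 1) ω)) / Q := by
        intro ω
        unfold lk
        rw [mul_add, mul_comm (ab n b (j + 1) ω) (Real.log _), mul_div_assoc', Finset.mul_sum]
        congr 2
        refine Finset.sum_congr rfl fun i _ => ?_
        ring
      simp_rw [h2]
      rw [integral_add (haI.const_mul _) ((integrable_finsetSum _ fun i _ =>
        (hprod i).const_mul _).div_const Q), integral_const_mul, ab_integral M.μ hb hbd, hbi,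
        integral_div, integral_finsetSum _ fun i _ => (hprod i).const_mul _]
      congr 2
      refine Finset.sum_congr rfl fun i _ => ?_
      rw [integral_const_mul]
    rw [h1]
    have hcov := cov_ab (n := n) M.μ M.mean M.var M.exp_mom.integrable_id (sq_int M) hb hbd h01 hp0
      (by linarith) hbi j
    have hS : -(M.β * Real.sqrt p * (1 - p) ^ j * ∑ i ∈ Finset.range d, oc M.C M.φ h d i 0) ≤
        ∑ i ∈ Finset.range d, M.β * oc M.C M.φ h d i 0 *
          ∫ ω, ω i * ab n b (j + 1) ω ∂seqLaw M.μ := by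
      rw [Finset.mul_sum, ← Finset.sum_neg_distrib]
      refine Finset.sum_le_sum fun i hi => ?_
      have h3 := (abs_le.1 (hcov i (Finset.mem_range.1 hi))).1
      have h4 : 0 ≤ M.β * oc M.C M.φ h d i 0 := mul_nonneg M.β_pos.le (hoc i)
      have h5 := mul_le_mul_of_nonneg_left h3 h4
      refine le_trans (le_of_eq ?_) h5
      ring
    have hlog : ∑ i ∈ Finset.range d, oc M.C M.φ h d i 0 ≤ Q * (-Real.log Q) / h := by
      rw [le_div_iff₀ hh, mul_comm]
      exact hsum
    have hq0 : 0 < 1 - p := by linarith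
    have hs0 : 0 ≤ Real.sqrt p := Real.sqrt_nonneg p
    have hL0 : 0 ≤ -Real.log Q := by
      have h6 : 0 ≤ h * ∑ i ∈ Finset.range d, oc M.C M.φ h d i 0 :=
        mul_nonneg hh.le (Finset.sum_nonneg fun i _ => hoc i)
      have h7 := h6.trans hsum
      exact nonneg_of_mul_nonneg_right h7 hpos
    have hS2 : -(M.β * Real.sqrt p * (1 - p) ^ j * ((-Real.log Q) / h)) ≤
        (∑ i ∈ Finset.range d, M.β * oc M.C M.φ h d i 0 *
          ∫ ω, ω i * ab n b (j + 1) ω ∂seqLaw M.μ) / Q := by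
      rw [le_div_iff₀ hpos]
      refine le_trans ?_ hS
      rw [neg_mul]
      apply neg_le_neg
      calc M.β * Real.sqrt p * (1 - p) ^ j * ∑ i ∈ Finset.range d, oc M.C M.φ h d i 0
          ≤ M.β * Real.sqrt p * (1 - p) ^ j * (Q * (-Real.log Q) / h) :=
            mul_le_mul_of_nonneg_left hlog
              (mul_nonneg (mul_nonneg M.β_pos.le hs0) (pow_nonneg hq0.le _))
        _ = _ := by ring
    have hpow : (1 - p) ^ j ≤ 2 * (1 - p) ^ (j + 1) := by
      rw [pow_succ]
      nlinarith [pow_pos hq0 j]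
    have hS3 : M.β * Real.sqrt p * (1 - p) ^ j * ((-Real.log Q) / h) ≤
        (1 - p) ^ (j + 1) * (2 * M.β * Real.sqrt p / h * (-Real.log Q)) := by
      have h8 : 0 ≤ M.β * Real.sqrt p * ((-Real.log Q) / h) :=
        mul_nonneg (mul_nonneg M.β_pos.le hs0) (div_nonneg hL0 hh.le)
      calc M.β * Real.sqrt p * (1 - p) ^ j * ((-Real.log Q) / h)
          = (1 - p) ^ j * (M.β * Real.sqrt p * ((-Real.log Q) / h)) := by ring
        _ ≤ (2 * (1 - p) ^ (j + 1)) * (M.β * Real.sqrt p * ((-Real.log Q) / h)) :=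
            mul_le_mul_of_nonneg_right hpow h8
        _ = _ := by ring
    have h9 := mul_le_mul_of_nonneg_left hQ' (pow_nonneg hq0.le (j + 1))
    have h10 : (1 - p) ^ (j + 1) * ((1 + 2 * M.β * Real.sqrt p / h) * (-Real.log Q)) =
        -(Real.log Q * (1 - p) ^ (j + 1)) +
          (1 - p) ^ (j + 1) * (2 * M.β * Real.sqrt p / h * (-Real.log Q)) := by ring
    rw [h10] at h9
    push_cast at h9 ⊢
    linarith

end

end Strat

open Strat in
theorem Mod.strategy (M : Mod) {h : ℝ} (hh : 0 < h) {n : ℕ} (hn : Even n) (hn0 : 0 < n) (u : ℝ)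
    {p : ℝ} (hp : (seqLaw M.μ {ω | Real.exp u ≤ M.Z h n ω}).toReal = p) (hp0 : 0 < p)
    (hp1 : p ≤ 1 / 4) {c₀ c₁ : ℝ} (h0 : 0 ≤ c₀) (h1 : 0 ≤ c₁)
    (hQ : ∀ k : ℕ, 1 ≤ k → (1 + 2 * M.β * Real.sqrt p / h) *
      (-Real.log (Kv M.C (fun z => -h * M.φ z) (k * n) 0)) ≤ c₀ + c₁ * k) (T : ℕ) :
    T * (p * (u - c₀) - (1 - p) * c₁) - c₀ ≤ M.Ψ h (T * n) := by
  refine rec_sol hp0.le (by linarith) (fun T => M.Ψ h (T * n)) (fun T => ?_) T
  have hb := bd_meas M h n u
  have hbd := bd_dep M h n u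
  have h01 := bd_01 M h n u
  have hbi := bd_integral M h n u hp
  have halk := alk_ge M hh hn hn0 u hp hp0 hp1 h0 hQ
  have hgood : ∀ ω, bd M h n u ω ≠ 1 → u ≤ Real.log (M.Z h n ω) := by
    intro ω hω
    unfold bd at hω
    split_ifs at hω with h2
    · rw [← Real.log_exp u]
      exact Real.log_le_log (Real.exp_pos u) h2
    · exact absurd rfl hω
  set b := bd M h n u with hbdef
  have hb0 : ∀ ω, 0 ≤ b ω := fun ω => by rcases h01 ω with h | h <;> simp [h]
  have hb1 : ∀ ω, b ω ≤ 1 := fun ω => by rcases h01 ω with h | h <;> simp [h]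
  have hE : ∀ k, Even (k * n) := fun k => hn.mul_left k
  have hZpos : ∀ k ω, 0 < M.Z h (k * n) ω := fun k ω => M.Z_pos h (hE k) ω
  have hZn : ∀ ω, 0 < M.Z h n ω := fun ω => M.Z_pos h hn ω
  have hZint : ∀ k, Integrable (fun ω => Real.log (M.Z h (k * n) ω)) (seqLaw M.μ) := fun k =>
    M.integrable_logZ h (hE k)
  have hZmeas : ∀ k, Measurable (fun ω => Real.log (M.Z h (k * n) ω)) := fun k =>
    (M.good_Z h (k * n)).meas.log
  -- one good block after k bad ones
  have hpt1 : ∀ k < T, ∀ ω, b (shift (k * n) ω) ≠ 1 →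
      lk M h (k * n) ω + u + Real.log (M.Z h ((T - k - 1) * n) (shift ((k + 1) * n) ω)) ≤
        Real.log (M.Z h (T * n) ω) := by
    intro k hk ω hω
    have h2 := hgood _ hω
    have hT : T * n = k * n + (n + (T - k - 1) * n) := by
      obtain ⟨m, rfl⟩ : ∃ m, T = k + 1 + m := ⟨T - k - 1, by omega⟩
      rw [show k + 1 + m - k - 1 = m by omega]
      ring
    have h3 := M.Z_mul_le h n ((T - k - 1) * n) (shift (k * n) ω)
    rw [MP_daa227_pr.shift_shift, show n + k * n = (k + 1) * n by ring] at h3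
    have h4 : Real.log (M.Z h n (shift (k * n) ω)) +
        Real.log (M.Z h ((T - k - 1) * n) (shift ((k + 1) * n) ω)) ≤
        Real.log (M.Z h (n + (T - k - 1) * n) (shift (k * n) ω)) := by
      rw [← Real.log_mul (hZn _).ne' (hZpos _ _).ne']
      exact Real.log_le_log (mul_pos (hZn _) (hZpos _ _)) h3
    have hpos2 : 0 < M.Z h (n + (T - k - 1) * n) (shift (k * n) ω) :=
      (mul_pos (hZn _) (hZpos _ _)).trans_le h3
    rcases Nat.eq_zero_or_pos k with hk0 | hk0
    · subst hk0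
      rw [Nat.zero_mul, lk_zero]
      rw [Nat.zero_mul] at h4 h2 hT
      rw [zero_add] at hT
      rw [hT]
      simp only [MP_daa227_pr.shift_zero] at h4 h2
      linarith
    · obtain ⟨h5, h6⟩ := G_ge M h (hE k) (Nat.mul_pos hk0 hn0) ω
      have h7 := M.G_mul_Z_le h (n := n + (T - k - 1) * n) (Nat.mul_pos hk0 hn0) ω
      have h8 := Real.log_le_log (mul_pos h5 hpos2) h7
      rw [Real.log_mul h5.ne' hpos2.ne', ← hT] at h8
      linarith
  have hpt2 : ∀ ω, lk M h (T * n) ω ≤ Real.log (M.Z h (T * n) ω) := by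
    intro ω
    rcases Nat.eq_zero_or_pos T with hT | hT
    · subst hT
      rw [Nat.zero_mul, lk_zero]
      simp [Mod.Z, Zk]
    · obtain ⟨h5, h6⟩ := G_ge M h (hE T) (Nat.mul_pos hT hn0) ω
      have h7 := M.G_mul_Z_le h (n := 0) (Nat.mul_pos hT hn0) ω
      have h8 : M.Z h 0 (shift (T * n) ω) = 1 := by simp [Mod.Z, Zk]
      rw [h8, mul_one, add_zero] at h7
      exact h6.trans (Real.log_le_log h5 h7)
  have hpt : ∀ ω, ∑ k ∈ Finset.range T, ab n b k ω * (1 - b (shift (k * n) ω)) *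
      (lk M h (k * n) ω + u + Real.log (M.Z h ((T - k - 1) * n) (shift ((k + 1) * n) ω))) +
      ab n b T ω * lk M h (T * n) ω ≤ Real.log (M.Z h (T * n) ω) := by
    intro ω
    have h2 : Real.log (M.Z h (T * n) ω) = ∑ k ∈ Finset.range T,
        ab n b k ω * (1 - b (shift (k * n) ω)) * Real.log (M.Z h (T * n) ω) +
        ab n b T ω * Real.log (M.Z h (T * n) ω) := by
      rw [← Finset.sum_mul, ← add_mul, ab_sum, one_mul]
    rw [h2]
    refine add_le_add (Finset.sum_le_sum fun k hk => ?_)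
      (mul_le_mul_of_nonneg_left (hpt2 ω) (ab_nonneg hb0 T ω))
    rcases h01 (shift (k * n) ω) with h3 | h3
    · apply mul_le_mul_of_nonneg_left (hpt1 k (Finset.mem_range.1 hk) ω (by rw [h3]; norm_num))
      rw [h3, sub_zero, mul_one]
      exact ab_nonneg hb0 k ω
    · rw [h3, sub_self, mul_zero, zero_mul, zero_mul]
  -- expectations
  have hgm : Measurable (fun ω => 1 - b ω) := measurable_const.sub hb
  have hgI : Integrable (fun ω => 1 - b ω) (seqLaw M.μ) :=
    Integrable.of_bound hgm.aestronglyMeasurable 1 (ae_of_all _ fun ω => by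
      rw [Real.norm_of_nonneg (by linarith [hb1 ω])]
      linarith [hb0 ω])
  have hgi : ∫ ω, (1 - b ω) ∂seqLaw M.μ = p := by
    have hbI : Integrable b (seqLaw M.μ) :=
      Integrable.of_bound hb.aestronglyMeasurable 1 (ae_of_all _ fun ω => by
        rw [Real.norm_of_nonneg (hb0 ω)]
        exact hb1 ω)
    rw [integral_sub (integrable_const 1) hbI, hbi]
    simp
  have ham : ∀ k, Measurable (ab n b k) := fun k => ab_meas hb k
  have haI : ∀ k, Integrable (ab n b k) (seqLaw M.μ) := fun k => ab_int M.μ hb hb0 hb1 k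
  have hai : ∀ k, ∫ ω, ab n b k ω ∂seqLaw M.μ = (1 - p) ^ k := fun k => by
    rw [ab_integral M.μ hb hbd, hbi]
  have had : ∀ k, DepOn (k * n) (ab n b k) := fun k => ab_dep hbd k
  have hlI : ∀ k, Integrable (fun ω => ab n b k ω * lk M h (k * n) ω) (seqLaw M.μ) := fun k =>
    (lk_integrable M h (k * n)).bdd_mul (c := 1) (ham k).aestronglyMeasurable
      (ae_of_all _ fun ω => by
        rw [Real.norm_of_nonneg (ab_nonneg hb0 _ ω)]
        exact ab_le_one hb0 hb1 _ ω)
  have hlm : ∀ k, Measurable (fun ω => ab n b k ω * lk M h (k * n) ω) := fun k =>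
    (ham k).mul (lk_meas M h _)
  have hld : ∀ k, DepOn (k * n) (fun ω => ab n b k ω * lk M h (k * n) ω) := fun k ω ω' hω => by
    simp only
    rw [had k ω ω' hω, lk_dep M h _ ω ω' hω]
  set X : ℕ → (ℕ → ℝ) → ℝ := fun k ω => ab n b k ω * (1 - b (shift (k * n) ω)) with hX
  have hXm : ∀ k, Measurable (X k) := fun k =>
    (ham k).mul (hgm.comp (MP_daa227_pr.measurable_shift _))
  have hXd : ∀ k, DepOn ((k + 1) * n) (X k) := fun k ω ω' hω => by
    simp only [hX]
    rw [had k ω ω' fun i hi => hω i (by nlinarith),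
      hbd (shift (k * n) ω) (shift (k * n) ω') fun i hi => hω (i + k * n) (by
        rw [Nat.succ_mul]; omega)]
  have hXI : ∀ k, Integrable (X k) (seqLaw M.μ) := fun k =>
    integrable_mul_shift M.μ (ham k) (had k) hgm (haI k) hgI
  have hXi : ∀ k, ∫ ω, X k ω ∂seqLaw M.μ = (1 - p) ^ k * p := fun k => by
    have h2 := integral_mul_shift M.μ (ham k) (had k) hgm
    rw [hai, hgi] at h2
    exact h2
  have hterm : ∀ k < T, Integrable (fun ω => ab n b k ω * (1 - b (shift (k * n) ω)) *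
      (lk M h (k * n) ω + u + Real.log (M.Z h ((T - k - 1) * n) (shift ((k + 1) * n) ω))))
      (seqLaw M.μ) ∧ ∫ ω, ab n b k ω * (1 - b (shift (k * n) ω)) *
      (lk M h (k * n) ω + u + Real.log (M.Z h ((T - k - 1) * n) (shift ((k + 1) * n) ω)))
      ∂seqLaw M.μ = (∫ ω, ab n b k ω * lk M h (k * n) ω ∂seqLaw M.μ) * p +
        u * ((1 - p) ^ k * p) + (1 - p) ^ k * p * M.Ψ h ((T - k - 1) * n) := by
    intro k hk
    have h2 : ∀ ω, ab n b k ω * (1 - b (shift (k * n) ω)) *
      (lk M h (k * n) ω + u + Real.log (M.Z h ((T - k - 1) * n) (shift ((k + 1) * n) ω))) =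
      (ab n b k ω * lk M h (k * n) ω) * (1 - b (shift (k * n) ω)) + u * X k ω +
        X k ω * Real.log (M.Z h ((T - k - 1) * n) (shift ((k + 1) * n) ω)) := by
      intro ω
      simp only [hX]
      ring
    have i1 := integrable_mul_shift M.μ (hlm k) (hld k) hgm (hlI k) hgI
    have i2 := (hXI k).const_mul u
    have i3 := integrable_mul_shift M.μ (hXm k) (hXd k) (hZmeas (T - k - 1)) (hXI k)
      (hZint (T - k - 1))
    have e1 := integral_mul_shift M.μ (hlm k) (hld k) hgm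
    have e3 := integral_mul_shift M.μ (hXm k) (hXd k) (hZmeas (T - k - 1))
    simp_rw [h2]
    have i12 : Integrable (fun ω => (ab n b k ω * lk M h (k * n) ω) *
        (1 - b (shift (k * n) ω)) + u * X k ω) (seqLaw M.μ) := i1.add i2
    refine ⟨i12.add i3, ?_⟩
    rw [integral_add i12 i3, integral_add i1 i2, e1, e3, integral_const_mul, hgi, hXi]
    rfl
  have hlast := hlI T
  have hsI : Integrable (fun ω => ∑ k ∈ Finset.range T, ab n b k ω *
      (1 - b (shift (k * n) ω)) * (lk M h (k * n) ω + u +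
        Real.log (M.Z h ((T - k - 1) * n) (shift ((k + 1) * n) ω)))) (seqLaw M.μ) :=
    integrable_finsetSum _ fun k hk => (hterm k (Finset.mem_range.1 hk)).1
  have hfull : Integrable (fun ω => ∑ k ∈ Finset.range T, ab n b k ω *
      (1 - b (shift (k * n) ω)) * (lk M h (k * n) ω + u +
        Real.log (M.Z h ((T - k - 1) * n) (shift ((k + 1) * n) ω))) +
      ab n b T ω * lk M h (T * n) ω) (seqLaw M.μ) := hsI.add hlast
  have hmain := integral_mono hfull (hZint T) hpt
  rw [integral_add hsI hlast,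
    integral_finsetSum _ fun k hk => (hterm k (Finset.mem_range.1 hk)).1,
    Finset.sum_congr rfl fun k hk => (hterm k (Finset.mem_range.1 hk)).2] at hmain
  refine le_trans ?_ hmain
  have hL := halk T
  have hsum : ∑ k ∈ Finset.range T, p * (1 - p) ^ k * (-(c₀ + c₁ * k) + u +
      M.Ψ h ((T - k - 1) * n)) ≤ ∑ k ∈ Finset.range T,
      ((∫ ω, ab n b k ω * lk M h (k * n) ω ∂seqLaw M.μ) * p +
        u * ((1 - p) ^ k * p) + (1 - p) ^ k * p * M.Ψ h ((T - k - 1) * n)) := by
    refine Finset.sum_le_sum fun k _ => ?_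
    have h3 := mul_le_mul_of_nonneg_right (halk k) hp0.le
    nlinarith [h3]
  linarith

end

end Pool.Agent.HZ
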