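import Pool.Agent.Lib.MP_daa227_pr_HZ.Basic
import Pool.Agent.Lib.MP_daa227_pr_HZ.HalfLine

/-!
# Free partition functions are bounded by constrained ones (module A21)
-/

namespace Pool.Agent.HZ

open MeasureTheory ProbabilityTheory Set Filter
open scoped ENNReal Topology
open MP_daa227_pr (Chain Zk Zf Gk Gf KU K0 ushift shift seqLaw ExpMom Good GoodW mom)

noncomputable section

namespace FreePin

variable (C : Chain)

theorem Zk_nn {W : ℝ → ℤ → ℝ} (hW : ∀ a z, 0 ≤ W a z) :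
    ∀ (n : ℕ) (ω : ℕ → ℝ) (x y : ℤ), 0 ≤ Zk C W n ω x y
  | 0, ω, x, y => by
    simp only [Zk]
    split_ifs <;> norm_num
  | n + 1, ω, x, y => by
    simp only [Zk]
    exact Finset.sum_nonneg fun z _ =>
      mul_nonneg (mul_nonneg (C.nonneg _ _) (hW _ _)) (Zk_nn hW n _ _ _)

theorem Gf_nn {W : ℝ → ℤ → ℝ} (hW : ∀ a z, 0 ≤ W a z) (B : Finset ℤ) :
    ∀ (n : ℕ) (ω : ℕ → ℝ) (x : ℤ), 0 ≤ Gf C W B n ω x
  | 0, ω, x => by
    simp only [Gf]
    norm_num
  | n + 1, ω, x => by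
    simp only [Gf]
    exact Finset.sum_nonneg fun z _ =>
      mul_nonneg (mul_nonneg (C.nonneg _ _) (hW _ _)) (Gf_nn hW B n _ _)

theorem K0_nn (n : ℕ) (x : ℤ) : 0 ≤ K0 C n x := MP_daa227_pr.K0_nonneg C n x

/-- comparison with the walk without weights, lower bound -/
theorem Zk_ge {W : ℝ → ℤ → ℝ} (hW : ∀ a z, 0 ≤ W a z) :
    ∀ (n : ℕ) (ω ω₀ : ℕ → ℝ) (a : ℕ → ℝ) (x y : ℤ), (∀ i < n, 0 ≤ a i) →
      (∀ i < n, ∀ z, a i ≤ W (ω i) z) →
      (∏ i ∈ Finset.range n, a i) * Zk C (fun _ _ => 1) n ω₀ x y ≤ Zk C W n ω x y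
  | 0, ω, ω₀, a, x, y, _, _ => by
    simp only [Zk, Finset.range_zero, Finset.prod_empty, one_mul]
    exact le_rfl
  | n + 1, ω, ω₀, a, x, y, h0, h1 => by
    simp only [Zk]
    rw [Finset.prod_range_succ', Finset.mul_sum]
    refine Finset.sum_le_sum fun z _ => ?_
    have ih := Zk_ge hW n (shift 1 ω) (shift 1 ω₀) (fun i => a (i + 1)) z y
      (fun i hi => h0 (i + 1) (by omega)) (fun i hi z => h1 (i + 1) (by omega) z)
    have h2 := h1 0 (by omega) z
    have h3 := h0 0 (by omega)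
    have h4 : 0 ≤ Zk C (fun _ _ => (1 : ℝ)) n (shift 1 ω₀) z y :=
      Zk_nn C (fun _ _ => zero_le_one) n _ _ _
    have h5 : 0 ≤ ∏ i ∈ Finset.range n, a (i + 1) :=
      Finset.prod_nonneg fun i hi => h0 (i + 1) (by rw [Finset.mem_range] at hi; omega)
    calc (∏ i ∈ Finset.range n, a (i + 1)) * a 0 *
          (C.p x z * 1 * Zk C (fun _ _ => 1) n (shift 1 ω₀) z y)
        = (C.p x z * a 0) * ((∏ i ∈ Finset.range n, a (i + 1)) *
            Zk C (fun _ _ => 1) n (shift 1 ω₀) z y) := by ring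
      _ ≤ (C.p x z * W (ω 0) z) * Zk C W n (shift 1 ω) z y :=
          mul_le_mul (mul_le_mul_of_nonneg_left h2 (C.nonneg _ _)) ih (mul_nonneg h5 h4)
            (mul_nonneg (C.nonneg _ _) (hW _ _))

theorem K0_ctr (R : ℤ) (j : ℕ) (x : ℤ) : K0 (ctr C R) (j + 1) (x - R) =
    (if j = 0 then C.p x R else 0) +
      ∑ z ∈ Finset.Icc (x - 1) (x + 1) \ {R}, C.p x z * K0 (ctr C R) j (z - R) := by
  rw [K0]
  have h1 : (ctr C R).p (x - R) 0 = C.p x R := by
    change C.p (x - R + R) (0 + R) = _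
    rw [sub_add_cancel, zero_add]
  rw [h1]
  congr 1
  refine Finset.sum_bij' (fun y _ => y + R) (fun y _ => y - R) ?_ ?_ ?_ ?_ ?_
  · intro y hy
    rw [Finset.mem_sdiff, Finset.mem_Icc, Finset.mem_singleton] at hy ⊢
    omega
  · intro y hy
    rw [Finset.mem_sdiff, Finset.mem_Icc, Finset.mem_singleton] at hy ⊢
    omega
  · intro y _
    ring
  · intro y _
    ring
  · intro y _
    change C.p (x - R + R) (y + R) * _ = _
    rw [sub_add_cancel, add_sub_cancel_right]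

/-- excursions above `R`, lower bound -/
theorem exc_ge {W : ℝ → ℤ → ℝ} (hW : ∀ a z, 0 ≤ W a z) (R : ℤ) :
    ∀ (j : ℕ) (ω : ℕ → ℝ) (a : ℕ → ℝ) (x : ℤ), R < x → (∀ i < j, 0 ≤ a i) →
      (∀ i < j, ∀ z, R < z → a i ≤ W (ω i) z) → (∀ i, i + 1 = j → a i ≤ W (ω i) R) →
      (∏ i ∈ Finset.range j, a i) * K0 (ctr C R) j (x - R) ≤ Zk C W j ω x R
  | 0, ω, a, x, _, _, _, _ => by
    have : K0 (ctr C R) 0 (x - R) = 0 := rfl
    rw [this, mul_zero]
    exact Zk_nn C hW _ _ _ _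
  | j + 1, ω, a, x, hx, h0, h1, h2 => by
    have hprod : 0 ≤ ∏ i ∈ Finset.range j, a (i + 1) :=
      Finset.prod_nonneg fun i hi => h0 (i + 1) (by rw [Finset.mem_range] at hi; omega)
    rw [K0_ctr, Finset.prod_range_succ', mul_add]
    have hsplit : Zk C W (j + 1) ω x R =
        ∑ z ∈ Finset.Icc (x - 1) (x + 1) ∩ {R}, C.p x z * W (ω 0) z * Zk C W j (shift 1 ω) z R +
        ∑ z ∈ Finset.Icc (x - 1) (x + 1) \ {R}, C.p x z * W (ω 0) z * Zk C W j (shift 1 ω) z R := by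
      rw [Zk, ← Finset.sum_inter_add_sum_sdiff (Finset.Icc (x - 1) (x + 1)) {R}]
    rw [hsplit]
    refine add_le_add ?_ ?_
    · by_cases hj : j = 0
      · subst hj
        rw [if_pos rfl, Finset.range_zero, Finset.prod_empty, one_mul]
        by_cases hR : R ∈ Finset.Icc (x - 1) (x + 1)
        · rw [Finset.inter_singleton_of_mem hR, Finset.sum_singleton]
          simp only [Zk, if_true, mul_one]
          rw [mul_comm]
          exact mul_le_mul_of_nonneg_left (h2 0 rfl) (C.nonneg _ _)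
        · rw [C.near x R hR, mul_zero]
          exact Finset.sum_nonneg fun z _ =>
            mul_nonneg (mul_nonneg (C.nonneg _ _) (hW _ _)) (Zk_nn C hW _ _ _ _)
      · rw [if_neg hj, mul_zero]
        exact Finset.sum_nonneg fun z _ =>
          mul_nonneg (mul_nonneg (C.nonneg _ _) (hW _ _)) (Zk_nn C hW _ _ _ _)
    · rw [Finset.mul_sum]
      refine Finset.sum_le_sum fun z hz => ?_
      rw [Finset.mem_sdiff, Finset.mem_Icc, Finset.mem_singleton] at hz
      have hzR : R < z := by omega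
      have ih := exc_ge hW R j (shift 1 ω) (fun i => a (i + 1)) z hzR
        (fun i hi => h0 (i + 1) (by omega)) (fun i hi z hz => h1 (i + 1) (by omega) z hz)
        (fun i hi => h2 (i + 1) (by omega))
      calc (∏ i ∈ Finset.range j, a (i + 1)) * a 0 * (C.p x z * K0 (ctr C R) j (z - R))
          = (C.p x z * a 0) * ((∏ i ∈ Finset.range j, a (i + 1)) * K0 (ctr C R) j (z - R)) := by
            ring
        _ ≤ (C.p x z * W (ω 0) z) * Zk C W j (shift 1 ω) z R :=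
            mul_le_mul (mul_le_mul_of_nonneg_left (h1 0 (by omega) z hzR) (C.nonneg _ _)) ih
              (mul_nonneg hprod (K0_nn _ _ _)) (mul_nonneg (C.nonneg _ _) (hW _ _))

/-- paths above `R`, upper bound -/
theorem Gf_le {W : ℝ → ℤ → ℝ} (hW : ∀ a z, 0 ≤ W a z) (R : ℕ) :
    ∀ (k : ℕ) (ω ω₀ : ℕ → ℝ) (b : ℕ → ℝ) (x : ℤ), (R : ℤ) < x → (∀ i < k, 0 ≤ b i) →
      (∀ i < k, ∀ z, (R : ℤ) < z → W (ω i) z ≤ b i) →
      Gf C W (Finset.Icc (-(R : ℤ)) R) k ω x ≤
        (∏ i ∈ Finset.range k, b i) * Gf C (fun _ _ => 1) (Finset.Icc (-(R : ℤ)) R) k ω₀ x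
  | 0, ω, ω₀, b, x, _, _, _ => by
    simp only [Gf, Finset.range_zero, Finset.prod_empty, one_mul]
    exact le_rfl
  | k + 1, ω, ω₀, b, x, hx, h0, h1 => by
    simp only [Gf]
    rw [Finset.prod_range_succ', Finset.mul_sum]
    refine Finset.sum_le_sum fun z hz => ?_
    rw [Finset.mem_sdiff, Finset.mem_Icc, Finset.mem_Icc] at hz
    have hzR : (R : ℤ) < z := by omega
    have ih := Gf_le hW R k (shift 1 ω) (shift 1 ω₀) (fun i => b (i + 1)) z hzR
      (fun i hi => h0 (i + 1) (by omega)) (fun i hi z hz => h1 (i + 1) (by omega) z hz)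
    calc C.p x z * W (ω 0) z * Gf C W (Finset.Icc (-(R : ℤ)) R) k (shift 1 ω) z
        ≤ (C.p x z * b 0) * ((∏ i ∈ Finset.range k, b (i + 1)) *
            Gf C (fun _ _ => 1) (Finset.Icc (-(R : ℤ)) R) k (shift 1 ω₀) z) :=
          mul_le_mul (mul_le_mul_of_nonneg_left (h1 0 (by omega) z hzR) (C.nonneg _ _)) ih
            (Gf_nn C hW _ _ _ _) (mul_nonneg (C.nonneg _ _) (h0 0 (by omega)))
      _ = _ := by ring

theorem Zk_cneg (W : ℝ → ℤ → ℝ) : ∀ (n : ℕ) (ω : ℕ → ℝ) (x y : ℤ),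
    Zk (cneg C) (fun a z => W a (-z)) n ω x y = Zk C W n ω (-x) (-y)
  | 0, ω, x, y => by
    simp only [Zk, neg_inj]
  | n + 1, ω, x, y => by
    simp only [Zk]
    refine Finset.sum_bij' (fun y _ => -y) (fun y _ => -y) ?_ ?_ ?_ ?_ ?_
    · intro y hy
      rw [Finset.mem_Icc] at hy ⊢
      omega
    · intro y hy
      rw [Finset.mem_Icc] at hy ⊢
      omega
    · intro y _
      exact neg_neg y
    · intro y _
      exact neg_neg y
    · intro z _
      rw [Zk_cneg W n (shift 1 ω) z y]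
      rfl

theorem Gf_cneg (W : ℝ → ℤ → ℝ) (R : ℕ) : ∀ (n : ℕ) (ω : ℕ → ℝ) (x : ℤ),
    Gf (cneg C) (fun a z => W a (-z)) (Finset.Icc (-(R : ℤ)) R) n ω x =
      Gf C W (Finset.Icc (-(R : ℤ)) R) n ω (-x)
  | 0, ω, x => rfl
  | n + 1, ω, x => by
    simp only [Gf]
    refine Finset.sum_bij' (fun y _ => -y) (fun y _ => -y) ?_ ?_ ?_ ?_ ?_
    · intro y hy
      rw [Finset.mem_sdiff, Finset.mem_Icc, Finset.mem_Icc] at hy ⊢
      omega
    · intro y hy
      rw [Finset.mem_sdiff, Finset.mem_Icc, Finset.mem_Icc] at hy ⊢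
      omega
    · intro y _
      exact neg_neg y
    · intro y _
      exact neg_neg y
    · intro z _
      rw [Gf_cneg W R n (shift 1 ω) z]
      rfl

theorem K0_cneg (n : ℕ) : K0 (cneg C) n 0 = K0 C n 0 := by
  rw [← Kv_K0, ← Kv_K0]
  have := Kv_cneg C (fun _ => 0) n 0
  rw [neg_zero] at this
  exact this

/-- the excursion above the box containing the last time -/
theorem one_side (hrec : HasSum (fun n : ℕ => K0 C (n + 1) 0) 1) (R : ℕ) {ε : ℝ} (hε : 0 < ε) :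
    ∃ K : ℝ, 0 < K ∧ ∀ (W : ℝ → ℤ → ℝ) (Lp e D : ℝ → ℝ),
      (∀ a z, 0 < W a z) → (∀ a, 0 < Lp a) →
      (∀ a z, (R : ℤ) < z → Real.exp (-e a) * Lp a ≤ W a z ∧ W a z ≤ Real.exp (e a) * Lp a) →
      (∀ a z, Real.exp (-D a) ≤ W a z) →
      ∀ (m : ℕ) (ω : ℕ → ℝ),
        C.p R (R + 1) * W (ω 0) (R + 1) *
          Gf C W (Finset.Icc (-(R : ℤ)) R) m (shift 1 ω) (R + 1) ≤
        K * Real.exp (ε * ((m + 1 : ℕ) : ℝ) + 2 * (∑ i ∈ Finset.range (m + 1), e (ω i)) +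
          ∑ i ∈ Finset.Ico (m + 1) (2 * ((m + 1) / 2) + 2), D (ω i)) *
        Zk C W (2 * ((m + 1) / 2) + 2) ω R R := by
  obtain ⟨K, hK, hhl⟩ := half_line C hrec R hε
  refine ⟨K, hK, ?_⟩
  intro W Lp e D hW hLp hp hD m ω
  set k := (m + 1) / 2 with hk
  have hW0 : ∀ a z, 0 ≤ W a z := fun a z => (hW a z).le
  have hq := hhl m k (by omega) (by omega)
  set q := Gf C (fun _ _ => 1) (Finset.Icc (-(R : ℤ)) R) m (fun _ => 0) (R + 1) with hqdef
  set κ := K0 (ctr C R) (2 * k + 1) 1 with hκ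
  have hκ0 : 0 ≤ κ := K0_nn _ _ _
  let b : ℕ → ℝ := fun i => Real.exp (e (ω i)) * Lp (ω i)
  let a : ℕ → ℝ := fun i => if i < m + 1 then Real.exp (-e (ω i)) * Lp (ω i) else
    Real.exp (-D (ω i))
  have hb0 : ∀ i, 0 ≤ b i := fun i => mul_nonneg (Real.exp_pos _).le (hLp _).le
  have ha0 : ∀ i, 0 ≤ a i := by
    intro i
    simp only [a]
    split_ifs
    · exact mul_nonneg (Real.exp_pos _).le (hLp _).le
    · exact (Real.exp_pos _).le
  have haW : ∀ i, ∀ z, (R : ℤ) < z → a i ≤ W (ω i) z := by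
    intro i z hz
    simp only [a]
    split_ifs
    · exact (hp _ z hz).1
    · exact hD _ _
  -- upper bound
  have h1 : Gf C W (Finset.Icc (-(R : ℤ)) R) m (shift 1 ω) (R + 1) ≤
      (∏ i ∈ Finset.range m, b (i + 1)) * q :=
    Gf_le C hW0 R m (shift 1 ω) (fun _ => 0) (fun i => b (i + 1)) (R + 1) (by omega)
      (fun i _ => hb0 _) (fun i _ z hz => (hp _ z hz).2)
  have hup : C.p R (R + 1) * W (ω 0) (R + 1) *
      Gf C W (Finset.Icc (-(R : ℤ)) R) m (shift 1 ω) (R + 1) ≤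
      C.p R (R + 1) * (∏ i ∈ Finset.range (m + 1), b i) * q := by
    rw [Finset.prod_range_succ']
    calc C.p R (R + 1) * W (ω 0) (R + 1) *
          Gf C W (Finset.Icc (-(R : ℤ)) R) m (shift 1 ω) (R + 1)
        ≤ (C.p R (R + 1) * b 0) * ((∏ i ∈ Finset.range m, b (i + 1)) * q) :=
          mul_le_mul (mul_le_mul_of_nonneg_left ((hp _ _ (by omega)).2) (C.nonneg _ _)) h1
            (Gf_nn C hW0 _ _ _ _) (mul_nonneg (C.nonneg _ _) (hb0 0))
      _ = _ := by ring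
  -- lower bound
  have h2 : (∏ i ∈ Finset.range (2 * k + 1), a (i + 1)) * κ ≤
      Zk C W (2 * k + 1) (shift 1 ω) (R + 1) R := by
    have := exc_ge C hW0 (R : ℤ) (2 * k + 1) (shift 1 ω) (fun i => a (i + 1)) (R + 1) (by omega)
      (fun i _ => ha0 _) (fun i _ z hz => haW _ z hz) (by
        intro i hi
        simp only [a]
        rw [if_neg (by omega)]
        exact hD _ _)
    rw [add_sub_cancel_left] at this
    exact this
  have hlow : C.p R (R + 1) * (∏ i ∈ Finset.range (2 * k + 2), a i) * κ ≤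
      Zk C W (2 * k + 2) ω R R := by
    have h3 : C.p R (R + 1) * W (ω 0) (R + 1) * Zk C W (2 * k + 1) (shift 1 ω) (R + 1) R ≤
        Zk C W (2 * k + 1 + 1) ω R R := by
      rw [Zk]
      exact Finset.single_le_sum (f := fun z => C.p R z * W (ω 0) z *
        Zk C W (2 * k + 1) (shift 1 ω) z R) (fun z _ => mul_nonneg (mul_nonneg (C.nonneg _ _)
        (hW0 _ _)) (Zk_nn C hW0 _ _ _ _)) (Finset.mem_Icc.2 ⟨by omega, le_rfl⟩)
    refine le_trans ?_ h3
    rw [Finset.prod_range_succ']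
    calc C.p R (R + 1) * ((∏ i ∈ Finset.range (2 * k + 1), a (i + 1)) * a 0) * κ
        = (C.p R (R + 1) * a 0) * ((∏ i ∈ Finset.range (2 * k + 1), a (i + 1)) * κ) := by ring
      _ ≤ (C.p R (R + 1) * W (ω 0) (R + 1)) * Zk C W (2 * k + 1) (shift 1 ω) (R + 1) R :=
          mul_le_mul (mul_le_mul_of_nonneg_left (haW 0 _ (by omega)) (C.nonneg _ _)) h2
            (mul_nonneg (Finset.prod_nonneg fun i _ => ha0 _) hκ0)
            (mul_nonneg (C.nonneg _ _) (hW0 _ _))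
  -- products
  set P := ∏ i ∈ Finset.range (m + 1), (Real.exp (-e (ω i)) * Lp (ω i)) with hP
  have hP0 : 0 ≤ P := Finset.prod_nonneg fun i _ => mul_nonneg (Real.exp_pos _).le (hLp _).le
  have hbP : ∏ i ∈ Finset.range (m + 1), b i =
      Real.exp (2 * ∑ i ∈ Finset.range (m + 1), e (ω i)) * P := by
    rw [hP, Finset.mul_sum, Real.exp_sum, ← Finset.prod_mul_distrib]
    refine Finset.prod_congr rfl fun i _ => ?_
    change Real.exp (e (ω i)) * Lp (ω i) = _
    rw [← mul_assoc, ← Real.exp_add]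
    congr 2
    ring
  have haP : ∏ i ∈ Finset.range (2 * k + 2), a i =
      P * Real.exp (-∑ i ∈ Finset.Ico (m + 1) (2 * k + 2), D (ω i)) := by
    rw [← Finset.prod_range_mul_prod_Ico a (show m + 1 ≤ 2 * k + 2 by omega)]
    congr 1
    · refine Finset.prod_congr rfl fun i hi => ?_
      rw [Finset.mem_range] at hi
      simp only [a]
      rw [if_pos hi]
    · rw [← Finset.sum_neg_distrib, Real.exp_sum]
      refine Finset.prod_congr rfl fun i hi => ?_
      rw [Finset.mem_Ico] at hi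
      simp only [a]
      rw [if_neg (by omega)]
  rw [haP] at hlow
  rw [hbP] at hup
  set S := ∑ i ∈ Finset.Ico (m + 1) (2 * k + 2), D (ω i) with hS
  set T := 2 * ∑ i ∈ Finset.range (m + 1), e (ω i) with hT
  have hcp := C.nonneg R (R + 1)
  have hq' : q ≤ K * Real.exp (ε * ((m + 1 : ℕ) : ℝ)) * κ := by
    refine hq.trans (mul_le_mul_of_nonneg_right (mul_le_mul_of_nonneg_left
      (Real.exp_le_exp.2 ?_) hK.le) hκ0)
    push_cast
    nlinarith
  calc C.p R (R + 1) * W (ω 0) (R + 1) *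
          Gf C W (Finset.Icc (-(R : ℤ)) R) m (shift 1 ω) (R + 1)
      ≤ C.p R (R + 1) * (Real.exp T * P) * q := hup
    _ ≤ C.p R (R + 1) * (Real.exp T * P) * (K * Real.exp (ε * ((m + 1 : ℕ) : ℝ)) * κ) :=
        mul_le_mul_of_nonneg_left hq' (mul_nonneg hcp (mul_nonneg (Real.exp_pos _).le hP0))
    _ = K * Real.exp (ε * ((m + 1 : ℕ) : ℝ) + T + S) *
          (C.p R (R + 1) * (P * Real.exp (-S)) * κ) := by
        rw [Real.exp_add, Real.exp_add, Real.exp_neg]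
        field_simp
    _ ≤ K * Real.exp (ε * ((m + 1 : ℕ) : ℝ) + T + S) * Zk C W (2 * k + 2) ω R R :=
        mul_le_mul_of_nonneg_left hlow (mul_nonneg hK.le (Real.exp_pos _).le)

theorem parity (hnl : ∀ x, C.p x x = 0) (W : ℝ → ℤ → ℝ) :
    ∀ (n : ℕ) (ω : ℕ → ℝ) (x y : ℤ), ¬ (2 : ℤ) ∣ (n + x + y) → Zk C W n ω x y = 0
  | 0, ω, x, y, h => by
    simp only [Zk]
    rw [if_neg]
    rintro rfl
    apply h
    push_cast
    omega
  | n + 1, ω, x, y, h => by
    simp only [Zk]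
    refine Finset.sum_eq_zero fun z hz => ?_
    rw [Finset.mem_Icc] at hz
    by_cases hzx : z = x
    · rw [hzx, hnl, zero_mul, zero_mul]
    · rw [parity hnl W n (shift 1 ω) z y, mul_zero]
      push_cast at h
      omega

theorem walk_pos (ω : ℕ → ℝ) : ∀ (n : ℕ) (x : ℤ), |x| ≤ n → (2 : ℤ) ∣ (n + x) →
    0 < Zk C (fun _ _ => 1) n ω x 0 := by
  intro n
  induction n generalizing ω with
  | zero =>
    intro x h _
    have : x = 0 := by
      rw [← abs_nonpos_iff]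
      exact_mod_cast h
    rw [this]
    simp [Zk]
  | succ n ih =>
    intro x h hd
    have key : ∀ z : ℤ, z ∈ Finset.Icc (x - 1) (x + 1) → 0 < C.p x z → |z| ≤ n →
        (2 : ℤ) ∣ (n + z) → 0 < Zk C (fun _ _ => (1 : ℝ)) (n + 1) ω x 0 := by
      intro z hz hp h1 h2
      rw [Zk]
      refine Finset.sum_pos' (fun w _ => mul_nonneg (mul_nonneg (C.nonneg _ _) zero_le_one)
        (Zk_nn C (fun _ _ => zero_le_one) _ _ _ _)) ⟨z, hz, ?_⟩
      exact mul_pos (mul_pos hp one_pos) (ih (shift 1 ω) z h1 h2)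
    push_cast at h hd
    rw [abs_le] at h
    rcases lt_or_ge 0 x with hx | hx
    · refine key (x - 1) (Finset.mem_Icc.2 ⟨le_rfl, by omega⟩) (C.down x) ?_ (by omega)
      rw [abs_le]
      omega
    · rcases lt_or_eq_of_le hx with hx | hx
      · refine key (x + 1) (Finset.mem_Icc.2 ⟨by omega, le_rfl⟩) (C.up x) ?_ (by omega)
        rw [abs_le]
        omega
      · refine key (x + 1) (Finset.mem_Icc.2 ⟨by omega, le_rfl⟩) (C.up x) ?_ (by omega)
        rw [abs_le]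
        omega

theorem exists_min {α : Type*} (S : Finset α) (f : α → ℝ) :
    ∃ c : ℝ, 0 < c ∧ ∀ a ∈ S, 0 < f a → c ≤ f a := by
  classical
  induction S using Finset.induction_on with
  | empty => exact ⟨1, one_pos, by simp⟩
  | insert a S _ ih =>
    obtain ⟨c, hc, h⟩ := ih
    by_cases ha : 0 < f a
    · refine ⟨min c (f a), lt_min hc ha, ?_⟩
      intro b hb hfb
      rcases Finset.mem_insert.1 hb with rfl | hb
      · exact min_le_right _ _
      · exact (min_le_left _ _).trans (h b hb hfb)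
    · refine ⟨c, hc, ?_⟩
      intro b hb hfb
      rcases Finset.mem_insert.1 hb with rfl | hb
      · exact absurd hfb ha
      · exact h b hb hfb

/-- with a holding state the origin is reached in every large number of steps -/
theorem walk_pos_hold {xh : ℤ} (hxh : 0 < C.p xh xh) (M : ℕ) (y : ℤ)
    (hM : y.natAbs + 2 * xh.natAbs + 1 ≤ M) :
    0 < Zk C (fun _ _ => 1) M (fun _ => 0) y 0 := by
  by_cases hpar : (2 : ℤ) ∣ ((M : ℤ) + y)
  · refine walk_pos C (fun _ => 0) M y ?_ hpar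
    rw [abs_le]
    omega
  · -- first go to `xh`, hold, then go to `0`
    have hto : ∀ (n : ℕ) (x : ℤ), n = (x - xh).natAbs →
        0 < Zk C (fun _ _ => 1) n (fun _ => 0) x xh := by
      intro n
      induction n with
      | zero =>
        intro x hx
        have : x = xh := by omega
        rw [this]
        simp [Zk]
      | succ n ih =>
        intro x hx
        have key : ∀ z : ℤ, z ∈ Finset.Icc (x - 1) (x + 1) → 0 < C.p x z →
            n = (z - xh).natAbs → 0 < Zk C (fun _ _ => (1 : ℝ)) (n + 1) (fun _ => 0) x xh := by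
          intro z hz hp h1
          rw [Zk]
          refine Finset.sum_pos' (fun w _ => mul_nonneg (mul_nonneg (C.nonneg _ _) zero_le_one)
            (Zk_nn C (fun _ _ => zero_le_one) _ _ _ _)) ⟨z, hz, ?_⟩
          exact mul_pos (mul_pos hp one_pos) (ih z h1)
        rcases lt_or_ge xh x with hx' | hx'
        · exact key (x - 1) (Finset.mem_Icc.2 ⟨le_rfl, by omega⟩) (C.down x) (by omega)
        · exact key (x + 1) (Finset.mem_Icc.2 ⟨by omega, le_rfl⟩) (C.up x) (by omega)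
    have hz : ∀ n (ω : ℕ → ℝ) (x z : ℤ), 0 ≤ Zk C (fun _ _ => (1 : ℝ)) n ω x z := fun n ω x z =>
      Zk_nn C (fun _ _ => zero_le_one) n ω x z
    have hone : 0 < Zk C (fun _ _ => (1 : ℝ)) 1 (fun _ => 0) xh xh := by
      rw [Zk]
      refine Finset.sum_pos' (fun w _ => mul_nonneg (mul_nonneg (C.nonneg _ _) zero_le_one)
        (Zk_nn C (fun _ _ => zero_le_one) _ _ _ _)) ⟨xh, Finset.mem_Icc.2 ⟨by omega, by omega⟩, ?_⟩
      refine mul_pos (mul_pos hxh one_pos) ?_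
      simp [Zk]
    obtain ⟨r, hr⟩ : ∃ r : ℕ, M = (y - xh).natAbs + (1 + r) :=
      ⟨M - (y - xh).natAbs - 1, by omega⟩
    have h3 : 0 < Zk C (fun _ _ => (1 : ℝ)) r (fun _ => 0) xh 0 := by
      refine walk_pos C (fun _ => 0) r xh ?_ ?_
      · rw [abs_le]
        omega
      · omega
    have hsh : ∀ k : ℕ, shift k (fun _ : ℕ => (0 : ℝ)) = fun _ => 0 := fun k => rfl
    have h4 := MP_daa227_pr.Zk_mul_le C (fun _ _ => (1 : ℝ)) (fun _ _ => zero_le_one) 1 r
      (fun _ => 0) xh xh 0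
    rw [hsh] at h4
    have h5 := MP_daa227_pr.Zk_mul_le C (fun _ _ => (1 : ℝ)) (fun _ _ => zero_le_one)
      (y - xh).natAbs (1 + r) (fun _ => 0) y xh 0
    rw [hsh] at h5
    rw [hr]
    exact lt_of_lt_of_le (mul_pos (hto _ y rfl) (lt_of_lt_of_le (mul_pos hone h3) h4)) h5

/-- from a point of the box to the origin -/
theorem finish (R : ℕ) : ∃ M₀ : ℕ, ∀ S : ℕ,
    ∃ c : ℝ, 0 < c ∧ ∀ (W : ℝ → ℤ → ℝ) (D : ℝ → ℝ), (∀ a z, 0 < W a z) →
      (∀ a z, Real.exp (-D a) ≤ W a z) → ∀ (t N : ℕ) (y : ℤ) (ω : ℕ → ℝ), t + M₀ ≤ N →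
      N ≤ t + S → Even N → |y| ≤ R →
      c * Real.exp (-∑ i ∈ Finset.Ico t N, D (ω i)) * Zk C W t ω 0 y ≤ Zk C W N ω 0 0 := by
  have main : ∀ M₀ : ℕ, (∀ (t N : ℕ) (y : ℤ), t + M₀ ≤ N → Even N → |y| ≤ R →
      (∀ (W : ℝ → ℤ → ℝ) (ω : ℕ → ℝ), Zk C W t ω 0 y = 0) ∨
        0 < Zk C (fun _ _ => 1) (N - t) (fun _ => 0) y 0) →
      ∀ S : ℕ, ∃ c : ℝ, 0 < c ∧ ∀ (W : ℝ → ℤ → ℝ) (D : ℝ → ℝ), (∀ a z, 0 < W a z) →
      (∀ a z, Real.exp (-D a) ≤ W a z) → ∀ (t N : ℕ) (y : ℤ) (ω : ℕ → ℝ), t + M₀ ≤ N →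
      N ≤ t + S → Even N → |y| ≤ R →
      c * Real.exp (-∑ i ∈ Finset.Ico t N, D (ω i)) * Zk C W t ω 0 y ≤ Zk C W N ω 0 0 := by
    intro M₀ hM₀ S
    obtain ⟨c, hc, h⟩ := exists_min (Finset.Icc (-(R : ℤ)) R ×ˢ Finset.range (S + 1))
      (fun p : ℤ × ℕ => Zk C (fun _ _ => 1) p.2 (fun _ => 0) p.1 0)
    refine ⟨c, hc, ?_⟩
    intro W D hW hD t N y ω h1 h2 h3 hy
    have hW0 : ∀ a z, 0 ≤ W a z := fun a z => (hW a z).le
    rcases hM₀ t N y h1 h3 hy with h6 | h6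
    · rw [h6 W ω, mul_zero]
      exact Zk_nn C hW0 _ _ _ _
    obtain ⟨M, rfl⟩ : ∃ M, N = t + M := ⟨N - t, by omega⟩
    rw [Nat.add_sub_cancel_left] at h6
    have h7 : c ≤ Zk C (fun _ _ => 1) M (fun _ => 0) y 0 := by
      refine h (y, M) ?_ h6
      rw [Finset.mem_product, Finset.mem_Icc, Finset.mem_range]
      rw [abs_le] at hy
      exact ⟨hy, by omega⟩
    have h8 := Zk_ge C hW0 M (shift t ω) (fun _ => 0) (fun i => Real.exp (-D (ω (i + t)))) y 0
      (fun i _ => (Real.exp_pos _).le) (fun i _ z => hD _ _)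
    have h9 : ∏ i ∈ Finset.range M, Real.exp (-D (ω (i + t))) =
        Real.exp (-∑ i ∈ Finset.Ico t (t + M), D (ω i)) := by
      rw [← Finset.sum_neg_distrib, Real.exp_sum, Finset.prod_Ico_eq_prod_range]
      rw [show t + M - t = M by omega]
      refine Finset.prod_congr rfl fun i _ => ?_
      rw [add_comm]
    rw [h9] at h8
    have h10 := MP_daa227_pr.Zk_mul_le C W hW0 t M ω 0 y 0
    calc c * Real.exp (-∑ i ∈ Finset.Ico t (t + M), D (ω i)) * Zk C W t ω 0 y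
        ≤ Zk C (fun _ _ => 1) M (fun _ => 0) y 0 *
            Real.exp (-∑ i ∈ Finset.Ico t (t + M), D (ω i)) * Zk C W t ω 0 y :=
          mul_le_mul_of_nonneg_right (mul_le_mul_of_nonneg_right h7 (Real.exp_pos _).le)
            (Zk_nn C hW0 _ _ _ _)
      _ = Zk C W t ω 0 y * (Real.exp (-∑ i ∈ Finset.Ico t (t + M), D (ω i)) *
            Zk C (fun _ _ => 1) M (fun _ => 0) y 0) := by ring
      _ ≤ Zk C W t ω 0 y * Zk C W M (shift t ω) y 0 :=
          mul_le_mul_of_nonneg_left h8 (Zk_nn C hW0 _ _ _ _)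
      _ ≤ _ := h10
  by_cases hnl : ∀ x, C.p x x = 0
  · refine ⟨R, main R fun t N y h1 h3 hy => ?_⟩
    by_cases hpar : (2 : ℤ) ∣ ((t : ℤ) + 0 + y)
    · right
      obtain ⟨M, rfl⟩ : ∃ M, N = t + M := ⟨N - t, by omega⟩
      rw [Nat.add_sub_cancel_left]
      have h4 : |y| ≤ (M : ℤ) := by
        refine hy.trans ?_
        omega
      have h5 : (2 : ℤ) ∣ ((M : ℤ) + y) := by
        obtain ⟨r, hr⟩ := h3
        omega
      exact walk_pos C (fun _ => 0) M y h4 h5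
    · left
      exact fun W ω => parity C hnl W t ω 0 y hpar
  · push Not at hnl
    obtain ⟨xh, hxh⟩ := hnl
    have hxh' : 0 < C.p xh xh := lt_of_le_of_ne (C.nonneg _ _) (Ne.symm hxh)
    refine ⟨R + 2 * xh.natAbs + 1, main _ fun t N y h1 h3 hy => Or.inr ?_⟩
    refine walk_pos_hold C hxh' (N - t) y ?_
    rw [abs_le] at hy
    omega

theorem box_step {W : ℝ → ℤ → ℝ} (hW : ∀ a z, 0 ≤ W a z) (R : ℕ) (m : ℕ) (ω : ℕ → ℝ) {y : ℤ}
    (hy : y ∈ Finset.Icc (-(R : ℤ)) R) :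
    Gf C W (Finset.Icc (-(R : ℤ)) R) (m + 1) ω y ≤
      (if y = R then C.p R (R + 1) * W (ω 0) (R + 1) *
        Gf C W (Finset.Icc (-(R : ℤ)) R) m (shift 1 ω) (R + 1) else 0) +
      (if y = -R then C.p (-R) (-(R + 1)) * W (ω 0) (-(R + 1)) *
        Gf C W (Finset.Icc (-(R : ℤ)) R) m (shift 1 ω) (-(R + 1)) else 0) := by
  have hT : ∀ z : ℤ, 0 ≤ C.p y z * W (ω 0) z *
      Gf C W (Finset.Icc (-(R : ℤ)) R) m (shift 1 ω) z := fun z =>
    mul_nonneg (mul_nonneg (C.nonneg _ _) (hW _ _)) (Gf_nn C hW _ _ _ _)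
  rw [Finset.mem_Icc] at hy
  have hsub : Finset.Icc (y - 1) (y + 1) \ Finset.Icc (-(R : ℤ)) R ⊆
      (if y = R then {(R : ℤ) + 1} else ∅) ∪ (if y = -R then {-((R : ℤ) + 1)} else ∅) := by
    intro z hz
    rw [Finset.mem_sdiff, Finset.mem_Icc, Finset.mem_Icc] at hz
    rw [Finset.mem_union]
    by_cases h : (R : ℤ) < z
    · left
      rw [if_pos (by omega), Finset.mem_singleton]
      omega
    · right
      rw [if_pos (by omega), Finset.mem_singleton]
      omega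
  have hdisj : Disjoint (if y = R then ({(R : ℤ) + 1} : Finset ℤ) else ∅)
      (if y = -R then {-((R : ℤ) + 1)} else ∅) := by
    rw [Finset.disjoint_left]
    intro z h1 h2
    split_ifs at h1 h2 <;> simp only [Finset.mem_singleton, Finset.notMem_empty] at h1 h2
    omega
  have h1 := Finset.sum_le_sum_of_subset_of_nonneg hsub (fun z _ _ => hT z)
  rw [Finset.sum_union hdisj] at h1
  refine (show Gf C W (Finset.Icc (-(R : ℤ)) R) (m + 1) ω y ≤ _ from h1).trans (le_of_eq ?_)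
  congr 1
  · split_ifs with h
    · rw [Finset.sum_singleton, h]
    · rw [Finset.sum_empty]
  · split_ifs with h
    · rw [Finset.sum_singleton, h]
    · rw [Finset.sum_empty]

end FreePin

open FreePin

theorem free_pinned (C : Chain)
    (hrec : HasSum (fun n : ℕ => K0 C (n + 1) 0) 1) (R : ℕ) {ε : ℝ} (hε : 0 < ε) :
    ∃ K : ℝ, 0 < K ∧ ∃ s : ℕ, ∀ (W : ℝ → ℤ → ℝ) (Lp Lm e D : ℝ → ℝ),
      (∀ a z, 0 < W a z) → (∀ a, 0 < Lp a) → (∀ a, 0 < Lm a) → (∀ a, 0 ≤ e a) → (∀ a, 0 ≤ D a) →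
      (∀ a z, (R : ℤ) < z → Real.exp (-e a) * Lp a ≤ W a z ∧ W a z ≤ Real.exp (e a) * Lp a) →
      (∀ a z, z < -(R : ℤ) → Real.exp (-e a) * Lm a ≤ W a z ∧ W a z ≤ Real.exp (e a) * Lm a) →
      (∀ a z, Real.exp (-D a) ≤ W a z) →
      ∀ (n : ℕ) (ω : ℕ → ℝ), Zf C W n ω 0 ≤
        K * ((n : ℝ) + 1) * Real.exp (ε * n + 2 * (∑ i ∈ Finset.range n, e (ω i)) +
          ∑ i ∈ Finset.Ico n (n + s + (n + s) % 2), D (ω i)) *
        Zk C W (n + s + (n + s) % 2) ω 0 0 := by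
  obtain ⟨K₁, hK₁, h₁⟩ := one_side C hrec R hε
  have hrec' : HasSum (fun n : ℕ => K0 (cneg C) (n + 1) 0) 1 := by
    have : (fun n : ℕ => K0 (cneg C) (n + 1) 0) = fun n : ℕ => K0 C (n + 1) 0 := by
      funext n
      exact K0_cneg C _
    rw [this]
    exact hrec
  obtain ⟨K₂, hK₂, h₂⟩ := one_side (cneg C) hrec' R hε
  obtain ⟨M₀, hM₀⟩ := finish C R
  obtain ⟨c, hc, hfin⟩ := hM₀ (M₀ + 5)
  refine ⟨(2 * R + 1) * (c⁻¹ * (1 + K₁ + K₂)), by positivity, M₀ + 4, ?_⟩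
  intro W Lp Lm e D hW hLp hLm he hD0 hp hm hD n ω
  have hW0 : ∀ a z, 0 ≤ W a z := fun a z => (hW a z).le
  set N := n + (M₀ + 4) + (n + (M₀ + 4)) % 2 with hN
  have hNe : Even N := by
    rw [Nat.even_iff]
    omega
  set E := ε * (n : ℝ) + 2 * (∑ i ∈ Finset.range n, e (ω i)) +
    ∑ i ∈ Finset.Ico n N, D (ω i) with hE
  set Z := Zk C W N ω 0 0 with hZ
  have hZ0 : 0 ≤ Z := Zk_nn C hW0 _ _ _ _
  have hB0 : (0 : ℤ) ∈ Finset.Icc (-(R : ℤ)) R := Finset.mem_Icc.2 ⟨by omega, by omega⟩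
  -- the finish
  have hfin' : ∀ (t : ℕ) (y : ℤ), n ≤ t → t ≤ n + 2 → |y| ≤ R →
      Zk C W t ω 0 y ≤ c⁻¹ * Real.exp (∑ i ∈ Finset.Ico t N, D (ω i)) * Z := by
    intro t y h1 h2 hy
    have h3 := hfin W D hW hD t N y ω (by omega) (by omega) hNe hy
    have h4 : 0 < Real.exp (∑ i ∈ Finset.Ico t N, D (ω i)) := Real.exp_pos _
    rw [Real.exp_neg] at h3
    calc Zk C W t ω 0 y = c⁻¹ * Real.exp (∑ i ∈ Finset.Ico t N, D (ω i)) *
          (c * (Real.exp (∑ i ∈ Finset.Ico t N, D (ω i)))⁻¹ * Zk C W t ω 0 y) := by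
          field_simp
      _ ≤ _ := mul_le_mul_of_nonneg_left h3 (by positivity)
  -- the term of an excursion
  have hexc : ∀ (K' : ℝ) (u m : ℕ) (y : ℤ) (G : ℝ), 0 ≤ K' → u + (m + 1) = n → |y| ≤ R →
      G ≤ K' * Real.exp (ε * ((m + 1 : ℕ) : ℝ) +
        2 * (∑ i ∈ Finset.range (m + 1), e (shift u ω i)) +
        ∑ i ∈ Finset.Ico (m + 1) (2 * ((m + 1) / 2) + 2), D (shift u ω i)) *
        Zk C W (2 * ((m + 1) / 2) + 2) (shift u ω) y y →
      Zk C W u ω 0 y * G ≤ c⁻¹ * K' * Real.exp E * Z := by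
    intro K' u m y G hK' hum hy hG
    set m' := 2 * ((m + 1) / 2) + 2 with hm'
    have hZu : 0 ≤ Zk C W u ω 0 y := Zk_nn C hW0 _ _ _ _
    have h3 := MP_daa227_pr.Zk_mul_le C W hW0 u m' ω 0 y y
    have h4 := hfin' (u + m') y (by omega) (by omega) hy
    have h5 : ∑ i ∈ Finset.Ico (m + 1) m', D (shift u ω i) =
        ∑ i ∈ Finset.Ico n (u + m'), D (ω i) := by
      simp only [MP_daa227_pr.shift_apply]
      rw [Finset.sum_Ico_add' (fun i => D (ω i)) (m + 1) m' u]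
      congr 2 <;> omega
    have h6 : ∑ i ∈ Finset.Ico n (u + m'), D (ω i) + ∑ i ∈ Finset.Ico (u + m') N, D (ω i) =
        ∑ i ∈ Finset.Ico n N, D (ω i) :=
      Finset.sum_Ico_consecutive (fun i => D (ω i)) (by omega) (by omega)
    have h7 : ∑ i ∈ Finset.range (m + 1), e (shift u ω i) ≤ ∑ i ∈ Finset.range n, e (ω i) := by
      simp only [MP_daa227_pr.shift_apply]
      rw [Finset.range_eq_Ico, Finset.sum_Ico_add' (fun i => e (ω i)) 0 (m + 1) u]
      refine Finset.sum_le_sum_of_subset_of_nonneg ?_ (fun i _ _ => he _)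
      intro i hi
      rw [Finset.mem_Ico] at hi
      rw [Finset.mem_range]
      omega
    have h8 : ε * ((m + 1 : ℕ) : ℝ) ≤ ε * (n : ℝ) := by
      refine mul_le_mul_of_nonneg_left ?_ hε.le
      exact_mod_cast (by omega : m + 1 ≤ n)
    set X := ε * ((m + 1 : ℕ) : ℝ) + 2 * (∑ i ∈ Finset.range (m + 1), e (shift u ω i)) +
        ∑ i ∈ Finset.Ico (m + 1) m', D (shift u ω i) with hX
    calc Zk C W u ω 0 y * G
        ≤ Zk C W u ω 0 y * (K' * Real.exp X * Zk C W m' (shift u ω) y y) :=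
          mul_le_mul_of_nonneg_left hG hZu
      _ = K' * Real.exp X * (Zk C W u ω 0 y * Zk C W m' (shift u ω) y y) := by ring
      _ ≤ K' * Real.exp X * (c⁻¹ * Real.exp (∑ i ∈ Finset.Ico (u + m') N, D (ω i)) * Z) :=
          mul_le_mul_of_nonneg_left (h3.trans h4) (mul_nonneg hK' (Real.exp_pos _).le)
      _ = c⁻¹ * K' * Real.exp (X + ∑ i ∈ Finset.Ico (u + m') N, D (ω i)) * Z := by
          rw [Real.exp_add X]
          ring
      _ ≤ c⁻¹ * K' * Real.exp E * Z := by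
          refine mul_le_mul_of_nonneg_right (mul_le_mul_of_nonneg_left (Real.exp_le_exp.2 ?_)
            (by positivity)) hZ0
          rw [hX, hE, h5]
          linarith
  -- each term
  have hterm : ∀ u ∈ Finset.range (n + 1), ∀ y ∈ Finset.Icc (-(R : ℤ)) R,
      Zk C W u ω 0 y * Gf C W (Finset.Icc (-(R : ℤ)) R) (n - u) (shift u ω) y ≤
        c⁻¹ * (1 + K₁ + K₂) * Real.exp E * Z := by
    intro u hu y hy
    rw [Finset.mem_range] at hu
    have hy' : |y| ≤ R := abs_le.2 (Finset.mem_Icc.1 hy)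
    have hXZ : 0 ≤ c⁻¹ * Real.exp E * Z := by positivity
    rcases Nat.lt_or_ge u n with hun | hun
    · obtain ⟨m, hm1⟩ : ∃ m, n - u = m + 1 := ⟨n - u - 1, by omega⟩
      rw [hm1]
      have h3 := box_step C hW0 R m (shift u ω) hy
      have hZu : 0 ≤ Zk C W u ω 0 y := Zk_nn C hW0 _ _ _ _
      have h4 : Zk C W u ω 0 y * (if y = R then C.p R (R + 1) * W (shift u ω 0) (R + 1) *
          Gf C W (Finset.Icc (-(R : ℤ)) R) m (shift 1 (shift u ω)) (R + 1) else 0) ≤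
          c⁻¹ * K₁ * Real.exp E * Z := by
        split_ifs with h
        · refine hexc K₁ u m y _ hK₁.le (by omega) hy' ?_
          rw [h]
          exact h₁ W Lp e D hW hLp hp hD m (shift u ω)
        · rw [mul_zero]
          positivity
      have h5 : Zk C W u ω 0 y * (if y = -R then C.p (-R) (-(R + 1)) *
          W (shift u ω 0) (-(R + 1)) *
          Gf C W (Finset.Icc (-(R : ℤ)) R) m (shift 1 (shift u ω)) (-(R + 1)) else 0) ≤
          c⁻¹ * K₂ * Real.exp E * Z := by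
        split_ifs with h
        · refine hexc K₂ u m y _ hK₂.le (by omega) hy' ?_
          rw [h]
          have h6 := h₂ (fun a z => W a (-z)) Lm e D (fun a z => hW _ _) hLm
            (fun a z hz => hm a (-z) (by omega)) (fun a z => hD _ _) m (shift u ω)
          rw [Gf_cneg, Zk_cneg] at h6
          exact h6
        · rw [mul_zero]
          positivity
      calc _ ≤ Zk C W u ω 0 y * _ := mul_le_mul_of_nonneg_left h3 hZu
        _ ≤ c⁻¹ * K₁ * Real.exp E * Z + c⁻¹ * K₂ * Real.exp E * Z := by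
            rw [mul_add]
            exact add_le_add h4 h5
        _ ≤ c⁻¹ * (1 + K₁ + K₂) * Real.exp E * Z := by
            nlinarith
    · have hun' : u = n := by omega
      rw [hun', Nat.sub_self]
      have h3 := hfin' n y le_rfl (by omega) hy'
      have h4 : Real.exp (∑ i ∈ Finset.Ico n N, D (ω i)) ≤ Real.exp E := by
        apply Real.exp_le_exp.2
        rw [hE]
        have h5 : 0 ≤ ∑ i ∈ Finset.range n, e (ω i) := Finset.sum_nonneg fun i _ => he _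
        have h6 : 0 ≤ ε * (n : ℝ) := by positivity
        linarith
      simp only [Gf, mul_one]
      calc Zk C W n ω 0 y ≤ c⁻¹ * Real.exp (∑ i ∈ Finset.Ico n N, D (ω i)) * Z := h3
        _ ≤ c⁻¹ * Real.exp E * Z :=
            mul_le_mul_of_nonneg_right (mul_le_mul_of_nonneg_left h4 (by positivity)) hZ0
        _ ≤ c⁻¹ * (1 + K₁ + K₂) * Real.exp E * Z := by
            have h7 : 0 ≤ (K₁ + K₂) * (c⁻¹ * Real.exp E * Z) := mul_nonneg (by positivity) hXZ
            nlinarith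
  rw [MP_daa227_pr.Zf_last C W (Finset.Icc (-(R : ℤ)) R) n ω 0 hB0]
  calc ∑ u ∈ Finset.range (n + 1), ∑ y ∈ Finset.Icc (-(R : ℤ)) R,
        Zk C W u ω 0 y * Gf C W (Finset.Icc (-(R : ℤ)) R) (n - u) (shift u ω) y
      ≤ ∑ u ∈ Finset.range (n + 1), ∑ y ∈ Finset.Icc (-(R : ℤ)) R,
        c⁻¹ * (1 + K₁ + K₂) * Real.exp E * Z :=
        Finset.sum_le_sum fun u hu => Finset.sum_le_sum fun y hy => hterm u hu y hy
    _ = (2 * R + 1) * (c⁻¹ * (1 + K₁ + K₂)) * ((n : ℝ) + 1) * Real.exp E * Z := by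
        rw [Finset.sum_const, Finset.sum_const, Finset.card_range, Int.card_Icc]
        have : ((R : ℤ) + 1 - -(R : ℤ)).toNat = 2 * R + 1 := by omega
        rw [this]
        simp only [nsmul_eq_mul]
        push_cast
        ring

end

end Pool.Agent.HZ
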