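import Pool.Agent.Lib.MP_daa227_pr_HZ.Basic

/-!
# Interpolation of the deterministic kernels (Hoelder inequality)
-/

namespace Pool.Agent.HZ

open MeasureTheory ProbabilityTheory Set Filter
open scoped ENNReal Topology
open MP_daa227_pr (Chain Zk Zf Gk Gf KU K0 ushift shift seqLaw ExpMom Good GoodW mom)

noncomputable section

namespace Interp

/-- the finite Hoelder inequality -/
theorem holder {ι : Type*} (s : Finset ι) (a b : ι → ℝ) (ha : ∀ i ∈ s, 0 ≤ a i)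
    (hb : ∀ i ∈ s, 0 ≤ b i) {t : ℝ} (h0 : 0 ≤ t) (h1 : t ≤ 1) :
    ∑ i ∈ s, a i ^ (1 - t) * b i ^ t ≤ (∑ i ∈ s, a i) ^ (1 - t) * (∑ i ∈ s, b i) ^ t := by
  rcases h0.eq_or_lt with rfl | h0'
  · simp
  rcases h1.eq_or_lt with rfl | h1'
  · simp
  have h2 : 0 < 1 - t := by linarith
  have hpq : (1 / (1 - t)).HolderConjugate (1 / t) := by
    rw [Real.holderConjugate_iff]
    refine ⟨?_, ?_⟩
    · rw [lt_div_iff₀ h2]
      linarith
    · rw [one_div, one_div, inv_inv, inv_inv]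
      ring
  have h3 := Real.inner_le_Lp_mul_Lq_of_nonneg s (f := fun i => a i ^ (1 - t))
    (g := fun i => b i ^ t) hpq (fun i hi => Real.rpow_nonneg (ha i hi) _)
    (fun i hi => Real.rpow_nonneg (hb i hi) _)
  refine h3.trans (le_of_eq ?_)
  rw [one_div, one_div, one_div, one_div, inv_inv, inv_inv]
  congr 2
  · refine Finset.sum_congr rfl fun i hi => ?_
    exact Real.rpow_rpow_inv (ha i hi) h2.ne'
  · refine Finset.sum_congr rfl fun i hi => ?_
    exact Real.rpow_rpow_inv (hb i hi) h0'.ne'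

theorem holder2 {a1 a2 b1 b2 : ℝ} (ha1 : 0 ≤ a1) (ha2 : 0 ≤ a2) (hb1 : 0 ≤ b1) (hb2 : 0 ≤ b2)
    {t : ℝ} (h0 : 0 ≤ t) (h1 : t ≤ 1) :
    a1 ^ (1 - t) * b1 ^ t + a2 ^ (1 - t) * b2 ^ t ≤ (a1 + a2) ^ (1 - t) * (b1 + b2) ^ t := by
  have h := holder (Finset.univ : Finset (Fin 2)) ![a1, a2] ![b1, b2]
    (by intro i _; fin_cases i <;> simp [ha1, ha2]) (by intro i _; fin_cases i <;> simp [hb1, hb2])
    h0 h1
  simpa [Fin.sum_univ_two] using h

theorem term {p a b K K1 K2 : ℝ} (hp : 0 ≤ p) (hK1 : 0 ≤ K1) (hK2 : 0 ≤ K2) {t : ℝ}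
    (h0 : 0 ≤ t) (h1 : t ≤ 1) (hK : K ≤ K1 ^ (1 - t) * K2 ^ t) :
    p * Real.exp ((1 - t) * a + t * b) * K ≤
      (p * Real.exp a * K1) ^ (1 - t) * (p * Real.exp b * K2) ^ t := by
  have h2 : 0 ≤ 1 - t := by linarith
  have hpp : p ^ (1 - t) * p ^ t = p := by
    rw [← Real.rpow_add_of_nonneg hp h2 h0, sub_add_cancel, Real.rpow_one]
  rw [Real.mul_rpow (mul_nonneg hp (Real.exp_pos _).le) hK1, Real.mul_rpow hp (Real.exp_pos _).le,
    Real.mul_rpow (mul_nonneg hp (Real.exp_pos _).le) hK2, Real.mul_rpow hp (Real.exp_pos _).le,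
    ← Real.exp_mul, ← Real.exp_mul]
  have h3 : p ^ (1 - t) * Real.exp (a * (1 - t)) * K1 ^ (1 - t) *
      (p ^ t * Real.exp (b * t) * K2 ^ t) =
      p * Real.exp ((1 - t) * a + t * b) * (K1 ^ (1 - t) * K2 ^ t) := by
    rw [Real.exp_add, mul_comm (1 - t) a, mul_comm t b]
    nth_rewrite 3 [← hpp]
    ring
  rw [h3]
  exact mul_le_mul_of_nonneg_left hK (mul_nonneg hp (Real.exp_pos _).le)

end Interp

theorem interp_K (C : Chain) (v₁ v₂ : ℤ → ℝ) {t : ℝ} (h0 : 0 ≤ t) (h1 : t ≤ 1) (n : ℕ) (x : ℤ) :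
    Kv C (fun z => (1 - t) * v₁ z + t * v₂ z) n x ≤ Kv C v₁ n x ^ (1 - t) * Kv C v₂ n x ^ t := by
  induction n generalizing x with
  | zero =>
    rw [Kv_zero, Kv_zero, Kv_zero]
    exact mul_nonneg (Real.rpow_nonneg le_rfl _) (Real.rpow_nonneg le_rfl _)
  | succ n ih =>
    rw [Kv_succ, Kv_succ, Kv_succ]
    have hA : ∀ w : ℤ → ℝ, 0 ≤ (if n = 0 then C.p x 0 * Real.exp (w 0) else 0) := by
      intro w
      split_ifs
      · exact mul_nonneg (C.nonneg _ _) (Real.exp_pos _).le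
      · exact le_rfl
    have hB : ∀ (w : ℤ → ℝ) (z : ℤ), 0 ≤ C.p x z * Real.exp (w z) * Kv C w n z := fun w z =>
      mul_nonneg (mul_nonneg (C.nonneg _ _) (Real.exp_pos _).le) (Kv_nonneg C w n z)
    refine le_trans (add_le_add ?_ ?_) (Interp.holder2 (hA v₁)
      (Finset.sum_nonneg fun z _ => hB v₁ z) (hA v₂) (Finset.sum_nonneg fun z _ => hB v₂ z) h0 h1)
    · split_ifs with hn
      · have h2 := Interp.term (a := v₁ 0) (b := v₂ 0) (C.nonneg x 0) zero_le_one zero_le_one h0 h1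
          (K := 1) (by rw [Real.one_rpow, Real.one_rpow, one_mul])
        simpa only [mul_one] using h2
      · exact mul_nonneg (Real.rpow_nonneg le_rfl _) (Real.rpow_nonneg le_rfl _)
    · refine le_trans (Finset.sum_le_sum fun z _ => ?_)
        (Interp.holder _ _ _ (fun z _ => hB v₁ z) (fun z _ => hB v₂ z) h0 h1)
      exact Interp.term (C.nonneg x z) (Kv_nonneg C v₁ n z) (Kv_nonneg C v₂ n z) h0 h1 (ih z)

theorem interp_hd (C : Chain) (v₁ v₂ : ℤ → ℝ) {t : ℝ} (h0 : 0 ≤ t) (h1 : t ≤ 1) (σ : ℤ) (n : ℕ) :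
    hd C (fun z => (1 - t) * v₁ z + t * v₂ z) σ n ≤ hd C v₁ σ n ^ (1 - t) * hd C v₂ σ n ^ t := by
  unfold hd
  split_ifs with hn
  · have h2 := Interp.term (a := v₁ 0) (b := v₂ 0) (C.nonneg 0 0) zero_le_one zero_le_one h0 h1
      (K := 1) (by rw [Real.one_rpow, Real.one_rpow, one_mul])
    simpa only [mul_one] using h2
  · exact mul_nonneg (Real.rpow_nonneg le_rfl _) (Real.rpow_nonneg le_rfl _)

theorem interp_E (C : Chain) (v ζ : ℤ → ℝ) (ε : ℝ) {s : ℝ} (h0 : 0 ≤ s) (h1 : s ≤ 1) (σ : ℤ)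
    (N : ℕ) :
    ∑ n ∈ Finset.range N, Es C (fun z => v z + s * ε * ζ z) σ n ≤
      (∑ n ∈ Finset.range N, Es C v σ n) ^ (1 - s) *
      (∑ n ∈ Finset.range N, Es C (fun z => v z + ε * ζ z) σ n) ^ s := by
  have h2 : (fun z => v z + s * ε * ζ z) =
      fun z => (1 - s) * v z + s * (fun z => v z + ε * ζ z) z := by
    funext z
    ring
  refine le_trans (Finset.sum_le_sum fun n _ => ?_)
    (Interp.holder _ _ _ (fun n _ => Es_nonneg C v σ n) (fun n _ => Es_nonneg C _ σ n) h0 h1)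
  rw [h2]
  rw [Es_eq C v, Es_eq C (fun z => v z + ε * ζ z)]
  refine le_trans (add_le_add ?_ (interp_hd C v (fun z => v z + ε * ζ z) h0 h1 σ n))
    (Interp.holder2 (Ep_nonneg C v σ n) (hd_nonneg C v σ n)
      (Ep_nonneg C (fun z => v z + ε * ζ z) σ n)
      (hd_nonneg C (fun z => v z + ε * ζ z) σ n) h0 h1)
  exact Interp.term (C.nonneg 0 σ) (Kv_nonneg C v n σ) (Kv_nonneg C _ n σ) h0 h1
    (interp_K C v (fun z => v z + ε * ζ z) h0 h1 n σ)

end

end Pool.Agent.HZ
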