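import Pool.Agent.Lib.MP_daa227_pr_HZ.Basic
import Pool.Agent.Lib.MP_daa227_pr_HZ.JenQ
import Pool.Agent.Lib.MP_daa227_pr_HZ.HalfLine
import Pool.Agent.Lib.MP_daa227_pr.HcPos
import Pool.Agent.Lib.MP_daa227_pr_OT.KConv

/-!
# Project AZ, module A24: potentials of finite range

First passage probabilities of the translated chains, strong Markov property, loop exponent one of
the penalised excursions.
-/

namespace Pool.Agent.HZ

open MeasureTheory ProbabilityTheory Set Filter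
open scoped ENNReal Topology
open MP_daa227_pr (Chain Zk Zf Gk Gf KU K0 ushift shift seqLaw ExpMom Good GoodW mom)

noncomputable section

namespace A24

/-- the first passage probabilities from `1` to `0` -/
def fp (D : Chain) (k : ℕ) : ℝ := K0 D (2 * k + 1) 1

theorem fp_eq (D : Chain) (k : ℕ) : OT.Kp D (k + 1) = D.p 0 1 * fp D k := by
  unfold OT.Kp fp
  congr 2

theorem p01 (D : Chain) : 0 < D.p 0 1 := by
  have h := D.up 0
  rwa [zero_add] at h

theorem p01_le (D : Chain) : D.p 0 1 ≤ 1 := OT.K1.p01_le D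

theorem fp_nonneg (D : Chain) (k : ℕ) : 0 ≤ fp D k := MP_daa227_pr.K0_nonneg D _ _

theorem fp_le_one (D : Chain) (k : ℕ) : fp D k ≤ 1 := OT.K1.K0_le_one D _ _

theorem fp_succ_le (D : Chain) (k : ℕ) : fp D (k + 1) ≤ fp D k :=
  HalfLine.odd_anti D k

theorem fp_anti (D : Chain) : Antitone (fp D) :=
  antitone_nat_of_succ_le (fp_succ_le D)

theorem K0_even_le (D : Chain) (k : ℕ) : K0 D (2 * k + 2) 1 ≤ fp D k :=
  HalfLine.even_le D k

/-- first passage probabilities of every length -/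
theorem K0_le_fp (D : Chain) {n k : ℕ} (h : 2 * k + 1 ≤ n) : K0 D n 1 ≤ fp D k := by
  rcases Nat.even_or_odd' n with ⟨m, rfl | rfl⟩
  · obtain ⟨j, rfl⟩ : ∃ j, m = j + 1 := ⟨m - 1, by omega⟩
    exact (K0_even_le D j).trans (fp_anti D (by omega))
  · exact fp_anti D (by omega)

theorem sum_K0 (D : Chain) (N : ℕ) : ∀ x : ℤ, ∑ n ∈ Finset.range N, K0 D n x ≤ 1 := by
  induction N with
  | zero => intro x; simp
  | succ N ih =>
    intro x
    rw [Finset.sum_range_succ']
    have h0 : K0 D 0 x = 0 := rfl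
    rw [h0, add_zero]
    have h1 : ∀ n ∈ Finset.range N, K0 D (n + 1) x = (if n = 0 then D.p x 0 else 0) +
        ∑ z ∈ Finset.Icc (x - 1) (x + 1) \ {0}, D.p x z * K0 D n z := fun n _ => rfl
    rw [Finset.sum_congr rfl h1, Finset.sum_add_distrib, Finset.sum_comm]
    have h2 : ∑ n ∈ Finset.range N, (if n = 0 then D.p x 0 else 0) ≤ D.p x 0 := by
      rw [Finset.sum_ite_eq' (Finset.range N) 0 (fun _ => D.p x 0)]
      split_ifs
      · exact le_rfl
      · exact D.nonneg _ _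
    have h3 : ∑ z ∈ Finset.Icc (x - 1) (x + 1) \ {0}, ∑ n ∈ Finset.range N, D.p x z * K0 D n z ≤
        ∑ z ∈ Finset.Icc (x - 1) (x + 1) \ {0}, D.p x z := by
      refine Finset.sum_le_sum fun z _ => ?_
      rw [← Finset.mul_sum]
      exact mul_le_of_le_one_right (D.nonneg _ _) (ih z)
    have h4 : D.p x 0 + ∑ z ∈ Finset.Icc (x - 1) (x + 1) \ {0}, D.p x z ≤ 1 := by
      by_cases hx : (0 : ℤ) ∈ Finset.Icc (x - 1) (x + 1)
      · rw [← D.sum_one x, ← Finset.add_sum_erase _ _ hx, Finset.sdiff_singleton_eq_erase]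
      · rw [D.near x 0 hx, zero_add, ← D.sum_one x]
        exact Finset.sum_le_sum_of_subset_of_nonneg Finset.sdiff_subset
          (fun z _ _ => D.nonneg x z)
    linarith

theorem sum_fp (D : Chain) (N : ℕ) : ∑ k ∈ Finset.range N, fp D k ≤ 1 := by
  refine le_trans ?_ (sum_K0 D (2 * N) 1)
  have h : ∑ k ∈ Finset.range N, fp D k =
      ∑ n ∈ (Finset.range N).image (fun k => 2 * k + 1), K0 D n 1 := by
    rw [Finset.sum_image]
    · rfl
    · intro a _ b _ hab
      simp only at hab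
      omega
  rw [h]
  refine Finset.sum_le_sum_of_subset_of_nonneg ?_ (fun n _ _ => MP_daa227_pr.K0_nonneg D n 1)
  intro n hn
  rw [Finset.mem_image] at hn
  obtain ⟨k, hk, rfl⟩ := hn
  rw [Finset.mem_range] at hk ⊢
  omega

/-- strong Markov property at the first visit of `1` -/
theorem markov (D : Chain) : ∀ (m : ℕ) (x : ℤ), 2 ≤ x →
    K0 D m x = ∑ L ∈ Finset.range (m + 1), K0 (ctr D 1) L (x - 1) * K0 D (m - L) 1 := by
  intro m
  induction m with
  | zero =>
    intro x _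
    simp [K0]
  | succ m ih =>
    intro x hx
    rw [Finset.sum_range_succ', Finset.sum_range_succ]
    have h0 : K0 (ctr D 1) 0 (x - 1) = 0 := rfl
    have h1 : m + 1 - (m + 1) = 0 := Nat.sub_self _
    have h2 : K0 D 0 1 = 0 := rfl
    rw [h0, h1, h2, mul_zero, add_zero, zero_mul, add_zero]
    have h3 : K0 D (m + 1) x = (if m = 0 then D.p x 0 else 0) +
        ∑ z ∈ Finset.Icc (x - 1) (x + 1) \ {0}, D.p x z * K0 D m z := rfl
    have h4 : D.p x 0 = 0 := by
      apply D.near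
      rw [Finset.mem_Icc]
      omega
    rw [h3, h4, ite_self, zero_add]
    -- the left side : no site is zero
    have h5 : Finset.Icc (x - 1) (x + 1) \ {0} = Finset.Icc (x - 1) (x + 1) := by
      rw [Finset.sdiff_singleton_eq_erase, Finset.erase_eq_of_notMem]
      rw [Finset.mem_Icc]
      omega
    rw [h5]
    have h6 : ∀ L ∈ Finset.range m, K0 (ctr D 1) (L + 1) (x - 1) * K0 D (m + 1 - (L + 1)) 1 =
        (if L = 0 then D.p x 1 * K0 D m 1 else 0) +
        ∑ z ∈ Finset.Icc (x - 1) (x + 1) \ {1}, D.p x z *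
          (K0 (ctr D 1) L (z - 1) * K0 D (m - L) 1) := by
      intro L _
      have h7 : K0 (ctr D 1) (L + 1) (x - 1) = (if L = 0 then D.p x 1 else 0) +
          ∑ z ∈ Finset.Icc (x - 1) (x + 1) \ {1}, D.p x z * K0 (ctr D 1) L (z - 1) := by
        have h8 : K0 (ctr D 1) (L + 1) (x - 1) = (if L = 0 then (ctr D 1).p (x - 1) 0 else 0) +
            ∑ z ∈ Finset.Icc (x - 1 - 1) (x - 1 + 1) \ {0}, (ctr D 1).p (x - 1) z *
              K0 (ctr D 1) L z := rfl
        rw [h8]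
        have h9 : (ctr D 1).p (x - 1) 0 = D.p x 1 := by
          change D.p (x - 1 + 1) (0 + 1) = D.p x 1
          rw [sub_add_cancel, zero_add]
        rw [h9]
        congr 1
        refine Finset.sum_bij' (fun y _ => y + 1) (fun y _ => y - 1) ?_ ?_ ?_ ?_ ?_
        · intro y hy
          rw [Finset.mem_sdiff, Finset.mem_Icc, Finset.mem_singleton] at hy ⊢
          omega
        · intro y hy
          rw [Finset.mem_sdiff, Finset.mem_Icc, Finset.mem_singleton] at hy ⊢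
          omega
        · intro y _
          ring
        · intro y _
          ring
        · intro y _
          have h10 : (ctr D 1).p (x - 1) y = D.p x (y + 1) := by
            change D.p (x - 1 + 1) (y + 1) = D.p x (y + 1)
            rw [sub_add_cancel]
          rw [h10, add_sub_cancel_right]
      rw [h7, Nat.add_sub_add_right, add_mul, Finset.sum_mul]
      congr 1
      · split_ifs with hL
        · rw [hL, Nat.sub_zero]
        · rw [zero_mul]
      · refine Finset.sum_congr rfl fun z _ => ?_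
        rw [mul_assoc]
    rw [Finset.sum_congr rfl h6, Finset.sum_add_distrib, Finset.sum_comm]
    have h11 : ∑ L ∈ Finset.range m, (if L = 0 then D.p x 1 * K0 D m 1 else 0) =
        D.p x 1 * K0 D m 1 := by
      rw [Finset.sum_ite_eq' (Finset.range m) 0 (fun _ => D.p x 1 * K0 D m 1)]
      split_ifs with hm
      · rfl
      · rw [Finset.mem_range, not_lt, Nat.le_zero] at hm
        subst hm
        rw [h2, mul_zero]
    rw [h11]
    have h12 : ∀ z ∈ Finset.Icc (x - 1) (x + 1) \ {1}, ∑ L ∈ Finset.range m, D.p x z *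
          (K0 (ctr D 1) L (z - 1) * K0 D (m - L) 1) = D.p x z * K0 D m z := by
      intro z hz
      rw [Finset.mem_sdiff, Finset.mem_Icc, Finset.mem_singleton] at hz
      rw [← Finset.mul_sum, ih z (by omega), Finset.sum_range_succ, Nat.sub_self, h2, mul_zero,
        add_zero]
    rw [Finset.sum_congr rfl h12]
    by_cases h1m : (1 : ℤ) ∈ Finset.Icc (x - 1) (x + 1)
    · rw [← Finset.add_sum_erase _ _ h1m, Finset.sdiff_singleton_eq_erase]
    · rw [D.near x 1 h1m, zero_mul, zero_add, Finset.sdiff_singleton_eq_erase,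
        Finset.erase_eq_of_notMem h1m]

/-- first passage decomposition -/
theorem fp_conv (D : Chain) (k : ℕ) :
    fp D (k + 1) = D.p 1 1 * K0 D (2 * (k + 1)) 1 +
      D.p 1 2 * ∑ L ∈ Finset.range (2 * (k + 1) + 1),
        K0 (ctr D 1) L 1 * K0 D (2 * (k + 1) - L) 1 := by
  have h1 : fp D (k + 1) = D.p 1 1 * K0 D (2 * (k + 1)) 1 + D.p 1 2 * K0 D (2 * (k + 1)) 2 := by
    have h2 : fp D (k + 1) = (if 2 * (k + 1) = 0 then D.p 1 0 else 0) +
        ∑ z ∈ Finset.Icc ((1 : ℤ) - 1) (1 + 1) \ {0}, D.p 1 z * K0 D (2 * (k + 1)) z := rfl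
    have h3 : Finset.Icc ((1 : ℤ) - 1) (1 + 1) \ {0} = {1, 2} := by
      ext z
      simp only [Finset.mem_sdiff, Finset.mem_Icc, Finset.mem_singleton, Finset.mem_insert]
      omega
    rw [h2, if_neg (by omega), zero_add, h3, Finset.sum_pair (by norm_num)]
  rw [h1, markov D _ 2 le_rfl]
  have h4 : ∀ L, K0 (ctr D 1) L (2 - 1) = K0 (ctr D 1) L 1 := fun L => by norm_num
  simp only [h4]

theorem p12_lt (D : Chain) : D.p 1 2 < 1 := by
  have h := D.sum_one 1
  rw [sum_nb] at h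
  have h1 := D.down 1
  have h2 := D.nonneg 1 1
  norm_num at h h1
  linarith

theorem p12_pos (D : Chain) : 0 < D.p 1 2 := by
  have h := D.up 1
  norm_num at h
  exact h

/-- the probability of not going down from `1` -/
def q1 (D : Chain) : ℝ := D.p 1 1 + D.p 1 2

theorem q1_lt (D : Chain) : q1 D < 1 := by
  have h := D.sum_one 1
  rw [sum_nb] at h
  have h1 := D.down 1
  unfold q1
  norm_num at h h1
  linarith

theorem q1_pos (D : Chain) : 0 < q1 D := by
  have h := p12_pos D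
  have h2 := D.nonneg 1 1
  unfold q1
  linarith

theorem fp_split (D : Chain) (s k : ℕ) :
    fp D (s + k + 1) ≤ q1 D * (fp (ctr D 1) s + fp D k) := by
  rw [fp_conv D]
  have hA : K0 D (2 * (s + k + 1)) 1 ≤ fp (ctr D 1) s + fp D k := by
    have h1 : K0 D (2 * (s + k + 1)) 1 ≤ fp D k := K0_le_fp D (by omega)
    have h2 := fp_nonneg (ctr D 1) s
    linarith
  have hB : ∑ L ∈ Finset.range (2 * (s + k + 1) + 1),
      K0 (ctr D 1) L 1 * K0 D (2 * (s + k + 1) - L) 1 ≤ fp (ctr D 1) s + fp D k := by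
    have h0 : ∀ n, 0 ≤ K0 D n 1 := fun n => MP_daa227_pr.K0_nonneg D n 1
    have h0' : ∀ n, 0 ≤ K0 (ctr D 1) n 1 := fun n => MP_daa227_pr.K0_nonneg _ n 1
    rw [Finset.range_eq_Ico, ← Finset.sum_Ico_consecutive _ (Nat.zero_le (2 * s + 1))
      (by omega : 2 * s + 1 ≤ 2 * (s + k + 1) + 1), add_comm]
    apply add_le_add
    · calc ∑ L ∈ Finset.Ico (2 * s + 1) (2 * (s + k + 1) + 1),
            K0 (ctr D 1) L 1 * K0 D (2 * (s + k + 1) - L) 1
          ≤ ∑ L ∈ Finset.Ico (2 * s + 1) (2 * (s + k + 1) + 1),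
            fp (ctr D 1) s * K0 D (2 * (s + k + 1) - L) 1 := by
            refine Finset.sum_le_sum fun L hL => ?_
            rw [Finset.mem_Ico] at hL
            exact mul_le_mul_of_nonneg_right (K0_le_fp _ hL.1) (h0 _)
        _ = fp (ctr D 1) s * ∑ L ∈ Finset.range (2 * k + 2), K0 D L 1 := by
            rw [← Finset.mul_sum, Finset.sum_Ico_eq_sum_range]
            have h1 : 2 * (s + k + 1) + 1 - (2 * s + 1) = 2 * k + 2 := by omega
            rw [h1, ← Finset.sum_range_reflect (fun a => K0 D a 1) (2 * k + 2)]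
            congr 1
            refine Finset.sum_congr rfl fun i hi => ?_
            rw [Finset.mem_range] at hi
            congr 1
            omega
        _ ≤ fp (ctr D 1) s :=
            mul_le_of_le_one_right (fp_nonneg _ _) (sum_K0 D _ 1)
    · calc ∑ L ∈ Finset.Ico 0 (2 * s + 1), K0 (ctr D 1) L 1 * K0 D (2 * (s + k + 1) - L) 1
          ≤ ∑ L ∈ Finset.Ico 0 (2 * s + 1), K0 (ctr D 1) L 1 * fp D k := by
            refine Finset.sum_le_sum fun L hL => ?_
            rw [Finset.mem_Ico] at hL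
            exact mul_le_mul_of_nonneg_left (K0_le_fp D (by omega)) (h0' _)
        _ = (∑ L ∈ Finset.range (2 * s + 1), K0 (ctr D 1) L 1) * fp D k := by
            rw [← Finset.sum_mul, Finset.range_eq_Ico]
        _ ≤ fp D k := mul_le_of_le_one_left (fp_nonneg _ _) (sum_K0 (ctr D 1) _ 1)
  have h1 := mul_le_mul_of_nonneg_left hA (D.nonneg 1 1)
  have h2 := mul_le_mul_of_nonneg_left hB (p12_pos D).le
  unfold q1
  linarith

theorem fp_iter (D : Chain) (s j : ℕ) :
    fp D (j * (s + 1)) ≤ 1 / (1 - q1 D) * fp (ctr D 1) s + q1 D ^ j := by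
  have hp := q1_lt D
  have hp0 := q1_pos D
  have hq : 0 < 1 - q1 D := by linarith
  induction j with
  | zero =>
    rw [pow_zero]
    have h1 : 0 ≤ 1 / (1 - q1 D) * fp (ctr D 1) s :=
      mul_nonneg (by positivity) (fp_nonneg _ _)
    have h2 := fp_le_one D (0 * (s + 1))
    linarith
  | succ j ih =>
    have h1 : (j + 1) * (s + 1) = s + j * (s + 1) + 1 := by ring
    rw [h1]
    refine (fp_split D s (j * (s + 1))).trans ?_
    have h2 : q1 D * (fp (ctr D 1) s + fp D (j * (s + 1))) ≤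
        q1 D * (fp (ctr D 1) s + (1 / (1 - q1 D) * fp (ctr D 1) s + q1 D ^ j)) :=
      mul_le_mul_of_nonneg_left (by linarith) hp0.le
    refine h2.trans ?_
    have h3 : q1 D * (1 + 1 / (1 - q1 D)) ≤ 1 / (1 - q1 D) := by
      rw [← sub_nonneg]
      have h4 : 1 / (1 - q1 D) - q1 D * (1 + 1 / (1 - q1 D)) = 1 - q1 D := by
        field_simp
        ring
      rw [h4]
      exact hq.le
    have h5 := mul_le_mul_of_nonneg_right h3 (fp_nonneg (ctr D 1) s)
    rw [pow_succ]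
    linarith

/-! ### Sequences with exponent one from below -/

/-- the sequence is at least `n ^ (-1-ε)` for all `ε` -/
def LB (a : ℕ → ℝ) : Prop :=
  ∀ ε : ℝ, 0 < ε → ∀ᶠ n : ℕ in atTop, (n : ℝ) ^ (-(1 + ε)) ≤ a n

theorem rpow_large {e : ℝ} (he : 0 < e) (M : ℝ) : ∀ᶠ n : ℕ in atTop, M ≤ (n : ℝ) ^ e :=
  ((tendsto_rpow_atTop he).comp tendsto_natCast_atTop_atTop).eventually_ge_atTop M

theorem LB_scale {a b : ℕ → ℝ} (ha : LB a) {c M : ℝ} (hc : 0 < c) (hM0 : 0 < M) (u : ℕ → ℕ)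
    (hu : Tendsto u atTop atTop) (hM : ∀ᶠ n : ℕ in atTop, (u n : ℝ) ≤ M * n)
    (h : ∀ᶠ n : ℕ in atTop, c * a (u n) ≤ b n) : LB b := by
  intro ε hε
  have h1 := hu.eventually (ha (ε / 2) (by linarith))
  have h2 : ∀ᶠ n : ℕ in atTop, M ^ (1 + ε / 2) / c ≤ (n : ℝ) ^ (ε / 2) :=
    rpow_large (by linarith) _
  have h3 := hu.eventually_ge_atTop 1
  filter_upwards [h1, h2, h3, hM, h, eventually_ge_atTop 1] with n h1 h2 h3 h4 h5 h6
  have hn : (0 : ℝ) < n := by exact_mod_cast h6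
  have hun : (0 : ℝ) < u n := by exact_mod_cast h3
  have h7 : (M * n) ^ (-(1 + ε / 2)) ≤ (u n : ℝ) ^ (-(1 + ε / 2)) :=
    Real.rpow_le_rpow_of_nonpos hun h4 (by linarith)
  have h8 : (M * n) ^ (-(1 + ε / 2)) = (M ^ (1 + ε / 2))⁻¹ * (n : ℝ) ^ (-(1 + ε / 2)) := by
    rw [Real.mul_rpow hM0.le hn.le, Real.rpow_neg hM0.le]
  have hMp : 0 < M ^ (1 + ε / 2) := Real.rpow_pos_of_pos hM0 _
  have h9 : (n : ℝ) ^ (-(1 + ε)) * (n : ℝ) ^ (ε / 2) = (n : ℝ) ^ (-(1 + ε / 2)) := by
    rw [← Real.rpow_add hn]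
    congr 1
    ring
  have h10 : (n : ℝ) ^ (-(1 + ε)) ≤ c * (M * n) ^ (-(1 + ε / 2)) := by
    rw [h8, ← h9]
    have h11 : 1 ≤ c * (M ^ (1 + ε / 2))⁻¹ * (n : ℝ) ^ (ε / 2) := by
      rw [div_le_iff₀ hc] at h2
      calc (1 : ℝ) = (M ^ (1 + ε / 2))⁻¹ * M ^ (1 + ε / 2) := (inv_mul_cancel₀ hMp.ne').symm
        _ ≤ (M ^ (1 + ε / 2))⁻¹ * ((n : ℝ) ^ (ε / 2) * c) :=
            mul_le_mul_of_nonneg_left h2 (inv_pos.2 hMp).le
        _ = _ := by ring
    have h12 : 0 ≤ (n : ℝ) ^ (-(1 + ε)) := (Real.rpow_pos_of_pos hn _).le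
    calc (n : ℝ) ^ (-(1 + ε)) = (n : ℝ) ^ (-(1 + ε)) * 1 := (mul_one _).symm
      _ ≤ (n : ℝ) ^ (-(1 + ε)) * (c * (M ^ (1 + ε / 2))⁻¹ * (n : ℝ) ^ (ε / 2)) :=
          mul_le_mul_of_nonneg_left h11 h12
      _ = _ := by ring
  calc (n : ℝ) ^ (-(1 + ε)) ≤ c * (M * n) ^ (-(1 + ε / 2)) := h10
    _ ≤ c * (u n : ℝ) ^ (-(1 + ε / 2)) := mul_le_mul_of_nonneg_left h7 hc.le
    _ ≤ c * a (u n) := mul_le_mul_of_nonneg_left h1 hc.le
    _ ≤ b n := h5

theorem log_small {δ A : ℝ} (hδ : 0 < δ) (hA : 0 < A) :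
    ∀ᶠ n : ℕ in atTop, 2 * (A * Real.log n + 2) ≤ (n : ℝ) ^ δ := by
  have h1 : ∀ᶠ x : ℝ in atTop, ‖Real.log x‖ ≤ 1 / (4 * A) * ‖x ^ δ‖ :=
    (isLittleO_log_rpow_atTop hδ).bound (by positivity)
  have h2 := tendsto_natCast_atTop_atTop (R := ℝ).eventually h1
  filter_upwards [h2, rpow_large hδ 8, eventually_ge_atTop 1] with n h2 h3 h4
  have hn : (0 : ℝ) < n := by exact_mod_cast h4
  have h5 : 0 < (n : ℝ) ^ δ := Real.rpow_pos_of_pos hn _
  rw [Real.norm_eq_abs, Real.norm_eq_abs, abs_of_pos h5] at h2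
  have h6 : Real.log n ≤ 1 / (4 * A) * (n : ℝ) ^ δ := (le_abs_self _).trans h2
  have h7 : A * Real.log n ≤ (n : ℝ) ^ δ / 4 := by
    calc A * Real.log n ≤ A * (1 / (4 * A) * (n : ℝ) ^ δ) := mul_le_mul_of_nonneg_left h6 hA.le
      _ = _ := by field_simp
  linarith

theorem LB_transfer {X Y : ℕ → ℝ} (hX : LB X) {K ρ c : ℝ} (hK : 0 < K) (hρ0 : 0 < ρ)
    (hρ : ρ < 1) (hc : 0 ≤ c) (h : ∀ s j : ℕ, X (j * (s + 1)) ≤ K * Y s + c * ρ ^ j) : LB Y := by
  intro ε hε
  set e : ℝ := min ε 1 with he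
  have he0 : 0 < e := lt_min hε one_pos
  have he1 : e ≤ 1 := min_le_right _ _
  have heε : e ≤ ε := min_le_left _ _
  set δ : ℝ := e / 6 with hδ
  have hδ0 : 0 < δ := by positivity
  set b : ℝ := -Real.log ρ with hb
  have hb0 : 0 < b := by
    have := Real.log_neg hρ0 hρ
    linarith
  set A : ℝ := 3 / b with hA
  have hA0 : 0 < A := by positivity
  set j : ℕ → ℕ := fun s => ⌈A * Real.log s⌉₊ + 1 with hj
  have hu : Tendsto (fun s => j s * (s + 1)) atTop atTop := by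
    refine tendsto_atTop_mono (fun s => ?_) tendsto_id
    have : 1 ≤ j s := Nat.le_add_left 1 _
    calc id s ≤ 1 * (s + 1) := by simp
      _ ≤ j s * (s + 1) := Nat.mul_le_mul_right _ this
  have e1 := hu.eventually (hX δ hδ0)
  have e2 := log_small hδ0 hA0
  have e3 : ∀ᶠ n : ℕ in atTop, 2 * c ≤ (n : ℝ) ^ (1 : ℝ) := rpow_large one_pos _
  have e4 : ∀ᶠ n : ℕ in atTop, 2 * K ≤ (n : ℝ) ^ (e / 2) := rpow_large (by linarith) _
  filter_upwards [e1, e2, e3, e4, eventually_ge_atTop 1] with s e1 e2 e3 e4 e5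
  have hs1 : (1 : ℝ) ≤ s := by exact_mod_cast e5
  have hs : (0 : ℝ) < s := by linarith
  have hlog : 0 ≤ Real.log s := Real.log_nonneg hs1
  -- size of `j`
  have hj1 : (j s : ℝ) ≤ A * Real.log s + 2 := by
    have h1 := Nat.ceil_lt_add_one (mul_nonneg hA0.le hlog)
    simp only [hj]
    push_cast
    linarith
  have hj2 : A * Real.log s ≤ j s := by
    have h1 := Nat.le_ceil (A * Real.log s)
    simp only [hj]
    push_cast
    linarith
  have hj0 : (1 : ℝ) ≤ j s := by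
    simp only [hj]
    push_cast
    have : (0 : ℝ) ≤ (⌈A * Real.log s⌉₊ : ℝ) := Nat.cast_nonneg _
    linarith
  -- the power of `ρ`
  have hρj : ρ ^ (j s) ≤ (s : ℝ) ^ (-3 : ℝ) := by
    have h1 : ρ ^ (j s) = Real.exp (-(b * j s)) := by
      rw [← Real.exp_log (pow_pos hρ0 (j s)), Real.log_pow]
      congr 1
      rw [hb]
      ring
    have h2 : (s : ℝ) ^ (-3 : ℝ) = Real.exp (-(3 * Real.log s)) := by
      rw [Real.rpow_def_of_pos hs]
      congr 1
      ring
    rw [h1, h2]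
    apply Real.exp_le_exp.2
    have h3 : b * (A * Real.log s) = 3 * Real.log s := by
      rw [hA]
      field_simp
    have h4 : b * (A * Real.log s) ≤ b * j s := mul_le_mul_of_nonneg_left hj2 hb0.le
    linarith
  -- size of `j (s + 1)`
  have hus : ((j s * (s + 1) : ℕ) : ℝ) ≤ (s : ℝ) ^ (1 + δ) := by
    push_cast
    have h1 : (j s : ℝ) * ((s : ℝ) + 1) ≤ (A * Real.log s + 2) * (2 * s) := by
      apply mul_le_mul hj1 (by linarith) (by linarith)
      have := mul_nonneg hA0.le hlog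
      linarith
    have h2 : (A * Real.log s + 2) * (2 * s) ≤ (s : ℝ) ^ δ * s := by
      have := mul_le_mul_of_nonneg_right e2 hs.le
      linarith
    calc (j s : ℝ) * ((s : ℝ) + 1) ≤ (s : ℝ) ^ δ * s := h1.trans h2
      _ = (s : ℝ) ^ (1 + δ) := by
        rw [add_comm, Real.rpow_add hs, Real.rpow_one]
  have hupos : (0 : ℝ) < ((j s * (s + 1) : ℕ) : ℝ) := by
    push_cast
    positivity
  have h6 : (s : ℝ) ^ (-(1 + e / 2)) ≤ ((j s * (s + 1) : ℕ) : ℝ) ^ (-(1 + δ)) := by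
    calc (s : ℝ) ^ (-(1 + e / 2)) ≤ (s : ℝ) ^ ((1 + δ) * (-(1 + δ))) := by
          apply Real.rpow_le_rpow_of_exponent_le hs1
          rw [hδ]
          nlinarith
      _ = ((s : ℝ) ^ (1 + δ)) ^ (-(1 + δ)) := Real.rpow_mul hs.le _ _
      _ ≤ _ := Real.rpow_le_rpow_of_nonpos hupos hus (by linarith)
  have h7 := h s (j s)
  have h8 : c * ρ ^ (j s) ≤ c * (s : ℝ) ^ (-3 : ℝ) := mul_le_mul_of_nonneg_left hρj hc
  have h9 : c * (s : ℝ) ^ (-3 : ℝ) ≤ 1 / 2 * (s : ℝ) ^ (-(1 + e / 2)) := by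
    have h10 : (s : ℝ) ^ (-3 : ℝ) * (s : ℝ) ^ (1 : ℝ) ≤ (s : ℝ) ^ (-(1 + e / 2)) := by
      rw [← Real.rpow_add hs]
      apply Real.rpow_le_rpow_of_exponent_le hs1
      linarith
    have h11 : 0 < (s : ℝ) ^ (-3 : ℝ) := Real.rpow_pos_of_pos hs _
    have h12 := mul_le_mul_of_nonneg_left e3 h11.le
    linarith
  have h13 : K * (s : ℝ) ^ (-(1 + e)) ≤ 1 / 2 * (s : ℝ) ^ (-(1 + e / 2)) := by
    have h14 : (s : ℝ) ^ (-(1 + e)) * (s : ℝ) ^ (e / 2) = (s : ℝ) ^ (-(1 + e / 2)) := by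
      rw [← Real.rpow_add hs]
      congr 1
      ring
    have h15 : 0 < (s : ℝ) ^ (-(1 + e)) := Real.rpow_pos_of_pos hs _
    have h16 := mul_le_mul_of_nonneg_left e4 h15.le
    linarith
  have h17 : K * (s : ℝ) ^ (-(1 + e)) ≤ K * Y s := by linarith
  have h18 : (s : ℝ) ^ (-(1 + e)) ≤ Y s := le_of_mul_le_mul_left h17 hK
  refine le_trans ?_ h18
  apply Real.rpow_le_rpow_of_exponent_le hs1
  linarith

/-! ### The translated chains -/

theorem chain_ext {C D : Chain} (h : C.p = D.p) : C = D := by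
  cases C
  cases D
  cases h
  rfl

theorem ctr_zero (C : Chain) : ctr C 0 = C := by
  apply chain_ext
  funext x y
  change C.p (x + 0) (y + 0) = C.p x y
  rw [add_zero, add_zero]

theorem ctr_ctr (C : Chain) (r : ℤ) : ctr (ctr C r) 1 = ctr C (r + 1) := by
  apply chain_ext
  funext x y
  change C.p (x + 1 + r) (y + 1 + r) = C.p (x + (r + 1)) (y + (r + 1))
  have h1 : ∀ z : ℤ, z + 1 + r = z + (r + 1) := fun z => by ring
  rw [h1, h1]

theorem LB_pair (D E : Chain)
    (h : LB (fun k => fp D k + fp E k)) :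
    LB (fun k => fp (ctr D 1) k + fp (ctr E 1) k) := by
  set ρ : ℝ := max (q1 D) (q1 E) with hρ
  have hρ0 : 0 < ρ := lt_max_of_lt_left (q1_pos D)
  have hρ1 : ρ < 1 := max_lt (q1_lt D) (q1_lt E)
  have key : ∀ F : Chain, q1 F ≤ ρ → ∀ s j : ℕ,
      fp F (j * (s + 1)) ≤ 1 / (1 - ρ) * fp (ctr F 1) s + ρ ^ j := by
    intro F hFρ s j
    refine (fp_iter F s j).trans ?_
    apply add_le_add
    · apply mul_le_mul_of_nonneg_right _ (fp_nonneg _ _)
      exact one_div_le_one_div_of_le (by linarith) (by linarith)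
    · exact pow_le_pow_left₀ (q1_pos F).le hFρ j
  have hK : 0 < 1 / (1 - ρ) := by
    have : 0 < 1 - ρ := by linarith
    positivity
  refine LB_transfer h hK hρ0 hρ1 (c := 2) (by norm_num) fun s j => ?_
  have h1 := key D (le_max_left _ _) s j
  have h2 := key E (le_max_right _ _) s j
  linarith

theorem LB_ctr (D E : Chain)
    (h : LB (fun k => fp D k + fp E k)) (r : ℕ) :
    LB (fun k => fp (ctr D r) k + fp (ctr E r) k) := by
  induction r with
  | zero =>
    rw [Nat.cast_zero, ctr_zero, ctr_zero]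
    exact h
  | succ r ih =>
    have h1 := LB_pair _ _ ih
    rw [ctr_ctr, ctr_ctr] at h1
    rw [Nat.cast_succ]
    exact h1

/-! ### Lower bound for the penalised excursions -/

theorem Kv_step (C : Chain) (v : ℤ → ℝ) (n : ℕ) {x y : ℤ} (hy : y ∈ Finset.Icc (x - 1) (x + 1))
    (h0 : y ≠ 0) : C.p x y * Real.exp (v y) * Kv C v n y ≤ Kv C v (n + 1) x := by
  rw [Kv_succ]
  have h1 : y ∈ Finset.Icc (x - 1) (x + 1) \ {0} := by
    rw [Finset.mem_sdiff, Finset.mem_singleton]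
    exact ⟨hy, h0⟩
  have h2 := Finset.single_le_sum (f := fun z => C.p x z * Real.exp (v z) * Kv C v n z)
    (fun z _ => mul_nonneg (mul_nonneg (C.nonneg _ _) (Real.exp_pos _).le) (Kv_nonneg C v n z)) h1
  have h3 : 0 ≤ (if n = 0 then C.p x 0 * Real.exp (v 0) else 0) := by
    split_ifs
    · exact mul_nonneg (C.nonneg _ _) (Real.exp_pos _).le
    · exact le_rfl
  linarith

theorem Kv_up (C : Chain) (v : ℤ → ℝ) (R : ℕ) :
    ∃ c : ℝ, 0 < c ∧ ∀ n : ℕ, c * Kv C v n R ≤ Kv C v (n + R) 0 := by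
  induction R with
  | zero => exact ⟨1, one_pos, fun n => by simp⟩
  | succ R ih =>
    obtain ⟨c, hc, h⟩ := ih
    refine ⟨c * (C.p R (R + 1) * Real.exp (v (R + 1))),
      mul_pos hc (mul_pos (C.up R) (Real.exp_pos _)), fun n => ?_⟩
    have h1 : C.p R (R + 1) * Real.exp (v (R + 1)) * Kv C v n (R + 1) ≤ Kv C v (n + 1) R :=
      Kv_step C v n (by rw [Finset.mem_Icc]; omega) (by omega)
    have h2 := h (n + 1)
    have h3 := mul_le_mul_of_nonneg_left h1 hc.le
    have h4 : n + 1 + R = n + (R + 1) := by ring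
    rw [h4] at h2
    push_cast
    linarith

/-- passage from `x + r` to `r` outside the support of the potential, then to `0` -/
theorem passage (C : Chain) (v : ℤ → ℝ) {r : ℤ} (hr : 1 ≤ r) (hv : ∀ z, r < z → v z = 0)
    (j : ℕ) : ∀ (L : ℕ) (x : ℤ), 1 ≤ x →
    K0 (ctr C r) L x * (Real.exp (v r) * Kv C v j r) ≤ Kv C v (L + j) (x + r) := by
  intro L
  induction L with
  | zero =>
    intro x _
    have h0 : K0 (ctr C r) 0 x = 0 := rfl
    rw [h0, zero_mul]
    exact Kv_nonneg _ _ _ _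
  | succ L ih =>
    intro x hx
    set E : ℝ := Real.exp (v r) * Kv C v j r with hE
    have hE0 : 0 ≤ E := mul_nonneg (Real.exp_pos _).le (Kv_nonneg _ _ _ _)
    have h1 : K0 (ctr C r) (L + 1) x = (if L = 0 then C.p (x + r) (0 + r) else 0) +
        ∑ z ∈ Finset.Icc (x - 1) (x + 1) \ {0}, C.p (x + r) (z + r) * K0 (ctr C r) L z := rfl
    have h2 : L + 1 + j = L + j + 1 := by ring
    rw [h1, h2, Kv_succ]
    have h3 : 0 ≤ (if L + j = 0 then C.p (x + r) 0 * Real.exp (v 0) else 0) := by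
      split_ifs
      · exact mul_nonneg (C.nonneg _ _) (Real.exp_pos _).le
      · exact le_rfl
    refine le_trans ?_ (le_add_of_nonneg_left h3)
    -- reindex the right side
    have h4 : ∑ z ∈ Finset.Icc (x + r - 1) (x + r + 1) \ {0},
          C.p (x + r) z * Real.exp (v z) * Kv C v (L + j) z =
        ∑ z ∈ Finset.Icc (x - 1) (x + 1),
          C.p (x + r) (z + r) * Real.exp (v (z + r)) * Kv C v (L + j) (z + r) := by
      refine Finset.sum_bij' (fun y _ => y - r) (fun y _ => y + r) ?_ ?_ ?_ ?_ ?_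
      · intro y hy
        rw [Finset.mem_sdiff, Finset.mem_Icc, Finset.mem_singleton] at hy
        rw [Finset.mem_Icc]
        omega
      · intro y hy
        rw [Finset.mem_Icc] at hy
        rw [Finset.mem_sdiff, Finset.mem_Icc, Finset.mem_singleton]
        omega
      · intro y _
        ring
      · intro y _
        ring
      · intro y _
        rw [sub_add_cancel]
    rw [h4, add_mul, Finset.sum_mul]
    have hterm : ∀ z ∈ Finset.Icc (x - 1) (x + 1) \ {0},
        C.p (x + r) (z + r) * K0 (ctr C r) L z * E ≤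
        C.p (x + r) (z + r) * Real.exp (v (z + r)) * Kv C v (L + j) (z + r) := by
      intro z hz
      rw [Finset.mem_sdiff, Finset.mem_Icc, Finset.mem_singleton] at hz
      rw [hv (z + r) (by omega), Real.exp_zero, mul_one, mul_assoc]
      exact mul_le_mul_of_nonneg_left (ih z (by omega)) (C.nonneg _ _)
    by_cases h0 : (0 : ℤ) ∈ Finset.Icc (x - 1) (x + 1)
    · rw [← Finset.add_sum_erase _ _ h0, Finset.sdiff_singleton_eq_erase]
      apply add_le_add
      · split_ifs with hL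
        · subst hL
          rw [zero_add, zero_add, hE]
          apply le_of_eq
          ring
        · rw [zero_mul]
          exact mul_nonneg (mul_nonneg (C.nonneg _ _) (Real.exp_pos _).le) (Kv_nonneg _ _ _ _)
      · refine Finset.sum_le_sum fun z hz => ?_
        rw [← Finset.sdiff_singleton_eq_erase] at hz
        exact hterm z hz
    · have h5 : C.p (x + r) (0 + r) = 0 := by
        apply C.near
        rw [Finset.mem_Icc] at h0 ⊢
        omega
      rw [h5, ite_self, zero_mul, zero_add]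
      rw [Finset.sdiff_singleton_eq_erase, Finset.erase_eq_of_notMem h0] at *
      exact Finset.sum_le_sum hterm

theorem lower (C : Chain) (v : ℤ → ℝ) {r : ℕ} (hr : 1 ≤ r) (hv : ∀ z, (r : ℤ) < z → v z = 0) :
    ∃ c : ℝ, 0 < c ∧ ∀ k : ℕ, c * fp (ctr C r) k ≤ Kv C v (2 * (k + (r + 1))) 0 := by
  obtain ⟨c, hc, hup⟩ := Kv_up C v (r + 1)
  have hd : 0 < Kv C v r r := by
    obtain ⟨m, rfl⟩ : ∃ m, r = m + 1 := ⟨r - 1, by omega⟩
    apply Kv_pos_of_K0
    have := MP_daa227_pr.K0_down C m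
    push_cast
    exact this
  refine ⟨c * (Real.exp (v r) * Kv C v r r), mul_pos hc (mul_pos (Real.exp_pos _) hd),
    fun k => ?_⟩
  have h1 := passage C v (r := (r : ℤ)) (by omega) hv r (2 * k + 1) 1 le_rfl
  have h2 := hup (2 * k + 1 + r)
  have h3 : 2 * k + 1 + r + (r + 1) = 2 * (k + (r + 1)) := by ring
  rw [h3] at h2
  have h4 : ((r + 1 : ℕ) : ℤ) = 1 + (r : ℤ) := by
    push_cast
    ring
  rw [h4] at h2
  have h5 := mul_le_mul_of_nonneg_left h1 hc.le
  calc c * (Real.exp (v r) * Kv C v r r) * fp (ctr C r) k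
      = c * (K0 (ctr C r) (2 * k + 1) 1 * (Real.exp (v r) * Kv C v r r)) := by
        unfold fp
        ring
    _ ≤ _ := h5.trans h2

theorem LB_of_two {a : ℕ → ℝ} (h : ∀ ε : ℝ, 0 < ε → ∀ᶠ n : ℕ in atTop,
    ((2 * n : ℕ) : ℝ) ^ (-(1 + ε)) ≤ a n) : LB a := by
  intro ε hε
  filter_upwards [h (ε / 2) (by linarith), rpow_large (half_pos hε) ((2 : ℝ) ^ (1 + ε / 2)),
    eventually_ge_atTop 1] with n h1 h2 h3
  refine le_trans ?_ h1
  have hn : (0 : ℝ) < n := by exact_mod_cast h3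
  push_cast
  rw [Real.mul_rpow (by norm_num) hn.le, Real.rpow_neg (by norm_num : (0 : ℝ) ≤ 2)]
  have h9 : (n : ℝ) ^ (-(1 + ε)) * (n : ℝ) ^ (ε / 2) = (n : ℝ) ^ (-(1 + ε / 2)) := by
    rw [← Real.rpow_add hn]
    congr 1
    ring
  rw [← h9]
  have h10 : 0 < (2 : ℝ) ^ (1 + ε / 2) := Real.rpow_pos_of_pos (by norm_num) _
  have h11 : 0 < (n : ℝ) ^ (-(1 + ε)) := Real.rpow_pos_of_pos hn _
  rw [← div_eq_inv_mul, le_div_iff₀ h10]
  exact mul_le_mul_of_nonneg_left h2 h11.le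

theorem two_of_LB {a : ℕ → ℝ} (h : LB a) : ∀ ε : ℝ, 0 < ε → ∀ᶠ n : ℕ in atTop,
    ((2 * n : ℕ) : ℝ) ^ (-(1 + ε)) ≤ a n := by
  intro ε hε
  filter_upwards [h ε hε, eventually_ge_atTop 1] with n h1 h3
  refine le_trans ?_ h1
  have hn : (0 : ℝ) < n := by exact_mod_cast h3
  apply Real.rpow_le_rpow_of_nonpos hn _ (by linarith)
  push_cast
  linarith

/-- the conclusion for one or two sides -/
theorem conclude (C : Chain) (v : ℤ → ℝ) {r : ℕ} {b : ℕ → ℝ} (hb : LB b) {c : ℝ} (hc : 0 < c)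
    (h : ∀ k : ℕ, c * b k ≤ Kv C v (2 * (k + (r + 1))) 0) :
    LB (fun n => Kv C v (2 * n) 0) := by
  refine LB_scale hb hc one_pos (fun n => n - (r + 1)) (tendsto_sub_atTop_nat _) ?_ ?_
  · filter_upwards with n
    rw [one_mul]
    exact_mod_cast Nat.sub_le n (r + 1)
  · filter_upwards [eventually_ge_atTop (r + 1)] with n hn
    have h1 := h (n - (r + 1))
    rwa [Nat.sub_add_cancel hn] at h1

end A24

open A24 in
theorem fin_one (C : Chain) {φ : ℤ → ℝ} {Φ : ℝ}
    (hφ : ∀ x, 0 ≤ φ x) (hφΦ : ∀ x, φ x ≤ Φ) {R : ℕ} (hR : ∀ x : ℤ, (R : ℤ) ≤ x → φ x = 0)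
    (hK : ∀ ε : ℝ, 0 < ε → ∀ᶠ n : ℕ in atTop,
      ((2 * n : ℕ) : ℝ) ^ (-(1 + ε)) ≤ C.p 0 1 * K0 C (2 * n - 1) 1) :
    ∀ η : ℝ, 0 < η → ∀ ε : ℝ, 0 < ε → ∀ᶠ n : ℕ in atTop,
      ((2 * n : ℕ) : ℝ) ^ (-(1 + ε)) ≤ Kv C (fun z => -η * φ z) (2 * n) 0 := by
  intro η _
  apply two_of_LB
  have h1 := LB_of_two hK
  have h2 : LB (fun k => fp C k + fp C k) := by
    refine LB_scale h1 one_pos two_pos (fun n => n + 1) (tendsto_add_atTop_nat 1) ?_ ?_
    · filter_upwards [eventually_ge_atTop 1] with n hn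
      have : (1 : ℝ) ≤ n := by exact_mod_cast hn
      push_cast
      linarith
    · filter_upwards with n
      have h3 : 2 * (n + 1) - 1 = 2 * n + 1 := by omega
      rw [one_mul, h3]
      have h4 : C.p 0 1 * K0 C (2 * n + 1) 1 ≤ fp C n :=
        mul_le_of_le_one_left (fp_nonneg C n) (p01_le C)
      have h5 := fp_nonneg C n
      linarith
  have h3 := LB_ctr C C h2 (R + 1)
  obtain ⟨c, hc, h4⟩ := lower C (fun z => -η * φ z) (r := R + 1) (by omega) (by
    intro z hz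
    rw [hR z (by push_cast at hz; omega), mul_zero])
  refine conclude C _ (r := R + 1) h3 (half_pos hc) fun k => ?_
  refine le_trans (le_of_eq ?_) (h4 k)
  ring

open A24 in
theorem fin_two (C : Chain) {φ : ℤ → ℝ} {Φ : ℝ}
    (hφ : ∀ x, 0 ≤ φ x) (hφΦ : ∀ x, φ x ≤ Φ) {R : ℕ} (hR : ∀ x : ℤ, (R : ℤ) ≤ |x| → φ x = 0)
    (hK : ∀ ε : ℝ, 0 < ε → ∀ᶠ n : ℕ in atTop, ((2 * n : ℕ) : ℝ) ^ (-(1 + ε)) ≤ K0 C (2 * n) 0) :
    ∀ η : ℝ, 0 < η → ∀ ε : ℝ, 0 < ε → ∀ᶠ n : ℕ in atTop,
      ((2 * n : ℕ) : ℝ) ^ (-(1 + ε)) ≤ Kv C (fun z => -η * φ z) (2 * n) 0 := by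
  intro η _
  apply two_of_LB
  have h1 := LB_of_two hK
  have h2 : LB (fun k => fp C k + fp (cneg C) k) := by
    refine LB_scale h1 one_pos two_pos (fun n => n + 1) (tendsto_add_atTop_nat 1) ?_ ?_
    · filter_upwards [eventually_ge_atTop 1] with n hn
      have : (1 : ℝ) ≤ n := by exact_mod_cast hn
      push_cast
      linarith
    · filter_upwards with n
      have h3 : 2 * (n + 1) = 2 * n + 1 + 1 := by omega
      rw [one_mul, h3, ← Kv_K0, Kv_split C]
      have h4 : Es C (fun _ => 0) 1 (2 * n + 1) ≤ fp C n := by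
        rw [Es_pos_n C _ _ (by omega)]
        unfold fp
        rw [Real.exp_zero, mul_one, Kv_K0]
        exact mul_le_of_le_one_left (MP_daa227_pr.K0_nonneg _ _ _) (p01_le C)
      have h5 : Es C (fun _ => 0) (-1) (2 * n + 1) ≤ fp (cneg C) n := by
        have h6 := Kv_cneg C (fun _ => 0) (2 * n + 1) 1
        rw [Kv_K0] at h6
        rw [Es_neg]
        unfold fp
        rw [Real.exp_zero, mul_one, h6]
        exact mul_le_of_le_one_left (Kv_nonneg _ _ _ _) (p01_le (cneg C))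
      linarith
  have h3 := LB_ctr C (cneg C) h2 (R + 1)
  obtain ⟨c, hc, h4⟩ := lower C (fun z => -η * φ z) (r := R + 1) (by omega) (by
    intro z hz
    rw [hR z (by
      push_cast at hz
      rw [abs_of_nonneg (by omega)]
      omega), mul_zero])
  obtain ⟨c', hc', h5⟩ := lower (cneg C) (fun z => -η * φ (-z)) (r := R + 1) (by omega) (by
    intro z hz
    rw [hR (-z) (by
      push_cast at hz
      rw [abs_neg, abs_of_nonneg (by omega)]
      omega), mul_zero])
  refine conclude C _ (r := R + 1) h3 (half_pos (lt_min hc hc')) fun k => ?_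
  have h6 := h4 k
  have h7 := h5 k
  have h8 := Kv_cneg C (fun z => -η * φ z) (2 * (k + (R + 1 + 1))) 0
  rw [neg_zero] at h8
  rw [h8] at h7
  have h9 : min c c' * fp (ctr C ((R + 1 : ℕ) : ℤ)) k ≤ c * fp (ctr C ((R + 1 : ℕ) : ℤ)) k :=
    mul_le_mul_of_nonneg_right (min_le_left _ _) (fp_nonneg _ _)
  have h10 : min c c' * fp (ctr (cneg C) ((R + 1 : ℕ) : ℤ)) k ≤
      c' * fp (ctr (cneg C) ((R + 1 : ℕ) : ℤ)) k :=
    mul_le_mul_of_nonneg_right (min_le_right _ _) (fp_nonneg _ _)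
  linarith

end

end Pool.Agent.HZ
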