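import Pool.Agent.Lib.MP_daa227_pr_HZ.Basic

/-!
# The minimal positive solution and the comparison with supersolutions
-/

namespace Pool.Agent.HZ

open MeasureTheory ProbabilityTheory Set Filter
open scoped ENNReal Topology
open MP_daa227_pr (Chain Zk Zf Gk Gf KU K0 ushift shift seqLaw ExpMom Good GoodW mom)

noncomputable section

/-- sum over all neighbours, with the neighbour `0` split off -/
theorem nb_split (C : Chain) (x : ℤ) (w f : ℤ → ℝ) :
    C.p x 0 * Real.exp (w 0) * f 0 +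
      ∑ z ∈ Finset.Icc (x - 1) (x + 1) \ {0}, C.p x z * Real.exp (w z) * f z =
    ∑ z ∈ Finset.Icc (x - 1) (x + 1), C.p x z * Real.exp (w z) * f z := by
  by_cases h : (0 : ℤ) ∈ Finset.Icc (x - 1) (x + 1)
  · rw [← Finset.sum_sdiff (Finset.singleton_subset_iff.2 h), Finset.sum_singleton, add_comm]
  · rw [C.near x 0 h, zero_mul, zero_mul, zero_add]
    refine Finset.sum_congr ?_ fun _ _ => rfl
    rw [Finset.sdiff_singleton_eq_erase, Finset.erase_eq_of_notMem h]

/-- the recursion for the partial sums of the excursion kernel -/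
theorem psum_succ (C : Chain) (v : ℤ → ℝ) (N : ℕ) (x : ℤ) :
    ∑ n ∈ Finset.range (N + 1), Kv C v n x = (if N = 0 then 0 else C.p x 0 * Real.exp (v 0)) +
      ∑ z ∈ Finset.Icc (x - 1) (x + 1) \ {0}, C.p x z * Real.exp (v z) *
        ∑ n ∈ Finset.range N, Kv C v n z := by
  rw [Finset.sum_range_succ', Kv_zero, add_zero]
  simp only [Kv_succ, Finset.sum_add_distrib]
  congr 1
  · cases N with
    | zero => simp
    | succ N =>
      rw [Finset.sum_ite_eq' (Finset.range (N + 1)) 0 (fun _ => C.p x 0 * Real.exp (v 0)),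
        if_pos (Finset.mem_range.2 (Nat.succ_pos N)), if_neg (Nat.succ_ne_zero N)]
  · rw [Finset.sum_comm]
    exact Finset.sum_congr rfl fun z _ => by rw [Finset.mul_sum]

theorem psum_nonneg (C : Chain) (v : ℤ → ℝ) (N : ℕ) (x : ℤ) :
    0 ≤ ∑ n ∈ Finset.range N, Kv C v n x :=
  Finset.sum_nonneg fun n _ => Kv_nonneg C v n x

theorem psum_mono (C : Chain) (v : ℤ → ℝ) (x : ℤ) :
    Monotone fun N : ℕ => ∑ n ∈ Finset.range N, Kv C v n x := by
  intro M N h
  exact Finset.sum_le_sum_of_subset_of_nonneg (Finset.range_mono h)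
    fun n _ _ => Kv_nonneg C v n x

/-- the partial sums to the right are bounded as soon as they are bounded at `1` -/
theorem psum_bdd (C : Chain) (v : ℤ → ℝ) {B : ℝ}
    (hB : ∀ N : ℕ, ∑ n ∈ Finset.range N, Kv C v n 1 ≤ B) (k : ℕ) :
    ∃ B' : ℝ, ∀ N : ℕ, ∑ n ∈ Finset.range N, Kv C v n ((k : ℤ) + 1) ≤ B' := by
  induction k with
  | zero => exact ⟨B, by simpa using hB⟩
  | succ k ih =>
    obtain ⟨B', hB'⟩ := ih
    have hc : 0 < C.p ((k : ℤ) + 1) ((k : ℤ) + 1 + 1) * Real.exp (v ((k : ℤ) + 1 + 1)) :=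
      mul_pos (C.up _) (Real.exp_pos _)
    refine ⟨B' / (C.p ((k : ℤ) + 1) ((k : ℤ) + 1 + 1) * Real.exp (v ((k : ℤ) + 1 + 1))),
      fun N => ?_⟩
    rw [le_div_iff₀ hc]
    refine le_trans ?_ (hB' (N + 1))
    rw [psum_succ]
    have h1 : (0 : ℝ) ≤ (if N = 0 then 0 else C.p ((k : ℤ) + 1) 0 * Real.exp (v 0)) := by
      split_ifs
      · exact le_rfl
      · exact mul_nonneg (C.nonneg _ _) (Real.exp_pos _).le
    have h2 := Finset.single_le_sum (f := fun z => C.p ((k : ℤ) + 1) z * Real.exp (v z) *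
        ∑ n ∈ Finset.range N, Kv C v n z)
      (s := Finset.Icc ((k : ℤ) + 1 - 1) ((k : ℤ) + 1 + 1) \ {0}) (a := (k : ℤ) + 1 + 1)
      (fun z _ => mul_nonneg (mul_nonneg (C.nonneg _ _) (Real.exp_pos _).le) (psum_nonneg C v N z))
      (by
        rw [Finset.mem_sdiff, Finset.mem_Icc, Finset.mem_singleton]
        omega)
    push_cast
    calc _ = C.p ((k : ℤ) + 1) ((k : ℤ) + 1 + 1) * Real.exp (v ((k : ℤ) + 1 + 1)) *
          ∑ n ∈ Finset.range N, Kv C v n ((k : ℤ) + 1 + 1) := by ring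
      _ ≤ _ := h2
      _ ≤ _ := le_add_of_nonneg_left h1

theorem min_sol (C : Chain) (v : ℤ → ℝ) {B : ℝ}
    (hB : ∀ N : ℕ, ∑ n ∈ Finset.range N, Kv C v n 1 ≤ B) :
    ∃ f : ℤ → ℝ, (∀ x, 0 ≤ x → 0 < f x) ∧ Ssol C v 0 f := by
  set T : ℤ → ℝ := fun x => ⨆ N : ℕ, ∑ n ∈ Finset.range N, Kv C v n x with hT
  have hlim : ∀ x : ℤ, 0 < x →
      Tendsto (fun N : ℕ => ∑ n ∈ Finset.range N, Kv C v n x) atTop (𝓝 (T x)) := by
    intro x hx
    apply tendsto_atTop_ciSup (psum_mono C v x)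
    obtain ⟨B', hB'⟩ := psum_bdd C v hB (x - 1).toNat
    have hx1 : (((x - 1).toNat : ℕ) : ℤ) + 1 = x := by omega
    rw [hx1] at hB'
    refine ⟨B', ?_⟩
    rintro _ ⟨N, rfl⟩
    exact hB' N
  set f : ℤ → ℝ := fun x => if 0 < x then T x else 1 with hf
  have hfpos : ∀ x, 0 < x → f x = T x := fun x hx => if_pos hx
  have hf0 : f 0 = 1 := if_neg (lt_irrefl 0)
  -- the equation
  have heq : ∀ x : ℤ, 0 < x →
      ∑ z ∈ Finset.Icc (x - 1) (x + 1), C.p x z * Real.exp (v z) * f z = f x := by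
    intro x hx
    have h1 : Tendsto (fun N : ℕ => ∑ n ∈ Finset.range (N + 1), Kv C v n x) atTop (𝓝 (T x)) :=
      (hlim x hx).comp (tendsto_add_atTop_nat 1)
    have h2 : Tendsto (fun N : ℕ => C.p x 0 * Real.exp (v 0) +
        ∑ z ∈ Finset.Icc (x - 1) (x + 1) \ {0}, C.p x z * Real.exp (v z) *
          ∑ n ∈ Finset.range N, Kv C v n z) atTop (𝓝 (C.p x 0 * Real.exp (v 0) +
        ∑ z ∈ Finset.Icc (x - 1) (x + 1) \ {0}, C.p x z * Real.exp (v z) * T z)) := by
      apply tendsto_const_nhds.add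
      apply tendsto_finsetSum
      intro z hz
      apply Tendsto.const_mul
      apply hlim
      rw [Finset.mem_sdiff, Finset.mem_Icc, Finset.mem_singleton] at hz
      omega
    have h3 : (fun N : ℕ => ∑ n ∈ Finset.range (N + 1), Kv C v n x) =ᶠ[atTop]
        (fun N : ℕ => C.p x 0 * Real.exp (v 0) +
        ∑ z ∈ Finset.Icc (x - 1) (x + 1) \ {0}, C.p x z * Real.exp (v z) *
          ∑ n ∈ Finset.range N, Kv C v n z) := by
      filter_upwards [eventually_ne_atTop 0] with N hN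
      rw [psum_succ, if_neg hN]
    have h4 := tendsto_nhds_unique h1 (h2.congr' h3.symm)
    rw [hfpos x hx, h4, ← nb_split, hf0, mul_one]
    congr 1
    refine Finset.sum_congr rfl fun z hz => ?_
    rw [hfpos z]
    rw [Finset.mem_sdiff, Finset.mem_Icc, Finset.mem_singleton] at hz
    omega
  have hnn : ∀ x, 0 ≤ f x := by
    intro x
    by_cases hx : 0 < x
    · rw [hfpos x hx]
      exact ge_of_tendsto' (hlim x hx) fun N => psum_nonneg C v N x
    · rw [hf]
      simp only [if_neg hx]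
      exact zero_le_one
  have hpos : ∀ k : ℕ, 0 < f k := by
    intro k
    induction k with
    | zero => simp [hf0]
    | succ k ih =>
      rw [← heq ((k + 1 : ℕ) : ℤ) (by positivity)]
      have h2 := Finset.single_le_sum (f := fun z => C.p ((k + 1 : ℕ) : ℤ) z * Real.exp (v z) * f z)
        (s := Finset.Icc (((k + 1 : ℕ) : ℤ) - 1) (((k + 1 : ℕ) : ℤ) + 1))
        (a := ((k + 1 : ℕ) : ℤ) - 1)
        (fun z _ => mul_nonneg (mul_nonneg (C.nonneg _ _) (Real.exp_pos _).le) (hnn z))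
        (by
          rw [Finset.mem_Icc]
          omega)
      refine lt_of_lt_of_le ?_ h2
      have h3 : ((k + 1 : ℕ) : ℤ) - 1 = k := by push_cast; ring
      have h4 := C.down ((k + 1 : ℕ) : ℤ)
      rw [h3] at h4 ⊢
      exact mul_pos (mul_pos h4 (Real.exp_pos _)) ih
  refine ⟨f, fun x hx => ?_, fun x hx => ?_⟩
  · obtain ⟨k, rfl⟩ := Int.eq_ofNat_of_zero_le hx
    exact hpos k
  · have h := heq x hx
    rw [sum_nb x (fun z => C.p x z * Real.exp (v z) * f z)] at h
    exact h.le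

theorem sum_le_sup (C : Chain) (w f : ℤ → ℝ) (hf : ∀ x, 0 ≤ x → 0 < f x)
    (hs : Ssol C w 0 f) (N : ℕ) {x : ℤ} (hx : 0 < x) :
    (∑ n ∈ Finset.range N, Kv C w n x) * f 0 ≤ f x := by
  induction N generalizing x with
  | zero =>
    rw [Finset.range_zero, Finset.sum_empty, zero_mul]
    exact (hf x hx.le).le
  | succ N ih =>
    have h1 := hs x hx
    have h2 := sum_nb x (fun z => C.p x z * Real.exp (w z) * f z)
    rw [← nb_split] at h2
    rw [psum_succ, add_mul, Finset.sum_mul]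
    refine le_trans ?_ h1
    refine le_trans ?_ h2.le
    apply add_le_add
    · split_ifs
      · rw [zero_mul]
        exact mul_nonneg (mul_nonneg (C.nonneg _ _) (Real.exp_pos _).le) (hf 0 le_rfl).le
      · exact le_rfl
    · refine Finset.sum_le_sum fun z hz => ?_
      rw [Finset.mem_sdiff, Finset.mem_Icc, Finset.mem_singleton] at hz
      rw [mul_assoc]
      exact mul_le_mul_of_nonneg_left (ih (by omega))
        (mul_nonneg (C.nonneg _ _) (Real.exp_pos _).le)

end

end Pool.Agent.HZ
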