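import Pool.Agent.Lib.MP_daa227_pr_HZ.Pert
import Pool.Agent.Lib.MP_daa227_pr_HZ.MinSol

/-!
# AZ module A7: summability survives small perturbations which are nonpositive far away
-/

namespace Pool.Agent.HZ

open MeasureTheory ProbabilityTheory Set Filter
open scoped ENNReal Topology
open MP_daa227_pr (Chain Zk Zf Gk Gf KU K0 ushift shift seqLaw ExpMom Good GoodW mom)

noncomputable section

theorem far_sum (C : Chain) (v ζ : ℤ → ℝ) {B : ℝ}
    (hB : ∀ N : ℕ, ∑ n ∈ Finset.range N, Kv C v n 1 ≤ B)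
    (hfar : (∃ R : ℤ, ∀ z, R ≤ z → ζ z ≤ 0) ∨
      (∃ ε₁ : ℝ, 0 < ε₁ ∧ ∃ R : ℤ, ∀ z, R ≤ z → v z + ε₁ * ζ z ≤ 0)) :
    ∃ ε : ℝ, 0 < ε ∧ ∃ B' : ℝ, ∀ N : ℕ,
      ∑ n ∈ Finset.range N, Kv C (fun z => v z + ε * ζ z) n 1 ≤ B' := by
  obtain ⟨f₀, hf₀, hs₀⟩ := min_sol C v hB
  have key : ∃ ε : ℝ, 0 < ε ∧ ∃ f : ℤ → ℝ, (∀ x, 0 ≤ x → 0 < f x) ∧
      Ssol C (fun z => v z + ε * ζ z) 0 f := by
    rcases hfar with ⟨R, hR⟩ | ⟨ε₁, hε₁, R, hR⟩
    · have hsg : Ssol C (fun z => v z + 1 * ζ z) (max R 0) f₀ := by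
        intro x hx
        refine le_trans ?_ (hs₀ x (by omega))
        have hterm : ∀ z : ℤ, max R 0 ≤ z →
            C.p x z * Real.exp (v z + 1 * ζ z) * f₀ z ≤ C.p x z * Real.exp (v z) * f₀ z := by
          intro z hz
          refine mul_le_mul_of_nonneg_right (mul_le_mul_of_nonneg_left ?_ (C.nonneg _ _))
            (hf₀ z (by omega)).le
          have := hR z (by omega)
          exact Real.exp_le_exp.2 (by linarith)
        exact add_le_add (add_le_add (hterm _ (by omega)) (hterm _ (by omega)))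
          (hterm _ (by omega))
      obtain ⟨ε, hε, -, f, hf, hs⟩ := pert C v ζ f₀ f₀ (max R 0) (le_max_right _ _) hf₀ hs₀
        one_pos (fun x hx => hf₀ x (by omega)) hsg
      exact ⟨ε, hε, f, hf, hs⟩
    · have hsg : Ssol C (fun z => v z + ε₁ * ζ z) (max R 0) (fun _ => 1) := by
        intro x hx
        have hterm : ∀ z : ℤ, max R 0 ≤ z →
            C.p x z * Real.exp (v z + ε₁ * ζ z) * 1 ≤ C.p x z := by
          intro z hz
          rw [mul_one]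
          refine mul_le_of_le_one_right (C.nonneg _ _) ?_
          exact Real.exp_le_one_iff.2 (hR z (by omega))
        have h1 := C.sum_one x
        rw [sum_nb] at h1
        have a1 := hterm (x - 1) (by omega)
        have a2 := hterm x (by omega)
        have a3 := hterm (x + 1) (by omega)
        linarith
      obtain ⟨ε, hε, -, f, hf, hs⟩ := pert C v ζ f₀ (fun _ => 1) (max R 0) (le_max_right _ _) hf₀
        hs₀ hε₁ (fun x _ => one_pos) hsg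
      exact ⟨ε, hε, f, hf, hs⟩
  obtain ⟨ε, hε, f, hf, hs⟩ := key
  refine ⟨ε, hε, f 1 / f 0, fun N => ?_⟩
  rw [le_div_iff₀ (hf 0 le_rfl)]
  exact sum_le_sup C _ f hf hs N (by norm_num)

theorem far_sum_neg (C : Chain) (v ζ : ℤ → ℝ) {B : ℝ}
    (hB : ∀ N : ℕ, ∑ n ∈ Finset.range N, Kv C v n (-1) ≤ B)
    (hfar : (∃ R : ℤ, ∀ z, z ≤ R → ζ z ≤ 0) ∨
      (∃ ε₁ : ℝ, 0 < ε₁ ∧ ∃ R : ℤ, ∀ z, z ≤ R → v z + ε₁ * ζ z ≤ 0)) :
    ∃ ε : ℝ, 0 < ε ∧ ∃ B' : ℝ, ∀ N : ℕ,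
      ∑ n ∈ Finset.range N, Kv C (fun z => v z + ε * ζ z) n (-1) ≤ B' := by
  have h := far_sum (cneg C) (fun z => v (-z)) (fun z => ζ (-z)) (B := B) ?_ ?_
  · obtain ⟨ε, hε, B', hB'⟩ := h
    refine ⟨ε, hε, B', fun N => ?_⟩
    refine le_trans (le_of_eq ?_) (hB' N)
    refine Finset.sum_congr rfl fun n _ => ?_
    exact (Kv_cneg C (fun z => v z + ε * ζ z) n 1).symm
  · intro N
    refine le_trans (le_of_eq ?_) (hB N)
    exact Finset.sum_congr rfl fun n _ => Kv_cneg C v n 1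
  · rcases hfar with ⟨R, hR⟩ | ⟨ε₁, hε₁, R, hR⟩
    · exact Or.inl ⟨-R, fun z hz => hR (-z) (by omega)⟩
    · exact Or.inr ⟨ε₁, hε₁, -R, fun z hz => hR (-z) (by omega)⟩

end

end Pool.Agent.HZ
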