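import Pool.Agent.Lib.MP_daa227_pr_HZ.Basic

/-!
# Numerical part of the upper bound
-/

namespace Pool.Agent.HZ

open Set Filter
open scoped Topology

noncomputable section

/-- Sum of powers, exponent in `(0,1]`. -/
theorem num_jensen {ι : Type*} (F : Finset ι) (b : ι → ℝ) (hb : ∀ i, 0 ≤ b i) {γ : ℝ}
    (h0 : 0 < γ) (h1 : γ ≤ 1) :
    ∑ i ∈ F, b i ^ γ ≤ (F.card : ℝ) ^ (1 - γ) * (∑ i ∈ F, b i) ^ γ := by
  have hp : 1 ≤ 1 / γ := by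
    rw [le_div_iff₀ h0]; linarith
  have hs0 : 0 ≤ ∑ i ∈ F, b i ^ γ := Finset.sum_nonneg fun i _ => Real.rpow_nonneg (hb i) _
  have key := Real.rpow_sum_le_const_mul_sum_rpow_of_nonneg F (f := fun i => b i ^ γ) hp
    (fun i _ => Real.rpow_nonneg (hb i) _)
  have e1 : ∀ i ∈ F, (b i ^ γ) ^ (1 / γ) = b i := fun i _ => by
    rw [← Real.rpow_mul (hb i), mul_one_div_cancel h0.ne', Real.rpow_one]
  rw [Finset.sum_congr rfl e1] at key
  have h2 := Real.rpow_le_rpow (Real.rpow_nonneg hs0 _) key h0.le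
  rw [← Real.rpow_mul hs0, one_div_mul_cancel h0.ne', Real.rpow_one,
    Real.mul_rpow (Real.rpow_nonneg (Nat.cast_nonneg _) _) (Finset.sum_nonneg fun i _ => hb i),
    ← Real.rpow_mul (Nat.cast_nonneg _)] at h2
  refine h2.trans (le_of_eq ?_)
  congr 2
  field_simp

theorem num_two {x y γ : ℝ} (hx : 0 ≤ x) (hy : 0 ≤ y) (h0 : 0 < γ) (h1 : γ ≤ 1) :
    x ^ γ + y ^ γ ≤ 2 ^ (1 - γ) * (x + y) ^ γ := by
  have h := num_jensen (Finset.univ : Finset (Fin 2)) ![x, y]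
    (fun i => by fin_cases i <;> simp [hx, hy]) h0 h1
  simpa using h

theorem num_geom {G : ℝ} (hG : 0 < G) (N₀ k : ℕ) :
    ∑ n ∈ Finset.range k, Real.exp (-(G * (((N₀ + n : ℕ) : ℝ) + 1))) ≤
      (Real.exp (-(G * N₀)) - Real.exp (-(G * ((N₀ + k : ℕ) : ℝ)))) / G := by
  induction k with
  | zero => simp
  | succ k ih =>
    rw [Finset.sum_range_succ]
    have h1 : Real.exp (-(G * (((N₀ + k : ℕ) : ℝ) + 1))) ≤
        (Real.exp (-(G * ((N₀ + k : ℕ) : ℝ))) - Real.exp (-(G * ((N₀ + (k + 1) : ℕ) : ℝ)))) / G := by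
      rw [le_div_iff₀ hG]
      have e1 : Real.exp (-(G * ((N₀ + k : ℕ) : ℝ))) =
          Real.exp (-(G * (((N₀ + k : ℕ) : ℝ) + 1))) * Real.exp G := by
        rw [← Real.exp_add]; congr 1; ring
      have e2 : ((N₀ + (k + 1) : ℕ) : ℝ) = ((N₀ + k : ℕ) : ℝ) + 1 := by push_cast; ring
      rw [e1, e2]
      have e3 := Real.add_one_le_exp G
      have e4 := Real.exp_pos (-(G * (((N₀ + k : ℕ) : ℝ) + 1)))
      nlinarith
    calc _ ≤ (Real.exp (-(G * N₀)) - Real.exp (-(G * ((N₀ + k : ℕ) : ℝ)))) / G +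
        (Real.exp (-(G * ((N₀ + k : ℕ) : ℝ))) -
          Real.exp (-(G * ((N₀ + (k + 1) : ℕ) : ℝ)))) / G := add_le_add ih h1
      _ = _ := by ring

/-- The requirements on a small `δ`. -/
theorem num_small {δ₁ ε₀ B C₀ : ℝ} (hδ₁ : 0 < δ₁) (hε₀ : 0 < ε₀) (hB : 1 ≤ B) (hC₀ : 0 < C₀)
    {q : ℝ} (hq : 0 < q) (N₁ : ℕ) :
    ∃ δ₀ : ℝ, 0 < δ₀ ∧ ∀ δ : ℝ, 0 < δ → δ < δ₀ →
      δ ≤ δ₁ ∧ δ ≤ 1 ∧ C₀ * δ ≤ 1 ∧ δ / ε₀ ≤ 1 / 2 ∧ (N₁ : ℝ) ≤ δ ^ (-(q + 1)) ∧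
      (C₀ * Real.log 4 + 2 * C₀ * (q + 1) + Real.log (2 * B) / ε₀ + 1) * δ ^ (1 / 2 : ℝ) ≤
        δ ^ (1 / 4 : ℝ) / 8 ∧
      2 * B * (Real.exp (-(1 / δ)) / δ ^ q) ≤ δ ^ (1 / 2 : ℝ) / 2 := by
  suffices h : ∀ᶠ δ : ℝ in 𝓝[>] 0,
      δ ≤ δ₁ ∧ δ ≤ 1 ∧ C₀ * δ ≤ 1 ∧ δ / ε₀ ≤ 1 / 2 ∧ (N₁ : ℝ) ≤ δ ^ (-(q + 1)) ∧
      (C₀ * Real.log 4 + 2 * C₀ * (q + 1) + Real.log (2 * B) / ε₀ + 1) * δ ^ (1 / 2 : ℝ) ≤
        δ ^ (1 / 4 : ℝ) / 8 ∧
      2 * B * (Real.exp (-(1 / δ)) / δ ^ q) ≤ δ ^ (1 / 2 : ℝ) / 2 by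
    rw [eventually_nhdsWithin_iff, Metric.eventually_nhds_iff] at h
    obtain ⟨d, hd, h⟩ := h
    refine ⟨d, hd, fun δ h1 h2 => h ?_ h1⟩
    rw [Real.dist_eq, sub_zero, abs_of_pos h1]
    exact h2
  have hpos : ∀ᶠ δ : ℝ in 𝓝[>] 0, 0 < δ := eventually_mem_nhdsWithin
  have hlt : ∀ c : ℝ, 0 < c → ∀ᶠ δ : ℝ in 𝓝[>] 0, δ ≤ c := fun c hc =>
    nhdsWithin_le_nhds ((eventually_lt_nhds hc).mono fun _ h => h.le)
  set K : ℝ := C₀ * Real.log 4 + 2 * C₀ * (q + 1) + Real.log (2 * B) / ε₀ + 1 with hK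
  have hK0 : 0 < K := by
    have h1 : 0 < Real.log 4 := Real.log_pos (by norm_num)
    have h2 : 0 ≤ Real.log (2 * B) := Real.log_nonneg (by linarith)
    positivity
  -- power tending to infinity
  have hinv : Tendsto (fun δ : ℝ => δ⁻¹) (𝓝[>] 0) atTop := tendsto_inv_nhdsGT_zero
  have hN : ∀ᶠ δ : ℝ in 𝓝[>] 0, (N₁ : ℝ) ≤ δ ^ (-(q + 1)) := by
    have h1 : Tendsto (fun δ : ℝ => (δ⁻¹) ^ (q + 1)) (𝓝[>] 0) atTop :=
      (tendsto_rpow_atTop (by linarith)).comp hinv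
    filter_upwards [h1.eventually_ge_atTop (N₁ : ℝ), hpos] with δ h2 h3
    rwa [Real.rpow_neg h3.le, ← Real.inv_rpow h3.le]
  have h4 : ∀ᶠ δ : ℝ in 𝓝[>] 0, K * δ ^ (1 / 2 : ℝ) ≤ δ ^ (1 / 4 : ℝ) / 8 := by
    have h1 : Tendsto (fun δ : ℝ => (δ⁻¹) ^ (1 / 4 : ℝ)) (𝓝[>] 0) atTop :=
      (tendsto_rpow_atTop (by norm_num)).comp hinv
    filter_upwards [h1.eventually_ge_atTop (8 * K), hpos] with δ h2 h3
    rw [Real.inv_rpow h3.le] at h2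
    have h5 : 0 < δ ^ (1 / 4 : ℝ) := Real.rpow_pos_of_pos h3 _
    have h6 : δ ^ (1 / 2 : ℝ) = δ ^ (1 / 4 : ℝ) * δ ^ (1 / 4 : ℝ) := by
      rw [← Real.rpow_add h3]; norm_num
    rw [h6]
    have h7 : 8 * K * δ ^ (1 / 4 : ℝ) ≤ 1 := by
      calc 8 * K * δ ^ (1 / 4 : ℝ) ≤ (δ ^ (1 / 4 : ℝ))⁻¹ * δ ^ (1 / 4 : ℝ) :=
            mul_le_mul_of_nonneg_right h2 h5.le
        _ = 1 := inv_mul_cancel₀ h5.ne'
    nlinarith
  have h5 : ∀ᶠ δ : ℝ in 𝓝[>] 0, 2 * B * (Real.exp (-(1 / δ)) / δ ^ q) ≤ δ ^ (1 / 2 : ℝ) / 2 := by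
    have h1 : Tendsto (fun δ : ℝ => (δ⁻¹) ^ (q + 1 / 2) * Real.exp (-1 * δ⁻¹)) (𝓝[>] 0) (𝓝 0) :=
      (tendsto_rpow_mul_exp_neg_mul_atTop_nhds_zero (q + 1 / 2) 1 one_pos).comp hinv
    have h2 : 0 < 1 / (4 * B) := by positivity
    filter_upwards [h1.eventually (gt_mem_nhds h2), hpos] with δ h3 h4
    have h5 : 0 < δ ^ (1 / 2 : ℝ) := Real.rpow_pos_of_pos h4 _
    have h6 : 0 < δ ^ q := Real.rpow_pos_of_pos h4 _
    rw [Real.inv_rpow h4.le, Real.rpow_add h4, neg_one_mul] at h3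
    rw [one_div]
    have h7 : (δ ^ q * δ ^ (1 / 2 : ℝ))⁻¹ * Real.exp (-δ⁻¹) * (4 * B * δ ^ (1 / 2 : ℝ)) <
        1 / (4 * B) * (4 * B * δ ^ (1 / 2 : ℝ)) :=
      mul_lt_mul_of_pos_right h3 (by positivity)
    have e1 : (δ ^ q * δ ^ (1 / 2 : ℝ))⁻¹ * Real.exp (-δ⁻¹) * (4 * B * δ ^ (1 / 2 : ℝ)) =
        4 * B * (Real.exp (-δ⁻¹) / δ ^ q) := by
      field_simp
    have e2 : 1 / (4 * B) * (4 * B * δ ^ (1 / 2 : ℝ)) = δ ^ (1 / 2 : ℝ) := by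
      field_simp
    rw [e1, e2] at h7
    linarith
  filter_upwards [hlt δ₁ hδ₁, hlt 1 one_pos, hlt (1 / C₀) (by positivity),
    hlt (ε₀ / 2) (by positivity), hN, h4, h5] with δ a1 a2 a3 a4 a5 a6 a7
  refine ⟨a1, a2, ?_, ?_, a5, a6, a7⟩
  · rw [le_div_iff₀ hC₀] at a3
    linarith
  · rw [div_le_iff₀ hε₀]
    linarith

theorem num_up (G₁ G₂ : ℕ → ℝ) (hG₁ : ∀ n, 0 ≤ G₁ n) (hG₂ : ∀ n, 0 ≤ G₂ n)
    (hsum : ∀ N : ℕ, ∑ n ∈ Finset.range N, (G₁ n + G₂ n) ≤ 1)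
    (htail : ∀ ε : ℝ, 0 < ε → ∀ᶠ N : ℕ in atTop,
      ∑ n ∈ Finset.range N, (G₁ n + G₂ n) ≤ 1 - (N : ℝ) ^ (-ε))
    {δ₁ ε₀ B C₀ : ℝ} (hδ₁ : 0 < δ₁) (hε₀ : 0 < ε₀) (hB : 1 ≤ B) (hC₀ : 0 < C₀)
    (b₁ b₂ a : ℝ → ℕ → ℝ) (hb₁0 : ∀ δ n, 0 ≤ b₁ δ n) (hb₂0 : ∀ δ n, 0 ≤ b₂ δ n)
    (ha0 : ∀ δ n, 0 ≤ a δ n)
    (hb₁ : ∀ δ, 0 < δ → δ ≤ δ₁ → ∀ N : ℕ, ∑ n ∈ Finset.range N, b₁ δ n ≤
      (∑ n ∈ Finset.range N, G₁ n) ^ (1 - δ / ε₀) * B ^ (δ / ε₀))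
    (hb₂ : ∀ δ, 0 < δ → δ ≤ δ₁ → ∀ N : ℕ, ∑ n ∈ Finset.range N, b₂ δ n ≤
      (∑ n ∈ Finset.range N, G₂ n) ^ (1 - δ / ε₀) * B ^ (δ / ε₀))
    (ha : ∀ δ, 0 < δ → δ ≤ δ₁ → ∀ n, a δ n ≤
      b₁ δ n ^ (1 / (1 + C₀ * δ)) + b₂ δ n ^ (1 / (1 + C₀ * δ)))
    {q : ℝ} (hq : 0 < q) :
    ∃ δ₀ : ℝ, 0 < δ₀ ∧ ∀ δ : ℝ, 0 < δ → δ < δ₀ → ∀ N : ℕ,
      ∑ n ∈ Finset.range N, a δ n * Real.exp (-(δ ^ q * ((n : ℝ) + 1))) ≤ 1 := by
  have he : 0 < 1 / (4 * (q + 1)) := by positivity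
  obtain ⟨N₁, hN₁⟩ := eventually_atTop.1 (htail _ he)
  obtain ⟨δ₀, hδ₀, hsm⟩ := num_small hδ₁ hε₀ hB hC₀ hq N₁
  refine ⟨δ₀, hδ₀, fun δ h0 hlt N => ?_⟩
  obtain ⟨c1, c2, c3, c4, c5, c6, c7⟩ := hsm δ h0 hlt
  set s : ℝ := δ / ε₀ with hs
  have hs0 : 0 < s := by positivity
  set γ : ℝ := 1 / (1 + C₀ * δ) with hγ
  have hCδ : 0 < C₀ * δ := by positivity
  have hγ0 : 0 < γ := by positivity
  have hγ1 : γ ≤ 1 := by
    rw [hγ, div_le_one (by positivity)]; linarith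
  have hγ2 : 1 / 2 ≤ γ := by
    rw [hγ, div_le_div_iff₀ (by norm_num) (by positivity)]; linarith
  have hγ3 : 1 - γ ≤ C₀ * δ := by
    rw [hγ, sub_le_iff_le_add, ← sub_le_iff_le_add', le_div_iff₀ (by positivity)]
    nlinarith
  have hBs : B ^ s ≤ B := by
    calc B ^ s ≤ B ^ (1 : ℝ) := Real.rpow_le_rpow_of_exponent_le hB (by linarith)
      _ = B := Real.rpow_one B
  have hBs0 : 0 < B ^ s := Real.rpow_pos_of_pos (by linarith) _
  -- the partial sums of G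
  have hS1 : ∀ N, 0 ≤ ∑ n ∈ Finset.range N, G₁ n := fun N => Finset.sum_nonneg fun n _ => hG₁ n
  have hS2 : ∀ N, 0 ≤ ∑ n ∈ Finset.range N, G₂ n := fun N => Finset.sum_nonneg fun n _ => hG₂ n
  have hS12 : ∀ N, ∑ n ∈ Finset.range N, G₁ n + ∑ n ∈ Finset.range N, G₂ n ≤ 1 := fun N => by
    rw [← Finset.sum_add_distrib]; exact hsum N
  -- (3) each a is at most 2B
  have hb1B : ∀ n, b₁ δ n ≤ B := fun n => by
    calc b₁ δ n ≤ ∑ k ∈ Finset.range (n + 1), b₁ δ k :=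
          Finset.single_le_sum (fun k _ => hb₁0 δ k) (Finset.self_mem_range_succ n)
      _ ≤ (∑ k ∈ Finset.range (n + 1), G₁ k) ^ (1 - s) * B ^ s := hb₁ δ h0 c1 (n + 1)
      _ ≤ 1 * B := by
          apply mul_le_mul _ hBs hBs0.le zero_le_one
          apply Real.rpow_le_one (hS1 _) _ (by linarith)
          linarith [hS12 (n + 1), hS2 (n + 1)]
      _ = B := one_mul B
  have hb2B : ∀ n, b₂ δ n ≤ B := fun n => by
    calc b₂ δ n ≤ ∑ k ∈ Finset.range (n + 1), b₂ δ k :=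
          Finset.single_le_sum (fun k _ => hb₂0 δ k) (Finset.self_mem_range_succ n)
      _ ≤ (∑ k ∈ Finset.range (n + 1), G₂ k) ^ (1 - s) * B ^ s := hb₂ δ h0 c1 (n + 1)
      _ ≤ 1 * B := by
          apply mul_le_mul _ hBs hBs0.le zero_le_one
          apply Real.rpow_le_one (hS2 _) _ (by linarith)
          linarith [hS12 (n + 1), hS1 (n + 1)]
      _ = B := one_mul B
  have hpB : ∀ x, 0 ≤ x → x ≤ B → x ^ γ ≤ B := fun x hx0 hx => by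
    calc x ^ γ ≤ B ^ γ := Real.rpow_le_rpow hx0 hx hγ0.le
      _ ≤ B ^ (1 : ℝ) := Real.rpow_le_rpow_of_exponent_le hB hγ1
      _ = B := Real.rpow_one B
  have haB : ∀ n, a δ n ≤ 2 * B := fun n => by
    have h1 := ha δ h0 c1 n
    have h2 := hpB _ (hb₁0 δ n) (hb1B n)
    have h3 := hpB _ (hb₂0 δ n) (hb2B n)
    linarith
  -- N₀
  set N₀ : ℕ := ⌈δ ^ (-(q + 1))⌉₊ with hN₀
  have hpow1 : 1 ≤ δ ^ (-(q + 1)) := Real.one_le_rpow_of_pos_of_le_one_of_nonpos h0 c2 (by linarith)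
  have hN₀ge : δ ^ (-(q + 1)) ≤ N₀ := Nat.le_ceil _
  have hN₀le : (N₀ : ℝ) ≤ 2 * δ ^ (-(q + 1)) := by
    have := Nat.ceil_lt_add_one (zero_le_one.trans hpow1)
    rw [← hN₀] at this
    linarith
  have hN₀1 : 1 ≤ (N₀ : ℝ) := hpow1.trans hN₀ge
  have hN₁le : N₁ ≤ N₀ := by
    have : (N₁ : ℝ) ≤ N₀ := c5.trans hN₀ge
    exact_mod_cast this
  set t : ℝ := (N₀ : ℝ) ^ (-(1 / (4 * (q + 1)))) with ht
  have ht0 : 0 < t := Real.rpow_pos_of_pos (by linarith) _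
  have hSt : ∑ n ∈ Finset.range N₀, (G₁ n + G₂ n) ≤ 1 - t := hN₁ N₀ hN₁le
  have ht1 : 0 ≤ 1 - t := by
    refine le_trans (Finset.sum_nonneg fun n _ => add_nonneg (hG₁ n) (hG₂ n)) hSt
  have htlow : δ ^ (1 / 4 : ℝ) / 2 ≤ t := by
    have h1 : (2 * δ ^ (-(q + 1))) ^ (-(1 / (4 * (q + 1)))) ≤ t := by
      rw [ht]
      apply Real.rpow_le_rpow_of_nonpos (by linarith) hN₀le
      linarith
    refine le_trans ?_ h1
    rw [Real.mul_rpow (by norm_num) (by positivity), ← Real.rpow_mul h0.le]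
    have e1 : -(q + 1) * -(1 / (4 * (q + 1))) = 1 / 4 := by field_simp
    rw [e1]
    have e2 : (1 / 2 : ℝ) ≤ 2 ^ (-(1 / (4 * (q + 1)))) := by
      calc (1 / 2 : ℝ) = 2 ^ (-1 : ℝ) := by rw [Real.rpow_neg_one]; norm_num
        _ ≤ _ := by
          apply Real.rpow_le_rpow_of_exponent_le (by norm_num)
          rw [neg_le_neg_iff, div_le_one (by positivity)]
          linarith
    have e3 : 0 ≤ δ ^ (1 / 4 : ℝ) := by positivity
    nlinarith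
  -- (1)
  set X : ℝ := ∑ n ∈ Finset.range N₀, b₁ δ n + ∑ n ∈ Finset.range N₀, b₂ δ n with hX
  have hX0 : 0 ≤ X := add_nonneg (Finset.sum_nonneg fun n _ => hb₁0 δ n)
    (Finset.sum_nonneg fun n _ => hb₂0 δ n)
  have hXle : X ≤ (2 * B) ^ s * Real.exp (-(t * (1 - s))) := by
    have h1 := hb₁ δ h0 c1 N₀
    have h2 := hb₂ δ h0 c1 N₀
    have h3 := num_two (hS1 N₀) (hS2 N₀) (γ := 1 - s) (by linarith) (by linarith)
    have h4 : (∑ n ∈ Finset.range N₀, G₁ n + ∑ n ∈ Finset.range N₀, G₂ n) ^ (1 - s) ≤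
        Real.exp (-(t * (1 - s))) := by
      calc (∑ n ∈ Finset.range N₀, G₁ n + ∑ n ∈ Finset.range N₀, G₂ n) ^ (1 - s)
          ≤ (1 - t) ^ (1 - s) := by
            apply Real.rpow_le_rpow (add_nonneg (hS1 _) (hS2 _)) _ (by linarith)
            rw [← Finset.sum_add_distrib]; exact hSt
        _ ≤ (Real.exp (-t)) ^ (1 - s) := by
            apply Real.rpow_le_rpow ht1 _ (by linarith)
            have := Real.add_one_le_exp (-t)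
            linarith
        _ = Real.exp (-(t * (1 - s))) := by
            rw [← Real.exp_mul]; congr 1; ring
    calc X ≤ (∑ n ∈ Finset.range N₀, G₁ n) ^ (1 - s) * B ^ s +
          (∑ n ∈ Finset.range N₀, G₂ n) ^ (1 - s) * B ^ s := add_le_add h1 h2
      _ = ((∑ n ∈ Finset.range N₀, G₁ n) ^ (1 - s) +
          (∑ n ∈ Finset.range N₀, G₂ n) ^ (1 - s)) * B ^ s := by ring
      _ ≤ (2 ^ (1 - (1 - s)) * (∑ n ∈ Finset.range N₀, G₁ n +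
          ∑ n ∈ Finset.range N₀, G₂ n) ^ (1 - s)) * B ^ s :=
          mul_le_mul_of_nonneg_right h3 hBs0.le
      _ = (2 * B) ^ s * (∑ n ∈ Finset.range N₀, G₁ n +
          ∑ n ∈ Finset.range N₀, G₂ n) ^ (1 - s) := by
          rw [Real.mul_rpow (by norm_num) (by linarith), sub_sub_cancel]; ring
      _ ≤ _ := mul_le_mul_of_nonneg_left h4 (by positivity)
  -- (2)
  have hA : ∑ n ∈ Finset.range N₀, a δ n ≤ (2 * (N₀ : ℝ)) ^ (1 - γ) * X ^ γ := by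
    calc ∑ n ∈ Finset.range N₀, a δ n
        ≤ ∑ n ∈ Finset.range N₀, (b₁ δ n ^ γ + b₂ δ n ^ γ) :=
          Finset.sum_le_sum fun n _ => ha δ h0 c1 n
      _ = ∑ n ∈ Finset.range N₀, b₁ δ n ^ γ + ∑ n ∈ Finset.range N₀, b₂ δ n ^ γ :=
          Finset.sum_add_distrib
      _ ≤ (N₀ : ℝ) ^ (1 - γ) * (∑ n ∈ Finset.range N₀, b₁ δ n) ^ γ +
          (N₀ : ℝ) ^ (1 - γ) * (∑ n ∈ Finset.range N₀, b₂ δ n) ^ γ := by
          have h1 := num_jensen (Finset.range N₀) (b₁ δ) (hb₁0 δ) hγ0 hγ1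
          have h2 := num_jensen (Finset.range N₀) (b₂ δ) (hb₂0 δ) hγ0 hγ1
          rw [Finset.card_range] at h1 h2
          exact add_le_add h1 h2
      _ = (N₀ : ℝ) ^ (1 - γ) * ((∑ n ∈ Finset.range N₀, b₁ δ n) ^ γ +
          (∑ n ∈ Finset.range N₀, b₂ δ n) ^ γ) := by ring
      _ ≤ (N₀ : ℝ) ^ (1 - γ) * (2 ^ (1 - γ) * X ^ γ) := by
          apply mul_le_mul_of_nonneg_left _ (by positivity)
          exact num_two (Finset.sum_nonneg fun n _ => hb₁0 δ n)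
            (Finset.sum_nonneg fun n _ => hb₂0 δ n) hγ0 hγ1
      _ = _ := by rw [Real.mul_rpow (by norm_num) (by positivity)]; ring
  -- logarithms
  have hlog : ∑ n ∈ Finset.range N₀, a δ n ≤ Real.exp (-(δ ^ (1 / 2 : ℝ))) := by
    have hXγ : X ^ γ ≤ Real.exp (γ * (s * Real.log (2 * B) - t * (1 - s))) := by
      calc X ^ γ ≤ ((2 * B) ^ s * Real.exp (-(t * (1 - s)))) ^ γ :=
            Real.rpow_le_rpow hX0 hXle hγ0.le
        _ = _ := by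
            rw [Real.rpow_def_of_pos (by linarith : (0 : ℝ) < 2 * B), ← Real.exp_add,
              ← Real.exp_mul]
            congr 1; ring
    have h2N : (2 * (N₀ : ℝ)) ^ (1 - γ) = Real.exp (Real.log (2 * N₀) * (1 - γ)) :=
      Real.rpow_def_of_pos (by linarith) _
    refine hA.trans ?_
    rw [h2N]
    refine (mul_le_mul_of_nonneg_left hXγ (Real.exp_pos _).le).trans ?_
    rw [← Real.exp_add]
    apply Real.exp_le_exp.mpr
    -- estimates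
    have hL0 : 0 ≤ Real.log (2 * N₀) := Real.log_nonneg (by linarith)
    have hLB : 0 ≤ Real.log (2 * B) := Real.log_nonneg (by linarith)
    have e1 : Real.log (2 * N₀) ≤ Real.log 4 + (q + 1) * (2 * δ ^ (-(1 / 2) : ℝ)) := by
      calc Real.log (2 * N₀) ≤ Real.log (4 * δ ^ (-(q + 1))) :=
            Real.log_le_log (by linarith) (by linarith)
        _ = Real.log 4 + (q + 1) * Real.log δ⁻¹ := by
            rw [Real.log_mul (by norm_num) (by positivity), Real.log_rpow h0, Real.log_inv]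
            ring
        _ ≤ _ := by
            have h1 := Real.log_le_rpow_div (x := δ⁻¹) (by positivity) (ε := 1 / 2) (by norm_num)
            have h2 : (δ⁻¹) ^ (1 / 2 : ℝ) = δ ^ (-(1 / 2) : ℝ) := by
              rw [Real.rpow_neg h0.le, Real.inv_rpow h0.le]
            rw [h2] at h1
            have h3 : Real.log δ⁻¹ ≤ 2 * δ ^ (-(1 / 2) : ℝ) := by linarith
            have h4 : (0 : ℝ) ≤ q + 1 := by linarith
            have := mul_le_mul_of_nonneg_left h3 h4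
            linarith
    have hd1 : δ * δ ^ (-(1 / 2) : ℝ) = δ ^ (1 / 2 : ℝ) := by
      nth_rewrite 1 [← Real.rpow_one δ]
      rw [← Real.rpow_add h0]
      norm_num
    have hd2 : δ ≤ δ ^ (1 / 2 : ℝ) := by
      calc δ = δ ^ (1 : ℝ) := (Real.rpow_one δ).symm
        _ ≤ _ := Real.rpow_le_rpow_of_exponent_ge h0 c2 (by norm_num)
    have e2 : Real.log (2 * N₀) * (1 - γ) ≤
        (C₀ * Real.log 4 + 2 * C₀ * (q + 1)) * δ ^ (1 / 2 : ℝ) := by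
      have hl4 : 0 ≤ Real.log 4 := Real.log_nonneg (by norm_num)
      calc Real.log (2 * N₀) * (1 - γ) ≤ Real.log (2 * N₀) * (C₀ * δ) :=
            mul_le_mul_of_nonneg_left hγ3 hL0
        _ ≤ (Real.log 4 + (q + 1) * (2 * δ ^ (-(1 / 2) : ℝ))) * (C₀ * δ) :=
            mul_le_mul_of_nonneg_right e1 hCδ.le
        _ = C₀ * Real.log 4 * δ + 2 * C₀ * (q + 1) * (δ * δ ^ (-(1 / 2) : ℝ)) := by ring
        _ ≤ C₀ * Real.log 4 * δ ^ (1 / 2 : ℝ) + 2 * C₀ * (q + 1) * δ ^ (1 / 2 : ℝ) := by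
            rw [hd1]
            have : C₀ * Real.log 4 * δ ≤ C₀ * Real.log 4 * δ ^ (1 / 2 : ℝ) :=
              mul_le_mul_of_nonneg_left hd2 (by positivity)
            linarith
        _ = _ := by ring
    have e3 : γ * (s * Real.log (2 * B)) ≤ Real.log (2 * B) / ε₀ * δ ^ (1 / 2 : ℝ) := by
      calc γ * (s * Real.log (2 * B)) ≤ 1 * (s * Real.log (2 * B)) :=
            mul_le_mul_of_nonneg_right hγ1 (by positivity)
        _ = Real.log (2 * B) / ε₀ * δ := by rw [hs]; ring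
        _ ≤ _ := mul_le_mul_of_nonneg_left hd2 (by positivity)
    have e4 : t / 4 ≤ γ * (t * (1 - s)) := by
      have h1 : 1 / 2 * (1 / 2) ≤ γ * (1 - s) :=
        mul_le_mul hγ2 (by linarith) (by norm_num) hγ0.le
      calc t / 4 = t * (1 / 2 * (1 / 2)) := by ring
        _ ≤ t * (γ * (1 - s)) := mul_le_mul_of_nonneg_left h1 ht0.le
        _ = γ * (t * (1 - s)) := by ring
    have e5 : (C₀ * Real.log 4 + 2 * C₀ * (q + 1)) * δ ^ (1 / 2 : ℝ) +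
        Real.log (2 * B) / ε₀ * δ ^ (1 / 2 : ℝ) + δ ^ (1 / 2 : ℝ) ≤ δ ^ (1 / 4 : ℝ) / 8 := by
      calc _ = (C₀ * Real.log 4 + 2 * C₀ * (q + 1) + Real.log (2 * B) / ε₀ + 1) *
            δ ^ (1 / 2 : ℝ) := by ring
        _ ≤ _ := c6
    rw [mul_sub]
    linarith
  have hx : 0 ≤ δ ^ (1 / 2 : ℝ) := by positivity
  have hx1 : δ ^ (1 / 2 : ℝ) ≤ 1 := Real.rpow_le_one h0.le c2 (by norm_num)
  have hlog2 : ∑ n ∈ Finset.range N₀, a δ n ≤ 1 - δ ^ (1 / 2 : ℝ) / 2 := by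
    refine hlog.trans ?_
    rw [Real.exp_neg, inv_le_comm₀ (Real.exp_pos _) (by linarith)]
    refine le_trans ?_ (Real.add_one_le_exp _)
    rw [inv_le_iff_one_le_mul₀ (by linarith)]
    nlinarith
  set G : ℝ := δ ^ q with hG
  have hG0 : 0 < G := Real.rpow_pos_of_pos h0 _
  have hterm : ∀ n : ℕ, a δ n * Real.exp (-(G * ((n : ℝ) + 1))) ≤ a δ n := fun n => by
    apply mul_le_of_le_one_right (ha0 δ n)
    rw [Real.exp_le_one_iff]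
    have : 0 ≤ G * ((n : ℝ) + 1) := by positivity
    linarith
  rcases le_total N N₀ with hNN | hNN
  · calc ∑ n ∈ Finset.range N, a δ n * Real.exp (-(G * ((n : ℝ) + 1)))
        ≤ ∑ n ∈ Finset.range N, a δ n := Finset.sum_le_sum fun n _ => hterm n
      _ ≤ ∑ n ∈ Finset.range N₀, a δ n :=
          Finset.sum_le_sum_of_subset_of_nonneg (Finset.range_subset_range.2 hNN)
            fun n _ _ => ha0 δ n
      _ ≤ 1 := by linarith
  · obtain ⟨k, rfl⟩ := Nat.exists_eq_add_of_le hNN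
    rw [Finset.sum_range_add]
    have h1 : ∑ n ∈ Finset.range N₀, a δ n * Real.exp (-(G * ((n : ℝ) + 1))) ≤
        1 - δ ^ (1 / 2 : ℝ) / 2 :=
      (Finset.sum_le_sum fun n _ => hterm n).trans hlog2
    have h2 : ∑ n ∈ Finset.range k, a δ (N₀ + n) *
        Real.exp (-(G * (((N₀ + n : ℕ) : ℝ) + 1))) ≤ δ ^ (1 / 2 : ℝ) / 2 := by
      calc ∑ n ∈ Finset.range k, a δ (N₀ + n) * Real.exp (-(G * (((N₀ + n : ℕ) : ℝ) + 1)))
          ≤ ∑ n ∈ Finset.range k, 2 * B * Real.exp (-(G * (((N₀ + n : ℕ) : ℝ) + 1))) :=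
            Finset.sum_le_sum fun n _ =>
              mul_le_mul_of_nonneg_right (haB (N₀ + n)) (Real.exp_pos _).le
        _ = 2 * B * ∑ n ∈ Finset.range k, Real.exp (-(G * (((N₀ + n : ℕ) : ℝ) + 1))) := by
            rw [Finset.mul_sum]
        _ ≤ 2 * B * (Real.exp (-(1 / δ)) / G) := by
            apply mul_le_mul_of_nonneg_left _ (by linarith)
            refine (num_geom hG0 N₀ k).trans ?_
            apply div_le_div_of_nonneg_right _ hG0.le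
            have h3 : Real.exp (-(G * N₀)) ≤ Real.exp (-(1 / δ)) := by
              apply Real.exp_le_exp.mpr
              rw [neg_le_neg_iff]
              calc 1 / δ = G * δ ^ (-(q + 1)) := by
                    rw [hG, ← Real.rpow_add h0]
                    rw [show q + -(q + 1) = -1 by ring, Real.rpow_neg_one, one_div]
                _ ≤ G * N₀ := mul_le_mul_of_nonneg_left hN₀ge hG0.le
            have h4 := (Real.exp_pos (-(G * ((N₀ + k : ℕ) : ℝ)))).le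
            linarith
        _ ≤ _ := c7
    linarith

end

end Pool.Agent.HZ
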