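import Pool.Agent.Lib.MP_daa227_pr_HZ.Free
import Pool.Agent.Lib.MP_daa227_pr_HZ.FarSum
import Pool.Agent.Lib.MP_daa227_pr_HZ.Lmg
import Pool.Agent.Lib.MP_daa227_pr_HZ.MomId
import Pool.Agent.Lib.MP_daa227_pr_HZ.RenUp
import Pool.Agent.Lib.MP_daa227_pr_HZ.Interp
import Pool.Agent.Lib.MP_daa227_pr_HZ.Tail
import Pool.Agent.Lib.MP_daa227_pr_HZ.Num
import Pool.Agent.Lib.MP_daa227_pr_HZ.Side

/-!
# The upper bound of the free energy
-/

namespace Pool.Agent.HZ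

open MeasureTheory ProbabilityTheory Set Filter
open scoped ENNReal Topology
open MP_daa227_pr (Chain Zk Zf Gk Gf KU K0 ushift shift seqLaw ExpMom Good GoodW mom)

noncomputable section

theorem Upper.Zd_le_one (C : Chain) (v : ℤ → ℝ)
    (hs : ∀ N : ℕ, ∑ n ∈ Finset.range N, Kv C v n 0 ≤ 1) (n : ℕ) : Zd C v n 0 0 ≤ 1 := by
  induction n using Nat.strong_induction_on with
  | _ n ih =>
    by_cases hn : n = 0
    · subst hn
      exact (Zd_zero C v 0).le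
    · rw [Zd_renewal C v hn]
      have h1 : ∑ m ∈ Finset.Ioc 0 n, Kv C v m 0 * Zd C v (n - m) 0 0 ≤
          ∑ m ∈ Finset.Ioc 0 n, Kv C v m 0 := by
        refine Finset.sum_le_sum fun m hm => ?_
        rw [Finset.mem_Ioc] at hm
        have h2 := ih (n - m) (by omega)
        have h3 := Kv_nonneg C v m 0
        nlinarith
      refine h1.trans (le_trans ?_ (hs (n + 1)))
      refine Finset.sum_le_sum_of_subset_of_nonneg ?_ fun m _ _ => Kv_nonneg C v m 0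
      intro m hm
      rw [Finset.mem_Ioc] at hm
      rw [Finset.mem_range]
      omega

theorem Mod.Fr_nonpos (M : Mod) {h : ℝ} (hs : ∀ N : ℕ, ∑ n ∈ Finset.range N, M.g h n ≤ 1) :
    M.Fr h ≤ 0 := by
  have h1 := M.Fr_le_of_mom (h := h) (γ := 1) (G := 0) one_pos le_rfl fun n _ => by
    have h2 : mom M.μ 1 (fun ω => M.Z h n ω) = ENNReal.ofReal (Zd M.C (M.v h) n 0 0) :=
      M.mom_one_Zk h n 0 0
    rw [h2, zero_mul, Real.exp_zero]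
    exact ENNReal.ofReal_le_ofReal (Upper.Zd_le_one M.C (M.v h) hs n)
  rwa [zero_div] at h1

/-- the weights of excursions, shifted sums -/
theorem Upper.sum_split (M : Mod) (h : ℝ) (N : ℕ) :
    ∑ n ∈ Finset.range N, (Es M.C (M.v h) 1 n + Es M.C (M.v h) (-1) n) =
      ∑ n ∈ Finset.range (N + 1), M.g h n := by
  rw [Finset.sum_range_succ']
  have h0 : M.g h 0 = 0 := rfl
  rw [h0, add_zero]
  exact Finset.sum_congr rfl fun n _ => (Kv_split M.C (M.v h) n).symm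

/-- from a bound of the sums of `Es` to a bound of the sums of `Kv` -/
theorem Upper.kv_bound (C : Chain) (v : ℤ → ℝ) (σ : ℤ) (hp : 0 < C.p 0 σ)
    (h : ∀ N : ℕ, ∑ n ∈ Finset.range N, Es C v σ n ≤ 1) (N : ℕ) :
    ∑ n ∈ Finset.range N, Kv C v n σ ≤ (C.p 0 σ * Real.exp (v σ))⁻¹ := by
  have h1 : 0 < C.p 0 σ * Real.exp (v σ) := mul_pos hp (Real.exp_pos _)
  have h2 := (Finset.sum_le_sum fun n _ => Es_ge C v σ n).trans (h N)
  rw [← Finset.mul_sum] at h2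
  rw [← one_div, le_div_iff₀ h1, mul_comm]
  exact h2

/-- interpolation of the sums of `Es` -/
theorem Upper.interp (C : Chain) (v ζ : ℤ → ℝ) (σ : ℤ)
    (hs : ∀ N : ℕ, ∑ n ∈ Finset.range N, Es C v σ n ≤ 1) {ε ε₀ B B' : ℝ} (hε₀ : 0 < ε₀)
    (hε : ε₀ ≤ ε) (hB : 1 ≤ B) (hB' : ∀ N : ℕ, ∑ n ∈ Finset.range N,
      Kv C (fun z => v z + ε * ζ z) n σ ≤ B')
    (hBB : C.p 0 σ * Real.exp (v σ + ε * ζ σ) * B' + C.p 0 0 * Real.exp (v 0 + ε * ζ 0) ≤ B) {δ : ℝ} (h0 : 0 < δ) (h1 : δ ≤ ε₀)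
    (N : ℕ) : ∑ n ∈ Finset.range N, Es C (fun z => v z + δ * ζ z) σ n ≤
      (∑ n ∈ Finset.range N, Es C v σ n) ^ (1 - δ / ε₀) * B ^ (δ / ε₀) := by
  have hεp : 0 < ε := lt_of_lt_of_le hε₀ hε
  have hs0 : 0 ≤ δ / ε := (div_pos h0 hεp).le
  have hs1 : δ / ε ≤ 1 := (div_le_one hεp).2 (h1.trans hε)
  have hss : δ / ε ≤ δ / ε₀ := div_le_div_of_nonneg_left h0.le hε₀ hε
  have hs2 : δ / ε₀ ≤ 1 := (div_le_one hε₀).2 h1
  have h2 := interp_E C v ζ ε hs0 hs1 σ N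
  have h3 : (fun z => v z + δ / ε * ε * ζ z) = fun z => v z + δ * ζ z := by
    funext z
    rw [div_mul_cancel₀ _ hεp.ne']
  rw [h3] at h2
  refine h2.trans ?_
  have h4 : 0 ≤ ∑ n ∈ Finset.range N, Es C v σ n := Finset.sum_nonneg fun n _ => Es_nonneg _ _ _ _
  have h5 : 0 ≤ ∑ n ∈ Finset.range N, Es C (fun z => v z + ε * ζ z) σ n :=
    Finset.sum_nonneg fun n _ => Es_nonneg _ _ _ _
  have h6 : ∑ n ∈ Finset.range N, Es C (fun z => v z + ε * ζ z) σ n ≤ B := by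
    refine le_trans ?_ hBB
    refine (Es_sum C (fun z => v z + ε * ζ z) σ N).trans (add_le_add ?_ le_rfl)
    exact mul_le_mul_of_nonneg_left (hB' N) (mul_nonneg (C.nonneg _ _) (Real.exp_pos _).le)
  apply mul_le_mul
  · exact Real.rpow_le_rpow_of_exponent_ge' h4 (hs N) (by linarith) (by linarith)
  · refine (Real.rpow_le_rpow h5 h6 hs0).trans ?_
    exact Real.rpow_le_rpow_of_exponent_le hB hss
  · exact Real.rpow_nonneg h5 _
  · exact Real.rpow_nonneg h4 _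

theorem Mod.upper (M : Mod) (hlo : M.LowOne) {h₀ : ℝ} (hh : 0 < h₀)
    (hs : ∀ N : ℕ, ∑ n ∈ Finset.range N, M.g h₀ n ≤ 1) {q : ℝ} (hq : 0 < q) :
    ∃ δ₀ : ℝ, 0 < δ₀ ∧ ∀ δ : ℝ, 0 < δ → δ < δ₀ → M.Fr (h₀ - δ) ≤ 2 * δ ^ q := by
  obtain ⟨lam, C₀, δ₁, _, hC₀, hδ₁, ζ, hside, hfar⟩ := M.side
  have hp1 : 0 < M.C.p 0 1 := by
    have := M.C.up 0
    rwa [zero_add] at this
  have hp2 : 0 < M.C.p 0 (-1) := by
    have := M.C.down 0
    rwa [zero_sub] at this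
  have hsum : ∀ N : ℕ, ∑ n ∈ Finset.range N,
      (Es M.C (M.v h₀) 1 n + Es M.C (M.v h₀) (-1) n) ≤ 1 := fun N => by
    rw [Upper.sum_split]
    exact hs _
  have hs1 : ∀ N : ℕ, ∑ n ∈ Finset.range N, Es M.C (M.v h₀) 1 n ≤ 1 := fun N => by
    refine le_trans (Finset.sum_le_sum fun n _ => ?_) (hsum N)
    exact le_add_of_nonneg_right (Es_nonneg _ _ _ _)
  have hs2 : ∀ N : ℕ, ∑ n ∈ Finset.range N, Es M.C (M.v h₀) (-1) n ≤ 1 := fun N => by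
    refine le_trans (Finset.sum_le_sum fun n _ => ?_) (hsum N)
    exact le_add_of_nonneg_left (Es_nonneg _ _ _ _)
  -- tails
  have hlow : ∀ ε : ℝ, 0 < ε → ∀ᶠ n : ℕ in atTop,
      ((2 * n : ℕ) : ℝ) ^ (-(1 + ε)) ≤ M.g h₀ (2 * n) := by
    intro ε hε
    filter_upwards [hlo h₀ hh ε hε] with n hn
    refine hn.trans (Kv_mono M.C (fun z => ?_) _ _)
    unfold Mod.v
    have := lmg_nonneg M.exp_mom M.mean (M.β * M.φ z)
    linarith
  have htail : ∀ ε : ℝ, 0 < ε → ∀ᶠ N : ℕ in atTop, ∑ n ∈ Finset.range N,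
      (Es M.C (M.v h₀) 1 n + Es M.C (M.v h₀) (-1) n) ≤ 1 - (N : ℝ) ^ (-ε) := by
    intro ε hε
    filter_upwards [tail_low (M.g h₀) (fun n => Kv_nonneg _ _ _ _) hs hlow hε] with N hN
    rw [Upper.sum_split]
    exact hN
  -- perturbation
  obtain ⟨ε₁, hε₁, B₁, hB₁⟩ := far_sum M.C (M.v h₀) M.φ
    (Upper.kv_bound M.C (M.v h₀) 1 hp1 hs1) (Or.inr (M.far_pos hh))
  obtain ⟨ε₂, hε₂, B₂, hB₂⟩ := far_sum_neg M.C (M.v h₀) ζ
    (Upper.kv_bound M.C (M.v h₀) (-1) hp2 hs2) (hfar h₀ hh)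
  set ε₀ := min ε₁ ε₂ with hε₀
  have hε₀p : 0 < ε₀ := lt_min hε₁ hε₂
  set B := max 1 (max (M.C.p 0 1 * Real.exp (M.v h₀ 1 + ε₁ * M.φ 1) * B₁ +
      M.C.p 0 0 * Real.exp (M.v h₀ 0 + ε₁ * M.φ 0))
    (M.C.p 0 (-1) * Real.exp (M.v h₀ (-1) + ε₂ * ζ (-1)) * B₂ +
      M.C.p 0 0 * Real.exp (M.v h₀ 0 + ε₂ * ζ 0))) with hBdef
  have hB : 1 ≤ B := le_max_left _ _
  have hC₀p : 0 < C₀ := lt_of_lt_of_le one_pos hC₀
  obtain ⟨δ₀, hδ₀, hnum⟩ := num_up (fun n => Es M.C (M.v h₀) 1 n)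
    (fun n => Es M.C (M.v h₀) (-1) n) (fun n => Es_nonneg _ _ _ _) (fun n => Es_nonneg _ _ _ _)
    hsum htail (δ₁ := min δ₁ ε₀) (ε₀ := ε₀) (B := B) (C₀ := C₀) (lt_min hδ₁ hε₀p) hε₀p hB hC₀p
    (fun δ n => Es M.C (fun z => M.v h₀ z + δ * M.φ z) 1 n)
    (fun δ n => Es M.C (fun z => M.v h₀ z + δ * ζ z) (-1) n)
    (fun δ n => Es M.C (fun z => M.v h₀ z + δ * M.φ z) 1 n ^ (1 / (1 + C₀ * δ)) +
      Es M.C (fun z => M.v h₀ z + δ * ζ z) (-1) n ^ (1 / (1 + C₀ * δ)))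
    (fun δ n => Es_nonneg _ _ _ _) (fun δ n => Es_nonneg _ _ _ _)
    (fun δ n => add_nonneg (Real.rpow_nonneg (Es_nonneg _ _ _ _) _)
      (Real.rpow_nonneg (Es_nonneg _ _ _ _) _))
    (fun δ h0 h1 N => Upper.interp M.C (M.v h₀) M.φ 1 hs1 hε₀p (min_le_left _ _) hB hB₁
      ((le_max_left _ _).trans (le_max_right _ _)) h0 (h1.trans (min_le_right _ _)) N)
    (fun δ h0 h1 N => Upper.interp M.C (M.v h₀) ζ (-1) hs2 hε₀p (min_le_right _ _) hB hB₂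
      ((le_max_right _ _).trans (le_max_right _ _)) h0 (h1.trans (min_le_right _ _)) N)
    (fun δ h0 h1 n => le_rfl) hq
  refine ⟨min δ₀ (min δ₁ (1 / C₀)), lt_min hδ₀ (lt_min hδ₁ (by positivity)), ?_⟩
  intro δ h0 hlt
  have hl1 : δ < δ₀ := lt_of_lt_of_le hlt (min_le_left _ _)
  have hl2 : δ ≤ δ₁ := (lt_of_lt_of_le hlt ((min_le_right _ _).trans (min_le_left _ _))).le
  have hl3 : δ < 1 / C₀ := lt_of_lt_of_le hlt ((min_le_right _ _).trans (min_le_right _ _))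
  have hθ : 0 < C₀ * δ := mul_pos hC₀p h0
  have hγ0 : 0 < 1 / (1 + C₀ * δ) := by positivity
  have hγ1 : 1 / (1 + C₀ * δ) ≤ 1 := by
    rw [div_le_one (by positivity)]
    linarith
  have hG : 0 ≤ δ ^ q := Real.rpow_nonneg h0.le _
  have hmomG : ∀ n, mom M.μ (1 / (1 + C₀ * δ))
      (fun ω => Gk M.C (M.W (h₀ - δ)) {0} (n + 1) ω 0 0) ≤
      ENNReal.ofReal (Es M.C (fun z => M.v h₀ z + δ * M.φ z) 1 n ^ (1 / (1 + C₀ * δ)) +
      Es M.C (fun z => M.v h₀ z + δ * ζ z) (-1) n ^ (1 / (1 + C₀ * δ))) := by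
    intro n
    refine (M.mom_G hθ lam (h₀ - δ) n).trans (ENNReal.ofReal_le_ofReal ?_)
    have e1 : M.v (h₀ - δ) = fun z => M.v h₀ z + δ * M.φ z := by
      funext z
      unfold Mod.v
      ring
    rw [e1]
    refine add_le_add le_rfl (Real.rpow_le_rpow (Es_nonneg _ _ _ _) ?_ hγ0.le)
    exact Es_mono M.C (fun z => hside h₀ δ z h0.le hl2) (-1) n
  have hmomZ := ren_up M.C M.κ_pos.le (M.goodW (h₀ - δ)) hγ0 hγ1 _
    (fun n => add_nonneg (Real.rpow_nonneg (Es_nonneg _ _ _ _) _)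
      (Real.rpow_nonneg (Es_nonneg _ _ _ _) _)) hmomG hG (hnum δ h0 hl1)
  have hF := M.Fr_le_of_mom (h := h₀ - δ) hγ0 hγ1 (G := δ ^ q) fun n _ => hmomZ n
  refine hF.trans ?_
  rw [div_div_eq_mul_div, div_one, mul_comm]
  apply mul_le_mul_of_nonneg_right _ hG
  have : C₀ * δ ≤ 1 := by
    rw [lt_div_iff₀ hC₀p] at hl3
    linarith
  linarith

end

end Pool.Agent.HZ
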