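import Pool.Agent.Lib.MP_daa227_pr_HZ.Basic

/-!
# Large values of the partition function from the growth of its mean (module A15, first part)
-/

namespace Pool.Agent.HZ

open MeasureTheory ProbabilityTheory Set Filter
open scoped ENNReal Topology
open MP_daa227_pr (Chain Zk Zf Gk Gf KU K0 ushift shift seqLaw ExpMom Good GoodW mom)

noncomputable section

namespace Level

/-- product of a function of the charges -/
def Pr (b : ℝ → ℝ) : ℕ → (ℕ → ℝ) → ℝ
  | 0, _ => 1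
  | n + 1, ω => b (ω 0) * Pr b n (shift 1 ω)

theorem Pr_nonneg {b : ℝ → ℝ} (hb : ∀ x, 0 ≤ b x) : ∀ (n : ℕ) (ω : ℕ → ℝ), 0 ≤ Pr b n ω
  | 0, _ => zero_le_one
  | n + 1, ω => mul_nonneg (hb _) (Pr_nonneg hb n _)

theorem Pr_meas {b : ℝ → ℝ} (hb : Measurable b) : ∀ n : ℕ, Measurable (Pr b n)
  | 0 => measurable_const
  | n + 1 => by
    have h1 := (hb.comp (measurable_pi_apply 0)).mul
      ((Pr_meas hb n).comp (MP_daa227_pr.measurable_shift 1))
    exact h1

theorem mom_Pr {μ : Measure ℝ} [IsProbabilityMeasure μ] {b : ℝ → ℝ} (hb : Measurable b)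
    (hb0 : ∀ x, 0 ≤ b x) {γ : ℝ} (h0 : 0 ≤ γ) : ∀ n : ℕ,
    mom μ γ (Pr b n) = (∫⁻ x, ENNReal.ofReal (b x) ^ γ ∂μ) ^ n
  | 0 => by
    have h1 : mom μ γ (Pr b 0) = mom μ γ (fun _ => 1) := rfl
    rw [h1, MP_daa227_pr.mom_const, ENNReal.ofReal_one, ENNReal.one_rpow, pow_zero]
  | n + 1 => by
    have h1 : mom μ γ (Pr b (n + 1)) =
        mom μ γ (fun ω => b (ω 0) * Pr b n (shift 1 ω)) := rfl
    rw [h1, MP_daa227_pr.mom_mul_shift (k := 1) (F := fun ω => b (ω 0)) h0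
      (hb.comp (measurable_pi_apply 0)) (Pr_meas hb n)
      (fun ω ω' h => by show b (ω 0) = b (ω' 0); rw [h 0 one_pos]) (fun ω => hb0 _), mom_Pr hb hb0 h0 n, pow_succ,
      mul_comm]
    congr 1
    exact MP_daa227_pr.lintegral_apply μ 0 (Y := fun x => ENNReal.ofReal (b x) ^ γ)
      (hb.ennreal_ofReal.pow_const γ)

/-- the bound of the site weights -/
def bd (M : Mod) (h : ℝ) (x : ℝ) : ℝ := Real.exp (M.Φ * (M.β * |x| + |h|))

theorem W_le (M : Mod) (h a : ℝ) (z : ℤ) : M.W h a z ≤ bd M h a := by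
  apply Real.exp_le_exp.2
  have h1 : |M.β * a - h| ≤ M.β * |a| + |h| := by
    refine (abs_sub _ _).trans ?_
    rw [abs_mul, abs_of_pos M.β_pos]
  have h2 := M.φ_nonneg z
  have h3 := M.φ_le z
  have h4 : (M.β * a - h) * M.φ z ≤ |M.β * a - h| * M.φ z :=
    mul_le_mul_of_nonneg_right (le_abs_self _) h2
  have h5 : |M.β * a - h| * M.φ z ≤ (M.β * |a| + |h|) * M.Φ :=
    mul_le_mul h1 h3 h2 ((abs_nonneg _).trans h1)
  linarith

theorem Zk_le (M : Mod) (h : ℝ) : ∀ (n : ℕ) (ω : ℕ → ℝ) (x y : ℤ),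
    Zk M.C (M.W h) n ω x y ≤ Pr (bd M h) n ω
  | 0, _, x, y => by
    rw [Zk]
    show (if x = y then (1 : ℝ) else 0) ≤ 1
    split_ifs <;> norm_num
  | n + 1, ω, x, y => by
    rw [Zk]
    show _ ≤ bd M h (ω 0) * Pr (bd M h) n (shift 1 ω)
    have h1 : ∀ z ∈ Finset.Icc (x - 1) (x + 1),
        M.C.p x z * M.W h (ω 0) z * Zk M.C (M.W h) n (shift 1 ω) z y ≤
        M.C.p x z * (bd M h (ω 0) * Pr (bd M h) n (shift 1 ω)) := by
      intro z _
      rw [mul_assoc]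
      apply mul_le_mul_of_nonneg_left _ (M.C.nonneg _ _)
      exact mul_le_mul (W_le M h _ _) (Zk_le M h n _ z y) ((M.good_Zk h n z y).nonneg _)
        (Real.exp_pos _).le
    refine (Finset.sum_le_sum h1).trans ?_
    rw [← Finset.sum_mul, M.C.sum_one, one_mul]

theorem bd_meas (M : Mod) (h : ℝ) : Measurable (bd M h) := by
  unfold bd
  fun_prop

theorem exists_B (M : Mod) (h : ℝ) : ∃ B : ℝ, 1 ≤ B ∧ ∀ n : ℕ,
    mom M.μ 2 (fun ω => M.Z h n ω) ≤ ENNReal.ofReal (B ^ n) := by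
  have h1 : Integrable (fun x => Real.exp (2 * M.Φ * M.β * |x|) * Real.exp (2 * M.Φ * |h|)) M.μ :=
    (M.exp_mom.abs (2 * M.Φ * M.β)).mul_const _
  have h2 : ∫⁻ x, ENNReal.ofReal (bd M h x) ^ (2 : ℝ) ∂M.μ ≤ ENNReal.ofReal
      (max 1 (∫ x, Real.exp (2 * M.Φ * M.β * |x|) * Real.exp (2 * M.Φ * |h|) ∂M.μ)) := by
    have h3 : ∀ x, ENNReal.ofReal (bd M h x) ^ (2 : ℝ) =
        ENNReal.ofReal (Real.exp (2 * M.Φ * M.β * |x|) * Real.exp (2 * M.Φ * |h|)) := by
      intro x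
      rw [bd, ENNReal.ofReal_rpow_of_pos (Real.exp_pos _), ← Real.exp_mul, ← Real.exp_add]
      congr 2
      ring
    simp_rw [h3]
    rw [← ofReal_integral_eq_lintegral_ofReal h1 (ae_of_all _ fun x => by positivity)]
    exact ENNReal.ofReal_le_ofReal (le_max_right _ _)
  refine ⟨max 1 (∫ x, Real.exp (2 * M.Φ * M.β * |x|) * Real.exp (2 * M.Φ * |h|) ∂M.μ),
    le_max_left _ _, fun n => ?_⟩
  refine (MP_daa227_pr.mom_mono (by norm_num) (fun ω => Zk_le M h n ω 0 0)).trans ?_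
  rw [mom_Pr (bd_meas M h) (fun x => (Real.exp_pos _).le) (by norm_num) n,
    ENNReal.ofReal_pow (zero_le_one.trans (le_max_left _ _))]
  exact pow_le_pow_left' h2 n

/-- Hoelder between the moments of order `γ < 1` and `2` -/
theorem holder {μ : Measure ℝ} [IsProbabilityMeasure μ] {γ : ℝ} (h1 : γ < 1) (h0 : 0 < γ)
    {Z : (ℕ → ℝ) → ℝ} (hm : Measurable Z) :
    mom μ 1 Z ≤ mom μ γ Z ^ (1 / (2 - γ)) * mom μ 2 Z ^ ((1 - γ) / (2 - γ)) := by
  have h2 : 0 < 2 - γ := by linarith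
  have h := ENNReal.lintegral_mul_norm_pow_le (μ := seqLaw μ)
    (f := fun ω => ENNReal.ofReal (Z ω) ^ γ) (g := fun ω => ENNReal.ofReal (Z ω) ^ (2 : ℝ))
    (MP_daa227_pr.measurable_momf hm).aemeasurable (MP_daa227_pr.measurable_momf hm).aemeasurable
    (p := 1 / (2 - γ)) (q := (1 - γ) / (2 - γ)) (by positivity)
    (div_nonneg (by linarith) h2.le) (by field_simp; ring)
  refine le_trans (le_of_eq ?_) h
  unfold mom
  congr 1
  ext ω
  rw [← ENNReal.rpow_mul, ← ENNReal.rpow_mul, ← ENNReal.rpow_add_of_nonneg]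
  · congr 1
    field_simp
    ring
  · positivity
  · exact mul_nonneg (by norm_num) (div_nonneg (by linarith) h2.le)

/-- a moment from tail bounds -/
theorem mom_le_tail {μ : Measure ℝ} [IsProbabilityMeasure μ] {Z : (ℕ → ℝ) → ℝ}
    (hm : Measurable Z) {A γ₀ γ : ℝ} (hA : 0 ≤ A) (h0 : 0 < γ₀) (h01 : γ₀ < γ)
    (hP : ∀ u, A ≤ u → seqLaw μ {ω | Real.exp u ≤ Z ω} ≤ ENNReal.ofReal (Real.exp (-(γ * u)))) :
    mom μ γ₀ Z ≤ ENNReal.ofReal
      (Real.exp (γ₀ * A) + Real.exp γ₀ * (1 - Real.exp (-(γ - γ₀)))⁻¹) := by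
  set r : ℝ := Real.exp (-(γ - γ₀)) with hr
  have hr0 : 0 < r := Real.exp_pos _
  have hr1 : r < 1 := by
    rw [hr, ← Real.exp_zero]
    exact Real.exp_lt_exp.2 (by linarith)
  have hset : ∀ j : ℕ, MeasurableSet {ω | Real.exp (A + j) ≤ Z ω} := fun j =>
    measurableSet_le measurable_const hm
  have hpt : ∀ ω, ENNReal.ofReal (Z ω) ^ γ₀ ≤ ENNReal.ofReal (Real.exp (γ₀ * A)) +
      ∑' j : ℕ, ENNReal.ofReal (Real.exp (γ₀ * (A + j + 1))) *
        ({ω | Real.exp (A + j) ≤ Z ω} : Set (ℕ → ℝ)).indicator 1 ω := by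
    intro ω
    rcases lt_or_ge (Z ω) (Real.exp A) with h | h
    · refine le_trans ?_ (le_add_right le_rfl)
      have h2 : ENNReal.ofReal (Z ω) ≤ ENNReal.ofReal (Real.exp A) := ENNReal.ofReal_le_ofReal h.le
      refine (ENNReal.rpow_le_rpow h2 h0.le).trans ?_
      rw [ENNReal.ofReal_rpow_of_pos (Real.exp_pos _), ← Real.exp_mul, mul_comm]
    · have hZ : 0 < Z ω := (Real.exp_pos _).trans_le h
      have h3 : A ≤ Real.log (Z ω) := by
        rw [Real.le_log_iff_exp_le hZ]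
        exact h
      set j : ℕ := ⌊Real.log (Z ω) - A⌋₊ with hj
      have h4 : (j : ℝ) ≤ Real.log (Z ω) - A := Nat.floor_le (by linarith)
      have h5 : Real.log (Z ω) - A < j + 1 := Nat.lt_floor_add_one _
      have h6 : Real.exp (A + j) ≤ Z ω := by
        rw [← Real.le_log_iff_exp_le hZ]
        linarith
      have h7 : Z ω ≤ Real.exp (A + j + 1) := by
        rw [← Real.log_le_iff_le_exp hZ]
        linarith
      refine le_trans ?_ (le_add_left (ENNReal.le_tsum j))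
      rw [Set.indicator_of_mem (show ω ∈ {ω | Real.exp (A + j) ≤ Z ω} from h6), Pi.one_apply,
        mul_one]
      refine (ENNReal.rpow_le_rpow (ENNReal.ofReal_le_ofReal h7) h0.le).trans ?_
      rw [ENNReal.ofReal_rpow_of_pos (Real.exp_pos _), ← Real.exp_mul, mul_comm]
  unfold mom
  refine (lintegral_mono hpt).trans ?_
  rw [lintegral_add_left measurable_const, lintegral_const, measure_univ, mul_one,
    lintegral_tsum (fun j => ((measurable_one.indicator (hset j)).const_mul _).aemeasurable)]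
  have h8 : ∀ j : ℕ, ∫⁻ ω, ENNReal.ofReal (Real.exp (γ₀ * (A + j + 1))) *
        ({ω | Real.exp (A + j) ≤ Z ω} : Set (ℕ → ℝ)).indicator 1 ω ∂seqLaw μ ≤
      ENNReal.ofReal (Real.exp γ₀ * r ^ j) := by
    intro j
    rw [lintegral_const_mul _ (measurable_one.indicator (hset j)), lintegral_indicator_one (hset j)]
    refine (mul_le_mul_right (hP (A + j) (by
      have : (0 : ℝ) ≤ j := Nat.cast_nonneg j
      linarith)) _).trans ?_
    rw [← ENNReal.ofReal_mul (Real.exp_pos _).le]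
    apply ENNReal.ofReal_le_ofReal
    rw [hr, ← Real.exp_nat_mul, ← Real.exp_add, ← Real.exp_add]
    apply Real.exp_le_exp.2
    have : 0 ≤ (γ - γ₀) * A := mul_nonneg (by linarith) hA
    nlinarith
  have h9 : ∑' j : ℕ, ENNReal.ofReal (Real.exp γ₀ * r ^ j) =
      ENNReal.ofReal (Real.exp γ₀ * (1 - r)⁻¹) := by
    rw [← ENNReal.ofReal_tsum_of_nonneg (fun j => by positivity)
      ((summable_geometric_of_lt_one hr0.le hr1).mul_left _), tsum_mul_left,
      tsum_geometric_of_lt_one hr0.le hr1]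
  rw [ENNReal.ofReal_add (Real.exp_pos _).le
    (mul_nonneg (Real.exp_pos _).le (inv_nonneg.2 (by linarith))), ← h9]
  exact add_le_add le_rfl (ENNReal.tsum_le_tsum h8)

theorem Zd_pow (M : Mod) (h : ℝ) (L : ℕ) : ∀ k : ℕ,
    Zd M.C (M.v h) L 0 0 ^ k ≤ Zd M.C (M.v h) (k * L) 0 0
  | 0 => by rw [pow_zero, zero_mul, Zd_zero]
  | k + 1 => by
    rw [pow_succ, Nat.succ_mul]
    exact (mul_le_mul_of_nonneg_right (Zd_pow M h L k) (Zd_nonneg _ _ _ _ _)).trans
      (Zd_mul_le _ _ _ _ _ _ _)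

/-- the conclusion from the identity of the first moment -/
theorem level_of (M : Mod) {h : ℝ} {L : ℕ} (hL0 : 0 < L)
    (hL : 1 < Zd M.C (M.v h) L 0 0)
    (hmom : ∀ n : ℕ, mom M.μ 1 (fun ω => M.Z h n ω) = ENNReal.ofReal (Zd M.C (M.v h) n 0 0)) :
    ∃ γ : ℝ, 0 < γ ∧ γ < 1 ∧ ∃ c : ℝ, 0 < c ∧ ∃ k₀ : ℕ, ∀ k : ℕ, k₀ ≤ k → ∃ u : ℝ,
      c * ((k * L : ℕ) : ℝ) ≤ u ∧
      Real.exp (-(γ * u)) ≤ (seqLaw M.μ {ω | Real.exp u ≤ M.Z h (k * L) ω}).toReal := by
  obtain ⟨B, hB1, hB⟩ := exists_B M h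
  set a : ℝ := Zd M.C (M.v h) L 0 0 with ha
  have hla : 0 < Real.log a := Real.log_pos hL
  have hlB : 0 ≤ Real.log B := Real.log_nonneg hB1
  have hLr : (0 : ℝ) < L := Nat.cast_pos.2 hL0
  set ε : ℝ := min (1 / 2) (Real.log a / (4 * (L * Real.log B + 1))) with hε
  have hden : 0 < L * Real.log B + 1 := by positivity
  have hε0 : 0 < ε := lt_min (by norm_num) (by positivity)
  have hε1 : ε ≤ 1 / 2 := min_le_left _ _
  have hε2 : ε * (L * Real.log B) ≤ Real.log a / 4 := by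
    have h1 : ε ≤ Real.log a / (4 * (L * Real.log B + 1)) := min_le_right _ _
    have h2 : ε * (L * Real.log B) ≤ ε * (L * Real.log B + 1) :=
      mul_le_mul_of_nonneg_left (by linarith) hε0.le
    refine h2.trans ((mul_le_mul_of_nonneg_right h1 hden.le).trans (le_of_eq ?_))
    field_simp
  set γ₀ : ℝ := 1 - ε with hγ₀
  set γ : ℝ := 1 - ε / 2 with hγ
  set K : ℝ := Real.exp γ₀ * (1 - Real.exp (-(γ - γ₀)))⁻¹ with hK
  have hgg : γ - γ₀ = ε / 2 := by rw [hγ, hγ₀]; ring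
  have hK0 : 0 < K := by
    apply mul_pos (Real.exp_pos _)
    apply inv_pos.2
    have : Real.exp (-(γ - γ₀)) < 1 := by
      rw [← Real.exp_zero]
      exact Real.exp_lt_exp.2 (by rw [hgg]; linarith)
    linarith
  refine ⟨γ, by rw [hγ]; linarith, by rw [hγ]; linarith, Real.log a / (4 * L), by positivity,
    ⌊2 * Real.log (1 + K) / Real.log a⌋₊ + 1, fun k hk => ?_⟩
  by_contra hcon
  push Not at hcon
  have hk1 : 2 * Real.log (1 + K) / Real.log a < k := by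
    refine (Nat.lt_floor_add_one _).trans_le ?_
    exact_mod_cast hk
  have hk2 : 2 * Real.log (1 + K) < k * Real.log a := by
    rwa [div_lt_iff₀ hla] at hk1
  set A : ℝ := Real.log a / (4 * L) * ((k * L : ℕ) : ℝ) with hA
  have hA' : A = k * Real.log a / 4 := by
    rw [hA]
    push_cast
    field_simp
  have hA0 : 0 ≤ A := by rw [hA']; positivity
  have hP : ∀ u, A ≤ u → seqLaw M.μ {ω | Real.exp u ≤ M.Z h (k * L) ω} ≤
      ENNReal.ofReal (Real.exp (-(γ * u))) := by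
    intro u hu
    have h1 := (hcon u hu).le
    rw [← ENNReal.ofReal_toReal (measure_ne_top (seqLaw M.μ) {ω | Real.exp u ≤ M.Z h (k * L) ω})]
    exact ENNReal.ofReal_le_ofReal h1
  have hm := (M.good_Z h (k * L)).meas
  have h3 := mom_le_tail (μ := M.μ) (γ₀ := γ₀) (γ := γ) hm hA0 (by rw [hγ₀]; linarith) (by linarith) hP
  have h4 := holder (μ := M.μ) (γ := γ₀) (by rw [hγ₀]; linarith) (by rw [hγ₀]; linarith) hm
  have h5 : ENNReal.ofReal (a ^ k) ≤ mom M.μ 1 (fun ω => M.Z h (k * L) ω) := by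
    rw [hmom]
    exact ENNReal.ofReal_le_ofReal (Zd_pow M h L k)
  have hs0 : 0 < 2 - γ₀ := by rw [hγ₀]; linarith
  have hX : 0 < Real.exp (γ₀ * A) + K := by positivity
  have hBn : 0 < B ^ (k * L) := by positivity
  have h6 : ENNReal.ofReal (a ^ k) ≤ ENNReal.ofReal ((Real.exp (γ₀ * A) + K) ^ (1 / (2 - γ₀)) *
      (B ^ (k * L)) ^ ((1 - γ₀) / (2 - γ₀))) := by
    refine (h5.trans h4).trans ?_
    rw [ENNReal.ofReal_mul (by positivity), ← ENNReal.ofReal_rpow_of_pos hX,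
      ← ENNReal.ofReal_rpow_of_pos hBn]
    exact mul_le_mul' (ENNReal.rpow_le_rpow h3 (by positivity))
      (ENNReal.rpow_le_rpow (hB (k * L)) (div_nonneg (by rw [hγ₀]; linarith) hs0.le))
  rw [ENNReal.ofReal_le_ofReal_iff (by positivity)] at h6
  have ha0 : 0 < a := zero_lt_one.trans hL
  have h7 := Real.log_le_log (pow_pos ha0 k) h6
  rw [Real.log_pow, Real.log_mul (Real.rpow_pos_of_pos hX _).ne'
    (Real.rpow_pos_of_pos hBn _).ne', Real.log_rpow hX, Real.log_rpow hBn, Real.log_pow] at h7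
  have hγA : 0 ≤ γ₀ * A := mul_nonneg (by rw [hγ₀]; linarith) hA0
  have h8 : Real.log (Real.exp (γ₀ * A) + K) ≤ A + Real.log (1 + K) := by
    have h9 : Real.exp (γ₀ * A) + K ≤ Real.exp (γ₀ * A) * (1 + K) := by
      have := Real.one_le_exp hγA
      nlinarith
    have h10 := Real.log_le_log hX h9
    rw [Real.log_mul (Real.exp_pos _).ne' (by positivity), Real.log_exp] at h10
    have h11 : γ₀ * A ≤ A := by
      rw [hγ₀]
      nlinarith
    linarith
  have h12 : 0 ≤ Real.log (Real.exp (γ₀ * A) + K) := by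
    apply Real.log_nonneg
    have := Real.one_le_exp hγA
    linarith
  have h13 : 1 / (2 - γ₀) * Real.log (Real.exp (γ₀ * A) + K) ≤
      Real.log (Real.exp (γ₀ * A) + K) := by
    apply mul_le_of_le_one_left h12
    rw [div_le_one hs0, hγ₀]
    linarith
  have h14 : (1 - γ₀) / (2 - γ₀) * (((k * L : ℕ) : ℝ) * Real.log B) ≤ k * (Real.log a / 4) := by
    have h15 : (1 - γ₀) / (2 - γ₀) ≤ ε := by
      rw [div_le_iff₀ hs0, hγ₀]
      nlinarith
    have h16 : 0 ≤ ((k * L : ℕ) : ℝ) * Real.log B := by positivity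
    refine (mul_le_mul_of_nonneg_right h15 h16).trans ?_
    push_cast
    have h17 : (0 : ℝ) ≤ k := Nat.cast_nonneg k
    calc ε * (k * L * Real.log B) = k * (ε * (L * Real.log B)) := by ring
      _ ≤ k * (Real.log a / 4) := mul_le_mul_of_nonneg_left hε2 h17
  linarith

end Level

end

end Pool.Agent.HZ
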