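import Pool.Agent.Lib.MP_daa227_pr_HZ.Basic
import Pool.Agent.Lib.MP_daa227_pr_HZ.Interp

/-!
# The lower bound for one penalisation implies the lower bound for all
-/

namespace Pool.Agent.HZ

open MeasureTheory ProbabilityTheory Set Filter
open scoped ENNReal Topology
open MP_daa227_pr (Chain Zk Zf Gk Gf KU K0 ushift shift seqLaw ExpMom Good GoodW mom)

noncomputable section

namespace LowAll

theorem K0_nonneg (C : Chain) (n : ℕ) (x : ℤ) : 0 ≤ K0 C n x := by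
  rw [← Kv_K0]
  exact Kv_nonneg C _ n x

/-- the elementary computation with exponents -/
theorem pow_bound {X A K t e : ℝ} (hX : 0 < X) (hA : 0 ≤ A) (hK : 0 ≤ K) (ht : 0 < t)
    (ht1 : t ≤ 1) (h1 : X ^ (-(1 + e)) ≤ A ^ (1 - t) * K ^ t) (h2 : A ≤ X ^ (-(1 - e))) :
    X ^ (-(1 + e * (2 - t) / t)) ≤ K := by
  have h3 : A ^ (1 - t) ≤ X ^ (-(1 - e) * (1 - t)) := by
    rw [Real.rpow_mul hX.le]
    exact Real.rpow_le_rpow hA h2 (by linarith)
  have h4 : X ^ (-(1 + e)) ≤ X ^ (-(1 - e) * (1 - t)) * K ^ t :=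
    h1.trans (mul_le_mul_of_nonneg_right h3 (Real.rpow_nonneg hK _))
  have h5 : (X ^ (-(1 + e * (2 - t) / t))) ^ t ≤ K ^ t := by
    rw [← Real.rpow_mul hX.le]
    have h6 : X ^ (-(1 + e)) = X ^ (-(1 - e) * (1 - t)) * X ^ (-(1 + e * (2 - t) / t) * t) := by
      rw [← Real.rpow_add hX]
      congr 1
      field_simp
      ring
    rw [h6] at h4
    exact le_of_mul_le_mul_left h4 (Real.rpow_pos_of_pos hX _)
  exact (Real.rpow_le_rpow_iff (Real.rpow_nonneg hX.le _) hK ht).1 h5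

end LowAll

theorem low_of_one (C : Chain) {φ : ℤ → ℝ} (hφ : ∀ x, 0 ≤ φ x) {η₁ : ℝ} (hη₁ : 0 < η₁)
    (h1 : ∀ ε : ℝ, 0 < ε → ∀ᶠ n : ℕ in atTop,
      ((2 * n : ℕ) : ℝ) ^ (-(1 + ε)) ≤ Kv C (fun z => -η₁ * φ z) (2 * n) 0)
    (h2 : ∀ ε : ℝ, 0 < ε → ∀ᶠ n : ℕ in atTop, K0 C (2 * n) 0 ≤ ((2 * n : ℕ) : ℝ) ^ (-(1 - ε))) :
    ∀ η : ℝ, 0 < η → ∀ ε : ℝ, 0 < ε → ∀ᶠ n : ℕ in atTop,
      ((2 * n : ℕ) : ℝ) ^ (-(1 + ε)) ≤ Kv C (fun z => -η * φ z) (2 * n) 0 := by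
  intro η hη ε hε
  rcases le_or_gt η η₁ with hle | hgt
  · filter_upwards [h1 ε hε] with n hn
    refine hn.trans (Kv_mono C (fun z => ?_) _ _)
    nlinarith [hφ z]
  · have ht : 0 < η₁ / η := div_pos hη₁ hη
    have ht1 : η₁ / η ≤ 1 := (div_le_one hη).2 hgt.le
    set t := η₁ / η with htdef
    have h2t : 0 < 2 - t := by linarith
    have he : 0 < ε * t / (2 - t) := div_pos (mul_pos hε ht) h2t
    filter_upwards [h1 _ he, h2 _ he, eventually_ge_atTop 1] with n hn1 hn2 hn3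
    have hX : (0 : ℝ) < ((2 * n : ℕ) : ℝ) := by
      have : 0 < 2 * n := by omega
      exact_mod_cast this
    have h3 := interp_K C (fun _ => 0) (fun z => -η * φ z) ht.le ht1 (2 * n) 0
    have h4 : (fun z => (1 - t) * (fun _ : ℤ => (0 : ℝ)) z + t * (fun z => -η * φ z) z) =
        fun z => -η₁ * φ z := by
      funext z
      simp only [mul_zero, zero_add]
      rw [htdef]
      field_simp
    rw [h4, Kv_K0] at h3
    have h5 := LowAll.pow_bound hX (LowAll.K0_nonneg C (2 * n) 0) (Kv_nonneg C _ (2 * n) 0) ht ht1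
      (hn1.trans h3) hn2
    have h6 : ε * t / (2 - t) * (2 - t) / t = ε := by
      field_simp
    rwa [h6] at h5

end

end Pool.Agent.HZ
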