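import Pool.Agent.Lib.MP_daa227_pr_HZ.Basic
import Pool.Agent.Lib.MP_daa227_pr_HZ.Lmg
import Pool.Agent.Lib.MP_daa227_pr_HZ.MomId
import Pool.Agent.Lib.MP_daa227_pr_HZ.FreePin

/-!
# The annealed free partition function does not grow exponentially at and above the critical point
-/

namespace Pool.Agent.HZ

open MeasureTheory ProbabilityTheory Set Filter
open scoped ENNReal Topology
open MP_daa227_pr (Chain Zk Zf Gk Gf KU K0 ushift shift seqLaw ExpMom Good GoodW mom)

noncomputable section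

namespace AnnFree

/-- the deterministic constrained partition function is at most one -/
theorem Zd_le_one (C : Chain) (v : ℤ → ℝ)
    (hs : ∀ N : ℕ, ∑ n ∈ Finset.range N, Kv C v n 0 ≤ 1) : ∀ n : ℕ, Zd C v n 0 0 ≤ 1 := by
  intro n
  induction n using Nat.strong_induction_on with
  | _ n ih =>
    rcases Nat.eq_zero_or_pos n with rfl | hn
    · exact (Zd_zero C v 0).le
    · rw [Zd_renewal C v hn.ne']
      calc ∑ m ∈ Finset.Ioc 0 n, Kv C v m 0 * Zd C v (n - m) 0 0
          ≤ ∑ m ∈ Finset.Ioc 0 n, Kv C v m 0 := by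
            refine Finset.sum_le_sum fun m hm => ?_
            rw [Finset.mem_Ioc] at hm
            exact mul_le_of_le_one_right (Kv_nonneg C v m 0) (ih (n - m) (by omega))
        _ ≤ ∑ m ∈ Finset.range (n + 1), Kv C v m 0 := by
            refine Finset.sum_le_sum_of_subset_of_nonneg (fun m hm => ?_)
              (fun m _ _ => Kv_nonneg C v m 0)
            rw [Finset.mem_Ioc] at hm
            rw [Finset.mem_range]
            omega
        _ ≤ 1 := hs (n + 1)

/-- the annealed exponents are bounded -/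
theorem v_bdd (M : Mod) (h : ℝ) : ∃ D : ℝ, 0 ≤ D ∧ ∀ z, |M.v h z| ≤ D := by
  have hc : ContinuousOn (fun t => |lmg M.μ t|) (Set.Icc 0 (M.β * M.Φ)) :=
    (lmg_cont M.exp_mom).abs.continuousOn
  obtain ⟨B, hB⟩ := (isCompact_Icc.image_of_continuousOn hc).bddAbove
  have hβ := M.β_pos
  have hB' : ∀ z, |lmg M.μ (M.β * M.φ z)| ≤ B := fun z => by
    apply hB
    refine ⟨M.β * M.φ z, ⟨mul_nonneg hβ.le (M.φ_nonneg z), ?_⟩, rfl⟩
    exact mul_le_mul_of_nonneg_left (M.φ_le z) hβ.le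
  refine ⟨B + |h| * M.Φ, ?_, fun z => ?_⟩
  · have h1 := (abs_nonneg _).trans (hB' 0)
    have h2 := M.Φ_pos
    positivity
  · unfold Mod.v
    calc |lmg M.μ (M.β * M.φ z) - h * M.φ z| ≤ |lmg M.μ (M.β * M.φ z)| + |h * M.φ z| :=
          abs_sub _ _
      _ ≤ B + |h| * M.Φ := by
          apply add_le_add (hB' z)
          rw [abs_mul, abs_of_nonneg (M.φ_nonneg z)]
          exact mul_le_mul_of_nonneg_left (M.φ_le z) (abs_nonneg h)

/-- the annealed exponents are close to their limits outside a box -/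
theorem v_box (M : Mod) (h : ℝ) {e : ℝ} (he : 0 < e) :
    ∃ R : ℕ, (∀ z : ℤ, (R : ℤ) < z → |M.v h z| ≤ e) ∧
      ∀ z : ℤ, z < -(R : ℤ) → |M.v h z - (lmg M.μ (M.β * M.ℓ) - h * M.ℓ)| ≤ e := by
  have hcont : Continuous fun t => lmg M.μ (M.β * t) - h * t :=
    ((lmg_cont M.exp_mom).comp (continuous_const.mul continuous_id)).sub
      (continuous_const.mul continuous_id)
  have ht : Tendsto (fun z => M.v h z) atTop (𝓝 0) := by
    have h1 := (hcont.tendsto 0).comp M.φ_top
    have h2 : lmg M.μ (M.β * 0) - h * 0 = 0 := by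
      rw [mul_zero, mul_zero, lmg_zero, sub_zero]
    rw [h2] at h1
    exact h1
  have hb : Tendsto (fun z => M.v h z) atBot (𝓝 (lmg M.μ (M.β * M.ℓ) - h * M.ℓ)) :=
    (hcont.tendsto M.ℓ).comp M.φ_bot
  have h1 : ∀ᶠ z : ℤ in atTop, |M.v h z| ≤ e := by
    have h3 := ht.abs
    rw [abs_zero] at h3
    exact h3.eventually_le_const he
  have h2 : ∀ᶠ z : ℤ in atBot, |M.v h z - (lmg M.μ (M.β * M.ℓ) - h * M.ℓ)| ≤ e := by
    have h3 := (hb.sub_const (lmg M.μ (M.β * M.ℓ) - h * M.ℓ)).abs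
    rw [sub_self, abs_zero] at h3
    exact h3.eventually_le_const he
  obtain ⟨a, ha⟩ := eventually_atTop.1 h1
  obtain ⟨b, hb⟩ := eventually_atBot.1 h2
  refine ⟨a.natAbs + b.natAbs, fun z hz => ha z ?_, fun z hz => hb z ?_⟩
  · push_cast at hz
    have h3 := le_abs_self a
    have h4 := abs_nonneg b
    omega
  · push_cast at hz
    have h3 := neg_abs_le b
    have h4 := abs_nonneg a
    omega

/-- linear terms and logarithms are negligible -/
theorem eventually_exp (K A e ε : ℝ) (he : e < ε) :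
    ∀ᶠ N : ℕ in atTop, K * ((N : ℝ) + 1) * Real.exp (e * N + A) ≤ Real.exp (ε * N) := by
  have hd : 0 < ε - e := sub_pos.2 he
  have h1 : Tendsto (fun x : ℝ => x ^ 1 * Real.exp (-(ε - e) * x)) atTop (𝓝 0) := by
    have := Real.tendsto_pow_mul_exp_neg_atTop_nhds_zero 1
    have h2 := (this.comp (tendsto_id.const_mul_atTop hd)).mul_const ((ε - e)⁻¹)
    rw [zero_mul] at h2
    refine h2.congr fun x => ?_
    simp only [Function.comp, id, pow_one]
    field_simp
  have h2 : Tendsto (fun x : ℝ => Real.exp (-(ε - e) * x)) atTop (𝓝 0) := by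
    have := Real.tendsto_exp_neg_atTop_nhds_zero.comp (tendsto_id.const_mul_atTop hd)
    refine this.congr fun x => ?_
    simp only [Function.comp, id]
    ring_nf
  have h3 : Tendsto (fun x : ℝ => K * Real.exp A *
      (x ^ 1 * Real.exp (-(ε - e) * x) + Real.exp (-(ε - e) * x))) atTop (𝓝 0) := by
    have := (h1.add h2).const_mul (K * Real.exp A)
    rw [add_zero, mul_zero] at this
    exact this
  have h4 := (h3.comp tendsto_natCast_atTop_atTop).eventually_le_const zero_lt_one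
  filter_upwards [h4] with N hN
  simp only [Function.comp, pow_one] at hN
  have h5 : K * ((N : ℝ) + 1) * Real.exp (e * N + A) =
      (K * Real.exp A * ((N : ℝ) * Real.exp (-(ε - e) * N) + Real.exp (-(ε - e) * N))) *
        Real.exp (ε * N) := by
    have h6 : Real.exp (e * N + A) = Real.exp A * Real.exp (-(ε - e) * N) * Real.exp (ε * N) := by
      rw [← Real.exp_add, ← Real.exp_add]
      congr 1
      ring
    rw [h6]
    ring
  rw [h5]
  exact mul_le_of_le_one_left (Real.exp_pos _).le hN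

end AnnFree

open AnnFree

theorem Mod.ann_zero (M : Mod) {h : ℝ} (hs : ∀ N : ℕ, ∑ n ∈ Finset.range N, M.g h n ≤ 1)
    {ε : ℝ} (hε : 0 < ε) :
    ∀ᶠ N : ℕ in atTop, mom M.μ 1 (fun ω => M.Zl h N ω) ≤ ENNReal.ofReal (Real.exp (ε * N)) := by
  have he : 0 < ε / 4 := by positivity
  obtain ⟨D, hD0, hD⟩ := v_bdd M h
  obtain ⟨R, hR1, hR2⟩ := v_box M h he
  obtain ⟨K, hK, s, hs'⟩ := free_pinned M.C M.hrec R he
  have hZ1 : ∀ n : ℕ, Zd M.C (M.v h) n 0 0 ≤ 1 := Zd_le_one M.C (M.v h) hs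
  filter_upwards [eventually_exp K ((s + 1) * D) (3 * (ε / 4)) ε (by linarith)] with N hN
  have hid : mom M.μ 1 (fun ω => M.Zl h N ω) = ENNReal.ofReal (Zfd M.C (M.v h) N 0) :=
    M.mom_one_Zf h N 0
  rw [hid]
  refine ENNReal.ofReal_le_ofReal (le_trans ?_ hN)
  have key := hs' (fun _ z => Real.exp (M.v h z)) (fun _ => 1)
    (fun _ => Real.exp (lmg M.μ (M.β * M.ℓ) - h * M.ℓ)) (fun _ => ε / 4) (fun _ => D)
    (fun _ _ => Real.exp_pos _) (fun _ => one_pos) (fun _ => Real.exp_pos _) (fun _ => he.le)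
    (fun _ => hD0) (fun a z hz => ?_) (fun a z hz => ?_) (fun a z => ?_) N (fun _ => 0)
  rotate_left
  · have h1 := abs_le.1 (hR1 z hz)
    simp only [mul_one]
    exact ⟨Real.exp_le_exp.2 h1.1, Real.exp_le_exp.2 h1.2⟩
  · have h1 := abs_le.1 (hR2 z hz)
    rw [← Real.exp_add, ← Real.exp_add]
    exact ⟨Real.exp_le_exp.2 (by linarith [h1.1]), Real.exp_le_exp.2 (by linarith [h1.2])⟩
  · exact Real.exp_le_exp.2 (abs_le.1 (hD z)).1
  change Zfd M.C (M.v h) N 0 ≤ _
  refine (show Zfd M.C (M.v h) N 0 ≤ _ from key).trans ?_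
  have hZ2 : Zk M.C (fun _ z => Real.exp (M.v h z)) (N + s + (N + s) % 2) (fun _ => 0) 0 0 ≤ 1 :=
    hZ1 _
  have hE : ε / 4 * (N : ℝ) + 2 * (∑ _i ∈ Finset.range N, ε / 4) +
      ∑ _i ∈ Finset.Ico N (N + s + (N + s) % 2), D ≤ 3 * (ε / 4) * N + (s + 1) * D := by
    rw [Finset.sum_const, Finset.sum_const, Finset.card_range, Nat.card_Ico, nsmul_eq_mul,
      nsmul_eq_mul]
    have h1 : ((N + s + (N + s) % 2 - N : ℕ) : ℝ) ≤ (s : ℝ) + 1 := by
      have : N + s + (N + s) % 2 - N ≤ s + 1 := by omega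
      exact_mod_cast this
    have h2 := mul_le_mul_of_nonneg_right h1 hD0
    linarith
  calc K * ((N : ℝ) + 1) * Real.exp (ε / 4 * (N : ℝ) + 2 * (∑ _i ∈ Finset.range N, ε / 4) +
        ∑ _i ∈ Finset.Ico N (N + s + (N + s) % 2), D) *
        Zk M.C (fun _ z => Real.exp (M.v h z)) (N + s + (N + s) % 2) (fun _ => 0) 0 0
      ≤ K * ((N : ℝ) + 1) * Real.exp (ε / 4 * (N : ℝ) + 2 * (∑ _i ∈ Finset.range N, ε / 4) +
        ∑ _i ∈ Finset.Ico N (N + s + (N + s) % 2), D) * 1 :=
        mul_le_mul_of_nonneg_left hZ2 (by positivity)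
    _ ≤ K * ((N : ℝ) + 1) * Real.exp (3 * (ε / 4) * N + (s + 1) * D) := by
        rw [mul_one]
        exact mul_le_mul_of_nonneg_left (Real.exp_le_exp.2 hE) (by positivity)

end

end Pool.Agent.HZ
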