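import Pool.Agent.Lib.MP_daa227_pr_HZ.Basic
import Pool.Agent.Lib.MP_daa227_pr_HZ.Free
import Pool.Agent.Lib.MP_daa227_pr_HZ.FreePin
import Pool.Agent.Lib.MP_daa227_pr.Limit

/-!
# Convergence of the quenched averages of the free partition functions
-/

namespace Pool.Agent.HZ

open MeasureTheory ProbabilityTheory Set Filter
open scoped ENNReal Topology
open MP_daa227_pr (Chain Zk Zf Gk Gf KU K0 ushift shift seqLaw ExpMom Good GoodW mom)

noncomputable section

namespace Mod

variable (M : Mod)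

theorem ml_Zl_pos (h : ℝ) (n : ℕ) (ω : ℕ → ℝ) : 0 < M.Zl h n ω :=
  MP_daa227_pr.Zf_pos M.C (M.W_pos h) n ω 0

theorem ml_integrable_logZl (h : ℝ) (n : ℕ) :
    Integrable (fun ω => Real.log (M.Zl h n ω)) (seqLaw M.μ) :=
  (M.good_Zl h n).integrable_log M.exp_mom (M.ml_Zl_pos h n)

theorem ml_ΨF_ge (h : ℝ) {m : ℕ} (hm : Even m) (n : ℕ) :
    M.Ψ h m + M.ΨF h n ≤ M.ΨF h (m + n) := by
  have h1 : M.ΨF h n = ∫ ω, Real.log (M.Zl h n (shift m ω)) ∂seqLaw M.μ :=
    (MP_daa227_pr.integral_shift M.μ m (Y := fun ω => Real.log (M.Zl h n ω))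
      (M.good_Zl h n).meas.log).symm
  have h2 := MP_daa227_pr.integrable_shift M.μ m (Y := fun ω => Real.log (M.Zl h n ω))
    (M.good_Zl h n).meas.log (M.ml_integrable_logZl h n)
  rw [h1]
  unfold Ψ ΨF
  rw [← integral_add (M.integrable_logZ h hm) h2]
  apply integral_mono ((M.integrable_logZ h hm).add h2) (M.ml_integrable_logZl h (m + n))
  intro ω
  simp only [Pi.add_apply]
  rw [← Real.log_mul (M.Z_pos h hm ω).ne' (M.ml_Zl_pos h n _).ne']
  exact Real.log_le_log (mul_pos (M.Z_pos h hm ω) (M.ml_Zl_pos h n _))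
    (MP_daa227_pr.Zk_mul_Zf_le M.C (M.W h) (fun a z => (M.W_pos h a z).le) m n ω 0 0)

/-- the potential is close to its limits outside a box -/
theorem ml_box {e : ℝ} (he : 0 < e) : ∃ R : ℕ, (∀ z : ℤ, (R : ℤ) < z → |M.φ z| ≤ e) ∧
    ∀ z : ℤ, z < -(R : ℤ) → |M.φ z - M.ℓ| ≤ e := by
  have h1 : ∀ᶠ z : ℤ in atTop, |M.φ z| ≤ e := by
    have h := M.φ_top.abs
    rw [abs_zero] at h
    exact h.eventually_le_const he
  have h2 : ∀ᶠ z : ℤ in atBot, |M.φ z - M.ℓ| ≤ e := by
    have h := (M.φ_bot.sub_const M.ℓ).abs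
    rw [sub_self, abs_zero] at h
    exact h.eventually_le_const he
  obtain ⟨a, ha⟩ := eventually_atTop.1 h1
  obtain ⟨b, hb⟩ := eventually_atBot.1 h2
  refine ⟨a.natAbs + b.natAbs, fun z hz => ha z ?_, fun z hz => hb z ?_⟩
  · push_cast at hz
    have h3 := le_abs_self a
    have h4 := abs_nonneg b
    omega
  · push_cast at hz
    have h3 := neg_abs_le b
    have h4 := abs_nonneg a
    omega

theorem ml_abs (h a : ℝ) : |M.β * a - h| ≤ M.β * |a| + |h| := by
  calc |M.β * a - h| ≤ |M.β * a| + |h| := abs_sub _ _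
    _ = M.β * |a| + |h| := by rw [abs_mul, abs_of_pos M.β_pos]

/-- upper bound for the free partition function -/
theorem ml_upper (h : ℝ) {e : ℝ} (he : 0 < e) : ∃ K : ℝ, 0 < K ∧ ∃ A : ℝ, ∀ N : ℕ,
    M.ΨF h N ≤ N * M.Fr h + Real.log (K * ((N : ℝ) + 1)) + A +
      e * (1 + 2 * (M.β * (∫ x, |x| ∂M.μ) + |h|)) * N := by
  obtain ⟨R, hR1, hR2⟩ := M.ml_box he
  obtain ⟨K, hK, s, hs⟩ := free_pinned M.C M.hrec R he
  set m1 := ∫ x, |x| ∂M.μ with hm1
  have hm1n : 0 ≤ m1 := integral_nonneg fun x => abs_nonneg x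
  have hβ := M.β_pos
  have hΦ := M.Φ_pos
  have habs : ∀ a : ℝ, 0 ≤ M.β * |a| + |h| := fun a => by positivity
  refine ⟨K, hK, ((s : ℝ) + 1) * (M.Φ * (M.β * m1 + |h|)) + ((s : ℝ) + 1) * |M.Fr h|, fun N => ?_⟩
  set N' := N + s + (N + s) % 2 with hN'
  have hev : Even N' := by
    rw [Nat.even_iff, hN']
    omega
  have hN1 : N ≤ N' := by omega
  have hN2 : N' ≤ N + s + 1 := by omega
  have key := hs (M.W h) (fun _ => 1) (fun a => Real.exp ((M.β * a - h) * M.ℓ))
    (fun a => e * (M.β * |a| + |h|)) (fun a => M.Φ * (M.β * |a| + |h|)) (M.W_pos h)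
    (fun _ => one_pos) (fun a => Real.exp_pos _) (fun a => mul_nonneg he.le (habs a))
    (fun a => mul_nonneg hΦ.le (habs a)) (fun a z hz => ?_) (fun a z hz => ?_) (fun a z => ?_) N
  rotate_left
  · have h1 : |(M.β * a - h) * M.φ z| ≤ e * (M.β * |a| + |h|) := by
      rw [abs_mul, mul_comm e]
      exact mul_le_mul (M.ml_abs h a) (hR1 z hz) (abs_nonneg _) (habs a)
    rw [abs_le] at h1
    simp only [mul_one]
    exact ⟨Real.exp_le_exp.2 h1.1, Real.exp_le_exp.2 h1.2⟩
  · have h1 : |(M.β * a - h) * (M.φ z - M.ℓ)| ≤ e * (M.β * |a| + |h|) := by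
      rw [abs_mul, mul_comm e]
      exact mul_le_mul (M.ml_abs h a) (hR2 z hz) (abs_nonneg _) (habs a)
    rw [abs_le] at h1
    rw [← Real.exp_add, ← Real.exp_add]
    exact ⟨Real.exp_le_exp.2 (by linarith [h1.1]), Real.exp_le_exp.2 (by linarith [h1.2])⟩
  · have h1 : |(M.β * a - h) * M.φ z| ≤ M.Φ * (M.β * |a| + |h|) := by
      rw [abs_mul, mul_comm M.Φ]
      refine mul_le_mul (M.ml_abs h a) ?_ (abs_nonneg _) (habs a)
      rw [abs_of_nonneg (M.φ_nonneg z)]
      exact M.φ_le z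
    exact Real.exp_le_exp.2 (abs_le.1 h1).1
  -- take logarithms
  have hlog : ∀ ω : ℕ → ℝ, Real.log (M.Zl h N ω) ≤ Real.log (K * ((N : ℝ) + 1)) + e * N +
      2 * (∑ i ∈ Finset.range N, e * (M.β * |ω i| + |h|)) +
      (∑ i ∈ Finset.Ico N N', M.Φ * (M.β * |ω i| + |h|)) + Real.log (M.Z h N' ω) := by
    intro ω
    have h1 := Real.log_le_log (M.ml_Zl_pos h N ω) (key ω)
    have hKN : 0 < K * ((N : ℝ) + 1) := by positivity
    have hZ : Zk M.C (M.W h) N' ω 0 0 = M.Z h N' ω := rfl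
    rw [hZ, Real.log_mul (mul_pos hKN (Real.exp_pos _)).ne' (M.Z_pos h hev ω).ne',
      Real.log_mul hKN.ne' (Real.exp_pos _).ne', Real.log_exp] at h1
    linarith
  have hi : ∀ i : ℕ, Integrable (fun ω : ℕ → ℝ => M.β * |ω i| + |h|) (seqLaw M.μ) := fun i =>
    ((MP_daa227_pr.integrable_apply M.μ i (Y := fun x => |x|) (by fun_prop)
      M.exp_mom.integrable_abs).const_mul M.β).add (integrable_const _)
  have hiv : ∀ i : ℕ, ∫ ω : ℕ → ℝ, (M.β * |ω i| + |h|) ∂seqLaw M.μ = M.β * m1 + |h| := fun i => by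
    rw [integral_add ((MP_daa227_pr.integrable_apply M.μ i (Y := fun x => |x|) (by fun_prop)
      M.exp_mom.integrable_abs).const_mul M.β) (integrable_const _), integral_const_mul,
      MP_daa227_pr.integral_apply M.μ i (Y := fun x => |x|) (by fun_prop)]
    simp [hm1]
  have hS1 : Integrable (fun ω : ℕ → ℝ => ∑ i ∈ Finset.range N, e * (M.β * |ω i| + |h|))
      (seqLaw M.μ) := integrable_finsetSum _ fun i _ => (hi i).const_mul e
  have hS2 : Integrable (fun ω : ℕ → ℝ => ∑ i ∈ Finset.Ico N N', M.Φ * (M.β * |ω i| + |h|))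
      (seqLaw M.μ) := integrable_finsetSum _ fun i _ => (hi i).const_mul M.Φ
  have hI1 : ∫ ω : ℕ → ℝ, ∑ i ∈ Finset.range N, e * (M.β * |ω i| + |h|) ∂seqLaw M.μ =
      N * (e * (M.β * m1 + |h|)) := by
    rw [integral_finsetSum _ fun i _ => (hi i).const_mul e]
    simp only [integral_const_mul, hiv]
    rw [Finset.sum_const, Finset.card_range, nsmul_eq_mul]
  have hI2 : ∫ ω : ℕ → ℝ, ∑ i ∈ Finset.Ico N N', M.Φ * (M.β * |ω i| + |h|) ∂seqLaw M.μ =
      ((N' - N : ℕ) : ℝ) * (M.Φ * (M.β * m1 + |h|)) := by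
    rw [integral_finsetSum _ fun i _ => (hi i).const_mul M.Φ]
    simp only [integral_const_mul, hiv]
    rw [Finset.sum_const, Nat.card_Ico, nsmul_eq_mul]
  have hZi := M.integrable_logZ h hev
  have hT1 : Integrable (fun ω : ℕ → ℝ => Real.log (K * ((N : ℝ) + 1)) + e * N +
      2 * (∑ i ∈ Finset.range N, e * (M.β * |ω i| + |h|))) (seqLaw M.μ) :=
    (integrable_const _).add (hS1.const_mul 2)
  have hT2 : Integrable (fun ω : ℕ → ℝ => Real.log (K * ((N : ℝ) + 1)) + e * N +
      2 * (∑ i ∈ Finset.range N, e * (M.β * |ω i| + |h|)) +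
      (∑ i ∈ Finset.Ico N N', M.Φ * (M.β * |ω i| + |h|))) (seqLaw M.μ) := hT1.add hS2
  have hmono := integral_mono (M.ml_integrable_logZl h N) (hT2.add hZi) (fun ω => hlog ω)
  have hval : ∫ ω : ℕ → ℝ, (Real.log (K * ((N : ℝ) + 1)) + e * N +
      2 * (∑ i ∈ Finset.range N, e * (M.β * |ω i| + |h|)) +
      (∑ i ∈ Finset.Ico N N', M.Φ * (M.β * |ω i| + |h|)) + Real.log (M.Z h N' ω)) ∂seqLaw M.μ =
      Real.log (K * ((N : ℝ) + 1)) + e * N + 2 * (N * (e * (M.β * m1 + |h|))) +
      ((N' - N : ℕ) : ℝ) * (M.Φ * (M.β * m1 + |h|)) + M.Ψ h N' := by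
    rw [integral_add hT2 hZi, integral_add hT1 hS2, integral_add (integrable_const _)
      (hS1.const_mul 2), integral_const_mul, hI1, hI2]
    simp [Ψ]
  have hfin : M.ΨF h N ≤ Real.log (K * ((N : ℝ) + 1)) + e * N +
      2 * (N * (e * (M.β * m1 + |h|))) +
      ((N' - N : ℕ) : ℝ) * (M.Φ * (M.β * m1 + |h|)) + M.Ψ h N' := by
    rw [← hval]
    exact hmono
  have hΨ := M.Ψ_le h hev
  have hd : ((N' - N : ℕ) : ℝ) ≤ (s : ℝ) + 1 := by
    have : N' - N ≤ s + 1 := by omega
    exact_mod_cast this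
  have hd0 : ((N' - N : ℕ) : ℝ) = (N' : ℝ) - N := by
    rw [Nat.cast_sub hN1]
  have hd1 : 0 ≤ ((N' - N : ℕ) : ℝ) := Nat.cast_nonneg _
  have hq : 0 ≤ M.Φ * (M.β * m1 + |h|) := by positivity
  have h3 : ((N' - N : ℕ) : ℝ) * (M.Φ * (M.β * m1 + |h|)) ≤
      ((s : ℝ) + 1) * (M.Φ * (M.β * m1 + |h|)) := mul_le_mul_of_nonneg_right hd hq
  have h4 : (N' : ℝ) * M.Fr h ≤ N * M.Fr h + ((s : ℝ) + 1) * |M.Fr h| := by
    have h5 : ((N' - N : ℕ) : ℝ) * M.Fr h ≤ ((s : ℝ) + 1) * |M.Fr h| :=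
      (mul_le_mul_of_nonneg_left (le_abs_self _) hd1).trans
        (mul_le_mul_of_nonneg_right hd (abs_nonneg _))
    rw [hd0, sub_mul] at h5
    linarith
  have h6 : e * (1 + 2 * (M.β * m1 + |h|)) * N = e * N + 2 * (N * (e * (M.β * m1 + |h|))) := by
    ring
  rw [h6]
  linarith

theorem mean_limit (M : Mod) (h : ℝ) :
    Tendsto (fun N : ℕ => M.ΨF h N / N) atTop (𝓝 (M.Fr h)) := by
  rw [tendsto_order]
  constructor
  · intro a ha
    have h1 : Tendsto (fun N : ℕ => (M.Ψ h (2 * (N / 2)) - |M.ΨF h 1|) / N) atTop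
        (𝓝 (M.Fr h)) := by
      have hdiv : Tendsto (fun N : ℕ => N / 2) atTop atTop := by
        apply tendsto_atTop_atTop.2
        intro b
        exact ⟨2 * b, fun a ha => by omega⟩
      have h2 := (M.tendsto_Fr h).comp hdiv
      have h3 : Tendsto (fun N : ℕ => (((2 * (N / 2) : ℕ) : ℝ)) / N) atTop (𝓝 1) := by
        have h4 : Tendsto (fun N : ℕ => 1 - 1 / (N : ℝ)) atTop (𝓝 1) := by
          have := (tendsto_one_div_atTop_nhds_zero_nat (𝕜 := ℝ)).const_sub 1
          simpa using this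
        refine tendsto_of_tendsto_of_tendsto_of_le_of_le' h4 tendsto_const_nhds ?_ ?_
        · filter_upwards [eventually_gt_atTop 0] with N hN
          have hNR : (0 : ℝ) < N := by exact_mod_cast hN
          rw [le_div_iff₀ hNR, sub_mul, one_mul, one_div_mul_cancel hNR.ne']
          have : N ≤ 2 * (N / 2) + 1 := by omega
          have : (N : ℝ) ≤ ((2 * (N / 2) : ℕ) : ℝ) + 1 := by exact_mod_cast this
          linarith
        · filter_upwards [eventually_gt_atTop 0] with N hN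
          have hNR : (0 : ℝ) < N := by exact_mod_cast hN
          rw [div_le_one hNR]
          have : 2 * (N / 2) ≤ N := by omega
          exact_mod_cast this
      have h5 := h2.mul h3
      have h6 : Tendsto (fun N : ℕ => |M.ΨF h 1| / (N : ℝ)) atTop (𝓝 0) :=
        tendsto_const_div_atTop_nhds_zero_nat _
      have h7 := h5.sub h6
      rw [mul_one, sub_zero] at h7
      refine h7.congr' ?_
      filter_upwards [eventually_ge_atTop 2] with N hN
      have hN2 : (0 : ℝ) < ((2 * (N / 2) : ℕ) : ℝ) := by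
        have : 0 < 2 * (N / 2) := by omega
        exact_mod_cast this
      simp only [Function.comp]
      rw [sub_div]
      congr 1
      field_simp
    filter_upwards [h1.eventually (lt_mem_nhds ha), eventually_gt_atTop 0] with N hN hN0
    have hNR : (0 : ℝ) < N := by exact_mod_cast hN0
    refine hN.trans_le ?_
    apply div_le_div_of_nonneg_right _ hNR.le
    rcases Nat.even_or_odd' N with ⟨m, rfl | rfl⟩
    · have h2 := M.ml_ΨF_ge h (even_two_mul m) 0
      have h3 : M.ΨF h 0 = 0 := by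
        unfold ΨF Zl
        simp [Zf]
      rw [show 2 * m / 2 = m by omega]
      have := abs_nonneg (M.ΨF h 1)
      rw [h3, Nat.add_zero] at h2
      linarith
    · have h2 := M.ml_ΨF_ge h (even_two_mul m) 1
      rw [show (2 * m + 1) / 2 = m by omega]
      have := neg_abs_le (M.ΨF h 1)
      linarith
  · intro a ha
    set c := 1 + 2 * (M.β * (∫ x, |x| ∂M.μ) + |h|) with hc
    have hc0 : 0 < c := by
      have h1 : 0 ≤ ∫ x, |x| ∂M.μ := integral_nonneg fun x => abs_nonneg x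
      have := M.β_pos
      positivity
    set d := a - M.Fr h with hd
    have hd0 : 0 < d := by
      rw [hd]
      linarith
    obtain ⟨K, hK, A, hup⟩ := M.ml_upper h (e := d / (3 * c)) (by positivity)
    rw [← hc] at hup
    have hlog : Tendsto (fun N : ℕ => Real.log (K * ((N : ℝ) + 1)) / N) atTop (𝓝 0) := by
      have h1 : Tendsto (fun x : ℝ => Real.log x / x) atTop (𝓝 0) := by
        have := Real.tendsto_pow_log_div_mul_add_atTop 1 0 1 one_ne_zero
        simpa using this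
      have h2 : Tendsto (fun N : ℕ => K * ((N : ℝ) + 1)) atTop atTop :=
        (tendsto_natCast_atTop_atTop.atTop_add tendsto_const_nhds).const_mul_atTop hK
      have h3 := h1.comp h2
      have h4 : Tendsto (fun N : ℕ => K * ((N : ℝ) + 1) / N) atTop (𝓝 (K * 1)) := by
        have h5 : Tendsto (fun N : ℕ => K * (1 + 1 / (N : ℝ))) atTop (𝓝 (K * (1 + 0))) :=
          ((tendsto_one_div_atTop_nhds_zero_nat (𝕜 := ℝ)).const_add 1).const_mul K
        rw [add_zero] at h5
        refine h5.congr' ?_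
        filter_upwards [eventually_gt_atTop 0] with N hN
        have hNR : (0 : ℝ) < N := by exact_mod_cast hN
        field_simp
      have h5 := h3.mul h4
      rw [zero_mul] at h5
      refine h5.congr' ?_
      filter_upwards [eventually_gt_atTop 0] with N hN
      have hNR : (0 : ℝ) < N := by exact_mod_cast hN
      simp only [Function.comp]
      field_simp
    have hA : Tendsto (fun N : ℕ => A / (N : ℝ)) atTop (𝓝 0) :=
      tendsto_const_div_atTop_nhds_zero_nat _
    have hd3 : 0 < d / 3 := by positivity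
    filter_upwards [hlog.eventually (gt_mem_nhds hd3), hA.eventually (gt_mem_nhds hd3),
      eventually_gt_atTop 0] with N h1 h2 hN0
    have hNR : (0 : ℝ) < N := by exact_mod_cast hN0
    have h3 := hup N
    rw [div_lt_iff₀ hNR] at h1 h2 ⊢
    have h4 : d / (3 * c) * c = d / 3 := by
      field_simp
    rw [h4] at h3
    have h5 : a = M.Fr h + d := by
      rw [hd]
      ring
    rw [h5]
    have h6 : (M.Fr h + d) * N = N * M.Fr h + d / 3 * N + d / 3 * N + d / 3 * N := by ring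
    rw [h6]
    linarith

end Mod

end

end Pool.Agent.HZ
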