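import Pool.Agent.Lib.MP_daa227_pr_HZ.Free
import Pool.Agent.Lib.MP_daa227_pr_HZ.HZero
import Pool.Agent.Lib.MP_daa227_pr_HZ.Upper
import Pool.Agent.Lib.MP_daa227_pr_HZ.Lower
import Pool.Agent.Lib.MP_daa227_pr_HZ.AnnFree

/-!
# Loop exponent one: the quenched transition is of infinite order
-/

namespace Pool.Agent.HZ

open MeasureTheory ProbabilityTheory Set Filter
open scoped ENNReal Topology
open MP_daa227_pr (Chain Zk Zf Gk Gf KU K0 ushift shift seqLaw ExpMom Good GoodW mom)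

noncomputable section

/-- the transition is of infinite order, and the quenched and annealed critical points agree -/
theorem Mod.main (M : Mod) (hlo : M.LowOne) : ∃ hc : ℝ, 0 < hc ∧ (∀ h, 0 < M.Fr h ↔ h < hc) ∧
    (∀ h, hc ≤ h → ∀ ε : ℝ, 0 < ε → ∀ᶠ N : ℕ in atTop,
      mom M.μ 1 (fun ω => M.Zl h N ω) ≤ ENNReal.ofReal (Real.exp (ε * N))) ∧
    ∀ q : ℝ, 0 < q → ∃ K : ℝ, ∀ δ : ℝ, 0 ≤ δ → δ ≤ 1 → M.Fr (hc - δ) ≤ K * δ ^ q := by
  obtain ⟨h₀, hpos, hs, hlt⟩ := M.exists_h0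
  have hs' : ∀ h, h₀ ≤ h → ∀ N : ℕ, ∑ n ∈ Finset.range N, M.g h n ≤ 1 := fun h hh N =>
    (Finset.sum_le_sum fun n _ => M.g_anti hh n).trans (hs N)
  refine ⟨h₀, hpos, fun h => ⟨fun hF => ?_, fun hh => ?_⟩, fun h hh ε hε => ?_, fun q hq => ?_⟩
  · by_contra hcon
    push Not at hcon
    exact absurd (M.Fr_nonpos (hs' h hcon)) (not_le.2 hF)
  · have key : ∀ h', 0 < h' → h' < h₀ → 0 < M.Fr h' := fun h' h1 h2 => by
      obtain ⟨N, hN⟩ := hlt h' h1.le h2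
      exact M.lower hlo h1 hN
    by_cases h1 : 0 < h
    · exact key h h1 hh
    · push Not at h1
      exact (key (h₀ / 2) (by linarith) (by linarith)).trans_le (M.Fr_anti (by linarith))
  · exact M.ann_zero (hs' h hh) hε
  · obtain ⟨δ₀, hδ₀, hb⟩ := M.upper hlo hpos hs hq
    have hF0 : M.Fr h₀ ≤ 0 := M.Fr_nonpos hs
    refine ⟨max 2 (M.Φ / δ₀ ^ q), fun δ h0 h1 => ?_⟩
    rcases h0.eq_or_lt with rfl | h0
    · rw [sub_zero, Real.zero_rpow hq.ne', mul_zero]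
      exact hF0
    · by_cases h2 : δ < δ₀
      · refine (hb δ h0 h2).trans ?_
        exact mul_le_mul_of_nonneg_right (le_max_left _ _) (Real.rpow_nonneg h0.le q)
      · push Not at h2
        have h3 := M.Fr_lip (h := h₀ - δ) (h' := h₀) (by linarith)
        have h4 : (h₀ - (h₀ - δ)) * M.Φ ≤ M.Φ := by
          have := M.Φ_pos
          nlinarith
        have h5 : δ₀ ^ q ≤ δ ^ q := Real.rpow_le_rpow hδ₀.le h2 hq.le
        have h6 : 0 < δ₀ ^ q := Real.rpow_pos_of_pos hδ₀ q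
        calc M.Fr (h₀ - δ) ≤ M.Φ := by linarith
          _ = M.Φ / δ₀ ^ q * δ₀ ^ q := by field_simp
          _ ≤ max 2 (M.Φ / δ₀ ^ q) * δ ^ q :=
            mul_le_mul (le_max_right _ _) h5 h6.le ((by norm_num : (0 : ℝ) ≤ 2).trans (le_max_left _ _))

end

end Pool.Agent.HZ
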