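import Mathlib
import Pool.Agent.Lib.MP_daa227_pr.Mom
import Pool.Agent.Lib.MP_daa227_pr.ExcLem
import Pool.Agent.Lib.MP_daa227_pr.Deco

/-!
# Spatially extended pinning with loop exponent one (`α = 0`). Definitions.
-/

namespace Pool.Agent.HZ

open MeasureTheory ProbabilityTheory Set Filter
open scoped ENNReal Topology
open MP_daa227_pr (Chain Zk Zf Gk Gf KU K0 ushift shift seqLaw ExpMom Good GoodW mom)

noncomputable section

/-- logarithmic moment generating function of the charges -/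
def lmg (μ : Measure ℝ) (t : ℝ) : ℝ := Real.log (∫ x, Real.exp (t * x) ∂μ)

/-- the reflected chain -/
def cneg (C : Chain) : Chain where
  p x y := C.p (-x) (-y)
  nonneg x y := C.nonneg _ _
  near x y hy := by
    apply C.near
    intro h
    apply hy
    rw [Finset.mem_Icc] at h ⊢
    omega
  sum_one x := by
    rw [← C.sum_one (-x)]
    refine Finset.sum_bij' (fun y _ => -y) (fun y _ => -y) ?_ ?_ ?_ ?_ ?_
    · intro y hy
      rw [Finset.mem_Icc] at hy ⊢
      omega
    · intro y hy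
      rw [Finset.mem_Icc] at hy ⊢
      omega
    · intro y _
      exact neg_neg y
    · intro y _
      exact neg_neg y
    · intro y _
      rfl
  up x := by
    have h := C.down (-x)
    have h1 : -(x + 1) = -x - 1 := by ring
    rw [h1]
    exact h
  down x := by
    have h := C.up (-x)
    have h1 : -(x - 1) = -x + 1 := by ring
    rw [h1]
    exact h

/-- the chain translated by `R` -/
def ctr (C : Chain) (R : ℤ) : Chain where
  p x y := C.p (x + R) (y + R)
  nonneg x y := C.nonneg _ _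
  near x y hy := by
    apply C.near
    intro h
    apply hy
    rw [Finset.mem_Icc] at h ⊢
    omega
  sum_one x := by
    rw [← C.sum_one (x + R)]
    refine Finset.sum_bij' (fun y _ => y + R) (fun y _ => y - R) ?_ ?_ ?_ ?_ ?_
    · intro y hy
      rw [Finset.mem_Icc] at hy ⊢
      omega
    · intro y hy
      rw [Finset.mem_Icc] at hy ⊢
      omega
    · intro y _
      ring
    · intro y _
      ring
    · intro y _
      rfl
  up x := by
    have h := C.up (x + R)
    have h1 : x + 1 + R = x + R + 1 := by ring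
    rw [h1]
    exact h
  down x := by
    have h := C.down (x + R)
    have h1 : x - 1 + R = x + R - 1 := by ring
    rw [h1]
    exact h

/-- `Kv C v n x = E_x[exp (∑_{i=1}^n v(S_i)); the first visit to 0 after time 0 is at time n]` -/
def Kv (C : Chain) (v : ℤ → ℝ) (n : ℕ) (x : ℤ) : ℝ := KU C n (fun _ => v) x

/-- the holding step at `0`, counted as an excursion of length one to the right -/
def hd (C : Chain) (v : ℤ → ℝ) (σ : ℤ) (n : ℕ) : ℝ :=
  if n = 0 ∧ σ = 1 then C.p 0 0 * Real.exp (v 0) else 0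

/-- weight of the excursions of length `n + 1` whose first step is to `σ`; the holding step at `0` is
counted for `σ = 1` -/
def Es (C : Chain) (v : ℤ → ℝ) (σ : ℤ) (n : ℕ) : ℝ :=
  C.p 0 σ * Real.exp (v σ) * Kv C v n σ + hd C v σ n

/-- deterministic point to point partition function -/
def Zd (C : Chain) (v : ℤ → ℝ) (n : ℕ) (x y : ℤ) : ℝ :=
  Zk C (fun _ z => Real.exp (v z)) n (fun _ => 0) x y

/-- deterministic free partition function -/
def Zfd (C : Chain) (v : ℤ → ℝ) (n : ℕ) (x : ℤ) : ℝ :=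
  Zf C (fun _ z => Real.exp (v z)) n (fun _ => 0) x

/-- `f` is a supersolution for the site exponents `w` on `{x > a}` -/
def Ssol (C : Chain) (w : ℤ → ℝ) (a : ℤ) (f : ℤ → ℝ) : Prop :=
  ∀ x : ℤ, a < x → C.p x (x - 1) * Real.exp (w (x - 1)) * f (x - 1) +
    C.p x x * Real.exp (w x) * f x + C.p x (x + 1) * Real.exp (w (x + 1)) * f (x + 1) ≤ f x

/-- `oc C φ η n i x = E_x[φ(S_{i+1}) exp (-η ∑_{j=1}^n φ(S_j)); first visit to 0 at time n]` -/
def oc (C : Chain) (φ : ℤ → ℝ) (η : ℝ) : ℕ → ℕ → ℤ → ℝ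
  | 0, _, _ => 0
  | n + 1, 0, x => (if n = 0 then C.p x 0 * Real.exp (-η * φ 0) * φ 0 else 0) +
      ∑ z ∈ Finset.Icc (x - 1) (x + 1) \ {0},
        C.p x z * Real.exp (-η * φ z) * (φ z * Kv C (fun z => -η * φ z) n z)
  | n + 1, i + 1, x => ∑ z ∈ Finset.Icc (x - 1) (x + 1) \ {0},
        C.p x z * Real.exp (-η * φ z) * oc C φ η n i z

/-- The data of the model: chain (holding allowed), charge law, potential, inverse temperature; the
chain is recurrent. -/
structure Mod where
  /-- the chain -/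
  C : Chain
  /-- the charge law -/
  μ : Measure ℝ
  prob : IsProbabilityMeasure μ
  exp_mom : ExpMom μ
  mean : ∫ x, x ∂μ = 0
  var : ∫ x, x ^ 2 ∂μ = 1
  /-- the potential -/
  φ : ℤ → ℝ
  /-- a bound for the potential -/
  Φ : ℝ
  /-- the limit of the potential at minus infinity -/
  ℓ : ℝ
  φ_nonneg : ∀ x, 0 ≤ φ x
  φ_le : ∀ x, φ x ≤ Φ
  Φ_pos : 0 < Φ
  φ_ne : ∃ x, 0 < φ x
  φ_top : Tendsto φ atTop (𝓝 0)
  φ_bot : Tendsto φ atBot (𝓝 ℓ)
  /-- inverse temperature -/
  β : ℝ
  β_pos : 0 < β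
  hrec : HasSum (fun n : ℕ => K0 C (n + 1) 0) 1

namespace Mod

variable (M : Mod)

/-- the excursions have the loop exponent one, also when penalised -/
def LowOne : Prop := ∀ η : ℝ, 0 < η → ∀ ε : ℝ, 0 < ε → ∀ᶠ n : ℕ in atTop,
  ((2 * n : ℕ) : ℝ) ^ (-(1 + ε)) ≤ Kv M.C (fun z => -η * M.φ z) (2 * n) 0

instance : IsProbabilityMeasure M.μ := M.prob

/-- site weights -/
def W (h : ℝ) : ℝ → ℤ → ℝ := fun a z => Real.exp ((M.β * a - h) * M.φ z)

/-- logarithmic Lipschitz constant -/
def κ : ℝ := M.β * M.Φ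

/-- constrained partition function -/
def Z (h : ℝ) (n : ℕ) (ω : ℕ → ℝ) : ℝ := Zk M.C (M.W h) n ω 0 0

/-- free partition function -/
def Zl (h : ℝ) (n : ℕ) (ω : ℕ → ℝ) : ℝ := Zf M.C (M.W h) n ω 0

/-- excursion weight -/
def G (h : ℝ) (n : ℕ) (ω : ℕ → ℝ) : ℝ := Gk M.C (M.W h) {0} n ω 0 0

/-- quenched average of the logarithm of the constrained partition function -/
def Ψ (h : ℝ) (n : ℕ) : ℝ := ∫ ω, Real.log (M.Z h n ω) ∂seqLaw M.μ

/-- quenched average of the logarithm of the free partition function -/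
def ΨF (h : ℝ) (n : ℕ) : ℝ := ∫ ω, Real.log (M.Zl h n ω) ∂seqLaw M.μ

/-- the free energy -/
def Fr (h : ℝ) : ℝ := ⨆ n : ℕ, M.Ψ h (2 * (n + 1)) / (2 * (n + 1) : ℕ)

/-- annealed site exponents -/
def v (h : ℝ) (z : ℤ) : ℝ := lmg M.μ (M.β * M.φ z) - h * M.φ z

/-- annealed excursion weights -/
def g (h : ℝ) (n : ℕ) : ℝ := Kv M.C (M.v h) n 0

/-- site exponents after the tilt of the charges by `-θ lam` -/
def wt (θ lam h : ℝ) (z : ℤ) : ℝ :=
  lmg M.μ (M.β * M.φ z - θ * lam) - h * M.φ z + θ * lmg M.μ lam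

end Mod

end

end Pool.Agent.HZ
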